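import Pool.Agent.IBN.StD

/-!
# IBN, Ant: crossings of `e` over `f` minus crossings of `f` over `e`
-/

set_option autoImplicit false

namespace IBN

/-- the edge of a strand -/
private def Ant_ed (s : Strand) : ℕ × ℕ := (s.1, s.2.1)

/-- the sign of a strand -/
private def Ant_g (s : Strand) : ℤ := if up s then 1 else -1

/-- the sign of a strand of the edge `e`, and `0` for the other strands -/
private def Ant_w (e : ℕ × ℕ) (s : Strand) : ℤ := if Ant_ed s = e then Ant_g s else 0

/-- the sum of the signs of the strands of `e` -/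
private def Ant_c (e : ℕ × ℕ) : List Strand → ℤ
  | [] => 0
  | s :: l => Ant_w e s + Ant_c e l

/-- the sum over the pairs of a strand of `e` and a strand of `f` to the right of it -/
private def Ant_S (e f : ℕ × ℕ) : List Strand → ℤ
  | [] => 0
  | s :: l => Ant_w e s * Ant_c f l + Ant_S e f l

private lemma Ant_c_append (e : ℕ × ℕ) (l l' : List Strand) :
    Ant_c e (l ++ l') = Ant_c e l + Ant_c e l' := by
  induction l with
  | nil => simp [Ant_c]
  | cons s l ih => simp only [List.cons_append, Ant_c, ih]; ring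

private lemma Ant_S_append (e f : ℕ × ℕ) (l l' : List Strand) :
    Ant_S e f (l ++ l') = Ant_S e f l + Ant_S e f l' + Ant_c e l * Ant_c f l' := by
  induction l with
  | nil => simp [Ant_S, Ant_c]
  | cons s l ih =>
    simp only [List.cons_append, Ant_S, Ant_c, ih, Ant_c_append]
    ring

private lemma Ant_swp (e f : ℕ × ℕ) : ∀ (i : ℕ) (l : List Strand) (s s' : Strand)
    (r : List Strand), l.drop i = s :: s' :: r →
    Ant_c f (swp i l) = Ant_c f l ∧
      Ant_S e f l - Ant_S e f (swp i l) = Ant_w e s * Ant_w f s' - Ant_w f s * Ant_w e s' := by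
  intro i
  induction i with
  | zero =>
    intro l s s' r h
    rw [List.drop_zero] at h
    subst h
    simp only [swp, Ant_c, Ant_S]
    constructor <;> ring
  | succ i ih =>
    intro l s s' r h
    cases l with
    | nil => simp at h
    | cons a l =>
      rw [List.drop_succ_cons] at h
      obtain ⟨h1, h2⟩ := ih l s s' r h
      simp only [swp, Ant_c, Ant_S, h1]
      refine ⟨trivial, ?_⟩
      rw [← h2]
      ring

private lemma Ant_swp_out : ∀ (i : ℕ) (l : List Strand),
    (∀ (s s' : Strand) (r : List Strand), l.drop i ≠ s :: s' :: r) → swp i l = l := by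
  intro i
  induction i with
  | zero =>
    intro l h
    rw [List.drop_zero] at h
    rcases l with _ | ⟨a, _ | ⟨b, l⟩⟩
    · rfl
    · rfl
    · exact absurd rfl (h a b l)
  | succ i ih =>
    intro l h
    cases l with
    | nil => rfl
    | cons a l =>
      rw [List.drop_succ_cons] at h
      simp only [swp, ih l h]

/-- the summand of `ov` -/
private def Ant_f (e f : ℕ × ℕ) (c : Cro) : ℤ :=
  if ((if c.p then c.a else c.b).1, (if c.p then c.a else c.b).2.1) = e ∧
    ((if c.p then c.b else c.a).1, (if c.p then c.b else c.a).2.1) = f then sgn c else 0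

private lemma Ant_f_sub (e f : ℕ × ℕ) (s s' : Strand) (p : Bool) :
    Ant_f e f ⟨s, s', p⟩ - Ant_f f e ⟨s, s', p⟩ =
      Ant_w e s * Ant_w f s' - Ant_w f s * Ant_w e s' := by
  have hs : sgn ⟨s, s', p⟩ = (if p then 1 else -1) * (Ant_g s * Ant_g s') := by
    unfold sgn Ant_g
    rcases p with _ | _ <;> rcases up s with _ | _ <;> rcases up s' with _ | _ <;> simp
  have h1 : ∀ e f : ℕ × ℕ, Ant_w e s * Ant_w f s' =
      if Ant_ed s = e ∧ Ant_ed s' = f then Ant_g s * Ant_g s' else 0 := by
    intro e f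
    unfold Ant_w
    by_cases h : Ant_ed s = e <;> by_cases h' : Ant_ed s' = f <;> simp [h, h']
  rw [h1 e f, h1 f e]
  rcases p with _ | _
  · have h2 : ∀ e f : ℕ × ℕ, Ant_f e f ⟨s, s', false⟩ =
        if Ant_ed s' = e ∧ Ant_ed s = f then - (Ant_g s * Ant_g s') else 0 := by
      intro e f
      unfold Ant_f
      rw [hs]
      simp [Ant_ed]
    rw [h2 e f, h2 f e]
    have h3 : (Ant_ed s' = e ∧ Ant_ed s = f) ↔ (Ant_ed s = f ∧ Ant_ed s' = e) := and_comm
    have h4 : (Ant_ed s' = f ∧ Ant_ed s = e) ↔ (Ant_ed s = e ∧ Ant_ed s' = f) := and_comm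
    simp only [h3, h4]
    split_ifs <;> ring
  · have h2 : ∀ e f : ℕ × ℕ, Ant_f e f ⟨s, s', true⟩ =
        if Ant_ed s = e ∧ Ant_ed s' = f then Ant_g s * Ant_g s' else 0 := by
      intro e f
      unfold Ant_f
      rw [hs]
      simp [Ant_ed]
    rw [h2 e f, h2 f e]

private lemma Ant_run (e f : ℕ × ℕ) : ∀ (b : List (ℕ × Bool)) (l : List Strand),
    ((cros b l).map (Ant_f e f)).sum - ((cros b l).map (Ant_f f e)).sum =
      Ant_S e f l - Ant_S e f (b.foldl (fun l c => swp c.1 l) l) := by
  intro b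
  induction b with
  | nil => intro l; simp [cros]
  | cons c b ih =>
    intro l
    rw [List.foldl_cons]
    rcases h : l.drop c.1 with _ | ⟨s, _ | ⟨s', r⟩⟩
    · have h0 : swp c.1 l = l := Ant_swp_out _ _ (by rw [h]; intro _ _ _ h1; simp at h1)
      have h1 : cros (c :: b) l = cros b (swp c.1 l) := by simp only [cros, h]
      rw [h1, h0]
      exact ih l
    · have h0 : swp c.1 l = l := Ant_swp_out _ _ (by rw [h]; intro _ _ _ h1; simp at h1)
      have h1 : cros (c :: b) l = cros b (swp c.1 l) := by simp only [cros, h]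
      rw [h1, h0]
      exact ih l
    · have h1 : cros (c :: b) l = ⟨s, s', c.2⟩ :: cros b (swp c.1 l) := by simp only [cros, h]
      rw [h1]
      simp only [List.map_cons, List.sum_cons]
      have h2 := ih (swp c.1 l)
      have h3 := (Ant_swp e f c.1 l s s' r h).2
      have h4 := Ant_f_sub e f s s' c.2
      linarith

private lemma Ant_pairs (e f : ℕ × ℕ) (hef : e ≠ f) (P : Strand → List Strand)
    (hP : ∀ m, ∃ s s', P m = [s, s'] ∧ Ant_ed s = Ant_ed s' ∧ Ant_g s + Ant_g s' = 0)
    (l : List Strand) : Ant_S e f (l.flatMap P) = 0 ∧ ∀ e : ℕ × ℕ, Ant_c e (l.flatMap P) = 0 := by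
  induction l with
  | nil => simp [Ant_S, Ant_c]
  | cons m l ih =>
    obtain ⟨s, s', h1, h2, h3⟩ := hP m
    have hc : ∀ e : ℕ × ℕ, Ant_c e [s, s'] = 0 := by
      intro e
      simp only [Ant_c, Ant_w, h2]
      split_ifs
      · linarith
      · ring
    have hS : Ant_S e f [s, s'] = 0 := by
      simp only [Ant_S, Ant_c, Ant_w, h2]
      by_cases h : Ant_ed s' = e
      · have h' : ¬ Ant_ed s' = f := fun h' => hef (h.symm.trans h')
        rw [if_neg h']
        ring
      · rw [if_neg h]
        ring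
    rw [List.flatMap_cons, h1]
    refine ⟨?_, fun e => ?_⟩
    · rw [Ant_S_append, hS, ih.1, ih.2]
      ring
    · rw [Ant_c_append, hc, ih.2]
      ring

private lemma Ant_g_even (i j t : ℕ) (h : t % 2 = 0) : Ant_g (i, j, t) = 1 := by
  simp [Ant_g, up, h]

private lemma Ant_g_odd (i j t : ℕ) (h : t % 2 = 1) : Ant_g (i, j, t) = -1 := by
  simp [Ant_g, up, h]

private lemma Ant_maxrow (e f : ℕ × ℕ) (hef : e ≠ f) (l : List Strand) :
    Ant_S e f (maxrow l) = 0 := by
  refine (Ant_pairs e f hef (fun m => [(m.1, m.2.1, 2 * m.2.2), (m.1, m.2.1, 2 * m.2.2 + 1)])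
    (fun m => ⟨_, _, rfl, rfl, ?_⟩) l).1
  rw [Ant_g_even _ _ _ (by omega), Ant_g_odd _ _ _ (by omega)]
  ring

private lemma Ant_minrow (e f : ℕ × ℕ) (hef : e ≠ f) (l : List Strand) :
    Ant_S e f (minrow l) = 0 ∧ ∀ e : ℕ × ℕ, Ant_c e (minrow l) = 0 := by
  refine Ant_pairs e f hef
    (fun m => [(m.1, m.2.1, 2 * m.2.2 + 1), (m.1, m.2.1, 2 * m.2.2 + 2)])
    (fun m => ⟨_, _, rfl, rfl, ?_⟩) l
  rw [Ant_g_even _ _ (2 * m.2.2 + 2) (by omega), Ant_g_odd _ _ _ (by omega)]
  ring

private lemma Ant_c_eq_sum (e : ℕ × ℕ) (l : List Strand) : Ant_c e l = (l.map (Ant_w e)).sum := by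
  induction l with
  | nil => rfl
  | cons s l ih => simp [Ant_c, ih]

private lemma Ant_sum_single (L : List ℕ) (hL : L.Nodup) (F : ℕ → ℤ) (w : ℕ) (a : ℤ) (hw : w ∈ L)
    (h : ∀ x ∈ L, F x = if x = w then a else 0) : (L.map F).sum = a := by
  rw [List.map_congr_left h, ← List.sum_toFinset _ hL, Finset.sum_ite_eq' L.toFinset w (fun _ => a),
    if_pos (List.mem_toFinset.2 hw)]

/-- the edges of the strands at a vertex -/
private lemma Ant_vrow_mem (r : ℕ → ℕ → ℕ) (N v : ℕ) (s : Strand) (hs : s ∈ vrow r N v) :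
    s.1 = v ∨ s.2.1 = v := by
  unfold vrow at hs
  rw [List.mem_map] at hs
  obtain ⟨w, _, rfl⟩ := hs
  split_ifs
  · exact Or.inl rfl
  · exact Or.inr rfl

private lemma Ant_c_vrow (r : ℕ → ℕ → ℕ) (N v i j : ℕ) (hij : i < j) (hj : j < N) :
    Ant_c (i, j) (vrow r N v) = (if v = i then 1 else 0) - (if v = j then 1 else 0) := by
  rw [Ant_c_eq_sum]
  unfold vrow
  rw [List.map_map]
  have hnd : ((List.range N).filter fun j => decide (j ≠ v)).Nodup :=
    (List.nodup_range (n := N)).filter _
  by_cases h1 : v = i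
  · subst h1
    rw [if_pos rfl, if_neg (by omega)]
    rw [Ant_sum_single _ hnd _ j 1]
    · ring
    · simp only [List.mem_filter, List.mem_range, decide_eq_true_eq]
      exact ⟨hj, by omega⟩
    · intro x hx
      simp only [List.mem_filter, List.mem_range, decide_eq_true_eq] at hx
      simp only [Function.comp]
      by_cases hvx : v < x
      · rw [if_pos hvx]
        unfold Ant_w
        by_cases hxj : x = j
        · rw [if_pos hxj, if_pos (by simp [Ant_ed, hxj]), Ant_g_even _ _ _ (by norm_num)]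
        · rw [if_neg hxj, if_neg (by simp [Ant_ed, hxj])]
      · rw [if_neg hvx]
        unfold Ant_w
        have : ¬ (Ant_ed (x, v, 2 * r x v + 1) = (v, j)) := by
          simp only [Ant_ed, Prod.mk.injEq, not_and]
          intro h
          exact absurd h hx.2
        rw [if_neg this, if_neg (by omega)]
  · by_cases h2 : v = j
    · subst h2
      rw [if_neg h1, if_pos rfl]
      rw [Ant_sum_single _ hnd _ i (-1)]
      · ring
      · simp only [List.mem_filter, List.mem_range, decide_eq_true_eq]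
        exact ⟨by omega, by omega⟩
      · intro x hx
        simp only [List.mem_filter, List.mem_range, decide_eq_true_eq] at hx
        simp only [Function.comp]
        by_cases hvx : v < x
        · rw [if_pos hvx]
          unfold Ant_w
          have : ¬ (Ant_ed (v, x, 0) = (i, v)) := by
            simp only [Ant_ed, Prod.mk.injEq, not_and]
            intro h
            omega
          rw [if_neg this, if_neg (by omega)]
        · rw [if_neg hvx]
          unfold Ant_w
          by_cases hxi : x = i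
          · rw [if_pos hxi, if_pos (by simp [Ant_ed, hxi]), Ant_g_odd _ _ _ (by omega)]
          · rw [if_neg hxi, if_neg (by simp [Ant_ed, hxi])]
    · rw [if_neg h1, if_neg h2, sub_zero]
      apply List.sum_eq_zero
      intro y hy
      rw [List.mem_map] at hy
      obtain ⟨x, hx, rfl⟩ := hy
      simp only [Function.comp]
      unfold Ant_w
      split_ifs with h3 h4 h4
      · exfalso
        simp only [Ant_ed, Prod.mk.injEq] at h4
        exact h1 h4.1
      · rfl
      · exfalso
        simp only [Ant_ed, Prod.mk.injEq] at h4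
        exact h2 h4.2
      · rfl

private lemma Ant_S_zero_left (e f : ℕ × ℕ) (l : List Strand) (h : ∀ s ∈ l, Ant_ed s ≠ e) :
    Ant_S e f l = 0 := by
  induction l with
  | nil => rfl
  | cons s l ih =>
    simp only [Ant_S, Ant_w, if_neg (h s (List.mem_cons_self ..))]
    rw [ih fun s' hs' => h s' (List.mem_cons_of_mem _ hs')]
    ring

private lemma Ant_c_zero (f : ℕ × ℕ) (l : List Strand) (h : ∀ s ∈ l, Ant_ed s ≠ f) :
    Ant_c f l = 0 := by
  induction l with
  | nil => rfl
  | cons s l ih =>
    simp only [Ant_c, Ant_w, if_neg (h s (List.mem_cons_self ..))]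
    rw [ih fun s' hs' => h s' (List.mem_cons_of_mem _ hs')]
    ring

private lemma Ant_S_zero_right (e f : ℕ × ℕ) (l : List Strand) (h : ∀ s ∈ l, Ant_ed s ≠ f) :
    Ant_S e f l = 0 := by
  induction l with
  | nil => rfl
  | cons s l ih =>
    simp only [Ant_S]
    rw [ih fun s' hs' => h s' (List.mem_cons_of_mem _ hs'),
      Ant_c_zero f l fun s' hs' => h s' (List.mem_cons_of_mem _ hs')]
    ring

private lemma Ant_S_vrow (r : ℕ → ℕ → ℕ) (N v i j k l : ℕ) (hik : i ≠ k) (hil : i ≠ l)
    (hjk : j ≠ k) (hjl : j ≠ l) : Ant_S (i, j) (k, l) (vrow r N v) = 0 := by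
  by_cases h : v = i ∨ v = j
  · apply Ant_S_zero_right
    intro s hs h1
    simp only [Ant_ed, Prod.mk.injEq] at h1
    rcases Ant_vrow_mem r N v s hs with h2 | h2 <;> omega
  · apply Ant_S_zero_left
    intro s hs h1
    simp only [Ant_ed, Prod.mk.injEq] at h1
    rcases Ant_vrow_mem r N v s hs with h2 | h2 <;> omega

private lemma Ant_ind (a b m : ℕ) : (if a < b ∧ b < m + 1 then (1 : ℤ) else 0) =
    (if a < b ∧ b < m then 1 else 0) + (if a < m then 1 else 0) * (if m = b then 1 else 0) := by
  split_ifs <;> omega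

private lemma Ant_vert (r : ℕ → ℕ → ℕ) (N i j k l : ℕ) (hij : i < j) (hj : j < N) (hkl : k < l)
    (hl : l < N) (hik : i ≠ k) (hil : i ≠ l) (hjk : j ≠ k) (hjl : j ≠ l) (m : ℕ) :
    Ant_c (i, j) ((List.range m).flatMap (vrow r N)) =
      (if i < m then 1 else 0) - (if j < m then 1 else 0) ∧
    Ant_S (i, j) (k, l) ((List.range m).flatMap (vrow r N)) =
      (if i < k ∧ k < m then 1 else 0) - (if i < l ∧ l < m then 1 else 0) -
        (if j < k ∧ k < m then 1 else 0) + (if j < l ∧ l < m then 1 else 0) := by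
  induction m with
  | zero => simp [Ant_c, Ant_S]
  | succ m ih =>
    obtain ⟨ih1, ih2⟩ := ih
    have h1 := Ant_c_vrow r N m i j hij hj
    have h2 := Ant_c_vrow r N m k l hkl hl
    have h3 := Ant_S_vrow r N m i j k l hik hil hjk hjl
    rw [List.range_succ, List.flatMap_append, List.flatMap_singleton]
    refine ⟨?_, ?_⟩
    · rw [Ant_c_append, ih1, h1]
      split_ifs <;> omega
    · rw [Ant_S_append, ih1, ih2, h2, h3, Ant_ind i k m, Ant_ind i l m, Ant_ind j k m,
        Ant_ind j l m]
      ring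

/-- **Ant** -/
theorem thm_Ant : St_Ant := by
  intro n G i j k l hij hj hkl hl hik hil hjk hjl
  have hef : ((i, j) : ℕ × ℕ) ≠ (k, l) := by
    intro h
    exact hik (Prod.mk.inj h).1
  have h1 := Ant_run (i, j) (k, l) G.braid G.bottom
  have h2 : ov G (i, j) (k, l) = ((cros G.braid G.bottom).map (Ant_f (i, j) (k, l))).sum := rfl
  have h3 : ov G (k, l) (i, j) = ((cros G.braid G.bottom).map (Ant_f (k, l) (i, j))).sum := rfl
  rw [h2, h3, h1]
  have h4 : G.braid.foldl (fun l c => swp c.1 l) G.bottom = maxrow G.maxs := G.braid_run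
  rw [h4, Ant_maxrow _ _ hef]
  unfold Diagram.bottom
  rw [Ant_S_append, (Ant_minrow _ _ hef _).1, (Ant_minrow _ _ hef _).2,
    (Ant_vert G.r n i j k l hij hj hkl hl hik hil hjk hjl n).2]
  simp only [mul_zero, add_zero, sub_zero]
  split_ifs <;> omega

end IBN
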