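import Pool.Agent.IBN.StD

/-!
# IBN: the contradiction modulo 128
-/

set_option autoImplicit false

namespace IBN

open Finset

/-! ### the Moebius transform -/

private lemma Ari_mob_add {R : Type} [CommRing R] (f g : Finset (Fin 10) → R)
    (A : Finset (Fin 10)) : mob (fun ε => f ε + g ε) A = mob f A + mob g A := by
  unfold mob
  rw [← Finset.sum_add_distrib]
  exact Finset.sum_congr rfl fun ε _ => mul_add _ _ _

private lemma Ari_mob_mul {R : Type} [CommRing R] (c : R) (f : Finset (Fin 10) → R)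
    (A : Finset (Fin 10)) : mob (fun ε => c * f ε) A = c * mob f A := by
  unfold mob
  rw [Finset.mul_sum]
  exact Finset.sum_congr rfl fun ε _ => by ring

private lemma Ari_mob_coeff (k : ℕ) (f : Finset (Fin 10) → PowerSeries ℚ)
    (A : Finset (Fin 10)) :
    mob (fun ε => PowerSeries.coeff k (f ε)) A = PowerSeries.coeff k (mob f A) := by
  unfold mob
  rw [map_sum]
  refine Finset.sum_congr rfl fun ε _ => ?_
  rcases neg_one_pow_eq_or ℚ (A \ ε).card with h | h
  · have h2 : (-1 : PowerSeries ℚ) ^ (A \ ε).card = 1 := by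
      rcases Nat.even_or_odd (A \ ε).card with h3 | h3
      · exact h3.neg_one_pow
      · rw [h3.neg_one_pow] at h
        norm_num at h
    rw [h, h2, one_mul, one_mul]
  · have h2 : (-1 : PowerSeries ℚ) ^ (A \ ε).card = -1 := by
      rcases Nat.even_or_odd (A \ ε).card with h3 | h3
      · rw [h3.neg_one_pow] at h
        norm_num at h
      · exact h3.neg_one_pow
    rw [h, h2, neg_one_mul, neg_one_mul, map_neg]

/-- An alternating sum over an interval of sets. -/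
private lemma Ari_alt (δ ε : Finset (Fin 10)) (h : δ ⊆ ε) :
    ∑ A ∈ ε.powerset, (if δ ⊆ A then (-1 : ℚ) ^ (ε \ A).card else 0) =
      if δ = ε then 1 else 0 := by
  have h1 : ∑ A ∈ ε.powerset, (if δ ⊆ A then (-1 : ℚ) ^ (ε \ A).card else 0) =
      ∑ B ∈ (ε \ δ).powerset, (-1 : ℚ) ^ B.card := by
    rw [← Finset.sum_filter]
    refine Finset.sum_nbij' (fun A => ε \ A) (fun B => ε \ B) ?_ ?_ ?_ ?_ ?_
    · intro A hA
      rw [mem_filter, mem_powerset] at hA
      rw [mem_powerset]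
      exact sdiff_subset_sdiff subset_rfl hA.2
    · intro B hB
      rw [mem_powerset] at hB
      rw [mem_filter, mem_powerset]
      refine ⟨sdiff_subset, fun x hx => ?_⟩
      rw [mem_sdiff]
      exact ⟨h hx, fun hxB => (mem_sdiff.1 (hB hxB)).2 hx⟩
    · intro A hA
      rw [mem_filter, mem_powerset] at hA
      exact Finset.sdiff_sdiff_eq_self hA.1
    · intro B hB
      rw [mem_powerset] at hB
      exact Finset.sdiff_sdiff_eq_self (hB.trans sdiff_subset)
    · intro A _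
      rfl
  rw [h1]
  have h2 := Finset.sum_powerset_neg_one_pow_card (x := ε \ δ)
  have h3 : (∑ B ∈ (ε \ δ).powerset, (-1 : ℚ) ^ B.card) =
      ((∑ B ∈ (ε \ δ).powerset, (-1 : ℤ) ^ B.card : ℤ) : ℚ) := by
    push_cast
    rfl
  rw [h3, h2]
  by_cases h4 : δ = ε
  · rw [if_pos h4, if_pos (by rw [h4, sdiff_self]; rfl)]
    rfl
  · rw [if_neg h4, if_neg (fun h5 => h4 (h.antisymm (sdiff_eq_empty_iff_subset.1 h5)))]
    rfl

private lemma Ari_inv (f : Finset (Fin 10) → ℚ) (ε : Finset (Fin 10)) :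
    ∑ A ∈ ε.powerset, mob f A = f ε := by
  have h1 : ∑ A ∈ ε.powerset, mob f A =
      ∑ A ∈ ε.powerset, ∑ δ ∈ ε.powerset, if δ ⊆ A then (-1) ^ (A \ δ).card * f δ else 0 := by
    refine Finset.sum_congr rfl fun A hA => ?_
    rw [mem_powerset] at hA
    rw [← Finset.sum_filter]
    refine Finset.sum_congr ?_ fun _ _ => rfl
    ext δ
    rw [mem_powerset, mem_filter, mem_powerset]
    exact ⟨fun h => ⟨h.trans hA, h⟩, fun h => h.2⟩
  rw [h1, Finset.sum_comm]
  have h2 : ∀ δ ∈ ε.powerset, (∑ A ∈ ε.powerset,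
      if δ ⊆ A then (-1) ^ (A \ δ).card * f δ else 0) = if δ = ε then f δ else 0 := by
    intro δ hδ
    rw [mem_powerset] at hδ
    have h3 : ∀ A ∈ ε.powerset, (if δ ⊆ A then (-1 : ℚ) ^ (A \ δ).card * f δ else 0) =
        (if δ ⊆ A then (-1 : ℚ) ^ (ε \ A).card else 0) * ((-1) ^ (ε \ δ).card * f δ) := by
      intro A hA
      rw [mem_powerset] at hA
      split_ifs with h4
      · have h5 : (ε \ δ).card = (ε \ A).card + (A \ δ).card := by
          rw [card_sdiff_of_subset hδ, card_sdiff_of_subset hA, card_sdiff_of_subset h4]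
          have := card_le_card hA
          have := card_le_card h4
          omega
        have h6 : (-1 : ℚ) ^ (ε \ A).card * (-1) ^ (ε \ A).card = 1 := by
          rw [← pow_add, ← two_mul, pow_mul, neg_one_sq, one_pow]
        rw [h5, pow_add, mul_assoc ((-1 : ℚ) ^ (ε \ A).card), ← mul_assoc, h6, one_mul]
      · rw [zero_mul]
    rw [Finset.sum_congr rfl h3, ← Finset.sum_mul, Ari_alt δ ε hδ]
    split_ifs with h4
    · rw [h4, sdiff_self, one_mul]
      show (-1 : ℚ) ^ (∅ : Finset (Fin 10)).card * f ε = f ε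
      rw [card_empty, pow_zero, one_mul]
    · rw [zero_mul]
  rw [Finset.sum_congr rfl h2, Finset.sum_ite_eq', if_pos (mem_powerset_self ε)]

/-- The transform of a product. -/
private lemma Ari_prod (f g : Finset (Fin 10) → ℚ) :
    mob (fun ε => f ε * g ε) univ =
      ∑ A : Finset (Fin 10), ∑ B : Finset (Fin 10),
        if A ∪ B = univ then mob f A * mob g B else 0 := by
  have h1 : ∀ (f : Finset (Fin 10) → ℚ) ε, f ε = ∑ A : Finset (Fin 10),
      if A ⊆ ε then mob f A else 0 := by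
    intro f ε
    rw [← Finset.sum_filter]
    refine (Ari_inv f ε).symm.trans (Finset.sum_congr ?_ fun _ _ => rfl)
    ext A
    rw [mem_powerset, mem_filter]
    exact ⟨fun h => ⟨mem_univ _, h⟩, fun h => h.2⟩
  have h2 : mob (fun ε => f ε * g ε) univ = ∑ ε : Finset (Fin 10), ∑ A : Finset (Fin 10),
      ∑ B : Finset (Fin 10), (if A ∪ B ⊆ ε then (-1) ^ (univ \ ε).card else 0) *
        (mob f A * mob g B) := by
    unfold mob
    rw [Finset.powerset_univ]
    refine Finset.sum_congr rfl fun ε _ => ?_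
    show (-1) ^ (univ \ ε).card * (f ε * g ε) = ∑ A : Finset (Fin 10), ∑ B : Finset (Fin 10),
      (if A ∪ B ⊆ ε then (-1) ^ (univ \ ε).card else 0) * (mob f A * mob g B)
    rw [h1 f ε, h1 g ε, Finset.sum_mul_sum, Finset.mul_sum]
    refine Finset.sum_congr rfl fun A _ => ?_
    rw [Finset.mul_sum]
    refine Finset.sum_congr rfl fun B _ => ?_
    by_cases hA : A ⊆ ε
    · by_cases hB : B ⊆ ε
      · rw [if_pos hA, if_pos hB, if_pos (union_subset hA hB)]
      · rw [if_neg hB, if_neg (fun h => hB (subset_union_right.trans h)), mul_zero, mul_zero,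
          zero_mul]
    · rw [if_neg hA, if_neg (fun h => hA (subset_union_left.trans h)), zero_mul, mul_zero,
        zero_mul]
  rw [h2, Finset.sum_comm]
  refine Finset.sum_congr rfl fun A _ => ?_
  rw [Finset.sum_comm]
  refine Finset.sum_congr rfl fun B _ => ?_
  rw [← Finset.sum_mul]
  have h3 := Ari_alt (A ∪ B) univ (subset_univ _)
  rw [Finset.powerset_univ] at h3
  rw [h3]
  split_ifs
  · rw [one_mul]
  · rw [zero_mul]

private lemma Ari_prod4 (f g : Finset (Fin 10) → ℚ) (hf : ∀ A, 4 < A.card → mob f A = 0)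
    (hg : ∀ B, 6 < B.card → mob g B = 0) :
    mob (fun ε => f ε * g ε) univ =
      ∑ A ∈ (univ : Finset (Fin 10)).powersetCard 4, mob f A * mob g Aᶜ := by
  have hcard : (univ : Finset (Fin 10)).card = 10 := by
    rw [card_univ, Fintype.card_fin]
  have h0 : ∀ A B : Finset (Fin 10), A ∪ B = univ → 10 ≤ A.card + B.card := by
    intro A B h
    have h1 := card_union_le A B
    rwa [h, hcard] at h1
  rw [Ari_prod]
  symm
  refine (Finset.sum_congr rfl fun A hA => ?_).trans (Finset.sum_subset (subset_univ _) ?_)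
  · rw [mem_powersetCard] at hA
    symm
    refine (Finset.sum_eq_single Aᶜ (fun B _ hB => ?_) (fun h => absurd (mem_univ _) h)).trans ?_
    · split_ifs with h1
      · by_cases h2 : 6 < B.card
        · rw [hg B h2, mul_zero]
        · exfalso
          apply hB
          symm
          refine Finset.eq_of_subset_of_card_le (fun x hx => ?_) ?_
          · rw [mem_compl] at hx
            have h3 : x ∈ A ∪ B := by
              rw [h1]
              exact mem_univ _
            exact (mem_union.1 h3).resolve_left hx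
          · rw [card_compl, Fintype.card_fin]
            omega
      · rfl
    · rw [if_pos (union_compl A)]
  · intro A _ hA
    refine Finset.sum_eq_zero fun B _ => ?_
    split_ifs with h1
    · by_cases h2 : 4 < A.card
      · rw [hf A h2, zero_mul]
      · have h3 : A.card ≠ 4 := fun h => hA (mem_powersetCard.2 ⟨subset_univ _, h⟩)
        have h4 := h0 A B h1
        rw [hg B (by omega), mul_zero]
    · rfl

/-! ### division by the quantum integer -/

private lemma Ari_qn (N : ℕ) : PowerSeries.constantCoeff (qn uX N : PowerSeries ℚ) = N := by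
  unfold qn
  rw [map_sum]
  have h1 : ∀ m : ℤ, PowerSeries.constantCoeff (((uX ^ m : (PowerSeries ℚ)ˣ)) : PowerSeries ℚ) =
      1 := by
    intro m
    have h2 : Units.map (PowerSeries.constantCoeff (R := ℚ) : PowerSeries ℚ →* ℚ) uX = 1 := by
      apply Units.ext
      show PowerSeries.constantCoeff (1 + PowerSeries.X : PowerSeries ℚ) = 1
      rw [map_add, map_one, PowerSeries.constantCoeff_X, add_zero]
    have h3 : Units.map (PowerSeries.constantCoeff (R := ℚ) : PowerSeries ℚ →* ℚ) (uX ^ m) = 1 := by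
      rw [map_zpow, h2, one_zpow]
    exact congrArg Units.val h3
  rw [Finset.sum_congr rfl fun i _ => h1 _, Finset.sum_const, card_univ, Fintype.card_fin,
    nsmul_eq_mul, mul_one]

private lemma Ari_coef (N : ℕ) (hN : N ≠ 0) (f p : Finset (Fin 10) → PowerSeries ℚ)
    (h : ∀ ε, f ε = 2 * qn uX N * p ε)
    (h0 : ∀ (A : Finset (Fin 10)) (j : ℕ), 2 * j < A.card → PowerSeries.coeff j (mob f A) = 0) :
    (∀ (A : Finset (Fin 10)) (j : ℕ), 2 * j < A.card → PowerSeries.coeff j (mob p A) = 0) ∧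
    ∀ (A : Finset (Fin 10)) (k : ℕ), A.card = 2 * k →
      PowerSeries.coeff k (mob p A) = (2 * (N : ℚ))⁻¹ * PowerSeries.coeff k (mob f A) := by
  have hu : PowerSeries.constantCoeff (2 * qn uX N : PowerSeries ℚ) = 2 * (N : ℚ) := by
    rw [map_mul, Ari_qn, map_ofNat]
  have hu0 : PowerSeries.constantCoeff (2 * qn uX N : PowerSeries ℚ) ≠ 0 := by
    rw [hu]
    exact mul_ne_zero two_ne_zero (Nat.cast_ne_zero.2 hN)
  have h1 : ∀ A, mob p A = (2 * qn uX N : PowerSeries ℚ)⁻¹ * mob f A := by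
    intro A
    have h2 : f = fun ε => 2 * qn uX N * p ε := funext h
    rw [h2, Ari_mob_mul, ← mul_assoc, PowerSeries.inv_mul_cancel _ hu0, one_mul]
  constructor
  · intro A j hj
    rw [h1, PowerSeries.coeff_mul]
    refine Finset.sum_eq_zero fun x hx => ?_
    rw [HasAntidiagonal.mem_antidiagonal] at hx
    rw [h0 A x.2 (by omega), mul_zero]
  · intro A k hk
    rw [h1, PowerSeries.coeff_mul]
    refine (Finset.sum_eq_single (0, k) (fun x hx hx0 => ?_) (fun h => absurd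
      (HasAntidiagonal.mem_antidiagonal.2 (zero_add k)) h)).trans ?_
    · rw [HasAntidiagonal.mem_antidiagonal] at hx
      have h2 : x.2 ≠ k := by
        intro h3
        apply hx0
        have h4 : x.1 = 0 := by omega
        exact Prod.ext h4 h3
      rw [h0 A x.2 (by omega), mul_zero]
    · rw [PowerSeries.coeff_zero_eq_constantCoeff_apply, PowerSeries.constantCoeff_inv, hu]

/-! ### perfect matchings -/

private lemma Ari_mem_vs (M : Finset (Fin 10 × Fin 10)) (a : Fin 10) :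
    a ∈ vs M ↔ ∃ e ∈ M, e.1 = a ∨ e.2 = a := by
  unfold vs
  rw [mem_biUnion]
  refine exists_congr fun e => and_congr_right fun _ => ?_
  rw [mem_insert, mem_singleton]
  exact or_congr eq_comm eq_comm

private lemma Ari_mem_PM (A : Finset (Fin 10)) (M : Finset (Fin 10 × Fin 10)) :
    M ∈ PM A ↔ (∀ e ∈ M, e.1 ∈ A ∧ e.2 ∈ A ∧ e.1 < e.2) ∧
      ∀ a ∈ A, (M.filter fun e => e.1 = a ∨ e.2 = a).card = 1 := by
  unfold PM
  rw [mem_filter, mem_powerset]
  refine and_congr_left fun _ => ?_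
  constructor
  · intro h e he
    have h1 := h he
    rw [mem_filter, mem_product] at h1
    exact ⟨h1.1.1, h1.1.2, h1.2⟩
  · intro h e he
    rw [mem_filter, mem_product]
    exact ⟨⟨(h e he).1, (h e he).2.1⟩, (h e he).2.2⟩

private lemma Ari_vs {A : Finset (Fin 10)} {M : Finset (Fin 10 × Fin 10)} (h : M ∈ PM A) :
    vs M = A := by
  obtain ⟨h1, h2⟩ := (Ari_mem_PM A M).1 h
  ext a
  rw [Ari_mem_vs]
  constructor
  · rintro ⟨e, he, rfl | rfl⟩
    · exact (h1 e he).1
    · exact (h1 e he).2.1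
  · intro ha
    obtain ⟨e, he⟩ := card_pos.1 (by rw [h2 a ha]; exact one_pos)
    rw [mem_filter] at he
    exact ⟨e, he.1, he.2⟩

private lemma Ari_card {A : Finset (Fin 10)} {M : Finset (Fin 10 × Fin 10)} (h : M ∈ PM A) :
    A.card = 2 * M.card := by
  obtain ⟨h1, h2⟩ := (Ari_mem_PM A M).1 h
  have h3 := Finset.card_mul_eq_card_mul (s := A) (t := M) (m := 1) (n := 2)
    (fun (a : Fin 10) (e : Fin 10 × Fin 10) => e.1 = a ∨ e.2 = a) (fun a ha => h2 a ha)
    (fun e he => by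
      have h4 : Finset.bipartiteBelow (fun a (e : Fin 10 × Fin 10) => e.1 = a ∨ e.2 = a) A e =
          {e.1, e.2} := by
        ext a
        rw [Finset.mem_bipartiteBelow, mem_insert, mem_singleton]
        constructor
        · rintro ⟨_, h5 | h5⟩
          · exact Or.inl h5.symm
          · exact Or.inr h5.symm
        · rintro (rfl | rfl)
          · exact ⟨(h1 e he).1, Or.inl rfl⟩
          · exact ⟨(h1 e he).2.1, Or.inr rfl⟩
      rw [h4, card_pair (h1 e he).2.2.ne])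
  omega

private lemma Ari_sub {N M : Finset (Fin 10 × Fin 10)} (h : N ∈ PM univ) (hM : M ⊆ N) :
    M ∈ PM (vs M) := by
  obtain ⟨h1, h2⟩ := (Ari_mem_PM univ N).1 h
  rw [Ari_mem_PM]
  refine ⟨fun e he => ⟨(Ari_mem_vs M _).2 ⟨e, he, Or.inl rfl⟩,
    (Ari_mem_vs M _).2 ⟨e, he, Or.inr rfl⟩, (h1 e (hM he)).2.2⟩, fun a ha => ?_⟩
  obtain ⟨e, he, hea⟩ := (Ari_mem_vs M a).1 ha
  have h3 : (M.filter fun e => e.1 = a ∨ e.2 = a).card ≤ 1 := by
    rw [← h2 a (mem_univ a)]
    exact card_le_card (filter_subset_filter _ hM)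
  have h4 : 0 < (M.filter fun e => e.1 = a ∨ e.2 = a).card :=
    card_pos.2 ⟨e, mem_filter.2 ⟨he, hea⟩⟩
  omega

private lemma Ari_compl {N M : Finset (Fin 10 × Fin 10)} (h : N ∈ PM univ) (hM : M ⊆ N) :
    vs (N \ M) = (vs M)ᶜ := by
  obtain ⟨h1, h2⟩ := (Ari_mem_PM univ N).1 h
  ext a
  obtain ⟨e, he⟩ := card_eq_one.1 (h2 a (mem_univ a))
  have h3 : ∀ e', (e' ∈ N ∧ (e'.1 = a ∨ e'.2 = a)) ↔ e' = e := by
    intro e'
    rw [← mem_filter (p := fun e : Fin 10 × Fin 10 => e.1 = a ∨ e.2 = a), he, mem_singleton]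
  rw [mem_compl, Ari_mem_vs, Ari_mem_vs]
  constructor
  · rintro ⟨e', he', ha'⟩ ⟨e'', he'', ha''⟩
    rw [mem_sdiff] at he'
    have h4 := (h3 e').1 ⟨he'.1, ha'⟩
    have h5 := (h3 e'').1 ⟨hM he'', ha''⟩
    rw [h4, ← h5] at he'
    exact he'.2 he''
  · intro h4
    obtain ⟨h5, h6⟩ := (h3 e).2 rfl
    exact ⟨e, mem_sdiff.2 ⟨h5, fun h7 => h4 ⟨e, h7, h6⟩⟩, h6⟩

private lemma Ari_union {A : Finset (Fin 10)} {M M' : Finset (Fin 10 × Fin 10)}
    (h : M ∈ PM A) (h' : M' ∈ PM Aᶜ) : M ∪ M' ∈ PM univ ∧ (M ∪ M') \ M = M' := by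
  obtain ⟨h1, h2⟩ := (Ari_mem_PM A M).1 h
  obtain ⟨h3, h4⟩ := (Ari_mem_PM Aᶜ M').1 h'
  constructor
  · rw [Ari_mem_PM]
    constructor
    · intro e he
      refine ⟨mem_univ _, mem_univ _, ?_⟩
      rcases mem_union.1 he with he | he
      · exact (h1 e he).2.2
      · exact (h3 e he).2.2
    · intro a _
      rw [filter_union]
      by_cases ha : a ∈ A
      · have h5 : M'.filter (fun e => e.1 = a ∨ e.2 = a) = ∅ := by
          refine filter_eq_empty_iff.2 fun e he => ?_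
          rintro (rfl | rfl)
          · exact (mem_compl.1 (h3 e he).1) ha
          · exact (mem_compl.1 (h3 e he).2.1) ha
        rw [h5, union_empty, h2 a ha]
      · have h5 : M.filter (fun e => e.1 = a ∨ e.2 = a) = ∅ := by
          refine filter_eq_empty_iff.2 fun e he => ?_
          rintro (rfl | rfl)
          · exact ha (h1 e he).1
          · exact ha (h1 e he).2.1
        rw [h5, empty_union, h4 a (mem_compl.2 ha)]
  · refine union_sdiff_cancel_left ?_
    rw [Finset.disjoint_left]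
    intro e he he'
    exact (mem_compl.1 (h3 e he').1) (h1 e he).1

/-- The pairs of perfect matchings of a set and of its complement. -/
private lemma Ari_bij0 (P : Finset (Fin 10) → Finset (Finset (Fin 10 × Fin 10)))
    (hv : ∀ A M, M ∈ P A → vs M = A) (hc : ∀ A M, M ∈ P A → A.card = 2 * M.card)
    (hs : ∀ N ∈ P univ, ∀ M, M ⊆ N → M ∈ P (vs M))
    (hco : ∀ N ∈ P univ, ∀ M, M ⊆ N → vs (N \ M) = (vs M)ᶜ)
    (hu : ∀ A M M', M ∈ P A → M' ∈ P Aᶜ → M ∪ M' ∈ P univ ∧ (M ∪ M') \ M = M')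
    (F : Finset (Fin 10 × Fin 10) → Finset (Fin 10 × Fin 10) → ℤ) :
    ∑ A ∈ (univ : Finset (Fin 10)).powersetCard 4, ∑ M ∈ P A, ∑ M' ∈ P Aᶜ, F M M' =
      ∑ N ∈ P univ, ∑ M ∈ N.powersetCard 2, F M (N \ M) := by
  have h1 : ∀ A : Finset (Fin 10), ∑ M ∈ P A, ∑ M' ∈ P Aᶜ, F M M' =
      ∑ x ∈ P A ×ˢ P Aᶜ, F x.1 x.2 := fun A =>
    (Finset.sum_product (P A) (P Aᶜ) (fun x => F x.1 x.2)).symm
  rw [Finset.sum_congr rfl fun A _ => h1 A, Finset.sum_sigma', Finset.sum_sigma']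
  refine Finset.sum_bij' (fun x _ => ⟨x.2.1 ∪ x.2.2, x.2.1⟩)
    (fun y _ => ⟨vs y.2, (y.2, y.1 \ y.2)⟩) ?_ ?_ ?_ ?_ ?_
  · rintro ⟨A, M, M'⟩ hx
    rw [mem_sigma, mem_product, mem_powersetCard] at hx
    rw [mem_sigma, mem_powersetCard]
    refine ⟨(hu _ _ _ hx.2.1 hx.2.2).1, subset_union_left, ?_⟩
    have h2 := hc _ _ hx.2.1
    have h3 := hx.1.2
    dsimp only at h2 h3 ⊢
    omega
  · rintro ⟨N, M⟩ hy
    rw [mem_sigma, mem_powersetCard] at hy
    rw [mem_sigma, mem_product, mem_powersetCard]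
    have h2 := hs _ hy.1 _ hy.2.1
    have h3 := hc _ _ h2
    refine ⟨⟨subset_univ _, ?_⟩, h2, ?_⟩
    · have h4 := hy.2.2
      dsimp only at h3 h4 ⊢
      omega
    · dsimp only
      rw [← hco _ hy.1 _ hy.2.1]
      exact hs _ hy.1 _ sdiff_subset
  · rintro ⟨A, M, M'⟩ hx
    rw [mem_sigma, mem_product] at hx
    dsimp only
    rw [hv _ _ hx.2.1, (hu _ _ _ hx.2.1 hx.2.2).2]
  · rintro ⟨N, M⟩ hy
    rw [mem_sigma, mem_powersetCard] at hy
    dsimp only
    rw [union_sdiff_of_subset hy.2.1]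
  · rintro ⟨A, M, M'⟩ hx
    rw [mem_sigma, mem_product] at hx
    dsimp only
    rw [(hu _ _ _ hx.2.1 hx.2.2).2]

private lemma Ari_bij (F : Finset (Fin 10 × Fin 10) → Finset (Fin 10 × Fin 10) → ℤ) :
    ∑ A ∈ (univ : Finset (Fin 10)).powersetCard 4, ∑ M ∈ PM A, ∑ M' ∈ PM Aᶜ, F M M' =
      ∑ N ∈ PM univ, ∑ M ∈ N.powersetCard 2, F M (N \ M) :=
  Ari_bij0 PM (fun _ _ h => Ari_vs h) (fun _ _ h => Ari_card h) (fun _ h _ hM => Ari_sub h hM)
    (fun _ h _ hM => Ari_compl h hM) (fun _ _ _ h h' => Ari_union h h') F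

/-! ### divisibility -/

private lemma Ari_PP : PP ∈ PM univ := by
  rw [Ari_mem_PM]
  constructor
  · decide
  · decide

private lemma Ari_ne {N : Finset (Fin 10 × Fin 10)} (h : N ∈ PM univ) (hN : N ≠ PP) :
    ∃ e ∈ N, e ∉ PP := by
  by_contra h1
  push Not at h1
  apply hN
  refine Finset.eq_of_subset_of_card_le h1 ?_
  have h2 := Ari_card h
  have h3 := Ari_card Ari_PP
  omega

private lemma Ari_16 (L : Fin 10 → Fin 10 → ℤ)
    (hL : ∀ i j : Fin 10, i < j → if (i, j) ∈ PP then Odd (L i j) else (16 : ℤ) ∣ L i j)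
    {N : Finset (Fin 10 × Fin 10)} (h : N ∈ PM univ) (hN : N ≠ PP) :
    (16 : ℤ) ∣ ∏ e ∈ N, L e.1 e.2 := by
  obtain ⟨e, he, heP⟩ := Ari_ne h hN
  have h1 := hL e.1 e.2 (((Ari_mem_PM _ _).1 h).1 e he).2.2
  rw [if_neg heP] at h1
  exact h1.trans (Finset.dvd_prod_of_mem (fun e : Fin 10 × Fin 10 => L e.1 e.2) he)

private lemma Ari_odd (L : Fin 10 → Fin 10 → ℤ)
    (hL : ∀ i j : Fin 10, i < j → if (i, j) ∈ PP then Odd (L i j) else (16 : ℤ) ∣ L i j) :
    Odd (∏ e ∈ PP, L e.1 e.2) := by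
  refine Finset.prod_induction _ Odd (fun _ _ => Odd.mul) odd_one fun e he => ?_
  have h1 := hL e.1 e.2 (((Ari_mem_PM _ _).1 Ari_PP).1 e he).2.2
  rwa [if_pos (show (e.1, e.2) ∈ PP from he)] at h1

/-- the double sum over the products -/
private def Ari_T (L : Fin 10 → Fin 10 → ℤ) (M M' : Finset (Fin 10 × Fin 10)) : ℤ :=
  ((∏ e ∈ M, L e.1 e.2) * WW 2 (vs M) M) * ((∏ e ∈ M', L e.1 e.2) * WW 2 (vs M') M')

private lemma Ari_T_eq (L : Fin 10 → Fin 10 → ℤ) {N M : Finset (Fin 10 × Fin 10)} (h : M ⊆ N) :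
    Ari_T L M (N \ M) =
      (∏ e ∈ N, L e.1 e.2) * (WW 2 (vs M) M * WW 2 (vs (N \ M)) (N \ M)) := by
  unfold Ari_T
  rw [← Finset.prod_sdiff h]
  ring

/-- The sums over the perfect matchings modulo 512. -/
private lemma Ari_sum (L : Fin 10 → Fin 10 → ℤ)
    (hL : ∀ i j : Fin 10, i < j → if (i, j) ∈ PP then Odd (L i j) else (16 : ℤ) ∣ L i j)
    (g : Finset (Fin 10 × Fin 10) → ℤ) (hg : ∀ N ∈ PM univ, N ≠ PP → (32 : ℤ) ∣ g N) :
    ∃ t : ℤ, ∑ N ∈ PM univ, (∏ e ∈ N, L e.1 e.2) * g N =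
      (∏ e ∈ PP, L e.1 e.2) * g PP + 512 * t := by
  rw [← Finset.add_sum_erase _ _ Ari_PP]
  have h1 : (512 : ℤ) ∣ ∑ N ∈ (PM univ).erase PP, (∏ e ∈ N, L e.1 e.2) * g N := by
    refine Finset.dvd_sum fun N hN => ?_
    rw [mem_erase] at hN
    have h2 := mul_dvd_mul (Ari_16 L hL hN.2 hN.1) (hg N hN.2 hN.1)
    norm_num at h2
    exact h2
  obtain ⟨t, ht⟩ := h1
  exact ⟨t, by rw [ht]⟩

theorem thm_Ari : St_Wev → St_Ari := by
  rintro ⟨hW1, hW2, hW3, hW4⟩ f₂ f₃ p₂ p₃ L hf₂ hf₃ hE hz₂ hz₃ hl₂ hl₃ hL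
  obtain ⟨ha0, ha1⟩ := Ari_coef 2 two_ne_zero f₂ p₂ hf₂ hz₂
  obtain ⟨hb0, hb1⟩ := Ari_coef 3 three_ne_zero f₃ p₃ hf₃ hz₃
  have hcard : (univ : Finset (Fin 10)).card = 10 := by
    rw [card_univ, Fintype.card_fin]
  choose n hn using hE
  have hEE : ∀ c₂ c₃ : ℕ → ℚ, EE c₂ c₃ = 61 / 1440 * c₂ 2 + (7 / 1440 * c₂ 3 + (-1 / 3 * c₂ 4 +
      (3 / 40 * c₂ 5 + (17 / 240 * c₃ 4 + (-1 / 120 * c₃ 5 + -1 / 72 * (c₂ 2 * c₂ 3)))))) := by
    intro c₂ c₃
    unfold EE
    ring
  -- the Moebius transform of `EE`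
  have hm : mob (fun ε => EE (fun k => PowerSeries.coeff k (p₂ ε))
      (fun k => PowerSeries.coeff k (p₃ ε))) univ =
      16 * ((∑ ε ∈ (univ : Finset (Fin 10)).powerset, (-1) ^ (univ \ ε).card * n ε : ℤ) : ℚ) := by
    unfold mob
    rw [Int.cast_sum, Finset.mul_sum]
    refine Finset.sum_congr rfl fun ε _ => ?_
    beta_reduce
    rw [hn ε]
    push_cast
    ring
  obtain ⟨n', hn'⟩ : ∃ n' : ℤ, mob (fun ε => EE (fun k => PowerSeries.coeff k (p₂ ε))
      (fun k => PowerSeries.coeff k (p₃ ε))) univ = 16 * (n' : ℚ) := ⟨_, hm⟩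
  simp only [hEE] at hn'
  rw [Ari_mob_add, Ari_mob_add, Ari_mob_add, Ari_mob_add, Ari_mob_add, Ari_mob_add, Ari_mob_mul,
    Ari_mob_mul, Ari_mob_mul, Ari_mob_mul, Ari_mob_mul, Ari_mob_mul, Ari_mob_mul,
    Ari_mob_coeff, Ari_mob_coeff, Ari_mob_coeff, Ari_mob_coeff, Ari_mob_coeff, Ari_mob_coeff,
    ha0 univ 2 (by omega), ha0 univ 3 (by omega), ha0 univ 4 (by omega), hb0 univ 4 (by omega),
    ha1 univ 5 (by omega), hb1 univ 5 (by omega), hl₂ univ 5 (by omega), hl₃ univ 5 (by omega),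
    Ari_prod4] at hn'
  · -- the three sums
    have hT3 : (∑ A ∈ (univ : Finset (Fin 10)).powersetCard 4,
        mob (fun ε => PowerSeries.coeff 2 (p₂ ε)) A *
          mob (fun ε => PowerSeries.coeff 3 (p₂ ε)) Aᶜ) =
        1 / 4 * ((∑ N ∈ PM univ, ∑ M ∈ N.powersetCard 2, Ari_T L M (N \ M) : ℤ) : ℚ) := by
      rw [← Ari_bij, Int.cast_sum, Finset.mul_sum]
      refine Finset.sum_congr rfl fun A hA => ?_
      rw [mem_powersetCard] at hA
      have hAc : Aᶜ.card = 6 := by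
        rw [card_compl, Fintype.card_fin]
        omega
      rw [Ari_mob_coeff, Ari_mob_coeff, ha1 A 2 (by omega), ha1 Aᶜ 3 (by omega),
        hl₂ A 2 (by omega), hl₂ Aᶜ 3 (by omega), Int.cast_sum]
      have h1 : ∀ M ∈ PM A, ((∑ M' ∈ PM Aᶜ, Ari_T L M M' : ℤ) : ℚ) =
          (∏ e ∈ M, (L e.1 e.2 : ℚ)) * WW 2 A M *
            ∑ M' ∈ PM Aᶜ, (∏ e ∈ M', (L e.1 e.2 : ℚ)) * WW 2 Aᶜ M' := by
        intro M hM
        rw [Int.cast_sum, Finset.mul_sum]
        refine Finset.sum_congr rfl fun M' hM' => ?_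
        unfold Ari_T
        rw [Ari_vs hM, Ari_vs hM']
        push_cast
        ring
      rw [Finset.sum_congr rfl h1, ← Finset.sum_mul]
      push_cast
      ring
    have hT1 : (∑ M ∈ PM univ, (∏ e ∈ M, (L e.1 e.2 : ℚ)) * WW 2 univ M) =
        ((∑ M ∈ PM univ, (∏ e ∈ M, L e.1 e.2) * WW 2 univ M : ℤ) : ℚ) := by
      push_cast
      rfl
    have hT2 : (∑ M ∈ PM univ, (∏ e ∈ M, (L e.1 e.2 : ℚ)) * WW 3 univ M) =
        ((∑ M ∈ PM univ, (∏ e ∈ M, L e.1 e.2) * WW 3 univ M : ℤ) : ℚ) := by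
      push_cast
      rfl
    rw [hT1, hT2, hT3] at hn'
    -- modulo 512
    have hc5 : ∀ N ∈ PM univ, N.card = 5 := by
      intro N hN
      have h1 := Ari_card hN
      omega
    obtain ⟨t1, ht1⟩ := Ari_sum L hL (fun N => WW 2 univ N) (fun N hN _ => by
      have h1 := hW4 2 univ N
      rw [hc5 N hN] at h1
      norm_num at h1
      exact h1)
    obtain ⟨t2, ht2⟩ := Ari_sum L hL (fun N => WW 3 univ N) (fun N hN _ => by
      have h1 := hW4 3 univ N
      rw [hc5 N hN] at h1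
      norm_num at h1
      exact h1)
    obtain ⟨t3, ht3⟩ := Ari_sum L hL (fun N => ∑ M ∈ N.powersetCard 2,
      WW 2 (vs M) M * WW 2 (vs (N \ M)) (N \ M)) (fun N hN _ => by
      refine Finset.dvd_sum fun M hM => ?_
      rw [mem_powersetCard] at hM
      have h1 := hW4 2 (vs M) M
      have h2 := hW4 2 (vs (N \ M)) (N \ M)
      have h3 : (N \ M).card = 3 := by
        rw [card_sdiff_of_subset hM.1, hc5 N hN, hM.2]
      rw [hM.2] at h1
      rw [h3] at h2
      have h4 := mul_dvd_mul h1 h2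
      norm_num at h4
      exact h4)
    have ht3' : ∑ N ∈ PM univ, ∑ M ∈ N.powersetCard 2, Ari_T L M (N \ M) =
        (∏ e ∈ PP, L e.1 e.2) * (∑ M ∈ PP.powersetCard 2,
          WW 2 (vs M) M * WW 2 (vs (PP \ M)) (PP \ M)) + 512 * t3 := by
      rw [← ht3]
      refine Finset.sum_congr rfl fun N _ => ?_
      rw [Finset.mul_sum]
      refine Finset.sum_congr rfl fun M hM => ?_
      exact Ari_T_eq L (mem_powersetCard.1 hM).1
    rw [hW1, mul_zero, zero_add] at ht1
    rw [hW2] at ht2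
    rw [hW3] at ht3'
    rw [ht1, ht2, ht3'] at hn'
    obtain ⟨r, hr⟩ := Ari_odd L hL
    rw [hr] at hn'
    have hfin : (23040 * n' : ℤ) = 54 * (512 * t1) - 4 * ((2 * r + 1) * (-11520) + 512 * t2) -
        5 * ((2 * r + 1) * (-11520) + 512 * t3) := by
      have h1 : (23040 * n' : ℚ) = 54 * (512 * t1) - 4 * ((2 * r + 1) * (-11520) + 512 * t2) -
          5 * ((2 * r + 1) * (-11520) + 512 * t3) := by
        push_cast at hn'
        linarith
      exact_mod_cast h1
    omega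
  · intro A hA
    rw [Ari_mob_coeff]
    exact ha0 A 2 (by omega)
  · intro A hA
    rw [Ari_mob_coeff]
    exact ha0 A 3 (by omega)

end IBN
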