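import Pool.Agent.IBN.StC

/-!
# IBN: module B2, expansion of the product of the crossing operators
-/

set_option autoImplicit false

namespace IBN

private theorem B2_ext {N : ℕ} [NeZero N] {B : List Strand} (hB : B.Nodup)
    (x : Fin B.length → Lab N) (i : Fin B.length) : extL B x (B.get i) = x i := by
  have h : B.idxOf (B.get i) = i := by
    simpa using hB.idxOf_getElem i.1 i.2
  unfold extL
  rw [dif_pos (by rw [h]; exact i.2)]
  congr 1
  exact Fin.ext h

private theorem B2_upd {N : ℕ} [NeZero N] {B : List Strand} (hB : B.Nodup)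
    (x : Fin B.length → Lab N) (i : Fin B.length) (z : Lab N) :
    Function.update (extL B x) (B.get i) z = extL B (Function.update x i z) := by
  funext s
  by_cases hs : s = B.get i
  · subst hs
    rw [Function.update_self, B2_ext hB, Function.update_self]
  · rw [Function.update_of_ne hs]
    unfold extL
    by_cases h : B.idxOf s < B.length
    · rw [dif_pos h, dif_pos h, Function.update_of_ne]
      intro he
      apply hs
      rw [← he]
      simp
    · rw [dif_neg h, dif_neg h]

private theorem B2_smo {A : Type} [CommRing A] (q : Aˣ) {N : ℕ} {ι : Type} [Fintype ι] (s : Bool)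
    (G : ι → Lab N → Lab N → A) (c : ι → A) (u w : Lab N) :
    smo q s (fun x y => ∑ i, G i x y * c i) u w = ∑ i, smo q s (G i) u w * c i := by
  unfold smo
  by_cases h1 : u.1 = w.1
  · simp only [if_pos h1]
    by_cases h2 : (if s then lo u.1 u.2 w.2 else lo u.1 w.2 u.2) = true
    · simp only [if_pos h2]
    · simp only [if_neg h2, zero_mul, Finset.sum_const_zero]
  · simp only [if_neg h1]
    by_cases h2 : u.2 = w.2
    · simp only [if_pos h2]
      simp only [Finset.sum_mul]
      rw [Finset.sum_comm]
      refine Finset.sum_congr rfl fun k _ => ?_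
      by_cases h3 : (if s then lo u.1 k u.2 else lo u.1 u.2 k) = true
      · simp only [if_pos h3]
        rw [Finset.mul_sum]
        exact Finset.sum_congr rfl fun i _ => (mul_assoc _ _ _).symm
      · simp only [if_neg h3, zero_mul, Finset.sum_const_zero]
    · simp only [if_neg h2, zero_mul, Finset.sum_const_zero]

private theorem B2_lin {A : Type} [CommRing A] (q : Aˣ) {N : ℕ} {ι : Type} [Fintype ι] (p : Bool)
    (G : ι → Lab N → Lab N → A) (c : ι → A) (u w : Lab N) :
    opX q p (fun x y => ∑ i, G i x y * c i) u w = ∑ i, opX q p (G i) u w * c i := by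
  unfold opX
  rw [B2_smo, B2_smo]
  by_cases h : p = (u.1 == w.1)
  · simp only [if_pos h]
    rw [Finset.mul_sum, Finset.mul_sum, ← Finset.sum_add_distrib, Finset.mul_sum]
    exact Finset.sum_congr rfl fun i _ => by ring
  · simp only [if_neg h]
    rw [Finset.mul_sum, Finset.mul_sum, ← Finset.sum_sub_distrib, Finset.mul_sum]
    exact Finset.sum_congr rfl fun i _ => by ring

private theorem B2_opX {A : Type} [CommRing A] (q : Aˣ) {N : ℕ} (p : Bool)
    (F : Lab N → Lab N → A) (u w : Lab N) :
    opX q p F u w = F w u + ∑ u' : Lab N, ∑ w' : Lab N, kap q p u u' w w' * F w' u' := by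
  have h1 : F = fun x y => ∑ i : Lab N × Lab N, (if x = i.2 ∧ y = i.1 then 1 else 0) * F i.2 i.1 := by
    funext x y
    rw [Finset.sum_eq_single (y, x)]
    · simp
    · rintro ⟨a, b⟩ _ hne
      have : ¬ (x = b ∧ y = a) := fun hh => hne (by rw [hh.1, hh.2])
      simp [this]
    · intro hh
      exact absurd (Finset.mem_univ _) hh
  have h2 : opX q p F u w = ∑ i : Lab N × Lab N,
      opX q p (fun x y => if x = i.2 ∧ y = i.1 then 1 else 0) u w * F i.2 i.1 := by
    conv_lhs => rw [h1]
    exact B2_lin q p (fun (i : Lab N × Lab N) x y => if x = i.2 ∧ y = i.1 then 1 else 0)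
      (fun i => F i.2 i.1) u w
  have h3 : F w u = ∑ i : Lab N × Lab N, (if u = i.1 ∧ w = i.2 then 1 else 0) * F i.2 i.1 := by
    rw [Finset.sum_eq_single (u, w)]
    · simp
    · rintro ⟨a, b⟩ _ hne
      have : ¬ (u = a ∧ w = b) := fun hh => hne (by rw [hh.1, hh.2])
      simp [this]
    · intro hh
      exact absurd (Finset.mem_univ _) hh
  rw [h2, ← Fintype.sum_prod_type' (fun u' w' => kap q p u u' w w' * F w' u'), h3,
    ← Finset.sum_add_distrib]
  refine Finset.sum_congr rfl fun i _ => ?_
  unfold kap
  ring

private theorem B2_mt {A : Type} [CommRing A] {N : ℕ} (c : Cro) (X : List Cro) (o : Ter N)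
    (r : Fin X.length → Ter N) (s : Strand) :
    mt (A := A) (c :: X) (Fin.cons o r : Fin (X.length + 1) → Ter N) s = fac c o s * mt X r s := by
  unfold mt
  have h : List.finRange (c :: X).length = 0 :: (List.finRange X.length).map Fin.succ :=
    List.finRange_succ
  rw [h, List.map_cons, List.prod_cons, List.map_map]
  rfl

/-- the right side -/
private noncomputable def B2_S {A : Type} [CommRing A] (q : Aˣ) {N : ℕ} [NeZero N]
    (K : Strand → Bool) (B : List Strand) (X : List Cro) (Φ : (Strand → Lab N) → A)
    (x : Fin B.length → Lab N) : A :=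
  ∑ r : Fin X.length → Ter N,
    if ∀ i, r i ≠ none → K (X.get i).a ∧ K (X.get i).b then
      (∏ i, cfT q (X.get i) (r i)) *
        ∑ y : Fin B.length → Lab N, (∏ i, mt X r (B.get i) (x i) (y i)) * Φ (extL B y)
    else 0

private theorem B2_succ {A : Type} [CommRing A] (q : Aˣ) {N : ℕ} [NeZero N]
    (K : Strand → Bool) (B : List Strand) (c : Cro) (X : List Cro) (Φ : (Strand → Lab N) → A)
    (x : Fin B.length → Lab N) :
    B2_S q K B (c :: X) Φ x = ∑ o : Ter N, if o ≠ none → K c.a ∧ K c.b then
      cfT q c o * ∑ r : Fin X.length → Ter N,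
        if ∀ i, r i ≠ none → K (X.get i).a ∧ K (X.get i).b then
          (∏ i, cfT q (X.get i) (r i)) * ∑ y : Fin B.length → Lab N,
            (∏ i, (fac c o (B.get i) * mt X r (B.get i) : Matrix (Lab N) (Lab N) A) (x i) (y i)) *
              Φ (extL B y)
        else 0
      else 0 := by
  unfold B2_S
  have e : (∑ r : Fin (c :: X).length → Ter N,
      if ∀ i, r i ≠ none → K ((c :: X).get i).a ∧ K ((c :: X).get i).b then
        (∏ i, cfT q ((c :: X).get i) (r i)) *
          ∑ y : Fin B.length → Lab N,
            (∏ i, mt (c :: X) r (B.get i) (x i) (y i)) * Φ (extL B y)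
      else 0) = ∑ z : Ter N × (Fin X.length → Ter N),
      if ∀ i : Fin (X.length + 1), (Fin.cons z.1 z.2 : Fin (X.length + 1) → Ter N) i ≠ none →
          K ((c :: X).get i).a ∧ K ((c :: X).get i).b then
        (∏ i : Fin (X.length + 1),
          cfT q ((c :: X).get i) ((Fin.cons z.1 z.2 : Fin (X.length + 1) → Ter N) i)) *
          ∑ y : Fin B.length → Lab N,
            (∏ i, mt (c :: X) (Fin.cons z.1 z.2 : Fin (X.length + 1) → Ter N)
              (B.get i) (x i) (y i)) * Φ (extL B y)
      else 0 := by
    symm
    exact Fintype.sum_equiv (Fin.consEquiv (fun _ : Fin (X.length + 1) => Ter N)) _ _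
      (fun z => rfl)
  rw [e, Fintype.sum_prod_type]
  refine Finset.sum_congr rfl fun o _ => ?_
  by_cases ho : o ≠ none → K c.a ∧ K c.b
  · rw [if_pos ho, Finset.mul_sum]
    refine Finset.sum_congr rfl fun r _ => ?_
    by_cases hr : ∀ i, r i ≠ none → K (X.get i).a ∧ K (X.get i).b
    · rw [if_pos hr, if_pos]
      · rw [Fin.prod_univ_succ, mul_assoc]
        simp only [B2_mt]
        rfl
      · intro i
        refine Fin.cases ?_ (fun j => ?_) i
        · exact ho
        · exact hr j
    · rw [if_neg hr, if_neg, mul_zero]
      intro hh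
      exact hr fun i => hh i.succ
  · rw [if_neg ho]
    refine Finset.sum_eq_zero fun r _ => ?_
    rw [if_neg]
    intro hh
    exact ho (hh 0)

private theorem B2_none {A : Type} [CommRing A] (q : Aˣ) {N : ℕ} [NeZero N]
    (K : Strand → Bool) (B : List Strand) (c : Cro) (X : List Cro) (Φ : (Strand → Lab N) → A)
    (x : Fin B.length → Lab N) :
    B2_S q K B (c :: X) Φ x = B2_S q K B X Φ x +
      ∑ t : Lab N × Lab N × Lab N × Lab N, if K c.a ∧ K c.b then
        cfT q c (some t) * ∑ r : Fin X.length → Ter N,
          if ∀ i, r i ≠ none → K (X.get i).a ∧ K (X.get i).b then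
            (∏ i, cfT q (X.get i) (r i)) * ∑ y : Fin B.length → Lab N,
              (∏ i, (fac c (some t) (B.get i) * mt X r (B.get i) : Matrix (Lab N) (Lab N) A)
                (x i) (y i)) * Φ (extL B y)
          else 0
        else 0 := by
  rw [B2_succ, Fintype.sum_option]
  congr 1
  · rw [if_pos (fun h => absurd rfl h)]
    unfold B2_S
    simp only [cfT, fac, one_mul]
  · refine Finset.sum_congr rfl fun t _ => ?_
    simp only [ne_eq, reduceCtorEq, not_false_eq_true, true_imp_iff]

private theorem B2_prod {A : Type} [CommRing A] {N : ℕ} (B : List Strand) (hB : B.Nodup)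
    (c : Cro) (ia ib : Fin B.length) (ha : B.get ia = c.a) (hb : B.get ib = c.b) (hab : ia ≠ ib)
    (M : Strand → Matrix (Lab N) (Lab N) A) (t : Lab N × Lab N × Lab N × Lab N)
    (x y : Fin B.length → Lab N) :
    (∏ i, (fac c (some t) (B.get i) * M (B.get i) : Matrix (Lab N) (Lab N) A) (x i) (y i)) =
      if x ia = t.1 ∧ x ib = t.2.2.1 then
        ∏ i, M (B.get i) (Function.update (Function.update x ib t.2.2.2) ia t.2.1 i) (y i)
      else 0 := by
  obtain ⟨u, u', w, w'⟩ := t
  have hinj : ∀ i j : Fin B.length, B.get i = B.get j → i = j := fun i j h =>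
    (List.nodup_iff_injective_get.1 hB) h
  have hsing : ∀ (a b z z' : Lab N) (M : Matrix (Lab N) (Lab N) A),
      (Matrix.single a b (1 : A) * M) z z' = if z = a then M b z' else 0 := by
    intro a b z z' M
    rw [Matrix.mul_apply]
    by_cases h : z = a
    · subst h
      rw [if_pos rfl, Finset.sum_eq_single b]
      · simp
      · intro k _ hk
        rw [Matrix.single_apply_of_col_ne, zero_mul]
        exact fun h => hk h.symm
      · intro hh
        exact absurd (Finset.mem_univ _) hh
    · rw [if_neg h]
      refine Finset.sum_eq_zero fun k _ => ?_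
      rw [Matrix.single_apply_of_row_ne, zero_mul]
      exact fun h' => h h'.symm
  have hf : ∀ i, (fac c (some (u, u', w, w')) (B.get i) * M (B.get i) :
      Matrix (Lab N) (Lab N) A) (x i) (y i) =
      (if i = ia then (if x ia = u then 1 else 0) else if i = ib then (if x ib = w then 1 else 0)
        else 1) *
      M (B.get i) (Function.update (Function.update x ib w') ia u' i) (y i) := by
    intro i
    simp only [fac]
    by_cases h1 : i = ia
    · subst h1
      rw [if_pos ha, if_pos rfl, hsing, Function.update_self, ite_mul, one_mul, zero_mul]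
    · have h1' : B.get i ≠ c.a := fun h => h1 (hinj _ _ (h.trans ha.symm))
      rw [if_neg h1', if_neg h1, Function.update_of_ne h1]
      by_cases h2 : i = ib
      · subst h2
        rw [if_pos hb, if_pos rfl, hsing, Function.update_self, ite_mul, one_mul, zero_mul]
      · have h2' : B.get i ≠ c.b := fun h => h2 (hinj _ _ (h.trans hb.symm))
        rw [if_neg h2', if_neg h2, Function.update_of_ne h2, Matrix.one_mul, one_mul]
  simp only [hf]
  rw [Finset.prod_mul_distrib]
  have hp : (∏ i : Fin B.length, (if i = ia then (if x ia = u then (1 : A) else 0) else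
      if i = ib then (if x ib = w then 1 else 0) else 1)) =
      if x ia = u ∧ x ib = w then 1 else 0 := by
    by_cases h1 : x ia = u
    · by_cases h2 : x ib = w
      · rw [if_pos (⟨h1, h2⟩ : x ia = u ∧ x ib = w)]
        refine Finset.prod_eq_one fun i _ => ?_
        simp only [h1, h2, if_true, ite_self]
      · rw [if_neg (show ¬ (x ia = u ∧ x ib = w) from fun h => h2 h.2)]
        refine Finset.prod_eq_zero (Finset.mem_univ ib) ?_
        rw [if_neg (Ne.symm hab), if_pos rfl, if_neg h2]
    · rw [if_neg (show ¬ (x ia = u ∧ x ib = w) from fun h => h1 h.1)]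
      refine Finset.prod_eq_zero (Finset.mem_univ ia) ?_
      rw [if_pos rfl, if_neg h1]
  rw [hp, ite_mul, one_mul, zero_mul]

private theorem B2_sum4 {A α β γ δ : Type} [CommRing A] [Fintype α] [Fintype β] [Fintype γ]
    [Fintype δ] (f : α × β × γ × δ → A) :
    ∑ t, f t = ∑ u, ∑ u', ∑ w, ∑ w', f (u, u', w, w') := by
  rw [Fintype.sum_prod_type]
  refine Finset.sum_congr rfl fun u _ => ?_
  rw [Fintype.sum_prod_type]
  refine Finset.sum_congr rfl fun u' _ => ?_
  rw [Fintype.sum_prod_type]

private theorem B2_main {A : Type} [CommRing A] (q : Aˣ) (N : ℕ) [NeZero N] (K : Strand → Bool)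
    (B : List Strand) (hB : B.Nodup) (Φ : (Strand → Lab N) → A) :
    ∀ (X : List Cro), (∀ c ∈ X, K c.a → K c.b → c.a ∈ B ∧ c.b ∈ B ∧ c.a ≠ c.b) →
      ∀ (x : Fin B.length → Lab N), crosOp q K X Φ (extL B x) = B2_S q K B X Φ x := by
  intro X
  induction X with
  | nil =>
    intro _ x
    have h1 : crosOp q K [] Φ (extL B x) = Φ (extL B x) := rfl
    rw [h1]
    unfold B2_S
    have h2 : ∀ r : Fin ([] : List Cro).length → Ter N,
        (if ∀ i, r i ≠ none → K (([] : List Cro).get i).a ∧ K (([] : List Cro).get i).b then
          (∏ i, cfT q (([] : List Cro).get i) (r i)) *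
          ∑ y : Fin B.length → Lab N, (∏ i, mt [] r (B.get i) (x i) (y i)) * Φ (extL B y)
        else 0) = Φ (extL B x) := by
      intro r
      rw [if_pos (fun i => i.elim0)]
      have h3 : (∏ i, cfT q (([] : List Cro).get i) (r i)) = 1 := rfl
      rw [h3, one_mul, Finset.sum_eq_single x]
      · have h4 : (∏ i, (mt [] r (B.get i) : Matrix (Lab N) (Lab N) A) (x i) (x i)) = 1 := by
          refine Finset.prod_eq_one fun i _ => ?_
          have : (mt [] r (B.get i) : Matrix (Lab N) (Lab N) A) = 1 := rfl
          rw [this, Matrix.one_apply_eq]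
        rw [h4, one_mul]
      · intro y _ hy
        obtain ⟨i, hi⟩ : ∃ i, y i ≠ x i := by
          by_contra hcon
          push Not at hcon
          exact hy (funext hcon)
        rw [Finset.prod_eq_zero (Finset.mem_univ i), zero_mul]
        have : (mt [] r (B.get i) : Matrix (Lab N) (Lab N) A) = 1 := rfl
        rw [this, Matrix.one_apply_ne (Ne.symm hi)]
      · intro hh
        exact absurd (Finset.mem_univ _) hh
    rw [Finset.sum_congr rfl fun r _ => h2 r]
    rw [Finset.sum_const]
    have h5 : (Finset.univ : Finset (Fin ([] : List Cro).length → Ter N)).card = 1 := by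
      have : IsEmpty (Fin ([] : List Cro).length) := ⟨fun i => i.elim0⟩
      rw [Finset.card_univ]
      exact Fintype.card_unique
    rw [h5, one_smul]
  | cons c X ih =>
    intro hX x
    have hX' : ∀ c ∈ X, K c.a → K c.b → c.a ∈ B ∧ c.b ∈ B ∧ c.a ≠ c.b := fun c' hc' =>
      hX c' (List.mem_cons_of_mem _ hc')
    have ih' := ih hX'
    rw [B2_none]
    by_cases hK : K c.a = true ∧ K c.b = true
    · obtain ⟨hca, hcb, hne⟩ := hX c List.mem_cons_self hK.1 hK.2
      obtain ⟨ia, ha⟩ := List.get_of_mem hca
      obtain ⟨ib, hb⟩ := List.get_of_mem hcb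
      have hab : ia ≠ ib := by
        intro h
        apply hne
        rw [← ha, ← hb, h]
      have h1 : crosOp q K (c :: X) Φ (extL B x) =
          cro q c.a c.b c.p (crosOp q K X Φ) (extL B x) := by
        change (if K c.a && K c.b then cro q c.a c.b c.p (crosOp q K X Φ) else crosOp q K X Φ)
          (extL B x) = _
        rw [if_pos (by rw [hK.1, hK.2]; rfl)]
      have hup : ∀ z z' : Lab N, Function.update (Function.update (extL B x) c.b z) c.a z' =
          extL B (Function.update (Function.update x ib z) ia z') := by
        intro z z'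
        rw [← hb, B2_upd hB, ← ha, B2_upd hB]
      have hfa : extL B x c.a = x ia := by rw [← ha, B2_ext hB]
      have hfb : extL B x c.b = x ib := by rw [← hb, B2_ext hB]
      have hid : Function.update (Function.update x ib (x ib)) ia (x ia) = x := by
        rw [Function.update_eq_self, Function.update_eq_self]
      rw [h1]
      unfold cro
      rw [B2_opX]
      simp only [hup, hfa, hfb, ih', hid]
      congr 1
      simp only [if_pos hK]
      -- the sum over the entries of the kernel
      rw [B2_sum4]
      symm
      rw [Finset.sum_eq_single (x ia)]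
      · refine Finset.sum_congr rfl fun u' _ => ?_
        rw [Finset.sum_eq_single (x ib)]
        · refine Finset.sum_congr rfl fun w' _ => ?_
          congr 1
          unfold B2_S
          refine Finset.sum_congr rfl fun r _ => ?_
          by_cases hr : ∀ i, r i ≠ none → K (X.get i).a ∧ K (X.get i).b
          · rw [if_pos hr, if_pos hr]
            congr 1
            refine Finset.sum_congr rfl fun y _ => ?_
            rw [B2_prod B hB c ia ib ha hb hab (mt X r) (x ia, u', x ib, w') x y,
              if_pos ⟨rfl, rfl⟩]
          · rw [if_neg hr, if_neg hr]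
        · intro w _ hw
          refine Finset.sum_eq_zero fun w' _ => ?_
          rw [Finset.sum_eq_zero, mul_zero]
          intro r _
          by_cases hr : ∀ i, r i ≠ none → K (X.get i).a ∧ K (X.get i).b
          · rw [if_pos hr, Finset.sum_eq_zero, mul_zero]
            intro y _
            rw [B2_prod B hB c ia ib ha hb hab (mt X r) (x ia, u', w, w') x y,
              if_neg (fun h => hw h.2.symm), zero_mul]
          · rw [if_neg hr]
        · intro hh
          exact absurd (Finset.mem_univ _) hh
      · intro u _ hu
        refine Finset.sum_eq_zero fun u' _ => ?_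
        refine Finset.sum_eq_zero fun w _ => ?_
        refine Finset.sum_eq_zero fun w' _ => ?_
        rw [Finset.sum_eq_zero, mul_zero]
        intro r _
        by_cases hr : ∀ i, r i ≠ none → K (X.get i).a ∧ K (X.get i).b
        · rw [if_pos hr, Finset.sum_eq_zero, mul_zero]
          intro y _
          rw [B2_prod B hB c ia ib ha hb hab (mt X r) (u, u', w, w') x y,
            if_neg (fun h => hu h.1.symm), zero_mul]
        · rw [if_neg hr]
      · intro hh
        exact absurd (Finset.mem_univ _) hh
    · have h1 : crosOp q K (c :: X) Φ (extL B x) = crosOp q K X Φ (extL B x) := by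
        change (if K c.a && K c.b then cro q c.a c.b c.p (crosOp q K X Φ) else crosOp q K X Φ)
          (extL B x) = _
        rw [if_neg]
        rw [Bool.and_eq_true]
        exact hK
      rw [h1, ih' x]
      simp only [if_neg hK, Finset.sum_const_zero, add_zero]

theorem thm_B2 : St_B2 := by
  intro A _ q N _ K B X hB hX Φ x
  exact B2_main q N K B hB Φ X hX x

end IBN
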