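import Pool.Agent.IBN.StC

/-!
# IBN, module B3: closing up, the sum over all labels is a trace
-/

set_option autoImplicit false
set_option linter.unusedSectionVars false

namespace IBN

section gen

variable {A : Type} [CommRing A] {E ι : Type} [DecidableEq E] [Fintype ι]

/-- sum over all labels of the members of the list `W` -/
private def B3_sum : List E → ((E → ι) → A) → (E → ι) → A
  | [], G, z => G z
  | e :: W, G, z => ∑ a, B3_sum W G (Function.update z e a)

private theorem B3_sum_append (W W' : List E) (G : (E → ι) → A) (z : E → ι) :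
    B3_sum (W ++ W') G z = B3_sum W (fun z => B3_sum W' G z) z := by
  induction W generalizing z with
  | nil => rfl
  | cons e W ih => simp only [List.cons_append, B3_sum, ih]

private theorem B3_sum_perm {W W' : List E} (h : W.Perm W') (G : (E → ι) → A) (z : E → ι) :
    B3_sum W G z = B3_sum W' G z := by
  induction h generalizing z with
  | nil => rfl
  | cons e _ ih => simp only [B3_sum, ih]
  | swap e e' l =>
    by_cases h : e = e'
    · rw [h]
    · simp only [B3_sum]
      rw [Finset.sum_comm]
      refine Finset.sum_congr rfl fun a _ => Finset.sum_congr rfl fun b _ => ?_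
      rw [Function.update_comm h]
  | trans _ _ ih1 ih2 => rw [ih1, ih2]

private theorem B3_sum_congr (W : List E) {G G' : (E → ι) → A} (h : ∀ z, G z = G' z) (z : E → ι) :
    B3_sum W G z = B3_sum W G' z := by
  have : G = G' := funext h
  rw [this]

private theorem B3_sum_mul (W : List E) (g G : (E → ι) → A)
    (hg : ∀ e ∈ W, ∀ z a, g (Function.update z e a) = g z) (z : E → ι) :
    B3_sum W (fun z => g z * G z) z = g z * B3_sum W G z := by
  induction W generalizing z with
  | nil => rfl
  | cons e W ih =>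
    simp only [B3_sum]
    rw [Finset.mul_sum]
    refine Finset.sum_congr rfl fun a _ => ?_
    rw [ih (fun e' he' => hg e' (List.mem_cons_of_mem _ he')), hg e List.mem_cons_self]

/-- the value of a chain which starts at `e`; its members are a matrix and the next end -/
private def B3_vl (z : E → ι) : E → List (Matrix ι ι A × E) → A
  | _, [] => 1
  | e, x :: l => x.1 (z e) (z x.2) * B3_vl z x.2 l

/-- the last end of a chain -/
private def B3_la : E → List (Matrix ι ι A × E) → E
  | e, [] => e
  | _, x :: l => B3_la x.2 l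

/-- the reversed chain -/
private def B3_rev : E → List (Matrix ι ι A × E) → List (Matrix ι ι A × E)
  | _, [] => []
  | e, x :: l => B3_rev x.2 l ++ [(x.1.transpose, e)]

private theorem B3_vl_append (z : E → ι) (e : E) (l l' : List (Matrix ι ι A × E)) :
    B3_vl z e (l ++ l') = B3_vl z e l * B3_vl z (B3_la e l) l' := by
  induction l generalizing e with
  | nil => simp [B3_vl, B3_la]
  | cons x l ih =>
    simp only [List.cons_append, B3_vl, B3_la, ih]
    ring

private theorem B3_la_append (e : E) (l l' : List (Matrix ι ι A × E)) :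
    B3_la e (l ++ l') = B3_la (B3_la e l) l' := by
  induction l generalizing e with
  | nil => rfl
  | cons x l ih => simp only [List.cons_append, B3_la, ih]

private theorem B3_la_rev (e : E) (l : List (Matrix ι ι A × E)) :
    B3_la (B3_la e l) (B3_rev e l) = e := by
  induction l generalizing e with
  | nil => rfl
  | cons x l ih => simp only [B3_la, B3_rev, B3_la_append]

private theorem B3_vl_rev (z : E → ι) (e : E) (l : List (Matrix ι ι A × E)) :
    B3_vl z (B3_la e l) (B3_rev e l) = B3_vl z e l := by
  induction l generalizing e with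
  | nil => rfl
  | cons x l ih =>
    simp only [B3_la, B3_rev, B3_vl_append, B3_vl, ih, B3_la_rev, Matrix.transpose_apply, mul_one]
    ring

private theorem B3_ends_rev (e : E) (l : List (Matrix ι ι A × E)) :
    (B3_la e l :: (B3_rev e l).map Prod.snd).Perm (e :: l.map Prod.snd) := by
  induction l generalizing e with
  | nil => exact List.Perm.refl _
  | cons x l ih =>
    simp only [B3_la, B3_rev, List.map_append, List.map_cons, List.map_nil]
    have h1 : (B3_la x.2 l :: ((B3_rev x.2 l).map Prod.snd ++ [e])).Perm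
        (e :: (B3_la x.2 l :: (B3_rev x.2 l).map Prod.snd)) := by
      rw [← List.cons_append]
      exact List.perm_append_singleton _ _
    exact h1.trans (List.Perm.cons e (ih x.2))

variable [DecidableEq ι]

/-- the product of the matrices of a chain -/
private def B3_pr (l : List (Matrix ι ι A × E)) : Matrix ι ι A := (l.map Prod.fst).prod

private theorem B3_pr_append (l l' : List (Matrix ι ι A × E)) :
    B3_pr (l ++ l') = B3_pr l * B3_pr l' := by
  simp [B3_pr]

private theorem B3_pr_rev (e : E) (l : List (Matrix ι ι A × E)) :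
    B3_pr (B3_rev e l) = (B3_pr l).transpose := by
  induction l generalizing e with
  | nil => simp [B3_pr, B3_rev]
  | cons x l ih =>
    rw [B3_rev, B3_pr_append, ih]
    simp [B3_pr, Matrix.transpose_mul]

private theorem B3_open (l : List (Matrix ι ι A × E)) (M : Matrix ι ι A) (e e' : E) (z : E → ι)
    (hn : (l.map Prod.snd).Nodup) (he : e ∉ l.map Prod.snd) (he' : e' ∉ l.map Prod.snd) :
    B3_sum (l.map Prod.snd) (fun z => B3_vl z e (l ++ [(M, e')])) z =
      B3_pr (l ++ [(M, e')]) (z e) (z e') := by
  induction l generalizing e z with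
  | nil => simp [B3_sum, B3_vl, B3_pr]
  | cons x l ih =>
    simp only [List.map_cons, List.nodup_cons, List.mem_cons, not_or] at hn he he'
    simp only [List.map_cons, B3_sum, List.cons_append, B3_vl]
    have h1 : ∀ a, B3_sum (l.map Prod.snd)
        (fun z => x.1 (z e) (z x.2) * B3_vl z x.2 (l ++ [(M, e')])) (Function.update z x.2 a) =
        x.1 (z e) a * B3_pr (l ++ [(M, e')]) a (z e') := by
      intro a
      rw [B3_sum_mul (l.map Prod.snd) (fun z => x.1 (z e) (z x.2))
        (fun z => B3_vl z x.2 (l ++ [(M, e')]))]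
      · rw [ih x.2 _ hn.2 hn.1 he'.2]
        rw [Function.update_self, Function.update_of_ne he.1, Function.update_of_ne he'.1]
      · intro e1 he1 z1 a1
        have g1 : e ≠ e1 := fun h => he.2 (h ▸ he1)
        have g2 : x.2 ≠ e1 := fun h => hn.1 (h ▸ he1)
        simp only [Function.update_of_ne g1, Function.update_of_ne g2]
    rw [Finset.sum_congr rfl fun a _ => h1 a]
    have h2 : B3_pr (x :: (l ++ [(M, e')])) = x.1 * B3_pr (l ++ [(M, e')]) := by
      simp [B3_pr]
    rw [h2, Matrix.mul_apply]

private theorem B3_closed (l : List (Matrix ι ι A × E)) (e : E) (z : E → ι) (hl : l ≠ [])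
    (hn : (l.map Prod.snd).Nodup) (hla : B3_la e l = e) :
    B3_sum (l.map Prod.snd) (fun z => B3_vl z e l) z = Matrix.trace (B3_pr l) := by
  obtain ⟨l', x, rfl⟩ : ∃ l' x, l = l' ++ [x] :=
    ⟨l.dropLast, l.getLast hl, (List.dropLast_append_getLast hl).symm⟩
  obtain ⟨M, e'⟩ := x
  have h1 : e' = e := by
    rw [B3_la_append] at hla
    exact hla
  subst h1
  simp only [List.map_append, List.map_cons, List.map_nil] at hn ⊢
  have hp : (l'.map Prod.snd ++ [e']).Perm (e' :: l'.map Prod.snd) :=
    List.perm_append_singleton _ _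
  have hn' := hp.nodup_iff.1 hn
  rw [List.nodup_cons] at hn'
  rw [B3_sum_perm hp, B3_sum]
  have h2 : ∀ a, B3_sum (l'.map Prod.snd) (fun z => B3_vl z e' (l' ++ [(M, e')]))
      (Function.update z e' a) = B3_pr (l' ++ [(M, e')]) a a := by
    intro a
    rw [B3_open l' M e' e' _ hn'.2 hn'.1 hn'.1, Function.update_self]
  rw [Finset.sum_congr rfl fun a _ => h2 a]
  rfl

end gen

section edges

variable {A : Type} [CommRing A] (q : Aˣ) {N : ℕ} (F : Strand → Matrix (Lab N) (Lab N) A)
  (r : ℕ → ℕ → ℕ)

/-- links of a chain of ends of strands -/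
private abbrev B3_L (A : Type) (N : ℕ) : Type := Matrix (Lab N) (Lab N) A × (Strand × Bool)

private def B3_b4 (i j t : ℕ) : List (B3_L A N) :=
  [(F (i, j, 2 * t), ((i, j, 2 * t), true)), (cM q, ((i, j, 2 * t + 1), true)),
    ((F (i, j, 2 * t + 1)).transpose, ((i, j, 2 * t + 1), false)),
    (uM q, ((i, j, 2 * t + 2), false))]

private def B3_b3 (i j t : ℕ) : List (B3_L A N) :=
  [(F (i, j, 2 * t), ((i, j, 2 * t), true)), (cM q, ((i, j, 2 * t + 1), true)),
    ((F (i, j, 2 * t + 1)).transpose, ((i, j, 2 * t + 1), false))]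

private def B3_fch (i j : ℕ) : List (B3_L A N) :=
  (List.range (r i j)).flatMap (B3_b4 q F i j) ++ B3_b3 q F i j (r i j)

private def B3_Fv (z : Strand × Bool → Lab N) (s : Strand) : A := F s (z (s, false)) (z (s, true))

private def B3_cap (z : Strand × Bool → Lab N) (i j t : ℕ) : A :=
  capw q (z ((i, j, 2 * t), true)) (z ((i, j, 2 * t + 1), true))

private def B3_cup (z : Strand × Bool → Lab N) (i j t : ℕ) : A :=
  cupw q (z ((i, j, 2 * t + 1), false)) (z ((i, j, 2 * t + 2), false))

private theorem B3_pr_flat {α : Type} (l : List α) (f : α → List (B3_L A N)) :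
    B3_pr (l.flatMap f) = (l.map fun x => B3_pr (f x)).prod := by
  induction l with
  | nil => simp [B3_pr]
  | cons x l ih => rw [List.flatMap_cons, B3_pr_append, ih, List.map_cons, List.prod_cons]

private theorem B3_pr_fch (i j : ℕ) : B3_pr (B3_fch q F r i j) = fwd q F r i j := by
  rw [B3_fch, B3_pr_append, B3_pr_flat, fwd]
  have h1 : ∀ t, B3_pr (B3_b4 q F i j t) =
      F (i, j, 2 * t) * cM q * (F (i, j, 2 * t + 1)).transpose * uM q := by
    intro t
    simp [B3_pr, B3_b4, mul_assoc]
  have h2 : ∀ t, B3_pr (B3_b3 q F i j t) =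
      F (i, j, 2 * t) * cM q * (F (i, j, 2 * t + 1)).transpose := by
    intro t
    simp [B3_pr, B3_b3, mul_assoc]
  rw [h2]
  simp only [h1]

private theorem B3_la_flat (i j R : ℕ) :
    B3_la ((i, j, 0), false) ((List.range R).flatMap (B3_b4 q F i j)) =
      ((i, j, 2 * R), false) := by
  induction R with
  | zero => rfl
  | succ R ih =>
    rw [List.range_succ, List.flatMap_append, B3_la_append, ih]
    rfl

private theorem B3_vl_flat (z : Strand × Bool → Lab N) (i j R : ℕ) :
    B3_vl z ((i, j, 0), false) ((List.range R).flatMap (B3_b4 q F i j)) =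
      (∏ t ∈ Finset.range (2 * R), B3_Fv F z (i, j, t)) *
        (∏ t ∈ Finset.range R, B3_cap q z i j t) * ∏ t ∈ Finset.range R, B3_cup q z i j t := by
  induction R with
  | zero => simp [B3_vl]
  | succ R ih =>
    rw [List.range_succ, List.flatMap_append, B3_vl_append, ih, B3_la_flat]
    have h1 : 2 * (R + 1) = 2 * R + 1 + 1 := by ring
    rw [h1]
    simp only [Finset.prod_range_succ, List.flatMap_cons, List.flatMap_nil, List.append_nil,
      B3_b4, B3_vl, B3_Fv, B3_cap, B3_cup, cM, uM, Matrix.of_apply, Matrix.transpose_apply]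
    ring

/-- the factors of an edge -/
private def B3_EP (z : Strand × Bool → Lab N) (i j : ℕ) : A :=
  (∏ t ∈ Finset.range (2 * r i j + 2), B3_Fv F z (i, j, t)) *
    (∏ t ∈ Finset.range (r i j + 1), B3_cap q z i j t) *
      ∏ t ∈ Finset.range (r i j), B3_cup q z i j t

private theorem B3_vl_fch (z : Strand × Bool → Lab N) (i j : ℕ) :
    B3_vl z ((i, j, 0), false) (B3_fch q F r i j) = B3_EP q F r z i j := by
  rw [B3_fch, B3_vl_append, B3_la_flat, B3_vl_flat, B3_EP]
  simp only [Finset.prod_range_succ,
      B3_b3, B3_vl, B3_Fv, B3_cap, B3_cup, cM, Matrix.of_apply, Matrix.transpose_apply]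
  ring

private theorem B3_la_fch (i j : ℕ) :
    B3_la ((i, j, 0), false) (B3_fch q F r i j) = ((i, j, 2 * r i j + 1), false) := by
  rw [B3_fch, B3_la_append, B3_la_flat]
  rfl

/-- the strands of an edge, as a multiset of ends -/
private def B3_en (i j R : ℕ) : Multiset (Strand × Bool) :=
  ∑ t ∈ Finset.range R, (({((i, j, t), false)} : Multiset (Strand × Bool)) + {((i, j, t), true)})

private theorem B3_ends_flat (i j R : ℕ) :
    ((((i, j, 0), false) :: ((List.range R).flatMap (B3_b4 q F i j)).map Prod.snd :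
      List (Strand × Bool)) : Multiset (Strand × Bool)) =
      B3_en i j (2 * R) + {((i, j, 2 * R), false)} := by
  induction R with
  | zero => simp [B3_en]
  | succ R ih =>
    rw [List.range_succ, List.flatMap_append, List.map_append, ← List.cons_append,
      ← Multiset.coe_add, ih]
    have h1 : 2 * (R + 1) = 2 * R + 1 + 1 := by ring
    rw [h1, B3_en, B3_en, Finset.sum_range_succ, Finset.sum_range_succ]
    have h2 : ((((List.flatMap (B3_b4 q F i j) [R]).map Prod.snd : List (Strand × Bool)) :
        Multiset (Strand × Bool))) = {((i, j, 2 * R), true)} + {((i, j, 2 * R + 1), true)} +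
          {((i, j, 2 * R + 1), false)} + {((i, j, 2 * R + 1 + 1), false)} := by
      rfl
    rw [h2]
    abel

private theorem B3_ends_fch (i j : ℕ) :
    ((((i, j, 0), false) :: (B3_fch q F r i j).map Prod.snd :
      List (Strand × Bool)) : Multiset (Strand × Bool)) = B3_en i j (2 * r i j + 2) := by
  rw [B3_fch, List.map_append, ← List.cons_append, ← Multiset.coe_add, B3_ends_flat]
  have h1 : ((((B3_b3 q F i j (r i j)).map Prod.snd : List (Strand × Bool)) :
        Multiset (Strand × Bool))) = {((i, j, 2 * r i j), true)} +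
          {((i, j, 2 * r i j + 1), true)} + {((i, j, 2 * r i j + 1), false)} := by
      rfl
  rw [h1, B3_en, B3_en, Finset.sum_range_succ, Finset.sum_range_succ]
  abel

/-- the strand of the edge `v w` at `v` -/
private def B3_str (v w : ℕ) : Strand := if v < w then (v, w, 0) else (w, v, 2 * r w v + 1)

/-- the chain of the edge from `v` to `w` -/
private def B3_ech (v w : ℕ) : List (B3_L A N) :=
  if v < w then B3_fch q F r v w else B3_rev ((w, v, 0), false) (B3_fch q F r w v)

private theorem B3_pr_ech (v w : ℕ) : B3_pr (B3_ech q F r v w) = edgM q F r v w := by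
  unfold B3_ech edgM
  by_cases h : v < w
  · rw [if_pos h, if_pos h, B3_pr_fch]
  · rw [if_neg h, if_neg h, B3_pr_rev, B3_pr_fch]

private theorem B3_vl_ech (z : Strand × Bool → Lab N) (v w : ℕ) :
    B3_vl z (B3_str r v w, false) (B3_ech q F r v w) = B3_EP q F r z (min v w) (max v w) := by
  unfold B3_ech B3_str
  by_cases h : v < w
  · rw [if_pos h, if_pos h, B3_vl_fch, min_eq_left h.le, max_eq_right h.le]
  · rw [if_neg h, if_neg h, ← B3_la_fch q F r w v, B3_vl_rev, B3_vl_fch,
      min_eq_right (not_lt.1 h), max_eq_left (not_lt.1 h)]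

private theorem B3_la_ech {v w : ℕ} (hvw : v ≠ w) :
    B3_la (B3_str r v w, false) (B3_ech q F r v w) = (B3_str r w v, false) := by
  unfold B3_ech B3_str
  by_cases h : v < w
  · rw [if_pos h, if_pos h, B3_la_fch, if_neg (not_lt.2 h.le)]
  · have h' : w < v := lt_of_le_of_ne (not_lt.1 h) (Ne.symm hvw)
    rw [if_neg h, if_neg h, ← B3_la_fch q F r w v, B3_la_rev, if_pos h']

private theorem B3_ends_ech (v w : ℕ) :
    (((B3_str r v w, false) :: (B3_ech q F r v w).map Prod.snd :
      List (Strand × Bool)) : Multiset (Strand × Bool)) =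
      B3_en (min v w) (max v w) (2 * r (min v w) (max v w) + 2) := by
  unfold B3_ech B3_str
  by_cases h : v < w
  · rw [if_pos h, if_pos h, B3_ends_fch, min_eq_left h.le, max_eq_right h.le]
  · rw [if_neg h, if_neg h, ← B3_la_fch q F r w v,
      Multiset.coe_eq_coe.2 (B3_ends_rev ((w, v, 0), false) (B3_fch q F r w v)), B3_ends_fch,
      min_eq_right (not_lt.1 h), max_eq_left (not_lt.1 h)]

/-- the factor of a vertex `v` with the neighbours `u`, `w` -/
private def B3_VF (z : Strand × Bool → Lab N) (v u w : ℕ) : A :=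
  cupw q (z (B3_str r v (min u w), false)) (z (B3_str r v (max u w), false))

private theorem B3_vrt (z : Strand × Bool → Lab N) (v u w : ℕ) :
    (vrt q u w : Matrix (Lab N) (Lab N) A) (z (B3_str r v u, false)) (z (B3_str r v w, false)) =
      B3_VF q r z v u w := by
  unfold vrt B3_VF
  by_cases h : u < w
  · rw [if_pos h, min_eq_left h.le, max_eq_right h.le, uM, Matrix.of_apply]
  · rw [if_neg h, min_eq_right (not_lt.1 h), max_eq_left (not_lt.1 h), uM,
      Matrix.transpose_apply, Matrix.of_apply]

end edges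

/-- the vertices of the cycle, with cyclic numbers -/
private def B3_ga (c : List ℕ) (k : ℕ) : ℕ := c.getD (k % c.length) 0

section cyc

variable {A : Type} [CommRing A] (q : Aˣ) {N : ℕ} (F : Strand → Matrix (Lab N) (Lab N) A)
  (r : ℕ → ℕ → ℕ) (c : List ℕ)

private def B3_blk (k : ℕ) : List (B3_L A N) :=
  B3_ech q F r (B3_ga c k) (B3_ga c (k + 1)) ++
    [(vrt q (B3_ga c k) (B3_ga c (k + 2)), (B3_str r (B3_ga c (k + 1)) (B3_ga c (k + 2)), false))]

private def B3_tot (K : ℕ) : List (B3_L A N) := (List.range K).flatMap (B3_blk q F r c)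

private theorem B3_la_tot (K : ℕ) :
    B3_la (B3_str r (B3_ga c 0) (B3_ga c 1), false) (B3_tot q F r c K) =
      (B3_str r (B3_ga c K) (B3_ga c (K + 1)), false) := by
  induction K with
  | zero => rfl
  | succ K ih =>
    rw [B3_tot, List.range_succ, List.flatMap_append, B3_la_append, ← B3_tot, ih,
      List.flatMap_singleton, B3_blk, B3_la_append]
    rfl

private theorem B3_vl_tot (h : ∀ k, B3_ga c k ≠ B3_ga c (k + 1)) (z : Strand × Bool → Lab N)
    (K : ℕ) :
    B3_vl z (B3_str r (B3_ga c 0) (B3_ga c 1), false) (B3_tot q F r c K) =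
      ∏ k ∈ Finset.range K, (B3_EP q F r z (min (B3_ga c k) (B3_ga c (k + 1)))
        (max (B3_ga c k) (B3_ga c (k + 1))) *
          B3_VF q r z (B3_ga c (k + 1)) (B3_ga c k) (B3_ga c (k + 2))) := by
  induction K with
  | zero => rfl
  | succ K ih =>
    rw [B3_tot, List.range_succ, List.flatMap_append, B3_vl_append, ← B3_tot, ih, B3_la_tot,
      List.flatMap_singleton, B3_blk, B3_vl_append, B3_vl_ech, B3_la_ech q F r (h K),
      Finset.prod_range_succ, B3_vl, B3_vl, mul_one]
    exact congrArg _ (congrArg _ (B3_vrt q r z _ _ _))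

private theorem B3_ends_tot (K : ℕ) :
    (((B3_tot q F r c K).map Prod.snd : List (Strand × Bool)) : Multiset (Strand × Bool)) +
      {(B3_str r (B3_ga c 0) (B3_ga c 1), false)} =
      (∑ k ∈ Finset.range K, B3_en (min (B3_ga c k) (B3_ga c (k + 1)))
        (max (B3_ga c k) (B3_ga c (k + 1)))
        (2 * r (min (B3_ga c k) (B3_ga c (k + 1))) (max (B3_ga c k) (B3_ga c (k + 1))) + 2)) +
        {(B3_str r (B3_ga c K) (B3_ga c (K + 1)), false)} := by
  induction K with
  | zero => simp [B3_tot]
  | succ K ih =>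
    rw [B3_tot, List.range_succ, List.flatMap_append, List.map_append, ← Multiset.coe_add,
      ← B3_tot, Finset.sum_range_succ, ← B3_ends_ech q F r, List.flatMap_singleton, B3_blk,
      List.map_append, ← Multiset.coe_add, ← Multiset.cons_coe, ← Multiset.singleton_add]
    have h1 : ((([(vrt q (B3_ga c K) (B3_ga c (K + 2)), ((B3_str r (B3_ga c (K + 1))
        (B3_ga c (K + 2)), false) : Strand × Bool))] : List (B3_L A N)).map Prod.snd :
          List (Strand × Bool)) : Multiset (Strand × Bool)) =
        {(B3_str r (B3_ga c (K + 1)) (B3_ga c (K + 2)), false)} := rfl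
    rw [h1]
    have h2 := congrArg (fun s => s + ((((B3_ech q F r (B3_ga c K) (B3_ga c (K + 1))).map
      Prod.snd : List (Strand × Bool)) : Multiset (Strand × Bool)) +
        {(B3_str r (B3_ga c (K + 1)) (B3_ga c (K + 2)), false)})) ih
    beta_reduce at h2
    have h3 : K + 1 + 1 = K + 2 := rfl
    rw [h3]
    calc _ = _ := by abel
      _ = _ := h2
      _ = _ := by abel

private theorem B3_pr_tot : B3_pr (B3_tot q F r c c.length) = loopM q F r c := by
  rw [B3_tot, B3_pr_flat, loopM]
  congr 1
  refine List.map_congr_left fun k hk => ?_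
  rw [B3_blk, B3_pr_append, B3_pr_ech]
  have h1 : B3_ga c k = c.getD k 0 := by
    rw [B3_ga, Nat.mod_eq_of_lt (List.mem_range.1 hk)]
  rw [h1]
  simp [B3_pr, B3_ga]

end cyc

section comb

variable {n : ℕ} {c : List ℕ}

private theorem B3_ga_inj (hc : c.Nodup) (hm : 0 < c.length) {a b : ℕ}
    (h : B3_ga c a = B3_ga c b) : a % c.length = b % c.length := by
  have ha := Nat.mod_lt a hm
  have hb := Nat.mod_lt b hm
  rw [B3_ga, B3_ga, List.getD_eq_getElem _ _ ha, List.getD_eq_getElem _ _ hb] at h
  exact (hc.getElem_inj_iff).1 h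

private theorem B3_ga_mem (hm : 0 < c.length) (k : ℕ) : B3_ga c k ∈ c := by
  rw [B3_ga, List.getD_eq_getElem _ _ (Nat.mod_lt k hm)]
  exact List.getElem_mem _

private theorem B3_ga_add (k : ℕ) : B3_ga c (c.length + k) = B3_ga c k := by
  rw [B3_ga, B3_ga, Nat.add_mod_left]

private theorem B3_zip (i j : ℕ) : (i, j) ∈ c.zip (c.rotate 1) ↔
    ∃ k < c.length, B3_ga c k = i ∧ B3_ga c (k + 1) = j := by
  rw [List.mem_iff_getElem]
  constructor
  · rintro ⟨k, hk, h⟩
    have hk' : k < c.length := by simpa using hk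
    have hk1 : (k + 1) % c.length < c.length := Nat.mod_lt _ (by omega)
    rw [List.getElem_zip, List.getElem_rotate, Prod.mk.injEq] at h
    refine ⟨k, hk', ?_, ?_⟩
    · rw [B3_ga, Nat.mod_eq_of_lt hk', List.getD_eq_getElem _ _ hk']
      exact h.1
    · rw [B3_ga, List.getD_eq_getElem _ _ hk1]
      exact h.2
  · rintro ⟨k, hk, rfl, rfl⟩
    have hk1 : (k + 1) % c.length < c.length := Nat.mod_lt _ (by omega)
    refine ⟨k, by simpa using hk, ?_⟩
    rw [List.getElem_zip, List.getElem_rotate, B3_ga, B3_ga, Nat.mod_eq_of_lt hk,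
      List.getD_eq_getElem _ _ hk, List.getD_eq_getElem _ _ hk1]

private theorem B3_edge (i j : ℕ) : edge c i j = true ↔
    ∃ k < c.length, (B3_ga c k = i ∧ B3_ga c (k + 1) = j) ∨
      (B3_ga c k = j ∧ B3_ga c (k + 1) = i) := by
  rw [edge, decide_eq_true_iff, B3_zip, B3_zip]
  constructor
  · rintro (⟨k, hk, h⟩ | ⟨k, hk, h⟩)
    · exact ⟨k, hk, Or.inl h⟩
    · exact ⟨k, hk, Or.inr h⟩
  · rintro ⟨k, hk, h | h⟩
    · exact Or.inl ⟨k, hk, h⟩
    · exact Or.inr ⟨k, hk, h⟩

private theorem B3_edge_symm (i j : ℕ) : edge c i j = edge c j i := by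
  rw [Bool.eq_iff_iff, B3_edge, B3_edge]
  constructor
  · rintro ⟨k, hk, h | h⟩
    · exact ⟨k, hk, Or.inr h⟩
    · exact ⟨k, hk, Or.inl h⟩
  · rintro ⟨k, hk, h | h⟩
    · exact ⟨k, hk, Or.inr h⟩
    · exact ⟨k, hk, Or.inl h⟩

private theorem B3_ga_ne (hc : IsCycle n c) (k : ℕ) : B3_ga c k ≠ B3_ga c (k + 1) := by
  intro h
  have hm := hc.2.1
  have h1 := B3_ga_inj hc.1 (by omega) h
  have h2 : (k + 1) % c.length = (k % c.length + 1) % c.length := by
    rw [Nat.add_mod, Nat.mod_eq_of_lt (show 1 < c.length by omega)]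
  rw [h2] at h1
  have h3 := Nat.mod_lt k (show 0 < c.length by omega)
  rcases Nat.lt_or_ge (k % c.length + 1) c.length with h4 | h4
  · rw [Nat.mod_eq_of_lt h4] at h1
    omega
  · have h5 : k % c.length + 1 = c.length := by omega
    rw [h5, Nat.mod_self] at h1
    omega

/-- the edges of the cycle are different -/
private theorem B3_pair_inj (hc : IsCycle n c) {k k' : ℕ} (hk : k < c.length)
    (hk' : k' < c.length)
    (h : min (B3_ga c k) (B3_ga c (k + 1)) = min (B3_ga c k') (B3_ga c (k' + 1)) ∧
      max (B3_ga c k) (B3_ga c (k + 1)) = max (B3_ga c k') (B3_ga c (k' + 1))) : k = k' := by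
  have hm := hc.2.1
  have h1 : (B3_ga c k = B3_ga c k' ∧ B3_ga c (k + 1) = B3_ga c (k' + 1)) ∨
      (B3_ga c k = B3_ga c (k' + 1) ∧ B3_ga c (k + 1) = B3_ga c k') := by
    rcases le_total (B3_ga c k) (B3_ga c (k + 1)) with a1 | a1 <;>
    rcases le_total (B3_ga c k') (B3_ga c (k' + 1)) with a2 | a2 <;>
    simp only [min_eq_left, min_eq_right, max_eq_left, max_eq_right, a1, a2] at h <;>
    omega
  have hm0 : 0 < c.length := by omega
  rcases h1 with h1 | h1
  · have h2 := B3_ga_inj hc.1 hm0 h1.1
    rw [Nat.mod_eq_of_lt hk, Nat.mod_eq_of_lt hk'] at h2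
    exact h2
  · have h2 := B3_ga_inj hc.1 hm0 h1.1
    have h3 := B3_ga_inj hc.1 hm0 h1.2
    rw [Nat.mod_eq_of_lt hk] at h2
    rw [Nat.mod_eq_of_lt hk'] at h3
    rcases Nat.lt_or_ge (k + 1) c.length with g1 | g1
    · rw [Nat.mod_eq_of_lt g1] at h3
      rcases Nat.lt_or_ge (k' + 1) c.length with g2 | g2
      · rw [Nat.mod_eq_of_lt g2] at h2
        omega
      · have g3 : k' + 1 = c.length := by omega
        rw [g3, Nat.mod_self] at h2
        omega
    · have g3 : k + 1 = c.length := by omega
      rw [g3, Nat.mod_self] at h3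
      rcases Nat.lt_or_ge (k' + 1) c.length with g2 | g2
      · rw [Nat.mod_eq_of_lt g2] at h2
        omega
      · omega

/-- the strands of the edges of the cycle -/
private def B3_S (c : List ℕ) (h : ℕ → ℕ → ℕ) : List Strand :=
  (List.range c.length).flatMap fun k =>
    (List.range (h (min (B3_ga c k) (B3_ga c (k + 1))) (max (B3_ga c k) (B3_ga c (k + 1))))).map
      fun t => (min (B3_ga c k) (B3_ga c (k + 1)), max (B3_ga c k) (B3_ga c (k + 1)), t)

private theorem B3_S_nodup (hc : IsCycle n c) (h : ℕ → ℕ → ℕ) : (B3_S c h).Nodup := by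
  rw [B3_S, List.nodup_flatMap]
  constructor
  · intro k _
    refine List.Nodup.map ?_ List.nodup_range
    intro t t' htt
    simpa using htt
  · refine List.nodup_range.pairwise_of_forall_ne ?_
    intro k hk k' hk' hne s hs hs'
    obtain ⟨t, _, rfl⟩ := List.mem_map.1 hs
    obtain ⟨t', _, h'⟩ := List.mem_map.1 hs'
    simp only [Prod.mk.injEq] at h'
    exact hne (B3_pair_inj hc (List.mem_range.1 hk) (List.mem_range.1 hk')
      ⟨h'.1.symm, h'.2.1.symm⟩)

private theorem B3_S_perm (hc : IsCycle n c) (h : ℕ → ℕ → ℕ) (l : List Strand) (hl : l.Nodup)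
    (hmem : ∀ i j t, (i, j, t) ∈ l ↔ i < j ∧ j < n ∧ t < h i j) :
    (l.filter fun s => edge c s.1 s.2.1).Perm (B3_S c h) := by
  refine (List.perm_ext_iff_of_nodup (hl.filter _) (B3_S_nodup hc h)).2 ?_
  rintro ⟨i, j, t⟩
  rw [List.mem_filter, hmem, B3_edge, B3_S, List.mem_flatMap]
  constructor
  · rintro ⟨⟨h1, h2, h3⟩, k, hk, ⟨rfl, rfl⟩ | ⟨rfl, rfl⟩⟩
    · refine ⟨k, List.mem_range.2 hk, List.mem_map.2 ⟨t, ?_, ?_⟩⟩
      · rw [min_eq_left h1.le, max_eq_right h1.le]
        exact List.mem_range.2 h3
      · rw [min_eq_left h1.le, max_eq_right h1.le]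
    · refine ⟨k, List.mem_range.2 hk, List.mem_map.2 ⟨t, ?_, ?_⟩⟩
      · rw [min_eq_right h1.le, max_eq_left h1.le]
        exact List.mem_range.2 h3
      · rw [min_eq_right h1.le, max_eq_left h1.le]
  · rintro ⟨k, hk, h'⟩
    obtain ⟨t', ht', he⟩ := List.mem_map.1 h'
    simp only [Prod.mk.injEq] at he
    obtain ⟨rfl, rfl, rfl⟩ := he
    have hm0 : 0 < c.length := by
      have := hc.2.1
      omega
    have hlt := hc.2.2 _ (B3_ga_mem hm0 k)
    have hlt' := hc.2.2 _ (B3_ga_mem hm0 (k + 1))
    have hne := B3_ga_ne hc k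
    refine ⟨⟨?_, ?_, List.mem_range.1 ht'⟩, k, List.mem_range.1 hk, ?_⟩
    · rcases lt_or_gt_of_ne hne with g | g
      · rw [min_eq_left g.le, max_eq_right g.le]
        exact g
      · rw [min_eq_right g.le, max_eq_left g.le]
        exact g
    · exact max_lt hlt hlt'
    · rcases lt_or_gt_of_ne hne with g | g
      · left
        rw [min_eq_left g.le, max_eq_right g.le]
        exact ⟨rfl, rfl⟩
      · right
        rw [min_eq_right g.le, max_eq_left g.le]
        exact ⟨rfl, rfl⟩

private theorem B3_S_prod {A : Type} [CommRing A] (h : ℕ → ℕ → ℕ) (Φ : Strand → A) :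
    ((B3_S c h).map Φ).prod = ∏ k ∈ Finset.range c.length,
      ∏ t ∈ Finset.range (h (min (B3_ga c k) (B3_ga c (k + 1)))
        (max (B3_ga c k) (B3_ga c (k + 1)))),
        Φ (min (B3_ga c k) (B3_ga c (k + 1)), max (B3_ga c k) (B3_ga c (k + 1)), t) := by
  rw [B3_S]
  have h1 : ∀ (K : ℕ) (f : ℕ → List Strand), (((List.range K).flatMap f).map Φ).prod =
      ∏ k ∈ Finset.range K, ((f k).map Φ).prod := by
    intro K f
    induction K with
    | zero => simp
    | succ K ih =>
      rw [List.range_succ, List.flatMap_append, List.map_append, List.prod_append, ih,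
        Finset.prod_range_succ, List.flatMap_singleton]
  rw [h1]
  refine Finset.prod_congr rfl fun k _ => ?_
  rw [List.map_map]
  have h2 : ∀ (R : ℕ) (f : ℕ → A), ((List.range R).map f).prod = ∏ t ∈ Finset.range R, f t := by
    intro R f
    induction R with
    | zero => simp
    | succ R ih =>
      rw [List.range_succ, List.map_append, List.prod_append, ih, Finset.prod_range_succ]
      simp
  rw [h2]
  rfl

private theorem B3_S_en (c : List ℕ) (h : ℕ → ℕ → ℕ) :
    ((((B3_S c h).map fun s => ((s, false) : Strand × Bool)) ++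
      ((B3_S c h).map fun s => ((s, true) : Strand × Bool)) : List (Strand × Bool)) :
        Multiset (Strand × Bool)) =
      ∑ k ∈ Finset.range c.length, B3_en (min (B3_ga c k) (B3_ga c (k + 1)))
        (max (B3_ga c k) (B3_ga c (k + 1)))
        (h (min (B3_ga c k) (B3_ga c (k + 1))) (max (B3_ga c k) (B3_ga c (k + 1)))) := by
  rw [B3_S, ← Multiset.coe_add]
  have h1 : ∀ (K : ℕ) (f : ℕ → List Strand) (b : Bool),
      ((((List.range K).flatMap f).map fun s => ((s, b) : Strand × Bool) :
        List (Strand × Bool)) : Multiset (Strand × Bool)) =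
      ∑ k ∈ Finset.range K, (((f k).map fun s => ((s, b) : Strand × Bool) :
        List (Strand × Bool)) : Multiset (Strand × Bool)) := by
    intro K f b
    induction K with
    | zero => simp
    | succ K ih =>
      rw [List.range_succ, List.flatMap_append, List.map_append, ← Multiset.coe_add, ih,
        Finset.sum_range_succ, List.flatMap_singleton]
  rw [h1, h1, ← Finset.sum_add_distrib]
  refine Finset.sum_congr rfl fun k _ => ?_
  generalize min (B3_ga c k) (B3_ga c (k + 1)) = i
  generalize max (B3_ga c k) (B3_ga c (k + 1)) = j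
  have h2 : ∀ (R : ℕ) (b : Bool), ((((List.range R).map fun t => ((i, j, t) : Strand)).map
      fun s => ((s, b) : Strand × Bool) : List (Strand × Bool)) : Multiset (Strand × Bool)) =
      ∑ t ∈ Finset.range R, ({((i, j, t), b)} : Multiset (Strand × Bool)) := by
    intro R b
    induction R with
    | zero => simp
    | succ R ih =>
      rw [List.range_succ, List.map_append, List.map_append, ← Multiset.coe_add, ih,
        Finset.sum_range_succ]
      rfl
  rw [h2, h2, B3_en, Finset.sum_add_distrib]

end comb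

section rows

private theorem B3_prs_append {α : Type} : ∀ (l l' : List α), Even l.length →
    prs (l ++ l') = prs l ++ prs l'
  | [], l', _ => by simp [prs]
  | [a], l', h => by
    rw [List.length_singleton] at h
    exact absurd h (by decide)
  | a :: b :: l, l', h => by
    have h' : Even l.length := by
      simp only [List.length_cons] at h
      obtain ⟨t, ht⟩ := h
      exact ⟨t - 1, by omega⟩
    simp [prs, B3_prs_append l l' h']

variable {A : Type} [CommRing A] (q : Aˣ) {N : ℕ}

private theorem B3_cupP_append (l l' : List Strand) (h : Even l.length) (f : Strand → Lab N) :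
    cupP q (l ++ l') f = cupP q l f * cupP q l' f := by
  rw [cupP, B3_prs_append l l' h, List.map_append, List.prod_append]
  rfl

private theorem B3_flat_even {α : Type} (row : ℕ → List α) (h : ∀ v, Even (row v).length) (K : ℕ) :
    Even ((List.range K).flatMap row).length := by
  induction K with
  | zero => simp
  | succ K ih =>
    rw [List.range_succ, List.flatMap_append, List.length_append, List.flatMap_singleton]
    exact ih.add (h K)

private theorem B3_cupP_flat (row : ℕ → List Strand) (h : ∀ v, Even (row v).length)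
    (f : Strand → Lab N) (K : ℕ) :
    cupP q ((List.range K).flatMap row) f = ∏ v ∈ Finset.range K, cupP q (row v) f := by
  induction K with
  | zero => simp [cupP, prs]
  | succ K ih =>
    rw [List.range_succ, List.flatMap_append, B3_cupP_append q _ _ (B3_flat_even row h K), ih,
      Finset.prod_range_succ, List.flatMap_singleton]

private theorem B3_cupP_minrow (l : List Strand) (f : Strand → Lab N) :
    cupP q (minrow l) f = (l.map fun m => cupw q (f (m.1, m.2.1, 2 * m.2.2 + 1))
      (f (m.1, m.2.1, 2 * m.2.2 + 2))).prod := by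
  induction l with
  | nil => simp [cupP, prs, minrow]
  | cons m l ih =>
    have h1 : minrow (m :: l) =
        (m.1, m.2.1, 2 * m.2.2 + 1) :: (m.1, m.2.1, 2 * m.2.2 + 2) :: minrow l := rfl
    rw [h1, cupP, prs, List.map_cons, List.prod_cons, List.map_cons, List.prod_cons, ← ih]
    rfl

private theorem B3_capP_maxrow (l : List Strand) (f : Strand → Lab N) :
    capP q (maxrow l) f = (l.map fun m => capw q (f (m.1, m.2.1, 2 * m.2.2))
      (f (m.1, m.2.1, 2 * m.2.2 + 1))).prod := by
  induction l with
  | nil => simp [capP, prs, maxrow]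
  | cons m l ih =>
    have h1 : maxrow (m :: l) =
        (m.1, m.2.1, 2 * m.2.2) :: (m.1, m.2.1, 2 * m.2.2 + 1) :: maxrow l := rfl
    rw [h1, capP, prs, List.map_cons, List.prod_cons, List.map_cons, List.prod_cons, ← ih]
    rfl

private theorem B3_filter_minrow (l : List Strand) (K : ℕ → ℕ → Bool) :
    (minrow l).filter (fun s => K s.1 s.2.1) = minrow (l.filter fun s => K s.1 s.2.1) := by
  induction l with
  | nil => rfl
  | cons m l ih =>
    have h1 : minrow (m :: l) =
        (m.1, m.2.1, 2 * m.2.2 + 1) :: (m.1, m.2.1, 2 * m.2.2 + 2) :: minrow l := rfl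
    rw [h1]
    cases hK : K m.1 m.2.1
    · simp [hK, ih]
    · simp only [List.filter_cons, hK, ih, if_true]
      rfl

private theorem B3_filter_maxrow (l : List Strand) (K : ℕ → ℕ → Bool) :
    (maxrow l).filter (fun s => K s.1 s.2.1) = maxrow (l.filter fun s => K s.1 s.2.1) := by
  induction l with
  | nil => rfl
  | cons m l ih =>
    have h1 : maxrow (m :: l) =
        (m.1, m.2.1, 2 * m.2.2) :: (m.1, m.2.1, 2 * m.2.2 + 1) :: maxrow l := rfl
    rw [h1]
    cases hK : K m.1 m.2.1
    · simp [hK, ih]
    · simp only [List.filter_cons, hK, ih, if_true]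
      rfl

private theorem B3_range_filter {a b : ℕ} (hab : a < b) (n : ℕ) :
    (List.range n).filter (fun j => decide (j = a ∨ j = b)) =
      (if a < n then [a] else []) ++ (if b < n then [b] else []) := by
  induction n with
  | zero => simp
  | succ n ih =>
    rw [List.range_succ, List.filter_append, ih]
    by_cases h1 : n = a
    · subst h1
      have g1 : ¬ n < n := lt_irrefl n
      have g2 : ¬ b < n := by omega
      have g3 : n < n + 1 := by omega
      have g4 : ¬ b < n + 1 := by omega
      simp [g2, g4]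
    · by_cases h2 : n = b
      · subst h2
        have g1 : a < n + 1 := by omega
        simp [hab, g1]
      · by_cases h3 : a < n
        · have g1 : a < n + 1 := by omega
          by_cases h4 : b < n
          · have g2 : b < n + 1 := by omega
            simp [h1, h2, h3, h4, g1, g2]
          · have g2 : ¬ b < n + 1 := by omega
            simp [h1, h2, h3, h4, g1, g2]
        · have g1 : ¬ a < n + 1 := by omega
          have g2 : ¬ b < n := by omega
          have g3 : ¬ b < n + 1 := by omega
          simp [h1, h2, h3, g1, g2, g3]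

variable (r : ℕ → ℕ → ℕ) {n : ℕ} {c : List ℕ}

private theorem B3_vrow_eq (v : ℕ) :
    vrow r n v = ((List.range n).filter fun j => decide (j ≠ v)).map (B3_str r v) := rfl

private theorem B3_edge_str {v j : ℕ} :
    edge c (B3_str r v j).1 (B3_str r v j).2.1 = edge c v j := by
  unfold B3_str
  by_cases h : v < j
  · rw [if_pos h]
  · rw [if_neg h]
    exact B3_edge_symm j v

private theorem B3_row0 {v : ℕ} (hc : IsCycle n c) (hv : v ∉ c) :
    (vrow r n v).filter (fun s => edge c s.1 s.2.1) = [] := by
  rw [List.filter_eq_nil_iff]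
  intro s hs
  rw [B3_vrow_eq] at hs
  obtain ⟨j, _, rfl⟩ := List.mem_map.1 hs
  rw [B3_edge_str, B3_edge]
  have hm0 : 0 < c.length := by
    have := hc.2.1
    omega
  rintro ⟨k, _, ⟨rfl, _⟩ | ⟨_, rfl⟩⟩
  · exact hv (B3_ga_mem hm0 k)
  · exact hv (B3_ga_mem hm0 (k + 1))

private theorem B3_ga_congr {a b : ℕ} (h : a % c.length = b % c.length) :
    B3_ga c a = B3_ga c b := by
  rw [B3_ga, B3_ga, h]

private theorem B3_nbr (hc : IsCycle n c) (k j : ℕ) : edge c (B3_ga c (k + 1)) j = true ↔
    j = B3_ga c k ∨ j = B3_ga c (k + 2) := by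
  have hm0 : 0 < c.length := by
    have := hc.2.1
    omega
  rw [B3_edge]
  constructor
  · rintro ⟨k', _, ⟨h1, rfl⟩ | ⟨rfl, h1⟩⟩
    · right
      apply B3_ga_congr
      have h2 : (k' : ℕ) ≡ k + 1 [MOD c.length] := B3_ga_inj hc.1 hm0 h1
      exact h2.add_right 1
    · left
      apply B3_ga_congr
      have h2 : (k' + 1 : ℕ) ≡ k + 1 [MOD c.length] := B3_ga_inj hc.1 hm0 h1
      exact Nat.ModEq.add_right_cancel' 1 h2
  · rintro (rfl | rfl)
    · refine ⟨k % c.length, Nat.mod_lt _ hm0, Or.inr ⟨?_, ?_⟩⟩
      · exact B3_ga_congr (Nat.mod_mod _ _)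
      · apply B3_ga_congr
        have h2 : (k % c.length : ℕ) ≡ k [MOD c.length] := Nat.mod_modEq _ _
        exact h2.add_right 1
    · refine ⟨(k + 1) % c.length, Nat.mod_lt _ hm0, Or.inl ⟨?_, ?_⟩⟩
      · exact B3_ga_congr (Nat.mod_mod _ _)
      · apply B3_ga_congr
        have h2 : ((k + 1) % c.length : ℕ) ≡ k + 1 [MOD c.length] := Nat.mod_modEq _ _
        exact h2.add_right 1

private theorem B3_ga_ne2 (hc : IsCycle n c) (k : ℕ) : B3_ga c k ≠ B3_ga c (k + 2) := by
  intro h
  have hm := hc.2.1
  have h1 : (k : ℕ) ≡ k + 2 [MOD c.length] := B3_ga_inj hc.1 (by omega) h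
  have h2 : (0 : ℕ) ≡ 2 [MOD c.length] := by
    have h3 : k + 0 ≡ k + 2 [MOD c.length] := h1
    exact Nat.ModEq.add_left_cancel' k h3
  have h4 : (c.length : ℕ) ∣ 2 := (Nat.modEq_zero_iff_dvd).1 h2.symm
  have h5 := Nat.le_of_dvd (by norm_num) h4
  omega

private theorem B3_row1 (hc : IsCycle n c) (k : ℕ) :
    (vrow r n (B3_ga c (k + 1))).filter (fun s => edge c s.1 s.2.1) =
      [B3_str r (B3_ga c (k + 1)) (min (B3_ga c k) (B3_ga c (k + 2))),
        B3_str r (B3_ga c (k + 1)) (max (B3_ga c k) (B3_ga c (k + 2)))] := by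
  have hm0 : 0 < c.length := by
    have := hc.2.1
    omega
  have hu := hc.2.2 _ (B3_ga_mem hm0 k)
  have hw := hc.2.2 _ (B3_ga_mem hm0 (k + 2))
  have n1 := B3_ga_ne hc k
  have n2 := B3_ga_ne hc (k + 1)
  have n3 := B3_ga_ne2 hc k
  rw [B3_vrow_eq, List.filter_map]
  have h1 : ((List.range n).filter fun j => decide (j ≠ B3_ga c (k + 1))).filter
      ((fun s : Strand => edge c s.1 s.2.1) ∘ B3_str r (B3_ga c (k + 1))) =
      (List.range n).filter fun j => decide (j = min (B3_ga c k) (B3_ga c (k + 2)) ∨
        j = max (B3_ga c k) (B3_ga c (k + 2))) := by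
    rw [List.filter_filter]
    refine List.filter_congr fun j _ => ?_
    rw [Bool.eq_iff_iff]
    simp only [Function.comp_apply, B3_edge_str, Bool.and_eq_true, decide_eq_true_eq, B3_nbr hc]
    rcases lt_or_gt_of_ne n3 with g | g
    · rw [min_eq_left g.le, max_eq_right g.le]
      constructor
      · exact fun h => h.1
      · rintro (rfl | rfl)
        · exact ⟨Or.inl rfl, n1⟩
        · exact ⟨Or.inr rfl, Ne.symm n2⟩
    · rw [min_eq_right g.le, max_eq_left g.le]
      constructor
      · exact fun h => h.1.symm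
      · rintro (rfl | rfl)
        · exact ⟨Or.inr rfl, Ne.symm n2⟩
        · exact ⟨Or.inl rfl, n1⟩
  rw [h1, B3_range_filter (by
    rcases lt_or_gt_of_ne n3 with g | g
    · rw [min_eq_left g.le, max_eq_right g.le]
      exact g
    · rw [min_eq_right g.le, max_eq_left g.le]
      exact g), if_pos (lt_of_le_of_lt (min_le_left _ _) hu), if_pos (max_lt hu hw)]
  rfl

private theorem B3_row_even (hc : IsCycle n c) (v : ℕ) :
    Even ((vrow r n v).filter (fun s => edge c s.1 s.2.1)).length := by
  by_cases hv : v ∈ c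
  · obtain ⟨i, hi, rfl⟩ := List.getElem_of_mem hv
    have h1 : (c)[i] = B3_ga c ((c.length - 1 + i) + 1) := by
      have h2 : (c.length - 1 + i) + 1 = c.length + i := by omega
      rw [h2, B3_ga_add, B3_ga, Nat.mod_eq_of_lt hi, List.getD_eq_getElem _ _ hi]
    rw [h1, B3_row1 r hc]
    exact ⟨1, rfl⟩
  · rw [B3_row0 r hc hv]
    exact ⟨0, rfl⟩

private theorem B3_vert (hc : IsCycle n c) (z : Strand × Bool → Lab N) :
    ∏ v ∈ Finset.range n, cupP q ((vrow r n v).filter (fun s => edge c s.1 s.2.1))
      (fun s => z (s, false)) = ∏ k ∈ Finset.range c.length,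
        B3_VF q r z (B3_ga c (k + 1)) (B3_ga c k) (B3_ga c (k + 2)) := by
  classical
  have hm0 : 0 < c.length := by
    have := hc.2.1
    omega
  have h0 : ∀ k, cupP q ((vrow r n (B3_ga c (k + 1))).filter (fun s => edge c s.1 s.2.1))
      (fun s => z (s, false)) = B3_VF q r z (B3_ga c (k + 1)) (B3_ga c k) (B3_ga c (k + 2)) := by
    intro k
    rw [B3_row1 r hc]
    simp [cupP, prs, B3_VF]
  have h1 : (Finset.range c.length).image (fun k => B3_ga c (k + 1)) ⊆ Finset.range n := by
    intro v hv
    obtain ⟨k, _, rfl⟩ := Finset.mem_image.1 hv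
    exact Finset.mem_range.2 (hc.2.2 _ (B3_ga_mem hm0 _))
  rw [← Finset.prod_subset h1, Finset.prod_image]
  · exact Finset.prod_congr rfl fun k _ => h0 k
  · intro k hk k' hk' h
    have h2 : k + 1 ≡ k' + 1 [MOD c.length] := B3_ga_inj hc.1 hm0 h
    have h3 : k ≡ k' [MOD c.length] := Nat.ModEq.add_right_cancel' 1 h2
    have h4 : k % c.length = k' % c.length := h3
    rw [Finset.mem_coe, Finset.mem_range] at hk hk'
    rwa [Nat.mod_eq_of_lt hk, Nat.mod_eq_of_lt hk'] at h4
  · intro v _ hv
    have hvc : v ∉ c := by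
      intro hvc
      apply hv
      obtain ⟨i, hi, rfl⟩ := List.getElem_of_mem hvc
      refine Finset.mem_image.2 ⟨(c.length - 1 + i) % c.length,
        Finset.mem_range.2 (Nat.mod_lt _ hm0), ?_⟩
      have h2 : (c.length - 1 + i) % c.length + 1 ≡ (c.length - 1 + i) + 1 [MOD c.length] :=
        (Nat.mod_modEq _ _).add_right 1
      rw [B3_ga_congr h2]
      have h3 : (c.length - 1 + i) + 1 = c.length + i := by omega
      rw [h3, B3_ga_add, B3_ga, Nat.mod_eq_of_lt hi, List.getD_eq_getElem _ _ hi]
    rw [B3_row0 r hc hvc]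
    simp [cupP, prs]

end rows

section bottom

variable {n : ℕ}

private theorem B3_mem_vrow (r : ℕ → ℕ → ℕ) (v : ℕ) (s : Strand) :
    s ∈ vrow r n v ↔ ∃ j < n, j ≠ v ∧ B3_str r v j = s := by
  rw [B3_vrow_eq, List.mem_map]
  constructor
  · rintro ⟨j, hj, h⟩
    rw [List.mem_filter, List.mem_range, decide_eq_true_eq] at hj
    exact ⟨j, hj.1, hj.2, h⟩
  · rintro ⟨j, h1, h2, h⟩
    exact ⟨j, by rw [List.mem_filter, List.mem_range, decide_eq_true_eq]; exact ⟨h1, h2⟩, h⟩

/-- the vertex at the lower end -/
private def B3_own (s : Strand) : ℕ := if s.2.2 = 0 then s.1 else s.2.1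

private theorem B3_own_str (r : ℕ → ℕ → ℕ) (v j : ℕ) : B3_own (B3_str r v j) = v := by
  unfold B3_own B3_str
  by_cases h : v < j
  · rw [if_pos h]
    simp
  · rw [if_neg h]
    simp

private theorem B3_str_inj (r : ℕ → ℕ → ℕ) {v j j' : ℕ} (hj : j ≠ v) (hj' : j' ≠ v)
    (h : B3_str r v j = B3_str r v j') : j = j' := by
  unfold B3_str at h
  split_ifs at h <;> simp only [Prod.mk.injEq] at h <;> omega

private theorem B3_vrows_nodup (r : ℕ → ℕ → ℕ) (K : ℕ) :
    ((List.range K).flatMap (vrow r n)).Nodup := by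
  rw [List.nodup_flatMap]
  constructor
  · intro v _
    rw [B3_vrow_eq]
    refine List.Nodup.map_on ?_ (List.nodup_range.filter _)
    intro j hj j' hj' h
    rw [List.mem_filter, decide_eq_true_eq] at hj hj'
    exact B3_str_inj r hj.2 hj'.2 h
  · refine List.nodup_range.pairwise_of_forall_ne ?_
    intro v _ v' _ hne s hs hs'
    obtain ⟨j, _, _, rfl⟩ := (B3_mem_vrow r v s).1 hs
    obtain ⟨j', _, _, h⟩ := (B3_mem_vrow r v' _).1 hs'
    have h1 := B3_own_str r v j
    rw [← h, B3_own_str] at h1
    exact hne h1.symm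

private theorem B3_mem_minrow (l : List Strand) (i j t : ℕ) : (i, j, t) ∈ minrow l ↔
    ∃ t', (i, j, t') ∈ l ∧ (t = 2 * t' + 1 ∨ t = 2 * t' + 2) := by
  rw [minrow, List.mem_flatMap]
  constructor
  · rintro ⟨⟨a, b, t'⟩, h1, h2⟩
    simp only [List.mem_cons, Prod.mk.injEq, List.not_mem_nil, or_false] at h2
    rcases h2 with ⟨rfl, rfl, h⟩ | ⟨rfl, rfl, h⟩
    · exact ⟨t', h1, Or.inl h⟩
    · exact ⟨t', h1, Or.inr h⟩
  · rintro ⟨t', h1, h2⟩
    refine ⟨(i, j, t'), h1, ?_⟩
    simp only [List.mem_cons, Prod.mk.injEq, List.not_mem_nil, or_false, true_and]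
    exact h2

private theorem B3_minrow_nodup {l : List Strand} (hl : l.Nodup) : (minrow l).Nodup := by
  rw [minrow, List.nodup_flatMap]
  constructor
  · intro m _
    simp
  · refine hl.pairwise_of_forall_ne ?_
    rintro ⟨a, b, t⟩ _ ⟨a', b', t'⟩ _ hne ⟨x, y, u⟩ hs hs'
    simp only [List.mem_cons, Prod.mk.injEq, List.not_mem_nil, or_false] at hs hs'
    apply hne
    simp only [Prod.mk.injEq]
    rcases hs with hs | hs <;> rcases hs' with hs' | hs' <;> omega

private theorem B3_bottom_mem (G : Diagram n) (i j t : ℕ) : (i, j, t) ∈ G.bottom ↔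
    i < j ∧ j < n ∧ t < 2 * G.r i j + 2 := by
  rw [Diagram.bottom, List.mem_append, List.mem_flatMap, B3_mem_minrow]
  constructor
  · rintro (⟨v, hv, h⟩ | ⟨t', h, h'⟩)
    · obtain ⟨j', hj', hne, h1⟩ := (B3_mem_vrow G.r v _).1 h
      rw [List.mem_range] at hv
      unfold B3_str at h1
      by_cases hlt : v < j'
      · rw [if_pos hlt] at h1
        simp only [Prod.mk.injEq] at h1
        obtain ⟨rfl, rfl, rfl⟩ := h1
        exact ⟨hlt, hj', by omega⟩
      · rw [if_neg hlt] at h1
        simp only [Prod.mk.injEq] at h1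
        obtain ⟨rfl, rfl, rfl⟩ := h1
        exact ⟨by omega, hv, by omega⟩
    · rw [G.mins_mem] at h
      exact ⟨h.1, h.2.1, by omega⟩
  · rintro ⟨h1, h2, h3⟩
    by_cases h4 : t = 0
    · subst h4
      left
      refine ⟨i, List.mem_range.2 (by omega), (B3_mem_vrow G.r i _).2 ⟨j, h2, by omega, ?_⟩⟩
      rw [B3_str, if_pos h1]
    · by_cases h5 : t = 2 * G.r i j + 1
      · subst h5
        left
        refine ⟨j, List.mem_range.2 h2, (B3_mem_vrow G.r j _).2 ⟨i, by omega, by omega, ?_⟩⟩
        rw [B3_str, if_neg (by omega)]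
      · right
        refine ⟨(t - 1) / 2, (G.mins_mem _ _ _).2 ⟨h1, h2, by omega⟩, by omega⟩

private theorem B3_bottom_nodup (G : Diagram n) : G.bottom.Nodup := by
  rw [Diagram.bottom, List.nodup_append']
  refine ⟨B3_vrows_nodup G.r n, B3_minrow_nodup G.mins_nodup, ?_⟩
  rintro ⟨i, j, t⟩ h h'
  rw [List.mem_flatMap] at h
  rw [B3_mem_minrow] at h'
  obtain ⟨v, hv, h⟩ := h
  obtain ⟨t', h1, h2⟩ := h'
  rw [G.mins_mem] at h1
  obtain ⟨j', hj', hne, h3⟩ := (B3_mem_vrow G.r v _).1 h
  unfold B3_str at h3
  by_cases hlt : v < j'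
  · rw [if_pos hlt] at h3
    simp only [Prod.mk.injEq] at h3
    omega
  · rw [if_neg hlt] at h3
    simp only [Prod.mk.injEq] at h3
    obtain ⟨rfl, rfl, rfl⟩ := h3
    omega

end bottom

section final

private theorem B3_sum_upd {A : Type} [CommRing A] {E ι : Type} [DecidableEq E] [Fintype ι]
    (W : List E) (G : (E → ι) → A) (e : E) (he : e ∉ W) (a : ι) (z : E → ι) :
    B3_sum W (fun z => G (Function.update z e a)) z = B3_sum W G (Function.update z e a) := by
  induction W generalizing z with
  | nil => rfl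
  | cons e' W ih =>
    rw [List.mem_cons, not_or] at he
    simp only [B3_sum]
    refine Finset.sum_congr rfl fun b _ => ?_
    rw [ih he.2, Function.update_comm he.1]

private theorem B3_extL_cons {N : ℕ} [NeZero N] (s : Strand) (B : List Strand) (a : Lab N)
    (x : Fin B.length → Lab N) :
    extL (s :: B) (Fin.cons a x : Fin (B.length + 1) → Lab N) =
      Function.update (extL B x) s a := by
  funext s'
  by_cases h : s' = s
  · subst h
    rw [Function.update_self, extL]
    have h1 : (s' :: B).idxOf s' = 0 := List.idxOf_cons_self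
    rw [dif_pos (by rw [h1]; simp)]
    have h2 : (⟨(s' :: B).idxOf s', by rw [h1]; simp⟩ : Fin (B.length + 1)) = 0 :=
      Fin.ext h1
    exact (congrArg (Fin.cons a x : Fin (B.length + 1) → Lab N) h2).trans (Fin.cons_zero _ _)
  · rw [Function.update_of_ne h, extL, extL]
    have h1 : (s :: B).idxOf s' = B.idxOf s' + 1 := List.idxOf_cons_ne _ (Ne.symm h)
    by_cases h2 : B.idxOf s' < B.length
    · have h3 : (s :: B).idxOf s' < (s :: B).length := by
        rw [h1, List.length_cons]
        omega
      rw [dif_pos h3, dif_pos h2]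
      have h4 : (⟨(s :: B).idxOf s', h3⟩ : Fin (B.length + 1)) =
          Fin.succ ⟨B.idxOf s', h2⟩ := Fin.ext h1
      exact (congrArg (Fin.cons a x : Fin (B.length + 1) → Lab N) h4).trans (Fin.cons_succ _ _ _)
    · have h3 : ¬ (s :: B).idxOf s' < (s :: B).length := by
        rw [h1, List.length_cons]
        omega
      rw [dif_neg h3, dif_neg h2]

private theorem B3_sum_extL {A : Type} [CommRing A] {N : ℕ} [NeZero N] (B : List Strand)
    (hB : B.Nodup) (G : (Strand → Lab N) → A) :
    ∑ x : Fin B.length → Lab N, G (extL B x) = B3_sum B G (fun _ => (true, 0)) := by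
  induction B generalizing G with
  | nil =>
    have h1 : ∀ x : Fin ([] : List Strand).length → Lab N,
        extL ([] : List Strand) x = fun _ => (true, 0) := by
      intro x
      funext s
      rw [extL, dif_neg (by simp)]
    simp only [B3_sum, h1]
    rw [Finset.sum_const, Finset.card_univ]
    simp
  | cons s B ih =>
    rw [List.nodup_cons] at hB
    have h1 : ∑ x : Fin (s :: B).length → Lab N, G (extL (s :: B) x) =
        ∑ p : Lab N × (Fin B.length → Lab N),
          G (extL (s :: B) (Fin.cons p.1 p.2 : Fin (B.length + 1) → Lab N)) :=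
      ((Fin.consEquiv (fun _ : Fin (B.length + 1) => Lab N)).sum_comp
        (fun x => G (extL (s :: B) x))).symm
    rw [h1, Fintype.sum_prod_type, B3_sum]
    refine Finset.sum_congr rfl fun a _ => ?_
    simp only [B3_extL_cons]
    rw [ih hB.2 (fun f => G (Function.update f s a)), B3_sum_upd B G s hB.1]

/-- labels of the ends -/
private def B3_cmb {ι : Type} (f g : Strand → ι) (e : Strand × Bool) : ι :=
  if e.2 then g e.1 else f e.1

private theorem B3_cmb_lo {ι : Type} (f g : Strand → ι) (s : Strand) (a : ι) :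
    Function.update (B3_cmb f g) (s, false) a = B3_cmb (Function.update f s a) g := by
  funext ⟨s', b⟩
  cases b
  · by_cases h : s' = s
    · subst h
      simp [B3_cmb]
    · have h1 : ((s', false) : Strand × Bool) ≠ (s, false) := fun h' => h (Prod.mk.inj h').1
      rw [Function.update_of_ne h1]
      simp [B3_cmb, Function.update_of_ne h]
  · have h1 : ((s', true) : Strand × Bool) ≠ (s, false) := by simp
    rw [Function.update_of_ne h1]
    simp [B3_cmb]

private theorem B3_cmb_hi {ι : Type} (f g : Strand → ι) (s : Strand) (a : ι) :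
    Function.update (B3_cmb f g) (s, true) a = B3_cmb f (Function.update g s a) := by
  funext ⟨s', b⟩
  cases b
  · have h1 : ((s', false) : Strand × Bool) ≠ (s, true) := by simp
    rw [Function.update_of_ne h1]
    simp [B3_cmb]
  · by_cases h : s' = s
    · subst h
      simp [B3_cmb]
    · have h1 : ((s', true) : Strand × Bool) ≠ (s, true) := fun h' => h (Prod.mk.inj h').1
      rw [Function.update_of_ne h1]
      simp [B3_cmb, Function.update_of_ne h]

private theorem B3_sum_lo {A : Type} [CommRing A] {ι : Type} [Fintype ι] (W : List Strand)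
    (G : (Strand × Bool → ι) → A) (f g : Strand → ι) :
    B3_sum (W.map fun s => ((s, false) : Strand × Bool)) G (B3_cmb f g) =
      B3_sum W (fun f => G (B3_cmb f g)) f := by
  induction W generalizing f with
  | nil => rfl
  | cons s W ih =>
    simp only [List.map_cons, B3_sum]
    refine Finset.sum_congr rfl fun a _ => ?_
    rw [B3_cmb_lo, ih]

private theorem B3_sum_hi {A : Type} [CommRing A] {ι : Type} [Fintype ι] (W : List Strand)
    (G : (Strand × Bool → ι) → A) (f g : Strand → ι) :
    B3_sum (W.map fun s => ((s, true) : Strand × Bool)) G (B3_cmb f g) =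
      B3_sum W (fun g => G (B3_cmb f g)) g := by
  induction W generalizing g with
  | nil => rfl
  | cons s W ih =>
    simp only [List.map_cons, B3_sum]
    refine Finset.sum_congr rfl fun a _ => ?_
    rw [B3_cmb_hi, ih]

theorem thm_B3 : St_B3 := by
  intro A _ q N n _ G c hc F
  have hm := hc.2.1
  have hBn : (G.bottom.filter fun s => edge c s.1 s.2.1).Nodup := (B3_bottom_nodup G).filter _
  have hBp : (G.bottom.filter fun s => edge c s.1 s.2.1).Perm
      (B3_S c fun i j => 2 * G.r i j + 2) :=
    B3_S_perm hc _ G.bottom (B3_bottom_nodup G) (B3_bottom_mem G)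
  have hmin : (G.mins.filter fun s => edge c s.1 s.2.1).Perm (B3_S c G.r) :=
    B3_S_perm hc _ G.mins G.mins_nodup G.mins_mem
  have hmax : (G.maxs.filter fun s => edge c s.1 s.2.1).Perm (B3_S c fun i j => G.r i j + 1) :=
    B3_S_perm hc _ G.maxs G.maxs_nodup fun i j t => by
      rw [G.maxs_mem]
      constructor
      · rintro ⟨h1, h2, h3⟩
        exact ⟨h1, h2, by omega⟩
      · rintro ⟨h1, h2, h3⟩
        exact ⟨h1, h2, by omega⟩
  constructor
  · rw [hBp.length_eq, B3_S]
    apply B3_flat_even
    intro k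
    rw [List.length_map, List.length_range]
    exact ⟨G.r _ _ + 1, by ring⟩
  -- the integrand as a function of the labels of all ends
  set B := G.bottom.filter fun s => edge c s.1 s.2.1 with hB
  set T := (maxrow G.maxs).filter fun s => edge c s.1 s.2.1 with hT
  let Q : (Strand × Bool → Lab N) → A := fun z =>
    cupP q B (fun s => z (s, false)) * (B.map fun s => B3_Fv F z s).prod *
      capP q T (fun s => z (s, true))
  have hQ : ∀ x y : Fin B.length → Lab N,
      cupP q B (extL B x) * (∏ i, F (B.get i) (x i) (y i)) * capP q T (extL B y) =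
        Q (B3_cmb (extL B x) (extL B y)) := by
    intro x y
    have h1 : ∀ (x : Fin B.length → Lab N) (i : Fin B.length), extL B x (B.get i) = x i := by
      intro x i
      have h2 : B.idxOf (B.get i) = i.1 := by
        rw [List.get_eq_getElem, hBn.idxOf_getElem]
      rw [extL, dif_pos (by rw [h2]; exact i.2)]
      exact congrArg x (Fin.ext h2)
    have h3 : (∏ i, F (B.get i) (x i) (y i)) =
        (B.map fun s => B3_Fv F (B3_cmb (extL B x) (extL B y)) s).prod := by
      rw [← Fin.prod_univ_fun_getElem B]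
      refine Finset.prod_congr rfl fun i _ => ?_
      rw [← h1 x i, ← h1 y i]
      rfl
    rw [h3]
    rfl
  have hsum : (∑ x : Fin B.length → Lab N, ∑ y : Fin B.length → Lab N,
      cupP q B (extL B x) * (∏ i, F (B.get i) (x i) (y i)) * capP q T (extL B y)) =
      B3_sum ((B.map fun s => ((s, false) : Strand × Bool)) ++
        (B.map fun s => ((s, true) : Strand × Bool))) Q
          (B3_cmb (fun _ => (true, 0)) (fun _ => (true, 0))) := by
    rw [B3_sum_append, B3_sum_lo]
    have h1 : ∀ x : Fin B.length → Lab N, (∑ y : Fin B.length → Lab N,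
        cupP q B (extL B x) * (∏ i, F (B.get i) (x i) (y i)) * capP q T (extL B y)) =
        B3_sum (B.map fun s => ((s, true) : Strand × Bool)) Q
          (B3_cmb (extL B x) (fun _ => (true, 0))) := by
      intro x
      rw [B3_sum_hi, ← B3_sum_extL B hBn (fun g => Q (B3_cmb (extL B x) g))]
      exact Finset.sum_congr rfl fun y _ => hQ x y
    rw [Finset.sum_congr rfl fun x _ => h1 x]
    exact B3_sum_extL B hBn (fun f => B3_sum (B.map fun s => ((s, true) : Strand × Bool)) Q
      (B3_cmb f (fun _ => (true, 0))))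
  rw [hsum]
  -- the chain
  have hga : B3_ga c c.length = B3_ga c 0 := by
    have := B3_ga_add (c := c) 0
    rwa [add_zero] at this
  have hga1 : B3_ga c (c.length + 1) = B3_ga c 1 := B3_ga_add 1
  have hends : (((B3_tot q F G.r c c.length).map Prod.snd : List (Strand × Bool)) :
      Multiset (Strand × Bool)) = (((B.map fun s => ((s, false) : Strand × Bool)) ++
        (B.map fun s => ((s, true) : Strand × Bool)) : List (Strand × Bool)) :
          Multiset (Strand × Bool)) := by
    have h1 := B3_ends_tot q F G.r c c.length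
    rw [hga, hga1] at h1
    have h2 := add_right_cancel h1
    rw [h2, ← B3_S_en c (fun i j => 2 * G.r i j + 2)]
    exact Multiset.coe_eq_coe.2 ((hBp.symm.map _).append (hBp.symm.map _))
  have hperm := Multiset.coe_eq_coe.1 hends
  rw [B3_sum_perm hperm.symm]
  have hval : ∀ z, Q z = B3_vl z (B3_str G.r (B3_ga c 0) (B3_ga c 1), false)
      (B3_tot q F G.r c c.length) := by
    intro z
    rw [B3_vl_tot q F G.r c (B3_ga_ne hc)]
    have h1 : (B.map fun s => B3_Fv F z s).prod = ∏ k ∈ Finset.range c.length,
        ∏ t ∈ Finset.range (2 * G.r (min (B3_ga c k) (B3_ga c (k + 1)))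
          (max (B3_ga c k) (B3_ga c (k + 1))) + 2), B3_Fv F z (min (B3_ga c k) (B3_ga c (k + 1)),
            max (B3_ga c k) (B3_ga c (k + 1)), t) := by
      rw [(hBp.map _).prod_eq, B3_S_prod]
    have h2 : capP q T (fun s => z (s, true)) = ∏ k ∈ Finset.range c.length,
        ∏ t ∈ Finset.range (G.r (min (B3_ga c k) (B3_ga c (k + 1)))
          (max (B3_ga c k) (B3_ga c (k + 1))) + 1), B3_cap q z (min (B3_ga c k) (B3_ga c (k + 1)))
            (max (B3_ga c k) (B3_ga c (k + 1))) t := by
      rw [hT, B3_filter_maxrow, B3_capP_maxrow, (hmax.map _).prod_eq, B3_S_prod]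
      rfl
    have h3 : cupP q B (fun s => z (s, false)) = (∏ k ∈ Finset.range c.length,
        B3_VF q G.r z (B3_ga c (k + 1)) (B3_ga c k) (B3_ga c (k + 2))) *
        ∏ k ∈ Finset.range c.length,
        ∏ t ∈ Finset.range (G.r (min (B3_ga c k) (B3_ga c (k + 1)))
          (max (B3_ga c k) (B3_ga c (k + 1)))), B3_cup q z (min (B3_ga c k) (B3_ga c (k + 1)))
            (max (B3_ga c k) (B3_ga c (k + 1))) t := by
      have g1 : B = ((List.range n).flatMap fun v =>
          (vrow G.r n v).filter (fun s => edge c s.1 s.2.1)) ++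
            minrow (G.mins.filter fun s => edge c s.1 s.2.1) := by
        rw [hB, Diagram.bottom, List.filter_append, B3_filter_minrow, List.filter_flatMap]
      rw [g1, B3_cupP_append q _ _ (B3_flat_even _ (B3_row_even G.r hc) n),
        B3_cupP_flat q _ (B3_row_even G.r hc), B3_vert q G.r hc z, B3_cupP_minrow,
        (hmin.map _).prod_eq, B3_S_prod]
      rfl
    show cupP q B (fun s => z (s, false)) * (B.map fun s => B3_Fv F z s).prod *
      capP q T (fun s => z (s, true)) = _
    rw [h1, h2, h3, Finset.prod_mul_distrib]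
    simp only [B3_EP]
    rw [Finset.prod_mul_distrib, Finset.prod_mul_distrib]
    ring
  rw [B3_sum_congr _ hval, B3_closed]
  · rw [B3_pr_tot]
  · intro h
    have h1 := congrArg (fun l => (l.map Prod.snd).length) h
    simp only [List.map_nil, List.length_nil] at h1
    have h2 := hperm.length_eq
    rw [h1] at h2
    simp only [List.length_append, List.length_map] at h2
    have h3 : B.length = (B3_S c fun i j => 2 * G.r i j + 2).length := hBp.length_eq
    have h4 : (B3_S c fun i j => 2 * G.r i j + 2) = [] := by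
      apply List.eq_nil_of_length_eq_zero
      omega
    have h5 : ((min (B3_ga c 0) (B3_ga c 1), max (B3_ga c 0) (B3_ga c 1), 0) : Strand) ∈
        (B3_S c fun i j => 2 * G.r i j + 2) := by
      rw [B3_S, List.mem_flatMap]
      refine ⟨0, List.mem_range.2 (by omega), List.mem_map.2 ⟨0, List.mem_range.2 (by omega), rfl⟩⟩
    rw [h4] at h5
    simp at h5
  · refine hperm.nodup_iff.2 ?_
    rw [List.nodup_append']
    refine ⟨hBn.map fun a b h => (Prod.mk.inj h).1, hBn.map fun a b h => (Prod.mk.inj h).1, ?_⟩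
    intro e he he'
    obtain ⟨s, _, rfl⟩ := List.mem_map.1 he
    obtain ⟨s', _, h⟩ := List.mem_map.1 he'
    simp at h
  · rw [B3_la_tot, hga, hga1]

end final

end IBN
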