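import Pool.Agent.IBN.StC

/-!
# IBN: the value of the diagram of a cycle as a sum over the choices of terms
-/

set_option autoImplicit false

namespace IBN

private theorem Bead_swp {α : Type} : ∀ (i : ℕ) (l : List α), (swp i l).Perm l
  | 0, [] => by unfold swp; exact List.Perm.refl _
  | 0, [a] => by unfold swp; exact List.Perm.refl _
  | 0, a :: b :: l => by unfold swp; exact List.Perm.swap a b l
  | i + 1, [] => by unfold swp; exact List.Perm.refl _
  | i + 1, a :: l => by
    change (a :: swp i l).Perm (a :: l)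
    exact (Bead_swp i l).cons a

private theorem Bead_fold : ∀ (b : List (ℕ × Bool)) (l : List Strand),
    (b.foldl (fun l c => swp c.1 l) l).Perm l
  | [], l => List.Perm.refl l
  | c :: b, l => by
    change (b.foldl (fun l c => swp c.1 l) (swp c.1 l)).Perm l
    exact (Bead_fold b _).trans (Bead_swp _ _)

private theorem Bead_max (l : List Strand) (h : l.Nodup) : (maxrow l).Nodup := by
  unfold maxrow
  rw [List.nodup_flatMap]
  constructor
  · intro m _
    simp
  · refine List.Pairwise.imp_of_mem ?_ h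
    intro a b _ _ hab
    change List.Disjoint _ _
    intro s hs hs'
    apply hab
    obtain ⟨a1, a2, a3⟩ := a
    obtain ⟨b1, b2, b3⟩ := b
    obtain ⟨s1, s2, s3⟩ := s
    simp only [List.mem_cons, List.not_mem_nil, or_false, Prod.mk.injEq] at hs hs' ⊢
    omega

private theorem Bead_nodup {n : ℕ} (G : Diagram n) : G.bottom.Nodup := by
  have h1 : (maxrow G.maxs).Perm G.bottom := by
    have h2 := Bead_fold G.braid G.bottom
    have h3 := G.braid_run
    unfold Diagram.bottom at h2 ⊢
    rw [h3] at h2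
    exact h2
  exact h1.nodup_iff.1 (Bead_max _ G.maxs_nodup)

private theorem Bead_cros : ∀ (b : List (ℕ × Bool)) (l : List Strand), l.Nodup →
    ∀ x ∈ cros b l, x.a ∈ l ∧ x.b ∈ l ∧ x.a ≠ x.b
  | [], l, _, x, hx => by
    unfold cros at hx
    exact absurd hx (List.not_mem_nil)
  | c :: b, l, hl, x, hx => by
    have hl' : (swp c.1 l).Nodup := (Bead_swp c.1 l).nodup_iff.2 hl
    have hrec : x ∈ cros b (swp c.1 l) → x.a ∈ l ∧ x.b ∈ l ∧ x.a ≠ x.b := by
      intro h
      obtain ⟨h1, h2, h3⟩ := Bead_cros b (swp c.1 l) hl' x h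
      exact ⟨(Bead_swp c.1 l).mem_iff.1 h1, (Bead_swp c.1 l).mem_iff.1 h2, h3⟩
    unfold cros at hx
    rcases hd : l.drop c.1 with _ | ⟨s, _ | ⟨s', r⟩⟩
    · rw [hd] at hx
      exact hrec hx
    · rw [hd] at hx
      exact hrec hx
    · rw [hd] at hx
      rcases List.mem_cons.1 hx with h | h
      · have hs : s ∈ l.drop c.1 := by rw [hd]; exact List.mem_cons_self
        have hs' : s' ∈ l.drop c.1 := by
          rw [hd]; exact List.mem_cons_of_mem _ List.mem_cons_self
        have hn : (l.drop c.1).Nodup := hl.sublist (List.drop_sublist _ _)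
        rw [hd, List.nodup_cons] at hn
        rw [h]
        exact ⟨List.mem_of_mem_drop hs, List.mem_of_mem_drop hs',
          fun h1 => hn.1 (by change s = s' at h1; rw [h1]; exact List.mem_cons_self)⟩
      · exact hrec h

/-- **Bead**. The value of the diagram of a cycle as a sum over the choices of terms. -/
theorem thm_Bead : St_B1 → St_B2 → St_B3 → St_Bead := by
  intro hB1 hB2 hB3 A _ q N n _ G c hc
  have hev := (hB3 A q N n G c hc (fun _ => 0)).1
  have h1 := hB1 A q N n G (edge c) hev
  have hnd : (G.bottom.filter fun s => edge c s.1 s.2.1).Nodup := (Bead_nodup G).filter _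
  have hcr : ∀ x ∈ G.X, (edge c x.a.1 x.a.2.1) = true → (edge c x.b.1 x.b.2.1) = true →
      x.a ∈ (G.bottom.filter fun s => edge c s.1 s.2.1) ∧
      x.b ∈ (G.bottom.filter fun s => edge c s.1 s.2.1) ∧ x.a ≠ x.b := by
    intro x hx ha hb
    obtain ⟨k1, k2, k3⟩ := Bead_cros G.braid G.bottom (Bead_nodup G) x hx
    exact ⟨List.mem_filter.2 ⟨k1, ha⟩, List.mem_filter.2 ⟨k2, hb⟩, k3⟩
  have h2 := hB2 A q N (fun s => edge c s.1 s.2.1) (G.bottom.filter fun s => edge c s.1 s.2.1)
    G.X hnd hcr (capP q ((maxrow G.maxs).filter fun s => edge c s.1 s.2.1))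
  unfold Diagram.knot
  rw [h1]
  simp_rw [h2, Finset.mul_sum]
  rw [Finset.sum_comm]
  refine Finset.sum_congr rfl fun r _ => ?_
  by_cases hr : ∀ i, r i ≠ none → edge c (G.X.get i).a.1 (G.X.get i).a.2.1 = true ∧
      edge c (G.X.get i).b.1 (G.X.get i).b.2.1 = true
  · simp only [if_pos hr]
    rw [← (hB3 A q N n G c hc (mt G.X r)).2, Finset.mul_sum]
    refine Finset.sum_congr rfl fun x _ => ?_
    rw [Finset.mul_sum, Finset.mul_sum]
    refine Finset.sum_congr rfl fun y _ => ?_
    ring
  · simp only [if_neg hr, mul_zero, Finset.sum_const_zero]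

end IBN
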