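import Pool.Agent.IBN.StB

/-!
# IBN EM : E16 is divisible by 16 (helper78)
-/

set_option autoImplicit false

namespace IBN

/-- **EM** -/
theorem thm_EM : St_EMp → St_EMv → St_EMf → St_EMw → St_EM := by
  intro hp hv hf hw g
  have hadd : ∀ f g : List Ltr → ℤ, Dg f 6 → Dg g 6 → Dg (fun w => f w + g w) 6 := by
    intro f g h1 h2
    have h3 := (hp ℤ f g 6 6 h1 h2).2.1
    rwa [max_self] at h3
  have hsm : ∀ (c : ℤ) (f : List Ltr → ℤ), Dg f 6 → Dg (fun w => c * f w) 6 := by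
    intro c f h1
    exact (hp ℤ f f 6 6 h1 h1).2.2.1 c
  have hup : ∀ (f : List Ltr → ℤ) (d : ℕ), Dg f d → d ≤ 6 → Dg f 6 := by
    intro f d h1 h2
    exact (hp ℤ f f d d h1 h1).2.2.2 6 h2
  have h01 : Dg (fun w => polS w 0 1) 3 := hf.1 0 1
  have h11 : Dg (fun w => polS w 1 1) 4 := hf.1 1 1
  have h21 : Dg (fun w => polS w 2 1) 5 := hf.1 2 1
  have h02 : Dg (fun w => polS w 0 2) 5 := hf.1 0 2
  have h12 : Dg (fun w => polS w 1 2) 6 := hf.1 1 2
  have hsq : Dg (fun w => polS w 0 1 * polS w 0 1) 6 :=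
    hup _ 5 ((hp ℤ _ _ 3 3 h01 h01).1 (by norm_num) (by norm_num)) (by norm_num)
  have hpr : Dg (fun w => polS w 0 1 * polS w 1 1) 6 :=
    (hp ℤ _ _ 3 4 h01 h11).1 (by norm_num) (by norm_num)
  have a01 := hup _ 3 h01 (by norm_num)
  have a11 := hup _ 4 h11 (by norm_num)
  have a21 := hup _ 5 h21 (by norm_num)
  have a02 := hup _ 5 h02 (by norm_num)
  have key : Dg (fun w => E16 (polS w)) 6 := by
    have h := hadd _ _ (hsm 4 _ a01) (hadd _ _ (hsm 3 _ a11) (hadd _ _ (hsm (-2) _ a21)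
      (hadd _ _ (hsm 4 _ a02) (hadd _ _ (hsm 4 _ h12) (hadd _ _ (hsm 2 _ hsq)
      (hadd _ _ (hsm (-2) _ a01) (hsm 4 _ hpr)))))))
    have he : (fun w => E16 (polS w)) = fun w : List Ltr => 4 * polS w 0 1 + (3 * polS w 1 1 +
        (-2 * polS w 2 1 + (4 * polS w 0 2 + (4 * polS w 1 2 + (2 * (polS w 0 1 * polS w 0 1) +
        (-2 * polS w 0 1 + 4 * (polS w 0 1 * polS w 1 1))))))) := by
      funext w
      unfold E16
      ring
    rw [he]
    exact h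
  exact hv _ key (fun g₀ g₁ b => by rw [hf.2 g₀ g₁ b]) hw g

end IBN
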