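import Pool.Agent.IBN.StB

/-!
# IBN, module EMf: the coefficients are polynomials in the letters
-/

set_option autoImplicit false

namespace IBN

/-! ### the operators -/

private theorem EMf_mu_di (v : Ser) : mu (di v) = v := by
  funext i k
  cases i with
  | zero =>
    simp [mu, di]
  | succ i =>
    have h1 : mu (di v) (i + 1) k = (∑ m ∈ Finset.range (i + 1 + 1), (-1) ^ m * v (i + 1 - m) k) +
        ∑ m ∈ Finset.range (i + 1), (-1) ^ m * v (i - m) k := by
      simp only [mu, di, Nat.add_eq_zero_iff, one_ne_zero, and_false, if_false,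
        Nat.add_sub_cancel]
    rw [h1, Finset.sum_range_succ']
    have h2 : ∑ m ∈ Finset.range (i + 1), (-1 : ℤ) ^ (m + 1) * v (i + 1 - (m + 1)) k =
        - ∑ m ∈ Finset.range (i + 1), (-1) ^ m * v (i - m) k := by
      rw [← Finset.sum_neg_distrib]
      refine Finset.sum_congr rfl fun m _ => ?_
      rw [Nat.add_sub_add_right, pow_succ]
      ring
    rw [h2]
    simp

private theorem EMf_mZ_di (v : Ser) : mZ (di v) = di (mZ v) := by
  funext i k
  by_cases hk : k = 0
  · subst hk
    simp [mZ, di]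
  · simp [mZ, di, hk]

private theorem EMf_mu_sub (v w : Ser) : mu (v - w) = mu v - mu w := by
  funext i k
  simp only [mu, Pi.sub_apply]
  split_ifs <;> ring

private theorem EMf_di_sub (v w : Ser) : di (v - w) = di v - di w := by
  funext i k
  simp only [di, Pi.sub_apply]
  rw [← Finset.sum_sub_distrib]
  exact Finset.sum_congr rfl fun m _ => by ring

private theorem EMf_mZ_sub (v w : Ser) : mZ (v - w) = mZ v - mZ w := by
  funext i k
  simp only [mZ, Pi.sub_apply]
  split_ifs <;> ring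

private theorem EMf_st_sub (l : Ltr) (v w : Ser × Ser) : stS l (v - w) = stS l v - stS l w := by
  obtain ⟨v1, v2⟩ := v
  obtain ⟨w1, w2⟩ := w
  obtain ⟨b, c⟩ := l
  cases b <;> cases c <;> refine Prod.ext ?_ ?_ <;>
    simp only [stS, Prod.mk_sub_mk, EMf_mu_sub, EMf_di_sub, EMf_mZ_sub] <;> abel

/-! ### the filtration -/

private def EMf_W (d : ℕ) (v : Ser) : Prop := ∀ i k, i + 2 * k < d → v i k = 0

private theorem EMf_W_mono {d d' : ℕ} (h : d ≤ d') {v : Ser} (hv : EMf_W d' v) : EMf_W d v :=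
  fun i k hik => hv i k (by omega)

private theorem EMf_W_add {d : ℕ} {v w : Ser} (hv : EMf_W d v) (hw : EMf_W d w) :
    EMf_W d (v + w) := fun i k hik => by
  rw [Pi.add_apply, Pi.add_apply, hv i k hik, hw i k hik, add_zero]

private theorem EMf_W_sub {d : ℕ} {v w : Ser} (hv : EMf_W d v) (hw : EMf_W d w) :
    EMf_W d (v - w) := fun i k hik => by
  rw [Pi.sub_apply, Pi.sub_apply, hv i k hik, hw i k hik, sub_zero]

private theorem EMf_W_mu {d : ℕ} {v : Ser} (hv : EMf_W d v) : EMf_W d (mu v) := by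
  intro i k hik
  simp only [mu]
  rw [hv i k hik, zero_add]
  split_ifs with h
  · rfl
  · exact hv _ _ (by omega)

private theorem EMf_W_di {d : ℕ} {v : Ser} (hv : EMf_W d v) : EMf_W d (di v) := by
  intro i k hik
  simp only [di]
  refine Finset.sum_eq_zero fun m _ => ?_
  rw [hv _ _ (by omega), mul_zero]

private theorem EMf_W_mZ {d : ℕ} {v : Ser} (hv : EMf_W d v) : EMf_W (d + 2) (mZ v) := by
  intro i k hik
  simp only [mZ]
  split_ifs with h
  · rfl
  · exact hv _ _ (by omega)

private theorem EMf_W_mu1 {d : ℕ} {v : Ser} (hv : EMf_W d v) : EMf_W (d + 1) (mu v - v) := by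
  intro i k hik
  simp only [mu, Pi.sub_apply, add_sub_cancel_left]
  split_ifs with h
  · rfl
  · exact hv _ _ (by omega)

private theorem EMf_W_mu2 {d : ℕ} {v : Ser} (hv : EMf_W d v) :
    EMf_W (d + 1) (mu (mu v) - v) := by
  have h := EMf_W_add (EMf_W_mu1 (EMf_W_mu hv)) (EMf_W_mu1 hv)
  rwa [sub_add_sub_cancel] at h

private theorem EMf_W_di1 {d : ℕ} {v : Ser} (hv : EMf_W d v) : EMf_W (d + 1) (v - di v) := by
  have h := EMf_W_mu1 (EMf_W_di hv)
  rwa [EMf_mu_di] at h

private theorem EMf_W_di2 {d : ℕ} {v : Ser} (hv : EMf_W d v) :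
    EMf_W (d + 1) (v - di (di v)) := by
  have h := EMf_W_add (EMf_W_di1 hv) (EMf_W_di1 (EMf_W_di hv))
  rwa [sub_add_sub_cancel] at h

private theorem EMf_W_neg {d : ℕ} {v : Ser} (hv : EMf_W d v) : EMf_W d (-v) := fun i k hik => by
  rw [Pi.neg_apply, Pi.neg_apply, hv i k hik, neg_zero]

private def EMf_L (n : ℕ) (v : Ser × Ser) : Prop := EMf_W (n - 1) v.1 ∧ EMf_W n v.2

private theorem EMf_L_st {n : ℕ} {v : Ser × Ser} (l : Ltr) (hv : EMf_L n v) :
    EMf_L n (stS l v) := by
  obtain ⟨h1, h2⟩ := hv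
  obtain ⟨b, c⟩ := l
  have h3 : EMf_W (n - 1) v.2 := EMf_W_mono (Nat.sub_le n 1) h2
  have h4 : EMf_W n (mZ v.1) := EMf_W_mono (by omega) (EMf_W_mZ h1)
  cases b <;> cases c
  · exact ⟨EMf_W_sub h1 (EMf_W_di h3), EMf_W_di (EMf_W_di h2)⟩
  · exact ⟨EMf_W_add h1 (EMf_W_mu h3), EMf_W_mu (EMf_W_mu h2)⟩
  · exact ⟨EMf_W_di (EMf_W_di h1), EMf_W_sub h2 (EMf_W_di h4)⟩
  · exact ⟨EMf_W_mu (EMf_W_mu h1), EMf_W_add h2 (EMf_W_mu h4)⟩

private theorem EMf_L_st1 {n : ℕ} {v : Ser × Ser} (l : Ltr) (hv : EMf_L n v) :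
    EMf_L (n + 1) (stS l v - v) := by
  obtain ⟨h1, h2⟩ := hv
  obtain ⟨v1, v2⟩ := v
  obtain ⟨b, c⟩ := l
  have h4 : EMf_W (n + 1) (mZ v1) := EMf_W_mono (by omega) (EMf_W_mZ h1)
  cases b <;> cases c
  · refine ⟨?_, ?_⟩
    · show EMf_W n (v1 - di v2 - v1)
      have e : v1 - di v2 - v1 = -(di v2) := by abel
      rw [e]
      exact EMf_W_neg (EMf_W_di h2)
    · show EMf_W (n + 1) (di (di v2) - v2)
      have h := EMf_W_neg (EMf_W_di2 h2)
      rwa [neg_sub] at h
  · refine ⟨?_, ?_⟩
    · show EMf_W n (v1 + mu v2 - v1)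
      rw [add_sub_cancel_left]
      exact EMf_W_mu h2
    · show EMf_W (n + 1) (mu (mu v2) - v2)
      exact EMf_W_mu2 h2
  · refine ⟨?_, ?_⟩
    · show EMf_W n (di (di v1) - v1)
      have h := EMf_W_neg (EMf_W_di2 h1)
      rw [neg_sub] at h
      exact EMf_W_mono (by omega) h
    · show EMf_W (n + 1) (v2 - di (mZ v1) - v2)
      have e : v2 - di (mZ v1) - v2 = -(di (mZ v1)) := by abel
      rw [e]
      exact EMf_W_neg (EMf_W_di h4)
  · refine ⟨?_, ?_⟩
    · show EMf_W n (mu (mu v1) - v1)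
      exact EMf_W_mono (by omega) (EMf_W_mu2 h1)
    · show EMf_W (n + 1) (v2 + mu (mZ v1) - v2)
      rw [add_sub_cancel_left]
      exact EMf_W_mu h4

/-! ### alternating sums -/

private def EMf_alt {M : Type} [AddCommGroup M] : (List Ltr → M) → List (Ltr × Bool) → M
  | f, [] => f []
  | f, (l, false) :: T => EMf_alt (fun w => f (l :: w)) T
  | f, (l, true) :: T => EMf_alt (fun w => f (l :: w) - f w) T

private theorem EMf_alt_map {M N : Type} [AddCommGroup M] [AddCommGroup N] (L : M → N)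
    (hL : ∀ a b, L (a - b) = L a - L b) (T : List (Ltr × Bool)) :
    ∀ f : List Ltr → M, EMf_alt (fun w => L (f w)) T = L (EMf_alt f T) := by
  induction T with
  | nil => intro f; rfl
  | cons x T ih =>
    intro f
    obtain ⟨l, b⟩ := x
    cases b
    · exact ih fun w => f (l :: w)
    · show EMf_alt (fun w => L (f (l :: w)) - L (f w)) T = L (EMf_alt (fun w => f (l :: w) - f w) T)
      rw [← ih fun w => f (l :: w) - f w]
      congr 1
      funext w
      exact (hL _ _).symm

private theorem EMf_alt_eq {R : Type} [CommRing R] (T : List (Ltr × Bool)) :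
    ∀ f : List Ltr → R, alt f T = EMf_alt f T := by
  induction T with
  | nil => intro f; rfl
  | cons x T ih =>
    intro f
    obtain ⟨l, b⟩ := x
    cases b
    · exact ih fun w => f (l :: w)
    · exact ih fun w => f (l :: w) - f w

private theorem EMf_alt_sub {M : Type} [AddCommGroup M] (T : List (Ltr × Bool)) :
    ∀ f g : List Ltr → M, EMf_alt (fun w => f w - g w) T = EMf_alt f T - EMf_alt g T := by
  intro f g
  have h := EMf_alt_map (M := M × M) (N := M) (fun p => p.1 - p.2)
    (fun a b => by simp only [Prod.fst_sub, Prod.snd_sub]; abel) T (fun w => (f w, g w))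
  have h1 := EMf_alt_map (M := M × M) (N := M) (fun p => p.1) (fun a b => rfl) T
    (fun w => (f w, g w))
  have h2 := EMf_alt_map (M := M × M) (N := M) (fun p => p.2) (fun a b => rfl) T
    (fun w => (f w, g w))
  rw [h, h1, h2]

private theorem EMf_lev (T : List (Ltr × Bool)) :
    EMf_L (T.countP fun x => x.2) (EMf_alt staS T) := by
  induction T with
  | nil =>
    refine ⟨fun i k h => ?_, fun i k h => ?_⟩
    · simp only [List.countP_nil] at h
      omega
    · simp only [List.countP_nil] at h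
      omega
  | cons x T ih =>
    obtain ⟨l, b⟩ := x
    have h1 : EMf_alt (fun w => staS (l :: w)) T = stS l (EMf_alt staS T) :=
      EMf_alt_map (stS l) (EMf_st_sub l) T staS
    cases b
    · have h2 : EMf_alt staS ((l, false) :: T) = stS l (EMf_alt staS T) := h1
      have h3 : ((l, false) :: T).countP (fun x => x.2) = T.countP fun x => x.2 := by
        simp
      rw [h2, h3]
      exact EMf_L_st l ih
    · have h2 : EMf_alt staS ((l, true) :: T) = stS l (EMf_alt staS T) - EMf_alt staS T := by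
        show EMf_alt (fun w => staS (l :: w) - staS w) T = _
        rw [EMf_alt_sub T (fun w => staS (l :: w)) staS, h1]
      have h3 : ((l, true) :: T).countP (fun x => x.2) = (T.countP fun x => x.2) + 1 := by
        simp
      rw [h2, h3]
      exact EMf_L_st1 l ih

private theorem EMf_inv (b : Bool) (v : Ser × Ser) : stS (b, true) (stS (b, false) v) = v := by
  obtain ⟨x, y⟩ := v
  cases b
  · show (x - di y + mu (di (di y)), mu (mu (di (di y)))) = (x, y)
    rw [EMf_mu_di, EMf_mu_di]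
    exact Prod.ext (by simp) rfl
  · show (mu (mu (di (di x))), y - di (mZ x) + mu (mZ (di (di x)))) = (x, y)
    rw [EMf_mu_di, EMf_mu_di, EMf_mZ_di, EMf_mZ_di, EMf_mu_di]
    exact Prod.ext rfl (by simp)

theorem thm_EMf : St_EMf := by
  refine ⟨fun i k T hT => ?_, fun g₀ g₁ b => ?_⟩
  · rw [EMf_alt_eq]
    have h := EMf_alt_map (M := Ser × Ser) (N := ℤ)
      (fun p => (p.2 + di p.1 - mu p.1) i k) (fun a c => by
        rw [Prod.fst_sub, Prod.snd_sub, EMf_di_sub, EMf_mu_sub]
        simp only [Pi.sub_apply, Pi.add_apply]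
        ring) T staS
    have h0 : EMf_alt (fun w => polS w i k) T =
        EMf_alt (fun w => ((staS w).2 + di (staS w).1 - mu (staS w).1) i k) T := rfl
    rw [h0, h]
    obtain ⟨h1, h2⟩ := EMf_lev T
    generalize EMf_alt staS T = v at h1 h2 ⊢
    obtain ⟨v1, v2⟩ := v
    dsimp only at h1 h2 ⊢
    have h3 : EMf_W (T.countP fun x => x.2) (v2 + di v1 - mu v1) := by
      have h4 := EMf_W_add (EMf_W_di1 h1) (EMf_W_mu1 h1)
      have h5 : v1 - di v1 + (mu v1 - v1) = mu v1 - di v1 := by abel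
      rw [h5] at h4
      have h6 : v2 + di v1 - mu v1 = v2 - (mu v1 - di v1) := by abel
      rw [h6]
      exact EMf_W_sub h2 (EMf_W_mono (by omega) h4)
    exact h3 i k (by omega)
  · have h : staS (g₀ ++ (b, true) :: (b, false) :: g₁) = staS (g₀ ++ g₁) := by
      unfold staS
      rw [List.foldr_append, List.foldr_append, List.foldr_cons, List.foldr_cons, EMf_inv]
    unfold polS
    rw [h]

end IBN
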