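import Pool.Agent.IBN.StB

/-!
# IBN [EMp] : degree of products of functions of words
-/

set_option autoImplicit false

namespace IBN

section

variable {R : Type} [CommRing R]

private lemma EMp_add (T : List (Ltr × Bool)) : ∀ f g : List Ltr → R,
    alt (fun w => f w + g w) T = alt f T + alt g T := by
  induction T with
  | nil => intro f g; rfl
  | cons a T ih =>
    intro f g
    obtain ⟨l, b⟩ := a
    cases b with
    | false => exact ih (fun w => f (l :: w)) (fun w => g (l :: w))
    | true =>
      have h := ih (fun w => f (l :: w) - f w) (fun w => g (l :: w) - g w)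
      have e : (fun w => f (l :: w) + g (l :: w) - (f w + g w)) =
          fun w => (f (l :: w) - f w) + (g (l :: w) - g w) := by
        funext w; ring
      show alt (fun w => f (l :: w) + g (l :: w) - (f w + g w)) T = _
      rw [e]
      exact h

private lemma EMp_mul (c : R) (T : List (Ltr × Bool)) : ∀ f : List Ltr → R,
    alt (fun w => c * f w) T = c * alt f T := by
  induction T with
  | nil => intro f; rfl
  | cons a T ih =>
    intro f
    obtain ⟨l, b⟩ := a
    cases b with
    | false => exact ih (fun w => f (l :: w))
    | true =>
      have h := ih (fun w => f (l :: w) - f w)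
      have e : (fun w => c * f (l :: w) - c * f w) = fun w => c * (f (l :: w) - f w) := by
        funext w; ring
      show alt (fun w => c * f (l :: w) - c * f w) T = _
      rw [e]
      exact h

private lemma EMp_zero (T : List (Ltr × Bool)) : alt (fun _ => (0 : R)) T = 0 := by
  have h := EMp_mul (0 : R) T fun _ => (0 : R)
  simpa using h

private lemma EMp_unm (w : List Ltr) : ∀ f : List Ltr → R,
    alt f (w.map fun l => (l, false)) = f w := by
  induction w with
  | nil => intro f; rfl
  | cons l w ih => intro f; exact ih fun w => f (l :: w)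

private lemma EMp_dg0 (f : List Ltr → R) (h : Dg f 0) : f = fun _ => 0 := by
  funext w
  rw [← EMp_unm w f]
  exact h _ (Nat.zero_le _)

private lemma EMp_left (f : List Ltr → R) (l : Ltr) (d : ℕ) (h : Dg f d) :
    Dg (fun w => f (l :: w)) d := by
  intro T hT
  have h1 := h ((l, false) :: T) (by simpa using hT)
  exact h1

private lemma EMp_diff (f : List Ltr → R) (l : Ltr) (d : ℕ) (h : Dg f d) :
    Dg (fun w => f (l :: w) - f w) (d - 1) := by
  intro T hT
  have h1 := h ((l, true) :: T) (by
    rw [List.countP_cons_of_pos (by rfl)]
    omega)
  exact h1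

private lemma EMp_prod (T : List (Ltr × Bool)) : ∀ (f g : List Ltr → R) (d e : ℕ), Dg f d →
    Dg g e → d + e ≤ T.countP (fun x => x.2) + 1 → alt (fun w => f w * g w) T = 0 := by
  induction T with
  | nil =>
    intro f g d e hf hg h
    have h' : d + e ≤ 1 := by simpa using h
    rcases Nat.eq_zero_or_pos d with h0 | h0
    · subst h0
      rw [EMp_dg0 f hf]
      simp only [zero_mul]
      exact EMp_zero _
    · have h1 : e = 0 := by omega
      subst h1
      rw [EMp_dg0 g hg]
      simp only [mul_zero]
      exact EMp_zero _
  | cons a T ih =>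
    intro f g d e hf hg h
    rcases Nat.eq_zero_or_pos d with h0 | h0
    · subst h0
      rw [EMp_dg0 f hf]
      simp only [zero_mul]
      exact EMp_zero _
    rcases Nat.eq_zero_or_pos e with h1 | h1
    · subst h1
      rw [EMp_dg0 g hg]
      simp only [mul_zero]
      exact EMp_zero _
    obtain ⟨l, b⟩ := a
    cases b with
    | false =>
      have h2 : d + e ≤ T.countP (fun x => x.2) + 1 := by simpa using h
      exact ih _ _ d e (EMp_left f l d hf) (EMp_left g l e hg) h2
    | true =>
      have h2 : d + e ≤ T.countP (fun x => x.2) + 1 + 1 := by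
        rwa [List.countP_cons_of_pos (by rfl)] at h
      have i1 := ih _ _ (d - 1) e (EMp_diff f l d hf) hg (by omega)
      have i2 := ih _ _ d (e - 1) (EMp_left f l d hf) (EMp_diff g l e hg) (by omega)
      have e1 : (fun w => f (l :: w) * g (l :: w) - f w * g w) =
          fun w => (f (l :: w) - f w) * g w + f (l :: w) * (g (l :: w) - g w) := by
        funext w; ring
      show alt (fun w => f (l :: w) * g (l :: w) - f w * g w) T = 0
      rw [e1, EMp_add, i1, i2, add_zero]

end

theorem thm_EMp : St_EMp := by
  intro R _ f g d e hf hg
  refine ⟨?_, ?_, ?_, ?_⟩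
  · intro hd he T hT
    exact EMp_prod T f g d e hf hg (by omega)
  · intro T hT
    rw [EMp_add, hf T (le_trans (le_max_left _ _) hT), hg T (le_trans (le_max_right _ _) hT),
      add_zero]
  · intro c T hT
    rw [EMp_mul, hf T hT, mul_zero]
  · intro d' hd' T hT
    exact hf T (le_trans hd' hT)

end IBN
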