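import Pool.Agent.IBN.StB

/-!
# Functions of degree at most five which are divisible by 16
-/

set_option autoImplicit false

namespace IBN

private lemma EMv_sub (T : List (Ltr × Bool)) : ∀ f : List Ltr → ℤ,
    (∀ w : List Ltr, w.Sublist (T.map fun x => x.1) → w.length < T.length → (16 : ℤ) ∣ f w) →
    (16 : ℤ) ∣ alt f T - f (T.map fun x => x.1) := by
  induction T with
  | nil =>
    intro f _
    simp [alt]
  | cons x T ih =>
    intro f hf
    obtain ⟨l, b⟩ := x
    cases b with
    | false =>
      have h1 := ih (fun w => f (l :: w)) (fun w hw hl => hf (l :: w)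
        (by simpa using hw.cons_cons l) (by simpa using hl))
      simpa [alt] using h1
    | true =>
      have h1 := ih (fun w => f (l :: w) - f w) (fun w hw hl => dvd_sub
        (hf (l :: w) (by simpa using hw.cons_cons l) (by simpa using hl))
        (hf w (by simpa using hw.cons l) (by simp only [List.length_cons]; omega)))
      have h2 := hf (T.map fun x => x.1) (by simp) (by simp)
      have h3 : alt f ((l, true) :: T) - f (((l, true) :: T).map fun x => x.1)
          = (alt (fun w => f (l :: w) - f w) T - (f (l :: T.map fun x => x.1)
            - f (T.map fun x => x.1))) - f (T.map fun x => x.1) := by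
        simp only [alt, List.map_cons]
        ring
      rw [h3]
      exact dvd_sub h1 h2

private lemma EMv_un (g : List Ltr) : ∀ (f : List Ltr → ℤ) (T : List (Ltr × Bool)),
    alt f ((g.map fun l => (l, false)) ++ T) = alt (fun w => f (g ++ w)) T := by
  induction g with
  | nil => intro f T; rfl
  | cons l g ih =>
    intro f T
    simp only [List.map_cons, List.cons_append, alt]
    rw [ih]

private lemma EMv_all (f : List Ltr → ℤ) (g : List Ltr) :
    alt f (g.map fun l => (l, false)) = f g := by
  have h1 := EMv_un g f []
  rw [List.append_nil] at h1
  rw [h1]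
  simp [alt]

private lemma EMv_rep (l : Ltr) (v : List Ltr) (m : ℕ) : ∀ F : List Ltr → ℤ,
    (∀ k, 1 ≤ k → (16 : ℤ) ∣ F (List.replicate k l ++ v)) →
    (16 : ℤ) ∣ alt F (List.replicate m (l, true) ++ v.map fun l => (l, false)) - (-1) ^ m * F v := by
  induction m with
  | zero =>
    intro F _
    simp [EMv_all]
  | succ m ih =>
    intro F hF
    have h1 := ih (fun w => F (l :: w) - F w) (fun k hk => dvd_sub
      (by simpa [List.replicate_succ] using hF (k + 1) (by omega)) (hF k hk))
    have h2 : (16 : ℤ) ∣ (-1) ^ m * F (l :: v) :=
      Dvd.dvd.mul_left (by simpa using hF 1 le_rfl) _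
    have h3 : alt F (List.replicate (m + 1) (l, true) ++ v.map fun l => (l, false))
        - (-1) ^ (m + 1) * F v
        = (alt (fun w => F (l :: w) - F w) (List.replicate m (l, true) ++
          v.map fun l => (l, false)) - (-1) ^ m * (F (l :: v) - F v)) + (-1) ^ m * F (l :: v) := by
      rw [List.replicate_succ, List.cons_append]
      simp only [alt]
      ring
    rw [h3]
    exact dvd_add h1 h2

private lemma EMv_pos (f : List Ltr → ℤ) (hf : Dg f 6)
    (h : ∀ w : List Bool, w.length ≤ 5 → (16 : ℤ) ∣ f (w.map fun b => (b, true))) :
    ∀ (n : ℕ) (w : List Bool), w.length = n → (16 : ℤ) ∣ f (w.map fun b => (b, true)) := by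
  intro n
  induction n using Nat.strong_induction_on with
  | _ n ih =>
    intro w hw
    by_cases hn : n ≤ 5
    · exact h w (by omega)
    · set T : List (Ltr × Bool) := ((w.take 6).map fun b => (((b, true) : Ltr), true)) ++
        ((w.drop 6).map fun b => (((b, true) : Ltr), false)) with hT
      have hTm : (T.map fun x => x.1) = w.map fun b => ((b, true) : Ltr) := by
        rw [hT, List.map_append, List.map_map, List.map_map]
        have e1 : ((fun x : Ltr × Bool => x.1) ∘ fun b : Bool => (((b, true) : Ltr), true))
            = fun b => (b, true) := rfl
        have e2 : ((fun x : Ltr × Bool => x.1) ∘ fun b : Bool => (((b, true) : Ltr), false))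
            = fun b => (b, true) := rfl
        rw [e1, e2, ← List.map_append, List.take_append_drop]
      have hTl : T.length = w.length := by
        have h1 := congrArg List.length hTm
        simpa using h1
      have hTc : 6 ≤ T.countP (fun x => x.2) := by
        rw [hT, List.countP_append]
        refine le_trans ?_ (Nat.le_add_right _ _)
        rw [List.countP_map]
        have e1 : ((fun x : Ltr × Bool => x.2) ∘ fun b : Bool => (((b, true) : Ltr), true))
            = fun _ => true := rfl
        rw [e1, List.countP_true, List.length_take]
        omega
      have h1 := EMv_sub T f (fun v hv hl => by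
        rw [hTm] at hv
        obtain ⟨v', hv', rfl⟩ := List.sublist_map_iff.1 hv
        rw [List.length_map] at hl
        exact ih v'.length (by omega) v' rfl)
      rw [hf T hTc, hTm, zero_sub] at h1
      exact (dvd_neg).1 h1

theorem thm_EMv : St_EMv := by
  intro f hf hc h
  have key : ∀ (n : ℕ) (w : List Ltr), w.countP (fun l => !l.2) = n → (16 : ℤ) ∣ f w := by
    intro n
    induction n with
    | zero =>
      intro w hw
      have h1 : w = (w.map fun l => l.1).map fun b => ((b, true) : Ltr) := by
        rw [List.map_map]
        conv_lhs => rw [← List.map_id w]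
        refine List.map_congr_left fun l hl => ?_
        have h2 := List.countP_eq_zero.1 hw l hl
        obtain ⟨b, c⟩ := l
        cases c
        · simp at h2
        · rfl
      rw [h1]
      exact EMv_pos f hf h _ _ rfl
    | succ n ih =>
      intro w hw
      have h1 : 0 < w.countP (fun l => !l.2) := by omega
      obtain ⟨l, hl, hl2⟩ := List.countP_pos_iff.1 h1
      obtain ⟨g₀, g₁, rfl⟩ := List.append_of_mem hl
      obtain ⟨b, c⟩ := l
      cases c with
      | true => simp at hl2
      | false =>
        have h2 := EMv_rep (b, true) ((b, false) :: g₁) 6 (fun v => f (g₀ ++ v)) (fun k hk => by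
          obtain ⟨j, rfl⟩ : ∃ j, k = j + 1 := ⟨k - 1, by omega⟩
          have h3 : List.replicate (j + 1) ((b, true) : Ltr) ++ (b, false) :: g₁
              = List.replicate j ((b, true) : Ltr) ++ (b, true) :: (b, false) :: g₁ := by
            rw [List.replicate_succ', List.append_assoc]
            rfl
          show (16 : ℤ) ∣ f (g₀ ++ (List.replicate (j + 1) ((b, true) : Ltr) ++ (b, false) :: g₁))
          rw [h3, ← List.append_assoc, hc]
          refine ih _ ?_
          rw [List.countP_append, List.countP_append, List.countP_replicate]
          rw [List.countP_append, List.countP_cons] at hw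
          simp at hw ⊢
          omega)
        have h4 := EMv_un g₀ f (List.replicate 6 (((b, true) : Ltr), true) ++
          (((b, false) : Ltr) :: g₁).map fun l => (l, false))
        rw [← h4, hf _ ?_] at h2
        · simpa using h2
        · rw [List.countP_append, List.countP_append, List.countP_replicate]
          simp
          omega
  exact fun w => key _ w rfl

end IBN
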