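import Pool.Agent.IBN.StB

/-!
# IBN, EMw: the 63 words
-/

set_option autoImplicit false

namespace IBN

private def EMw_wd : ℕ → List (List Bool)
  | 0 => [[]]
  | n + 1 => [] :: (EMw_wd n).flatMap fun w => [true :: w, false :: w]

private theorem EMw_mem : ∀ (n : ℕ) (w : List Bool), w.length ≤ n → w ∈ EMw_wd n
  | 0, [], _ => by simp [EMw_wd]
  | 0, _ :: _, h => by simp at h
  | n + 1, [], _ => by simp [EMw_wd]
  | n + 1, b :: w, h => by
    have h1 : w ∈ EMw_wd n := EMw_mem n w (by simpa using h)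
    unfold EMw_wd
    refine List.mem_cons_of_mem _ (List.mem_flatMap.2 ⟨w, h1, ?_⟩)
    cases b <;> simp

private theorem EMw_all : ∀ w ∈ EMw_wd 5, (16 : ℤ) ∣ E16 (polS (w.map fun b => (b, true))) := by
  decide +kernel

theorem thm_EMw : St_EMw := fun w h => EMw_all w (EMw_mem 5 w h)

end IBN
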