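import Pool.Agent.IBN.StB

/-!
# IBN, module EN: the number `EE` is divisible by 16
-/

set_option autoImplicit false

namespace IBN

/-! ### truncated values -/

/-- the value of a series at `u`, `Z`, truncated -/
private noncomputable def EN_th (u Z : PowerSeries ℚ) (v : Ser) : PowerSeries ℚ :=
  PowerSeries.C ((v 0 0 : ℤ) : ℚ) * 1 + PowerSeries.C ((v 1 0 : ℤ) : ℚ) * u +
  PowerSeries.C ((v 2 0 : ℤ) : ℚ) * u ^ 2 + PowerSeries.C ((v 3 0 : ℤ) : ℚ) * u ^ 3 +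
  PowerSeries.C ((v 4 0 : ℤ) : ℚ) * u ^ 4 + PowerSeries.C ((v 5 0 : ℤ) : ℚ) * u ^ 5 +
  PowerSeries.C ((v 0 1 : ℤ) : ℚ) * Z + PowerSeries.C ((v 1 1 : ℤ) : ℚ) * (u * Z) +
  PowerSeries.C ((v 2 1 : ℤ) : ℚ) * (u ^ 2 * Z) + PowerSeries.C ((v 3 1 : ℤ) : ℚ) * (u ^ 3 * Z) +
  PowerSeries.C ((v 0 2 : ℤ) : ℚ) * Z ^ 2 + PowerSeries.C ((v 1 2 : ℤ) : ℚ) * (u * Z ^ 2)

private theorem EN_add (u Z : PowerSeries ℚ) (v w : Ser) :
    EN_th u Z (v + w) = EN_th u Z v + EN_th u Z w := by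
  simp only [EN_th, Pi.add_apply, Int.cast_add, map_add]
  ring

private theorem EN_sub (u Z : PowerSeries ℚ) (v w : Ser) :
    EN_th u Z (v - w) = EN_th u Z v - EN_th u Z w := by
  simp only [EN_th, Pi.sub_apply, Int.cast_sub, map_sub]
  ring

private theorem EN_zero (u Z : PowerSeries ℚ) : EN_th u Z 0 = 0 := by
  simp [EN_th]

private theorem EN_one (u Z : PowerSeries ℚ) : EN_th u Z oneS = 1 := by
  simp [EN_th, oneS]

private theorem EN_mudi (v : Ser) : mu (di v) = v := by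
  funext i k
  cases i with
  | zero => simp [mu, di]
  | succ i =>
    have h1 : mu (di v) (i + 1) k = di v (i + 1) k + di v i k := by simp [mu]
    have h2 : di v (i + 1) k = v (i + 1) k - di v i k := by
      unfold di
      rw [Finset.sum_range_succ' _ (i + 1)]
      simp only [Nat.add_sub_add_right, pow_succ, pow_zero, one_mul, Nat.sub_zero, mul_neg, mul_one,
        neg_mul, Finset.sum_neg_distrib]
      ring
    rw [h1, h2]
    ring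

section quot

variable {Q : Type} [CommRing Q] (φ : PowerSeries ℚ →+* Q)

private theorem EN_mu (hφ : φ (PowerSeries.X ^ 6) = 0) (a Z : PowerSeries ℚ)
    (hu : PowerSeries.X ∣ a - 1) (hZ : PowerSeries.X ^ 2 ∣ Z) (v : Ser) :
    φ (EN_th (a - 1) Z (mu v)) = φ a * φ (EN_th (a - 1) Z v) := by
  obtain ⟨u', hu'⟩ := hu
  obtain ⟨Z', hZ'⟩ := hZ
  have h : EN_th (a - 1) Z (mu v) = a * EN_th (a - 1) Z v - PowerSeries.X ^ 6 *
      (PowerSeries.C ((v 5 0 : ℤ) : ℚ) * u' ^ 6 + PowerSeries.C ((v 3 1 : ℤ) : ℚ) * (u' ^ 4 * Z') +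
        PowerSeries.C ((v 1 2 : ℤ) : ℚ) * (u' ^ 2 * Z' ^ 2)) := by
    have ha : a = 1 + PowerSeries.X * u' := by rw [← hu']; ring
    rw [hu', hZ', ha]
    simp [EN_th, mu]
    ring
  rw [h, map_sub, map_mul, map_mul, hφ, zero_mul, sub_zero]

private theorem EN_mZ (hφ : φ (PowerSeries.X ^ 6) = 0) (a Z : PowerSeries ℚ)
    (hu : PowerSeries.X ∣ a - 1) (hZ : PowerSeries.X ^ 2 ∣ Z) (v : Ser) :
    φ (EN_th (a - 1) Z (mZ v)) = φ Z * φ (EN_th (a - 1) Z v) := by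
  obtain ⟨u', hu'⟩ := hu
  obtain ⟨Z', hZ'⟩ := hZ
  have h : EN_th (a - 1) Z (mZ v) = Z * EN_th (a - 1) Z v - PowerSeries.X ^ 6 *
      (PowerSeries.C ((v 4 0 : ℤ) : ℚ) * (u' ^ 4 * Z') +
        PowerSeries.C ((v 5 0 : ℤ) : ℚ) * (PowerSeries.X * u' ^ 5 * Z') +
        PowerSeries.C ((v 2 1 : ℤ) : ℚ) * (u' ^ 2 * Z' ^ 2) +
        PowerSeries.C ((v 3 1 : ℤ) : ℚ) * (PowerSeries.X * u' ^ 3 * Z' ^ 2) +
        PowerSeries.C ((v 0 2 : ℤ) : ℚ) * Z' ^ 3 +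
        PowerSeries.C ((v 1 2 : ℤ) : ℚ) * (PowerSeries.X * u' * Z' ^ 3)) := by
    rw [hu', hZ']
    simp [EN_th, mZ]
    ring
  rw [h, map_sub, map_mul, map_mul, hφ, zero_mul, sub_zero]

private theorem EN_di (hφ : φ (PowerSeries.X ^ 6) = 0) (a : (PowerSeries ℚ)ˣ) (Z : PowerSeries ℚ)
    (hu : PowerSeries.X ∣ (a : PowerSeries ℚ) - 1) (hZ : PowerSeries.X ^ 2 ∣ Z) (v : Ser) :
    φ (EN_th (a - 1) Z (di v)) = φ ((a⁻¹ : (PowerSeries ℚ)ˣ) : PowerSeries ℚ) *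
      φ (EN_th (a - 1) Z v) := by
  have h := EN_mu φ hφ a Z hu hZ (di v)
  rw [EN_mudi] at h
  rw [h, ← mul_assoc, ← map_mul, Units.inv_mul, map_one, one_mul]

private theorem EN_sta (hφ : φ (PowerSeries.X ^ 6) = 0) (a : (PowerSeries ℚ)ˣ)
    (Z : PowerSeries ℚ) (hu : PowerSeries.X ∣ (a : PowerSeries ℚ) - 1)
    (hZ : PowerSeries.X ^ 2 ∣ Z) (g : List Ltr) :
    φ (sta a Z g).1 = φ (EN_th (a - 1) Z (staS g).1) ∧
      φ (sta a Z g).2 = φ (EN_th (a - 1) Z (staS g).2) := by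
  induction g with
  | nil =>
    have h1 : sta a Z [] = (0, 1) := rfl
    have h2 : staS [] = (0, oneS) := rfl
    rw [h1, h2]
    simp only [EN_zero, EN_one]
    exact ⟨trivial, trivial⟩
  | cons l g ih =>
    obtain ⟨ih1, ih2⟩ := ih
    have h1 : sta a Z (l :: g) = stp a Z l (sta a Z g) := rfl
    have h2 : staS (l :: g) = stS l (staS g) := rfl
    rw [h1, h2]
    generalize sta a Z g = s at ih1 ih2
    generalize staS g = t at ih1 ih2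
    rcases l with ⟨_ | _, _ | _⟩ <;> simp only [stp, stS] <;> constructor <;>
      simp only [EN_add, EN_sub, map_add, map_sub, map_mul, map_pow, EN_mu φ hφ a Z hu hZ,
        EN_di φ hφ a Z hu hZ, EN_mZ φ hφ a Z hu hZ, ih1, ih2] <;> ring

private theorem EN_pol (hφ : φ (PowerSeries.X ^ 6) = 0) (a : (PowerSeries ℚ)ˣ)
    (Z : PowerSeries ℚ) (hu : PowerSeries.X ∣ (a : PowerSeries ℚ) - 1)
    (hZ : PowerSeries.X ^ 2 ∣ Z) (g : List Ltr) :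
    φ (pol a Z g) = φ (EN_th (a - 1) Z (polS g)) := by
  obtain ⟨h1, h2⟩ := EN_sta φ hφ a Z hu hZ g
  unfold pol polS
  simp only [EN_add, EN_sub, map_add, map_sub, map_mul, EN_mu φ hφ a Z hu hZ,
    EN_di φ hφ a Z hu hZ, h1, h2]
  ring

end quot

private theorem EN_coeff (a : (PowerSeries ℚ)ˣ)
    (Z : PowerSeries ℚ) (hu : PowerSeries.X ∣ (a : PowerSeries ℚ) - 1)
    (hZ : PowerSeries.X ^ 2 ∣ Z) (g : List Ltr) (n : ℕ) (hn : n < 6) :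
    PowerSeries.coeff n (pol a Z g) = PowerSeries.coeff n (EN_th (a - 1) Z (polS g)) := by
  have h := EN_pol (Ideal.Quotient.mk (Ideal.span {(PowerSeries.X : PowerSeries ℚ) ^ 6}))
    (Ideal.Quotient.eq_zero_iff_mem.2 (Ideal.mem_span_singleton_self _)) a Z hu hZ g
  rw [Ideal.Quotient.eq, Ideal.mem_span_singleton, PowerSeries.X_pow_dvd_iff] at h
  have h2 := h n hn
  rw [map_sub] at h2
  exact sub_eq_zero.1 h2

/-- for `N = 1` the value is `1` -/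
private theorem EN_inv {A : Type} [CommRing A] (a : Aˣ) (g : List Ltr) :
    pol a ((((a⁻¹ : Aˣ) : A) - a) ^ 2) g = 1 := by
  have hu : (a : A) * ((a⁻¹ : Aˣ) : A) = 1 := Units.mul_inv a
  unfold pol
  induction g with
  | nil =>
    have h1 : sta a ((((a⁻¹ : Aˣ) : A) - a) ^ 2) [] = (0, 1) := rfl
    rw [h1]
    simp
  | cons l g ih =>
    have h1 : sta a ((((a⁻¹ : Aˣ) : A) - a) ^ 2) (l :: g) =
      stp a ((((a⁻¹ : Aˣ) : A) - a) ^ 2) l (sta a ((((a⁻¹ : Aˣ) : A) - a) ^ 2) g) := rfl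
    rw [h1]
    generalize sta a ((((a⁻¹ : Aˣ) : A) - a) ^ 2) g = s at ih
    rcases l with ⟨_ | _, _ | _⟩ <;> simp only [stp]
    · linear_combination ih + s.2 * hu
    · linear_combination ih + s.2 * hu
    · linear_combination ih + (((a⁻¹ : Aˣ) : A) - a) * s.1 * hu
    · linear_combination ih + (((a⁻¹ : Aˣ) : A) - a) * s.1 * hu

/-! ### tables -/

/-- the first six coefficients -/
private def EN_T (f : PowerSeries ℚ) (v : List ℤ) : Prop :=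
  ∀ n < 6, PowerSeries.coeff n f = ((v.getD n 0 : ℤ) : ℚ)

private theorem EN_Tmul {f g : PowerSeries ℚ} {v w : List ℤ} (hf : EN_T f v) (hg : EN_T g w)
    (r : List ℤ)
    (h : ∀ n < 6, ∑ i ∈ Finset.range (n + 1), v.getD i 0 * w.getD (n - i) 0 = r.getD n 0) :
    EN_T (f * g) r := by
  intro n hn
  rw [PowerSeries.coeff_mul, Finset.Nat.sum_antidiagonal_eq_sum_range_succ_mk, ← h n hn,
    Int.cast_sum]
  refine Finset.sum_congr rfl fun i hi => ?_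
  have hi' : i < n + 1 := Finset.mem_range.1 hi
  rw [hf i (by omega), hg (n - i) (by omega), Int.cast_mul]

private theorem EN_Tpow {f : PowerSeries ℚ} {k : ℕ} {v w : List ℤ} (hf : EN_T (f ^ k) v)
    (hg : EN_T f w) (r : List ℤ)
    (h : ∀ n < 6, ∑ i ∈ Finset.range (n + 1), v.getD i 0 * w.getD (n - i) 0 = r.getD n 0) :
    EN_T (f ^ (k + 1)) r := by
  rw [pow_succ]
  exact EN_Tmul hf hg r h

private theorem EN_Tsq {f : PowerSeries ℚ} {v : List ℤ} (hf : EN_T f v) (r : List ℤ)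
    (h : ∀ n < 6, ∑ i ∈ Finset.range (n + 1), v.getD i 0 * v.getD (n - i) 0 = r.getD n 0) :
    EN_T (f ^ (1 + 1)) r := by
  rw [pow_succ, pow_one]
  exact EN_Tmul hf hf r h

private theorem EN_Tone : EN_T 1 [1, 0, 0, 0, 0, 0] := by
  intro n hn
  rw [PowerSeries.coeff_one]
  interval_cases n <;> norm_num [List.getD]

private theorem EN_Ti : EN_T ((uX⁻¹ : (PowerSeries ℚ)ˣ) : PowerSeries ℚ) [1, -1, 1, -1, 1, -1] := by
  intro n hn
  have h : ((uX⁻¹ : (PowerSeries ℚ)ˣ) : PowerSeries ℚ) = PowerSeries.mk fun n => (-1) ^ n := rfl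
  rw [h, PowerSeries.coeff_mk]
  interval_cases n <;> norm_num [List.getD]

private theorem EN_Ta1 : EN_T ((uX ^ (-(1 : ℤ)) : (PowerSeries ℚ)ˣ) : PowerSeries ℚ)
    [1, -1, 1, -1, 1, -1] := by
  rw [zpow_neg, zpow_one]
  exact EN_Ti

private theorem EN_Ta2 : EN_T ((uX ^ (-(2 : ℤ)) : (PowerSeries ℚ)ˣ) : PowerSeries ℚ)
    [1, -2, 3, -4, 5, -6] := by
  have h : (uX ^ (-(2 : ℤ)) : (PowerSeries ℚ)ˣ) = uX⁻¹ * uX⁻¹ := by
    rw [zpow_neg, ← mul_inv, ← sq]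
    rfl
  rw [h, Units.val_mul]
  exact EN_Tmul EN_Ti EN_Ti _ (by decide)

private theorem EN_Ta3 : EN_T ((uX ^ (-(3 : ℤ)) : (PowerSeries ℚ)ˣ) : PowerSeries ℚ)
    [1, -3, 6, -10, 15, -21] := by
  have h : (uX ^ (-(3 : ℤ)) : (PowerSeries ℚ)ˣ) = uX⁻¹ * uX⁻¹ * uX⁻¹ := by
    rw [zpow_neg, ← mul_inv, ← mul_inv, ← sq, ← pow_succ]
    rfl
  rw [h, Units.val_mul, Units.val_mul]
  exact EN_Tmul (EN_Tmul EN_Ti EN_Ti [1, -2, 3, -4, 5, -6] (by decide)) EN_Ti _ (by decide)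

private theorem EN_Tz : EN_T (zz uX) [0, 2, -1, 1, -1, 1] := by
  intro n hn
  have h : zz uX = (1 + PowerSeries.X) - ((uX⁻¹ : (PowerSeries ℚ)ˣ) : PowerSeries ℚ) := rfl
  rw [h, map_sub, map_add, EN_Ti n hn, PowerSeries.coeff_one, PowerSeries.coeff_X]
  interval_cases n <;> norm_num [List.getD]

private theorem EN_TZ : EN_T (zz uX ^ 2) [0, 0, 4, -4, 5, -6] := by
  rw [sq]
  exact EN_Tmul EN_Tz EN_Tz _ (by decide)

private theorem EN_Tu {f : PowerSeries ℚ} {x : ℤ} {v : List ℤ} (h : EN_T f (x :: v)) :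
    EN_T (f - 1) ((x - 1) :: v) := by
  intro n hn
  rw [map_sub, h n hn, PowerSeries.coeff_one]
  cases n with
  | zero => simp
  | succ n => simp

/-- the coefficient of `X^n` in terms of the tables -/
private def EN_val (v : Ser) (t10 t20 t30 t40 t50 t01 t11 t21 t31 t02 t12 : List ℤ) (n : ℕ) : ℚ :=
  ((v 0 0 : ℤ) : ℚ) * (([1, 0, 0, 0, 0, 0] : List ℤ).getD n 0 : ℤ) +
  ((v 1 0 : ℤ) : ℚ) * (t10.getD n 0 : ℤ) + ((v 2 0 : ℤ) : ℚ) * (t20.getD n 0 : ℤ) +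
  ((v 3 0 : ℤ) : ℚ) * (t30.getD n 0 : ℤ) + ((v 4 0 : ℤ) : ℚ) * (t40.getD n 0 : ℤ) +
  ((v 5 0 : ℤ) : ℚ) * (t50.getD n 0 : ℤ) + ((v 0 1 : ℤ) : ℚ) * (t01.getD n 0 : ℤ) +
  ((v 1 1 : ℤ) : ℚ) * (t11.getD n 0 : ℤ) + ((v 2 1 : ℤ) : ℚ) * (t21.getD n 0 : ℤ) +
  ((v 3 1 : ℤ) : ℚ) * (t31.getD n 0 : ℤ) + ((v 0 2 : ℤ) : ℚ) * (t02.getD n 0 : ℤ) +
  ((v 1 2 : ℤ) : ℚ) * (t12.getD n 0 : ℤ)

private theorem EN_lin {u Z : PowerSeries ℚ}
    {t10 t20 t30 t40 t50 t01 t11 t21 t31 t02 t12 : List ℤ}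
    (h10 : EN_T u t10) (h20 : EN_T (u ^ (1 + 1)) t20) (h30 : EN_T (u ^ (1 + 1 + 1)) t30)
    (h40 : EN_T (u ^ (1 + 1 + 1 + 1)) t40) (h50 : EN_T (u ^ (1 + 1 + 1 + 1 + 1)) t50)
    (h01 : EN_T Z t01) (h11 : EN_T (u * Z) t11) (h21 : EN_T (u ^ (1 + 1) * Z) t21)
    (h31 : EN_T (u ^ (1 + 1 + 1) * Z) t31) (h02 : EN_T (Z ^ (1 + 1)) t02)
    (h12 : EN_T (u * Z ^ (1 + 1)) t12) (v : Ser) (n : ℕ) (hn : n < 6) :
    PowerSeries.coeff n (EN_th u Z v) =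
      EN_val v t10 t20 t30 t40 t50 t01 t11 t21 t31 t02 t12 n := by
  unfold EN_th EN_val
  simp only [map_add, PowerSeries.coeff_C_mul]
  rw [← EN_Tone n hn, ← h10 n hn, ← h20 n hn, ← h30 n hn, ← h40 n hn, ← h50 n hn, ← h01 n hn,
    ← h11 n hn, ← h21 n hn, ← h31 n hn, ← h02 n hn, ← h12 n hn]

private theorem EN_lin1 (v : Ser) (n : ℕ) (hn : n < 6) :
    PowerSeries.coeff n (EN_th (((uX ^ (-(1 : ℤ)) : (PowerSeries ℚ)ˣ) : PowerSeries ℚ) - 1)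
      (zz uX ^ 2) v) = EN_val v [0, -1, 1, -1, 1, -1] [0, 0, 1, -2, 3, -4] [0, 0, 0, -1, 3, -6]
        [0, 0, 0, 0, 1, -4] [0, 0, 0, 0, 0, -1] [0, 0, 4, -4, 5, -6] [0, 0, 0, -4, 8, -13]
        [0, 0, 0, 0, 4, -12] [0, 0, 0, 0, 0, -4] [0, 0, 0, 0, 16, -32] [0, 0, 0, 0, 0, -16] n := by
  have h10 : EN_T (((uX ^ (-(1 : ℤ)) : (PowerSeries ℚ)ˣ) : PowerSeries ℚ) - 1) [0, -1, 1, -1, 1, -1] := by
    have h := EN_Ta1
    intro n hn
    rw [map_sub, h n hn, PowerSeries.coeff_one]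
    interval_cases n <;> norm_num [List.getD]
  have h01 := EN_TZ
  have h20 := EN_Tsq h10 [0, 0, 1, -2, 3, -4] (by decide)
  have h30 := EN_Tpow h20 h10 [0, 0, 0, -1, 3, -6] (by decide)
  have h40 := EN_Tpow h30 h10 [0, 0, 0, 0, 1, -4] (by decide)
  have h50 := EN_Tpow h40 h10 [0, 0, 0, 0, 0, -1] (by decide)
  have h11 := EN_Tmul h10 h01 [0, 0, 0, -4, 8, -13] (by decide)
  have h21 := EN_Tmul h20 h01 [0, 0, 0, 0, 4, -12] (by decide)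
  have h31 := EN_Tmul h30 h01 [0, 0, 0, 0, 0, -4] (by decide)
  have h02 := EN_Tsq h01 [0, 0, 0, 0, 16, -32] (by decide)
  have h12 := EN_Tmul h10 h02 [0, 0, 0, 0, 0, -16] (by decide)
  exact EN_lin h10 h20 h30 h40 h50 h01 h11 h21 h31 h02 h12 v n hn

private theorem EN_lin2 (v : Ser) (n : ℕ) (hn : n < 6) :
    PowerSeries.coeff n (EN_th (((uX ^ (-(2 : ℤ)) : (PowerSeries ℚ)ˣ) : PowerSeries ℚ) - 1)
      (zz uX ^ 2) v) = EN_val v [0, -2, 3, -4, 5, -6] [0, 0, 4, -12, 25, -44] [0, 0, 0, -8, 36, -102]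
        [0, 0, 0, 0, 16, -96] [0, 0, 0, 0, 0, -32] [0, 0, 4, -4, 5, -6] [0, 0, 0, -8, 20, -38]
        [0, 0, 0, 0, 16, -64] [0, 0, 0, 0, 0, -32] [0, 0, 0, 0, 16, -32] [0, 0, 0, 0, 0, -32] n := by
  have h10 : EN_T (((uX ^ (-(2 : ℤ)) : (PowerSeries ℚ)ˣ) : PowerSeries ℚ) - 1) [0, -2, 3, -4, 5, -6] := by
    have h := EN_Ta2
    intro n hn
    rw [map_sub, h n hn, PowerSeries.coeff_one]
    interval_cases n <;> norm_num [List.getD]
  have h01 := EN_TZ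
  have h20 := EN_Tsq h10 [0, 0, 4, -12, 25, -44] (by decide)
  have h30 := EN_Tpow h20 h10 [0, 0, 0, -8, 36, -102] (by decide)
  have h40 := EN_Tpow h30 h10 [0, 0, 0, 0, 16, -96] (by decide)
  have h50 := EN_Tpow h40 h10 [0, 0, 0, 0, 0, -32] (by decide)
  have h11 := EN_Tmul h10 h01 [0, 0, 0, -8, 20, -38] (by decide)
  have h21 := EN_Tmul h20 h01 [0, 0, 0, 0, 16, -64] (by decide)
  have h31 := EN_Tmul h30 h01 [0, 0, 0, 0, 0, -32] (by decide)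
  have h02 := EN_Tsq h01 [0, 0, 0, 0, 16, -32] (by decide)
  have h12 := EN_Tmul h10 h02 [0, 0, 0, 0, 0, -32] (by decide)
  exact EN_lin h10 h20 h30 h40 h50 h01 h11 h21 h31 h02 h12 v n hn

private theorem EN_lin3 (v : Ser) (n : ℕ) (hn : n < 6) :
    PowerSeries.coeff n (EN_th (((uX ^ (-(3 : ℤ)) : (PowerSeries ℚ)ˣ) : PowerSeries ℚ) - 1)
      (zz uX ^ 2) v) = EN_val v [0, -3, 6, -10, 15, -21] [0, 0, 9, -36, 96, -210] [0, 0, 0, -27, 162, -594]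
        [0, 0, 0, 0, 81, -648] [0, 0, 0, 0, 0, -243] [0, 0, 4, -4, 5, -6] [0, 0, 0, -12, 36, -79]
        [0, 0, 0, 0, 36, -180] [0, 0, 0, 0, 0, -108] [0, 0, 0, 0, 16, -32] [0, 0, 0, 0, 0, -48] n := by
  have h10 : EN_T (((uX ^ (-(3 : ℤ)) : (PowerSeries ℚ)ˣ) : PowerSeries ℚ) - 1) [0, -3, 6, -10, 15, -21] := by
    have h := EN_Ta3
    intro n hn
    rw [map_sub, h n hn, PowerSeries.coeff_one]
    interval_cases n <;> norm_num [List.getD]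
  have h01 := EN_TZ
  have h20 := EN_Tsq h10 [0, 0, 9, -36, 96, -210] (by decide)
  have h30 := EN_Tpow h20 h10 [0, 0, 0, -27, 162, -594] (by decide)
  have h40 := EN_Tpow h30 h10 [0, 0, 0, 0, 81, -648] (by decide)
  have h50 := EN_Tpow h40 h10 [0, 0, 0, 0, 0, -243] (by decide)
  have h11 := EN_Tmul h10 h01 [0, 0, 0, -12, 36, -79] (by decide)
  have h21 := EN_Tmul h20 h01 [0, 0, 0, 0, 36, -180] (by decide)
  have h31 := EN_Tmul h30 h01 [0, 0, 0, 0, 0, -108] (by decide)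
  have h02 := EN_Tsq h01 [0, 0, 0, 0, 16, -32] (by decide)
  have h12 := EN_Tmul h10 h02 [0, 0, 0, 0, 0, -48] (by decide)
  exact EN_lin h10 h20 h30 h40 h50 h01 h11 h21 h31 h02 h12 v n hn

private theorem EN_X {f : PowerSeries ℚ} {v : List ℤ} (h : EN_T f (0 :: v)) :
    PowerSeries.X ∣ f := by
  rw [← pow_one (PowerSeries.X : PowerSeries ℚ), PowerSeries.X_pow_dvd_iff]
  intro m hm
  obtain rfl : m = 0 := by omega
  rw [h 0 (by norm_num)]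
  simp

private theorem EN_X2 : (PowerSeries.X : PowerSeries ℚ) ^ 2 ∣ zz uX ^ 2 := by
  rw [PowerSeries.X_pow_dvd_iff]
  intro m hm
  rw [EN_TZ m (by omega)]
  interval_cases m <;> simp

theorem thm_EN : St_EM → St_EN := by
  intro hEM g
  obtain ⟨n, hn⟩ := hEM g
  refine ⟨n, ?_⟩
  have hX1 : PowerSeries.X ∣ ((uX ^ (-(1 : ℤ)) : (PowerSeries ℚ)ˣ) : PowerSeries ℚ) - 1 :=
    EN_X (EN_Tu EN_Ta1)
  have hX2 : PowerSeries.X ∣ ((uX ^ (-(2 : ℤ)) : (PowerSeries ℚ)ˣ) : PowerSeries ℚ) - 1 :=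
    EN_X (EN_Tu EN_Ta2)
  have hX3 : PowerSeries.X ∣ ((uX ^ (-(3 : ℤ)) : (PowerSeries ℚ)ˣ) : PowerSeries ℚ) - 1 :=
    EN_X (EN_Tu EN_Ta3)
  have h1 : pol (uX ^ (-(1 : ℤ))) (zz uX ^ 2) g = 1 := by
    have h2 : zz uX = (((uX ^ (-(1 : ℤ)))⁻¹ : (PowerSeries ℚ)ˣ) : PowerSeries ℚ) -
        ((uX ^ (-(1 : ℤ)) : (PowerSeries ℚ)ˣ) : PowerSeries ℚ) := by
      rw [zpow_neg, zpow_one, inv_inv]
      rfl
    rw [h2]
    exact EN_inv _ g
  have e1 : ∀ k, k < 6 → PowerSeries.coeff k (1 : PowerSeries ℚ) = _ := fun k hk =>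
    (congrArg (PowerSeries.coeff k) h1).symm.trans
      ((EN_coeff _ _ hX1 EN_X2 g k hk).trans (EN_lin1 (polS g) k hk))
  have e2 := fun k (hk : k < 6) =>
    (EN_coeff _ _ hX2 EN_X2 g k hk).trans (EN_lin2 (polS g) k hk)
  have e3 := fun k (hk : k < 6) =>
    (EN_coeff _ _ hX3 EN_X2 g k hk).trans (EN_lin3 (polS g) k hk)
  have r0 := e1 0 (by norm_num)
  have r1 := e1 1 (by norm_num)
  have r2 := e1 2 (by norm_num)
  have r3 := e1 3 (by norm_num)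
  have r4 := e1 4 (by norm_num)
  have r5 := e1 5 (by norm_num)
  have f2 := e2 2 (by norm_num)
  have f3 := e2 3 (by norm_num)
  have f4 := e2 4 (by norm_num)
  have f5 := e2 5 (by norm_num)
  have g4 := e3 4 (by norm_num)
  have g5 := e3 5 (by norm_num)
  clear e1 e2 e3
  have hE : ((E16 (polS g) : ℤ) : ℚ) = 16 * n := by
    rw [hn]
    push_cast
    ring
  rw [← hE]
  unfold E16 EE
  beta_reduce
  simp only [PowerSeries.coeff_one] at r0 r1 r2 r3 r4 r5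
  generalize PowerSeries.coeff 2 (pol (uX ^ (-(2 : ℤ))) (zz uX ^ 2) g) = c22 at *
  generalize PowerSeries.coeff 3 (pol (uX ^ (-(2 : ℤ))) (zz uX ^ 2) g) = c23 at *
  generalize PowerSeries.coeff 4 (pol (uX ^ (-(2 : ℤ))) (zz uX ^ 2) g) = c24 at *
  generalize PowerSeries.coeff 5 (pol (uX ^ (-(2 : ℤ))) (zz uX ^ 2) g) = c25 at *
  generalize PowerSeries.coeff 4 (pol (uX ^ (-(3 : ℤ))) (zz uX ^ 2) g) = c34 at *
  generalize PowerSeries.coeff 5 (pol (uX ^ (-(3 : ℤ))) (zz uX ^ 2) g) = c35 at *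
  generalize polS g = p at *
  norm_num [EN_val, List.getD] at r0 r1 r2 r3 r4 r5 f2 f3 f4 f5 g4 g5
  push_cast
  have r1' : ((p 1 0 : ℤ) : ℚ) = 0 := by exact_mod_cast r1
  have q01 : ((p 0 1 : ℤ) : ℚ) = -c22 / 12 := by linarith
  have q11 : ((p 1 1 : ℤ) : ℚ) = c22 / 24 + c23 / 24 := by linarith
  have q21 : ((p 2 1 : ℤ) : ℚ) = -5 / 144 * c22 + c23 / 24 + c24 / 6 - c34 / 32 := by linarith
  have q02 : ((p 0 2 : ℤ) : ℚ) =
      7 / 960 * c22 - 3 / 160 * c23 - 3 / 80 * c24 + 1 / 160 * c34 := by linarith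
  have q12 : ((p 1 2 : ℤ) : ℚ) = -7 / 1920 * c22 + 11 / 1152 * c23 + 3 / 80 * c24 +
      3 / 160 * c25 - 1 / 240 * c34 - 1 / 480 * c35 := by linarith
  rw [q01, q11, q21, q02, q12]
  ring

end IBN
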