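import Pool.Agent.IBN.StC

set_option autoImplicit false

namespace IBN

namespace GGe

open Classical in
theorem sum_pE {v : ℕ → ℕ} (i : Fin 10) (b : Bool) (h : v (sS i) ≠ v (mS i b)) (s : Strand) (z : ℤ) :
    ((pE v i b).map fun e => if (s.1, s.2.1) = e then z else 0).sum =
      if inSl v s i b then z else 0 := by
  simp only [pE, List.map_cons, List.map_nil, List.sum_cons, List.sum_nil, add_zero,
    Prod.mk.injEq]
  by_cases h1 : s.1 = v (sS i) ∧ s.2.1 = v (mS i b)
  · have h2 : ¬ (s.1 = v (mS i b) ∧ s.2.1 = v (eS i)) := fun h2 => h (h1.1.symm.trans h2.1)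
    have h3 : inSl v s i b := Or.inl h1
    rw [if_pos h1, if_neg h2, if_pos h3, add_zero]
  · by_cases h2 : s.1 = v (mS i b) ∧ s.2.1 = v (eS i)
    · have h3 : inSl v s i b := Or.inr h2
      rw [if_neg h1, if_pos h2, if_pos h3, zero_add]
    · have h3 : ¬ inSl v s i b := fun h3 => h3.elim h1 h2
      rw [if_neg h1, if_neg h2, if_neg h3, add_zero]

/-- one crossing -/
def ov1 (c : Cro) (e f : ℕ × ℕ) : ℤ :=
  if ((if c.p then c.a else c.b).1, (if c.p then c.a else c.b).2.1) = e ∧
        ((if c.p then c.b else c.a).1, (if c.p then c.b else c.a).2.1) = f then sgn c else 0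

/-- one crossing, two slots -/
def L1 (v : ℕ → ℕ) (c : Cro) (i j : Fin 10) : ℤ :=
  ∑ b : Bool, ∑ b' : Bool, (if b = b' then 1 else -1) *
    ((pE v i b).map fun e => ((pE v j b').map fun f => ov1 c e f).sum).sum

/-- a list of crossings, two slots -/
def LX (v : ℕ → ℕ) (X : List Cro) (i j : Fin 10) : ℤ :=
  ∑ b : Bool, ∑ b' : Bool, (if b = b' then 1 else -1) *
    ((pE v i b).map fun e => ((pE v j b').map fun f => (X.map fun c => ov1 c e f).sum).sum).sum

theorem LL_eq {n : ℕ} (G : Diagram n) (v : ℕ → ℕ) (i j : Fin 10) : LL G v i j = LX v G.X i j := rfl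

theorem LX_nil (v : ℕ → ℕ) (i j : Fin 10) : LX v [] i j = 0 := by
  simp [LX, pE]

theorem LX_cons (v : ℕ → ℕ) (c : Cro) (X : List Cro) (i j : Fin 10) :
    LX v (c :: X) i j = L1 v c i j + LX v X i j := by
  simp only [LX, L1, pE, List.map_cons, List.map_nil, List.sum_cons, List.sum_nil, add_zero,
    Fintype.sum_bool]
  ring

open Classical in
theorem L1_eq {v : ℕ → ℕ} (hne : ∀ (i : Fin 10) (b : Bool), v (sS i) ≠ v (mS i b)) (c : Cro)
    (i j : Fin 10) :
    L1 v c i j = ∑ b : Bool, ∑ b' : Bool, (if b = b' then 1 else -1) *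
      (if inSl v (if c.p then c.a else c.b) i b ∧ inSl v (if c.p then c.b else c.a) j b' then
        sgn c else 0) := by
  unfold L1
  refine Finset.sum_congr rfl fun b _ => Finset.sum_congr rfl fun b' _ => ?_
  congr 1
  have h1 : ∀ e : ℕ × ℕ, ((pE v j b').map fun f => ov1 c e f).sum =
      if ((if c.p then c.a else c.b).1, (if c.p then c.a else c.b).2.1) = e then
        (if inSl v (if c.p then c.b else c.a) j b' then sgn c else 0) else 0 := by
    intro e
    by_cases he : ((if c.p then c.a else c.b).1, (if c.p then c.a else c.b).2.1) = e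
    · rw [if_pos he, ← sum_pE j b' (hne j b')]
      simp only [ov1, he, true_and]
    · rw [if_neg he]
      simp [ov1, he, pE]
  simp only [h1]
  rw [sum_pE i b (hne i b)]
  by_cases h2 : inSl v (if c.p then c.a else c.b) i b
  · by_cases h3 : inSl v (if c.p then c.b else c.a) j b'
    · rw [if_pos h2, if_pos h3, if_pos ⟨h2, h3⟩]
    · rw [if_pos h2, if_neg h3, if_neg (fun h => h3 h.2)]
  · rw [if_neg h2, if_neg (fun h => h2 h.1)]

/-- the factor if the slot with the colours `α α'` is over -/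
def rho (N : ℕ) (θ : Bool) (α α' β β' : Fin N) : ℚ :=
  -(N : ℚ) * (if α = α' ∧ β = β' then 1 else 0) + (if α = α' ∧ β = β' ∧ α = β then 1 else 0) +
    2 * (if α' = β ∧ β' = α ∧ (if θ then α < α' else α' < α) then 1 else 0)

theorem rho_add (N : ℕ) (θ : Bool) (α α' β β' : Fin N) :
    rho N θ α α' β β' + rho N θ β β' α α' = (tt N α α' β β' : ℚ) := by
  unfold rho tt
  push_cast
  by_cases h1 : α' = β ∧ β' = α
  · obtain ⟨rfl, rfl⟩ := h1
    cases θ
    · rcases lt_trichotomy α' β' with h | h | h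
      · have h2 := h.ne
        have h3 := h.ne'
        have h4 := h.not_gt
        simp [h, h2, h3, h4]
      · subst h
        simp
        ring
      · have h2 := h.ne
        have h3 := h.ne'
        have h4 := h.not_gt
        simp [h, h2, h3, h4]
    · rcases lt_trichotomy α' β' with h | h | h
      · have h2 := h.ne
        have h3 := h.ne'
        have h4 := h.not_gt
        simp [h, h2, h3, h4]
      · subst h
        simp
        ring
      · have h2 := h.ne
        have h3 := h.ne'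
        have h4 := h.not_gt
        simp [h, h2, h3, h4]
  · have h2 : ¬ (β' = α ∧ α' = β) := fun h => h1 ⟨h.2, h.1⟩
    have h3 : ¬ (α = α' ∧ β = β' ∧ α = β) := by
      rintro ⟨h3, h4, h5⟩
      exact h1 ⟨h3.symm.trans h5, (h5.trans h4).symm⟩
    have h4 : ¬ (β = β' ∧ α = α' ∧ β = α) := by
      rintro ⟨h4, h3, h5⟩
      exact h1 ⟨h3.symm.trans h5.symm, (h5.symm.trans h4).symm⟩
    have h5 : ∀ P : Prop, ¬ (α' = β ∧ β' = α ∧ P) := fun P h => h1 ⟨h.1, h.2.1⟩
    have h6 : ∀ P : Prop, ¬ (β' = α ∧ α' = β ∧ P) := fun P h => h2 ⟨h.1, h.2.1⟩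
    rw [if_neg h1, if_neg h3, if_neg h4, if_neg (h5 _), if_neg (h6 _)]
    have h7 : (β = β' ∧ α = α') ↔ (α = α' ∧ β = β') := and_comm
    simp only [h7]
    ring

theorem k1_eq (hK : St_Kap) (N : ℕ) [NeZero N] (c : Cro) (θ : Bool) (α α' β β' : Fin N) :
    k1 c (θ, α) (θ, α') (θ, β) (θ, β') =
      (sgn c : ℚ) * (if c.p then rho N θ α α' β β' else rho N θ β β' α α') := by
  unfold k1
  rw [(hK N).2 c.p (up c.a) (up c.b) θ α α' β β']
  have hs : ((if c.p = (up c.a == up c.b) then 1 else -1 : ℚ)) = (sgn c : ℚ) := by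
    unfold sgn
    split_ifs <;> simp
  rw [hs]
  congr 1
  cases hp : c.p
  · unfold rho
    simp only [Bool.false_eq_true, if_false]
    have h1 : (α = α' ∧ β = β') ↔ (β = β' ∧ α = α') := and_comm
    have h2 : (α = α' ∧ β = β' ∧ α = β) ↔ (β = β' ∧ α = α' ∧ β = α) := by
      constructor
      · rintro ⟨a, b, c⟩; exact ⟨b, a, c.symm⟩
      · rintro ⟨a, b, c⟩; exact ⟨b, a, c.symm⟩
    have h3 : (α' = β ∧ β' = α ∧ (if false = θ then α < α' else α' < α)) ↔
        (β' = α ∧ α' = β ∧ (if θ = true then β < β' else β' < β)) := by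
      cases θ
      · simp only [if_true, Bool.false_eq_true, if_false]
        constructor
        · rintro ⟨rfl, rfl, h⟩; exact ⟨rfl, rfl, h⟩
        · rintro ⟨rfl, rfl, h⟩; exact ⟨rfl, rfl, h⟩
      · simp only [Bool.false_eq_true, if_false, if_true]
        constructor
        · rintro ⟨rfl, rfl, h⟩; exact ⟨rfl, rfl, h⟩
        · rintro ⟨rfl, rfl, h⟩; exact ⟨rfl, rfl, h⟩
    simp only [h1, h2]
    congr 2
    exact if_congr h3 rfl rfl
  · unfold rho
    simp only [if_true]
    congr 2
    cases θ <;> simp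

open Classical in
theorem hx_eq (hK : St_Kap) (N : ℕ) [NeZero N] (v : ℕ → ℕ) (c : Cro) (θ : Bool) (i j : Fin 10)
    (D : Fin 10 → Lab N) (hi : (D i).1 = θ) (hi' : (D (i + 1)).1 = θ) (hj : (D j).1 = θ)
    (hj' : (D (j + 1)).1 = θ) :
    hx v c i j D = ∑ b : Bool, ∑ b' : Bool, (if inSl v c.a i b ∧ inSl v c.b j b' then
      (if b = b' then 1 else -1) * ((sgn c : ℚ) *
        (if c.p then rho N θ (D i).2 (D (i + 1)).2 (D j).2 (D (j + 1)).2
          else rho N θ (D j).2 (D (j + 1)).2 (D i).2 (D (i + 1)).2)) else 0) := by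
  unfold hx
  have e1 : D i = (θ, (D i).2) := Prod.ext hi rfl
  have e2 : D (i + 1) = (θ, (D (i + 1)).2) := Prod.ext hi' rfl
  have e3 : D j = (θ, (D j).2) := Prod.ext hj rfl
  have e4 : D (j + 1) = (θ, (D (j + 1)).2) := Prod.ext hj' rfl
  have e : k1 c (D i) (D (i + 1)) (D j) (D (j + 1)) =
      (sgn c : ℚ) * (if c.p then rho N θ (D i).2 (D (i + 1)).2 (D j).2 (D (j + 1)).2
          else rho N θ (D j).2 (D (j + 1)).2 (D i).2 (D (i + 1)).2) := by
    rw [← k1_eq hK N c θ, ← e1, ← e2, ← e3, ← e4]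
  rw [e]

open Classical in
theorem one (hK : St_Kap) (N : ℕ) [NeZero N] (v : ℕ → ℕ)
    (hne : ∀ (i : Fin 10) (b : Bool), v (sS i) ≠ v (mS i b)) (c : Cro) (θ : Bool) (i j : Fin 10)
    (D : Fin 10 → Lab N) (hi : (D i).1 = θ) (hi' : (D (i + 1)).1 = θ) (hj : (D j).1 = θ)
    (hj' : (D (j + 1)).1 = θ) :
    hx v c i j D + hx v c j i D =
      (L1 v c i j : ℚ) * rho N θ (D i).2 (D (i + 1)).2 (D j).2 (D (j + 1)).2 +
        (L1 v c j i : ℚ) * rho N θ (D j).2 (D (j + 1)).2 (D i).2 (D (i + 1)).2 := by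
  rw [hx_eq hK N v c θ i j D hi hi' hj hj', hx_eq hK N v c θ j i D hj hj' hi hi',
    L1_eq hne, L1_eq hne]
  generalize rho N θ (D i).2 (D (i + 1)).2 (D j).2 (D (j + 1)).2 = ρ
  generalize rho N θ (D j).2 (D (j + 1)).2 (D i).2 (D (i + 1)).2 = ρ'
  generalize sgn c = s
  cases hp : c.p
  · simp only [Fintype.sum_bool, Bool.false_eq_true, if_false, Bool.true_eq_false, if_true]
    push_cast
    by_cases h1 : inSl v c.a i true <;> by_cases h2 : inSl v c.a i false <;>
    by_cases h3 : inSl v c.b i true <;> by_cases h4 : inSl v c.b i false <;>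
    by_cases h5 : inSl v c.a j true <;> by_cases h6 : inSl v c.a j false <;>
    by_cases h7 : inSl v c.b j true <;> by_cases h8 : inSl v c.b j false <;>
    simp [h1, h2, h3, h4, h5, h6, h7, h8] <;> ring
  · simp only [Fintype.sum_bool, Bool.false_eq_true, if_false, Bool.true_eq_false, if_true]
    push_cast
    by_cases h1 : inSl v c.a i true <;> by_cases h2 : inSl v c.a i false <;>
    by_cases h3 : inSl v c.b i true <;> by_cases h4 : inSl v c.b i false <;>
    by_cases h5 : inSl v c.a j true <;> by_cases h6 : inSl v c.a j false <;>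
    by_cases h7 : inSl v c.b j true <;> by_cases h8 : inSl v c.b j false <;>
    simp [h1, h2, h3, h4, h5, h6, h7, h8]

theorem sS_lt (i : Fin 10) (b : Bool) : sS i < mS i b ∧ mS i b < 40 := by
  revert i b
  decide

theorem ne_of_Inc {n : ℕ} {v : ℕ → ℕ} (hv : Inc n v) (i : Fin 10) (b : Bool) :
    v (sS i) ≠ v (mS i b) := (hv.1 _ _ (sS_lt i b).1 (sS_lt i b).2).ne

end GGe

open GGe

theorem thm_GGe : St_Kap → St_LSy → St_GGe := by
  intro hK hL N n _ G v hv i j hij D
  refine ⟨fun h => ?_, fun θ hi hi' hj hj' => ?_⟩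
  · have hz : ∀ (c : Cro) (α α' β β' : Lab N), (α.1 ≠ α'.1 ∨ β.1 ≠ β'.1) →
        k1 c α α' β β' = 0 := by
      intro c α α' β β' h
      unfold k1
      rw [((hK N).1 c.p _ _ _ _).2]
      · simp
      · rcases h with h | h
        · left
          unfold raw
          split_ifs
          · exact h
          · simp only [bar]
            intro h'
            exact h (Bool.not_inj h').symm
        · right
          unfold raw
          split_ifs
          · exact h
          · simp only [bar]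
            intro h'
            exact h (Bool.not_inj h').symm
    have h1 : ∀ c : Cro, hx v c i j D = 0 := by
      intro c
      unfold hx
      rw [hz c _ _ _ _ h]
      simp
    have h2 : ∀ c : Cro, hx v c j i D = 0 := by
      intro c
      unfold hx
      rw [hz c _ _ _ _ h.symm]
      simp
    unfold GG
    simp [h1, h2]
  · rw [← rho_add N θ, mul_add]
    have hs : (LL G v i j : ℚ) * rho N θ (D j).2 (D (j + 1)).2 (D i).2 (D (i + 1)).2 =
        (LL G v j i : ℚ) * rho N θ (D j).2 (D (j + 1)).2 (D i).2 (D (i + 1)).2 := by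
      rw [hL n G v hv i j hij]
    rw [hs, LL_eq, LL_eq]
    unfold GG
    generalize G.X = X
    induction X with
    | nil => simp [LX_nil]
    | cons c X ih =>
      rw [List.map_cons, List.sum_cons, ih, LX_cons, LX_cons,
        one hK N v (ne_of_Inc hv) c θ i j D hi hi' hj hj']
      push_cast
      ring

end IBN
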