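import Pool.Agent.IBN.StA

/-!
# IBN: invariance of the vertex model under isotopy of words
-/

set_option autoImplicit false

namespace IBN

/-! ### Linearity -/

section lin

variable {A : Type} [CommRing A] {N : ℕ}

/-- linear functionals -/
private def InvLin (Φ : (Lab N → Lab N → A) → A) : Prop :=
  ∃ c : Lab N → Lab N → A, ∀ F, Φ F = ∑ a, ∑ b, c a b * F a b

private theorem InvLin_pt (x y : Lab N) : InvLin (fun F : Lab N → Lab N → A => F x y) := by
  refine ⟨fun a b => (if a = x then 1 else 0) * (if b = y then 1 else 0), fun F => ?_⟩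
  rw [Finset.sum_eq_single x, Finset.sum_eq_single y]
  · simp
  · intro b _ hb
    simp [hb]
  · intro h
    exact absurd (Finset.mem_univ _) h
  · intro a _ ha
    simp [ha]
  · intro h
    exact absurd (Finset.mem_univ _) h

private theorem InvLin_zero : InvLin (fun _ : Lab N → Lab N → A => (0 : A)) :=
  ⟨fun _ _ => 0, fun F => by simp⟩

private theorem InvLin_add {Φ Ψ : (Lab N → Lab N → A) → A} (h : InvLin Φ) (h' : InvLin Ψ) :
    InvLin (fun F => Φ F + Ψ F) := by
  obtain ⟨c, hc⟩ := h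
  obtain ⟨d, hd⟩ := h'
  refine ⟨fun a b => c a b + d a b, fun F => ?_⟩
  simp only [hc, hd, add_mul, Finset.sum_add_distrib]

private theorem InvLin_sub {Φ Ψ : (Lab N → Lab N → A) → A} (h : InvLin Φ) (h' : InvLin Ψ) :
    InvLin (fun F => Φ F - Ψ F) := by
  obtain ⟨c, hc⟩ := h
  obtain ⟨d, hd⟩ := h'
  refine ⟨fun a b => c a b - d a b, fun F => ?_⟩
  simp only [hc, hd, sub_mul, Finset.sum_sub_distrib]

private theorem InvLin_mul (k : A) {Φ : (Lab N → Lab N → A) → A} (h : InvLin Φ) :
    InvLin (fun F => k * Φ F) := by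
  obtain ⟨c, hc⟩ := h
  refine ⟨fun a b => k * c a b, fun F => ?_⟩
  simp only [hc, Finset.mul_sum, mul_assoc]

private theorem InvLin_ite (P : Prop) [Decidable P] {Φ Ψ : (Lab N → Lab N → A) → A}
    (h : InvLin Φ) (h' : InvLin Ψ) : InvLin (fun F => if P then Φ F else Ψ F) := by
  by_cases hP : P
  · simp only [hP, if_true]; exact h
  · simp only [hP, if_false]; exact h'

private theorem InvLin_sum {ι : Type} (s : Finset ι) {Φ : ι → (Lab N → Lab N → A) → A}
    (h : ∀ i, InvLin (Φ i)) : InvLin (fun F => ∑ i ∈ s, Φ i F) := by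
  classical
  induction s using Finset.induction_on with
  | empty => simpa using InvLin_zero
  | insert a s ha ih =>
    have := InvLin_add (h a) ih
    refine Eq.mpr (congrArg InvLin ?_) this
    funext F
    rw [Finset.sum_insert ha]

private theorem InvLin_smo (q : Aˣ) (s : Bool) (x y : Lab N) :
    InvLin (fun F => smo q s F x y) := by
  unfold smo
  apply InvLin_ite
  · exact InvLin_ite _ (InvLin_pt x y) InvLin_zero
  · apply InvLin_ite
    · apply InvLin_sum
      intro k
      exact InvLin_ite _ (InvLin_mul _ (InvLin_pt _ _)) InvLin_zero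
    · exact InvLin_zero

private theorem InvLin_opX (q : Aˣ) (p : Bool) (x y : Lab N) :
    InvLin (fun F => opX q p F x y) := by
  unfold opX
  apply InvLin_ite
  · exact InvLin_mul _ (InvLin_add (InvLin_mul _ (InvLin_pt y x))
      (InvLin_mul _ (InvLin_smo q true x y)))
  · exact InvLin_mul _ (InvLin_sub (InvLin_mul _ (InvLin_pt y x))
      (InvLin_mul _ (InvLin_smo q false x y)))

private theorem Inv_opX_mul (q : Aˣ) (p : Bool) (G : Lab N → Lab N → A) (c : A) (x y : Lab N) :
    opX q p (fun a b => G a b * c) x y = opX q p G x y * c := by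
  obtain ⟨d, hd⟩ := InvLin_opX q p x y
  have h1 := hd (fun a b => G a b * c)
  have h2 := hd G
  simp only at h1 h2
  rw [h1, h2, Finset.sum_mul]
  refine Finset.sum_congr rfl fun a _ => ?_
  rw [Finset.sum_mul]
  refine Finset.sum_congr rfl fun b _ => ?_
  ring

/-! ### Local form of the operators -/

private theorem Inv_mi (q : Aˣ) (i : ℕ) (l₁ r : List (Lab N)) (h : l₁.length = i)
    (F : List (Lab N) → A) :
    opP q ⟨.mi, i⟩ F (l₁ ++ r) = ∑ x : Lab N, cupw q x (bar x) * F (l₁ ++ x :: bar x :: r) := by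
  subst h
  simp [opP]

private theorem Inv_ma (q : Aˣ) (i : ℕ) (l₁ r : List (Lab N)) (h : l₁.length = i) (x y : Lab N)
    (F : List (Lab N) → A) :
    opP q ⟨.ma, i⟩ F (l₁ ++ x :: y :: r) = capw q x y * F (l₁ ++ r) := by
  subst h
  simp [opP]

private theorem Inv_cr (q : Aˣ) (i : ℕ) (p : Bool) (l₁ r : List (Lab N)) (h : l₁.length = i)
    (x y : Lab N) (F : List (Lab N) → A) :
    opP q ⟨.cr p, i⟩ F (l₁ ++ x :: y :: r) =
      opX q p (fun x' y' => F (l₁ ++ x' :: y' :: r)) x y := by
  subst h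
  simp [opP]

private theorem Inv_app (l₁ r : List (Lab N)) (a : Lab N) : l₁ ++ a :: r = (l₁ ++ [a]) ++ r := by
  simp

private theorem Inv_mi1 (q : Aˣ) (i : ℕ) (l₁ r : List (Lab N)) (h : l₁.length = i) (a : Lab N)
    (F : List (Lab N) → A) :
    opP q ⟨.mi, i + 1⟩ F (l₁ ++ a :: r) =
      ∑ x : Lab N, cupw q x (bar x) * F (l₁ ++ a :: x :: bar x :: r) := by
  rw [Inv_app, Inv_mi q (i + 1) (l₁ ++ [a]) r (by simp [h])]
  refine Finset.sum_congr rfl fun x _ => ?_
  rw [Inv_app l₁ (x :: bar x :: r) a]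

private theorem Inv_ma1 (q : Aˣ) (i : ℕ) (l₁ r : List (Lab N)) (h : l₁.length = i)
    (a x y : Lab N) (F : List (Lab N) → A) :
    opP q ⟨.ma, i + 1⟩ F (l₁ ++ a :: x :: y :: r) = capw q x y * F (l₁ ++ a :: r) := by
  rw [Inv_app, Inv_ma q (i + 1) (l₁ ++ [a]) r (by simp [h]), Inv_app l₁ r a]

private theorem Inv_cr1 (q : Aˣ) (i : ℕ) (p : Bool) (l₁ r : List (Lab N)) (h : l₁.length = i)
    (a x y : Lab N) (F : List (Lab N) → A) :
    opP q ⟨.cr p, i + 1⟩ F (l₁ ++ a :: x :: y :: r) =
      opX q p (fun x' y' => F (l₁ ++ a :: x' :: y' :: r)) x y := by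
  rw [Inv_app, Inv_cr q (i + 1) p (l₁ ++ [a]) r (by simp [h])]
  congr 1
  funext x' y'
  rw [Inv_app l₁ (x' :: y' :: r) a]

/-- every piece is a linear operator on the labels concerned -/
private theorem Inv_rep (q : Aˣ) (s : Kind) (m : List (Lab N)) (hm : m.length = s.inn) :
    ∃ (ι : Type) (_ : Fintype ι) (c : ι → A) (e : ι → List (Lab N)),
      (∀ j, (e j).length = s.out) ∧
      ∀ (i : ℕ) (l₁ r : List (Lab N)), l₁.length = i → ∀ F : List (Lab N) → A,
        opP q ⟨s, i⟩ F (l₁ ++ (m ++ r)) = ∑ j, c j * F (l₁ ++ (e j ++ r)) := by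
  cases s with
  | mi =>
    have hm' : m = [] := by
      apply List.eq_nil_of_length_eq_zero
      exact hm
    subst hm'
    refine ⟨Lab N, inferInstance, fun x => cupw q x (bar x), fun x => [x, bar x],
      fun _ => rfl, ?_⟩
    intro i l₁ r h F
    simp only [List.nil_append, List.cons_append]
    exact Inv_mi q i l₁ r h F
  | ma =>
    obtain ⟨x, y, rfl⟩ : ∃ x y, m = [x, y] := List.length_eq_two.1 hm
    refine ⟨Unit, inferInstance, fun _ => capw q x y, fun _ => [], fun _ => rfl, ?_⟩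
    intro i l₁ r h F
    simp only [List.nil_append, List.cons_append, Finset.univ_unique, Finset.sum_singleton]
    exact Inv_ma q i l₁ r h x y F
  | cr p =>
    obtain ⟨x, y, rfl⟩ : ∃ x y, m = [x, y] := List.length_eq_two.1 hm
    obtain ⟨d, hd⟩ := InvLin_opX q p x y
    refine ⟨Lab N × Lab N, inferInstance, fun ab => d ab.1 ab.2, fun ab => [ab.1, ab.2],
      fun _ => rfl, ?_⟩
    intro i l₁ r h F
    simp only [List.nil_append, List.cons_append]
    rw [Inv_cr q i p l₁ r h x y F, Fintype.sum_prod_type]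
    exact hd _

private theorem Inv_split (l : List (Lab N)) (i : ℕ) (h : i ≤ l.length) :
    ∃ l₁ r, l = l₁ ++ r ∧ l₁.length = i :=
  ⟨l.take i, l.drop i, (List.take_append_drop i l).symm, by simp [h]⟩

private theorem Inv_congrP (q : Aˣ) (s : Piece) (n : ℕ) (hs : s.i + s.k.inn ≤ n)
    (F F' : List (Lab N) → A) (hF : ∀ l, l.length = n - s.k.inn + s.k.out → F l = F' l)
    (l : List (Lab N)) (hl : l.length = n) : opP q s F l = opP q s F' l := by
  obtain ⟨k, i⟩ := s
  simp only at hs hF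
  obtain ⟨l₁, r, rfl, h1⟩ := Inv_split l i (by omega)
  rw [List.length_append] at hl
  obtain ⟨m, r', rfl, h2⟩ := Inv_split r k.inn (by omega)
  rw [List.length_append] at hl
  obtain ⟨ι, hι, c, e, he, hrep⟩ := Inv_rep q k m h2
  rw [hrep i l₁ r' h1 F, hrep i l₁ r' h1 F']
  refine Finset.sum_congr rfl fun j _ => ?_
  rw [hF]
  simp only [List.length_append, he]
  omega

private theorem Inv_congrW (q : Aˣ) (u : Word) : ∀ (n k : ℕ), Ok u n k →
    ∀ (F F' : List (Lab N) → A), (∀ l, l.length = k → F l = F' l) →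
    ∀ l : List (Lab N), l.length = n → opW q u F l = opW q u F' l := by
  induction u with
  | nil =>
    intro n k h F F' hF l hl
    have h' : n = k := h
    exact hF l (hl.trans h')
  | cons s u ih =>
    intro n k h F F' hF l hl
    exact Inv_congrP q s n h.1 _ _ (fun l' hl' => ih _ k h.2 F F' hF l' hl') l hl

private theorem Inv_append (q : Aˣ) (u v : Word) (F : List (Lab N) → A) :
    opW q (u ++ v) F = opW q u (opW q v F) := by
  unfold opW
  rw [List.foldr_append]

end lin

/-! ### The moves -/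

section moves

variable {K : Type} [Field K] {N : ℕ}

private theorem Inv_swap (q : Kˣ) (s t : Kind) (i k n m : ℕ)
    (h : Ok [⟨s, i⟩, ⟨t, i + s.out + k⟩] n m) (F : List (Lab N) → K) (l : List (Lab N))
    (hl : l.length = n) :
    opW q [⟨s, i⟩, ⟨t, i + s.out + k⟩] F l = opW q [⟨t, i + s.inn + k⟩, ⟨s, i⟩] F l := by
  obtain ⟨h1, h2, -⟩ := h
  simp only at h1 h2
  obtain ⟨l₁, r, rfl, e1⟩ := Inv_split l i (by omega)
  rw [List.length_append] at hl
  obtain ⟨a, r, rfl, e2⟩ := Inv_split r s.inn (by omega)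
  rw [List.length_append] at hl
  obtain ⟨l₂, r, rfl, e3⟩ := Inv_split r k (by omega)
  rw [List.length_append] at hl
  obtain ⟨b, r, rfl, e4⟩ := Inv_split r t.inn (by omega)
  obtain ⟨ι, hι, c, e, he, hrep⟩ := Inv_rep q s a e2
  obtain ⟨κ, hκ, d, f, hf, hrep'⟩ := Inv_rep q t b e4
  change opP q ⟨s, i⟩ (opP q ⟨t, i + s.out + k⟩ F) (l₁ ++ (a ++ (l₂ ++ (b ++ r)))) =
    opP q ⟨t, i + s.inn + k⟩ (opP q ⟨s, i⟩ F) (l₁ ++ (a ++ (l₂ ++ (b ++ r))))
  rw [hrep i l₁ _ e1]
  have hL : ∀ j, opP q ⟨t, i + s.out + k⟩ F (l₁ ++ (e j ++ (l₂ ++ (b ++ r)))) =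
      ∑ j', d j' * F (l₁ ++ (e j ++ (l₂ ++ (f j' ++ r)))) := by
    intro j
    have := hrep' (i + s.out + k) (l₁ ++ (e j ++ l₂)) r
      (by simp only [List.length_append, he, e1, e3]; omega) F
    simp only [List.append_assoc] at this
    exact this
  have hR : opP q ⟨t, i + s.inn + k⟩ (opP q ⟨s, i⟩ F) (l₁ ++ (a ++ (l₂ ++ (b ++ r)))) =
      ∑ j', d j' * opP q ⟨s, i⟩ F (l₁ ++ (a ++ (l₂ ++ (f j' ++ r)))) := by
    have := hrep' (i + s.inn + k) (l₁ ++ (a ++ l₂)) r
      (by simp only [List.length_append, e1, e2, e3]; omega) (opP q ⟨s, i⟩ F)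
    simp only [List.append_assoc] at this
    exact this
  rw [hR]
  simp only [hL, hrep i l₁ _ e1, Finset.mul_sum]
  rw [Finset.sum_comm]
  refine Finset.sum_congr rfl fun x _ => Finset.sum_congr rfl fun y _ => ?_
  ring

/-- the crossing of the first two of three strands -/
private def InvA (q : Kˣ) (p : Bool) (G : Lab N → Lab N → Lab N → K) :
    Lab N → Lab N → Lab N → K := fun x y w => opX q p (fun a b => G a b w) x y

/-- the crossing of the last two of three strands -/
private def InvB (q : Kˣ) (p : Bool) (G : Lab N → Lab N → Lab N → K) :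
    Lab N → Lab N → Lab N → K := fun x y w => opX q p (fun a b => G x a b) y w

private theorem Inv_r3 (h2 : St_R2) (ha : St_R3a) (hb : St_R3b) (q : Kˣ) (hN : N = 2 ∨ N = 3)
    (p : Bool) (G : Lab N → Lab N → Lab N → K) :
    InvA q p (InvB q p (InvA q p G)) = InvB q p (InvA q p (InvB q p G)) := by
  have hAA : ∀ (p : Bool) (G : Lab N → Lab N → Lab N → K),
      InvA q p (InvA q (!p) G) = G := by
    intro p G
    funext x y w
    exact h2 K q N hN p (fun a b => G a b w) x y
  have hBB : ∀ (p : Bool) (G : Lab N → Lab N → Lab N → K),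
      InvB q p (InvB q (!p) G) = G := by
    intro p G
    funext x y w
    exact h2 K q N hN p (fun a b => G x a b) y w
  have ht : ∀ G : Lab N → Lab N → Lab N → K,
      InvA q true (InvB q true (InvA q true G)) = InvB q true (InvA q true (InvB q true G)) := by
    intro G
    funext x y w
    rcases hN with rfl | rfl
    · exact ha K q G x y w
    · exact hb K q G x y w
  cases p with
  | true => exact ht G
  | false =>
    have a1 : ∀ G : Lab N → Lab N → Lab N → K, InvA q false (InvA q true G) = G :=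
      fun G => hAA false G
    have a2 : ∀ G : Lab N → Lab N → Lab N → K, InvA q true (InvA q false G) = G :=
      fun G => hAA true G
    have b1 : ∀ G : Lab N → Lab N → Lab N → K, InvB q false (InvB q true G) = G :=
      fun G => hBB false G
    have b2 : ∀ G : Lab N → Lab N → Lab N → K, InvB q true (InvB q false G) = G :=
      fun G => hBB true G
    have key := ht (InvB q false (InvA q false (InvB q false G)))
    rw [b2, a2, b2] at key
    -- key : A B A (B' A' B' G) = G
    have := congrArg (fun H => InvA q false (InvB q false (InvA q false H))) key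
    simp only [a1, b1] at this
    exact this.symm

private theorem Inv_loc (h1 : St_R1) (h2 : St_R2) (hz : St_ZZ) (hs : St_SL) (ha : St_R3a)
    (hb : St_R3b) (q : Kˣ) (hN : N = 2 ∨ N = 3) (a b : Word) (hab : Loc a b) (n m : ℕ)
    (hok : Ok a n m) (F : List (Lab N) → K) (l : List (Lab N)) (hl : l.length = n) :
    opW q a F l = opW q b F l := by
  cases hab with
  | swap s t i k => exact Inv_swap q s t i k n m hok F l hl
  | zig i =>
    obtain ⟨g1, g2, -⟩ := hok
    simp only [Kind.inn, Kind.out] at g1 g2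
    obtain ⟨l₁, r, rfl, e1⟩ := Inv_split l i (by omega)
    rw [List.length_append] at hl
    rcases r with _ | ⟨z, r⟩
    · simp only [List.length_nil] at hl; omega
    change opP q (pU i) (opP q (pN (i + 1)) F) (l₁ ++ z :: r) = F (l₁ ++ z :: r)
    rw [Inv_mi q i l₁ (z :: r) e1]
    simp only [Inv_ma1 q i l₁ r e1]
    exact (hz K q N (fun x => F (l₁ ++ x :: r)) z).1
  | zag i =>
    obtain ⟨g1, g2, -⟩ := hok
    simp only [Kind.inn, Kind.out] at g1 g2
    obtain ⟨l₁, r, rfl, e1⟩ := Inv_split l i (by omega)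
    rw [List.length_append] at hl
    rcases r with _ | ⟨z, r⟩
    · simp only [List.length_nil] at hl; omega
    change opP q (pU (i + 1)) (opP q (pN i) F) (l₁ ++ z :: r) = F (l₁ ++ z :: r)
    rw [Inv_mi1 q i l₁ r e1 z]
    simp only [Inv_ma q i l₁ _ e1]
    exact (hz K q N (fun x => F (l₁ ++ x :: r)) z).2
  | slU i p =>
    obtain ⟨g1, g2, -⟩ := hok
    simp only [Kind.inn, Kind.out] at g1 g2
    obtain ⟨l₁, r, rfl, e1⟩ := Inv_split l i (by omega)
    rw [List.length_append] at hl
    rcases r with _ | ⟨z, r⟩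
    · simp only [List.length_nil] at hl; omega
    change opP q (pU (i + 1)) (opP q (pX i p) F) (l₁ ++ z :: r) =
      opP q (pU i) (opP q (pX (i + 1) (!p)) F) (l₁ ++ z :: r)
    rw [Inv_mi1 q i l₁ r e1 z, Inv_mi q i l₁ (z :: r) e1]
    simp only [Inv_cr q i p l₁ _ e1, Inv_cr1 q i (!p) l₁ _ e1]
    exact (hs K q N hN p).1 (fun a b c => F (l₁ ++ a :: b :: c :: r)) z
  | slN i p =>
    obtain ⟨g1, g2, -⟩ := hok
    simp only [Kind.inn, Kind.out] at g1 g2
    obtain ⟨l₁, r, rfl, e1⟩ := Inv_split l i (by omega)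
    rw [List.length_append] at hl
    rcases r with _ | ⟨x, _ | ⟨y, _ | ⟨w, r⟩⟩⟩
    · simp only [List.length_nil] at hl; omega
    · simp only [List.length_nil, List.length_cons] at hl; omega
    · simp only [List.length_nil, List.length_cons] at hl; omega
    change opP q (pX i p) (opP q (pN (i + 1)) F) (l₁ ++ x :: y :: w :: r) =
      opP q (pX (i + 1) (!p)) (opP q (pN i) F) (l₁ ++ x :: y :: w :: r)
    rw [Inv_cr q i p l₁ _ e1, Inv_cr1 q i (!p) l₁ _ e1]
    simp only [Inv_ma q i l₁ _ e1, Inv_ma1 q i l₁ _ e1]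
    exact (hs K q N hN p).2 (fun a => F (l₁ ++ a :: r)) x y w
  | r1U i p =>
    obtain ⟨g1, g2, -⟩ := hok
    simp only [Kind.inn, Kind.out] at g1 g2
    obtain ⟨l₁, r, rfl, e1⟩ := Inv_split l i (by omega)
    change opP q (pU i) (opP q (pX i p) F) (l₁ ++ r) = opP q (pU i) F (l₁ ++ r)
    rw [Inv_mi q i l₁ r e1, Inv_mi q i l₁ r e1]
    simp only [Inv_cr q i p l₁ _ e1]
    exact (h1 K q N hN p).1 (fun a b => F (l₁ ++ a :: b :: r))
  | r1N i p =>
    obtain ⟨g1, g2, -⟩ := hok
    simp only [Kind.inn, Kind.out] at g1 g2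
    obtain ⟨l₁, r, rfl, e1⟩ := Inv_split l i (by omega)
    rw [List.length_append] at hl
    rcases r with _ | ⟨x, _ | ⟨y, r⟩⟩
    · simp only [List.length_nil] at hl; omega
    · simp only [List.length_nil, List.length_cons] at hl; omega
    change opP q (pX i p) (opP q (pN i) F) (l₁ ++ x :: y :: r) =
      opP q (pN i) F (l₁ ++ x :: y :: r)
    rw [Inv_cr q i p l₁ _ e1, Inv_ma q i l₁ _ e1]
    simp only [Inv_ma q i l₁ _ e1]
    rw [Inv_opX_mul, (h1 K q N hN p).2]
  | r2 i p =>
    obtain ⟨g1, g2, -⟩ := hok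
    simp only [Kind.inn, Kind.out] at g1 g2
    obtain ⟨l₁, r, rfl, e1⟩ := Inv_split l i (by omega)
    rw [List.length_append] at hl
    rcases r with _ | ⟨x, _ | ⟨y, r⟩⟩
    · simp only [List.length_nil] at hl; omega
    · simp only [List.length_nil, List.length_cons] at hl; omega
    change opP q (pX i p) (opP q (pX i (!p)) F) (l₁ ++ x :: y :: r) = F (l₁ ++ x :: y :: r)
    rw [Inv_cr q i p l₁ _ e1]
    simp only [Inv_cr q i (!p) l₁ _ e1]
    exact h2 K q N hN p (fun a b => F (l₁ ++ a :: b :: r)) x y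
  | r3 i p =>
    obtain ⟨g1, g2, -⟩ := hok
    simp only [Kind.inn, Kind.out] at g1 g2
    obtain ⟨l₁, r, rfl, e1⟩ := Inv_split l i (by omega)
    rw [List.length_append] at hl
    rcases r with _ | ⟨x, _ | ⟨y, _ | ⟨w, r⟩⟩⟩
    · simp only [List.length_nil] at hl; omega
    · simp only [List.length_nil, List.length_cons] at hl; omega
    · simp only [List.length_nil, List.length_cons] at hl; omega
    change opP q (pX i p) (opP q (pX (i + 1) p) (opP q (pX i p) F)) (l₁ ++ x :: y :: w :: r) =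
      opP q (pX (i + 1) p) (opP q (pX i p) (opP q (pX (i + 1) p) F)) (l₁ ++ x :: y :: w :: r)
    rw [Inv_cr q i p l₁ _ e1, Inv_cr1 q i p l₁ _ e1]
    simp only [Inv_cr q i p l₁ _ e1, Inv_cr1 q i p l₁ _ e1]
    exact congrFun (congrFun (congrFun (Inv_r3 h2 ha hb q hN p
      (fun a b c => F (l₁ ++ a :: b :: c :: r))) x) y) w

end moves

/-- Invariance under isotopy. -/
theorem thm_Inv : St_R1 → St_R2 → St_ZZ → St_SL → St_R3a → St_R3b → St_Inv := by
  intro h1 h2 hz hs ha hb K _ q N hN n w w' hiso F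
  induction hiso with
  | refl => intro l _; rfl
  | tail _ hstep ih =>
    intro l hl
    rw [ih l hl]
    obtain ⟨u, a, b, v, k, m, rfl, rfl, hu, hka, hkb, hloc⟩ := hstep
    rw [Inv_append, Inv_append, Inv_append, Inv_append]
    apply Inv_congrW q u n k hu _ _ _ l hl
    intro l' hl'
    rcases hloc with h | h
    · exact Inv_loc h1 h2 hz hs ha hb q hN a b h k m hka _ l' hl'
    · exact (Inv_loc h1 h2 hz hs ha hb q hN b a h k m hkb _ l' hl').symm

end IBN
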