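import Pool.Agent.IBN.StA

/-!
# IBN / InvP : invariance over a domain (helper77)
-/

set_option autoImplicit false

namespace IBN

/-- [InvP] Invariance over a domain. -/
theorem thm_InvP : St_Inv → St_Nat → St_InvP := by
  intro hI hNat A _ _ q N hN w w' h
  apply IsFractionRing.injective A (FractionRing A)
  unfold val
  rw [hNat A (FractionRing A) (algebraMap A (FractionRing A)) q N w,
    hNat A (FractionRing A) (algebraMap A (FractionRing A)) q N w']
  exact hI (FractionRing A) _ N hN 0 w w' h _ [] rfl

end IBN
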