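import Pool.Agent.IBN.StC

/-!
# IBN : [Kap] The kernel of a crossing for `q = 1 + X` modulo `X ^ 2`.

MP_c07f6b_gt (captain: helper83).
-/

set_option autoImplicit false

namespace IBN

private lemma Kap_mul0 (a b : PowerSeries ℚ) :
    PowerSeries.coeff 0 (a * b) = PowerSeries.coeff 0 a * PowerSeries.coeff 0 b := by
  rw [PowerSeries.coeff_mul]
  simp

private lemma Kap_mul1 (a b : PowerSeries ℚ) :
    PowerSeries.coeff 1 (a * b) = PowerSeries.coeff 0 a * PowerSeries.coeff 1 b +
      PowerSeries.coeff 1 a * PowerSeries.coeff 0 b := by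
  rw [PowerSeries.coeff_mul, Finset.Nat.antidiagonal_succ]
  simp

private lemma Kap_u0 : PowerSeries.coeff 0 ((uX : (PowerSeries ℚ)ˣ) : PowerSeries ℚ) = 1 := by
  have h : ((uX : (PowerSeries ℚ)ˣ) : PowerSeries ℚ) = 1 + PowerSeries.X := rfl
  rw [h]
  simp

private lemma Kap_u1 : PowerSeries.coeff 1 ((uX : (PowerSeries ℚ)ˣ) : PowerSeries ℚ) = 1 := by
  have h : ((uX : (PowerSeries ℚ)ˣ) : PowerSeries ℚ) = 1 + PowerSeries.X := rfl
  rw [h, map_add, PowerSeries.coeff_one_X, PowerSeries.coeff_one]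
  simp

private lemma Kap_v0 : PowerSeries.coeff 0 ((uX⁻¹ : (PowerSeries ℚ)ˣ) : PowerSeries ℚ) = 1 := by
  have h : ((uX⁻¹ : (PowerSeries ℚ)ˣ) : PowerSeries ℚ) = PowerSeries.mk fun n => (-1) ^ n := rfl
  rw [h, PowerSeries.coeff_mk]
  simp

private lemma Kap_v1 : PowerSeries.coeff 1 ((uX⁻¹ : (PowerSeries ℚ)ˣ) : PowerSeries ℚ) = -1 := by
  have h : ((uX⁻¹ : (PowerSeries ℚ)ˣ) : PowerSeries ℚ) = PowerSeries.mk fun n => (-1) ^ n := rfl
  rw [h, PowerSeries.coeff_mk]
  simp

private lemma Kap_pow (m : ℤ) :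
    PowerSeries.coeff 0 ((uX ^ m : (PowerSeries ℚ)ˣ) : PowerSeries ℚ) = 1 ∧
    PowerSeries.coeff 1 ((uX ^ m : (PowerSeries ℚ)ˣ) : PowerSeries ℚ) = m := by
  induction m using Int.induction_on with
  | zero =>
    rw [zpow_zero, Units.val_one, PowerSeries.coeff_one, PowerSeries.coeff_one]
    simp
  | succ n ih =>
    rw [zpow_add_one, Units.val_mul, Kap_mul0, Kap_mul1, ih.1, ih.2, Kap_u0, Kap_u1]
    constructor
    · norm_num
    · push_cast
      ring
  | pred n ih =>
    rw [zpow_sub_one, Units.val_mul, Kap_mul0, Kap_mul1, ih.1, ih.2, Kap_v0, Kap_v1]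
    constructor
    · norm_num
    · push_cast
      ring

private lemma Kap_zz : PowerSeries.coeff 0 (zz uX : PowerSeries ℚ) = 0 ∧
    PowerSeries.coeff 1 (zz uX : PowerSeries ℚ) = 2 := by
  unfold zz
  rw [map_sub, map_sub, Kap_u0, Kap_u1, Kap_v0, Kap_v1]
  norm_num

/-- the condition for the smoothed part -/
private def Kap_P {N : ℕ} (s : Bool) (u u' w w' : Lab N) : Prop :=
  (u.1 = w.1 ∧ (if s then lo u.1 u.2 w.2 else lo u.1 w.2 u.2) = true ∧ u = w' ∧ w = u') ∨
  (u.1 ≠ w.1 ∧ u.2 = w.2 ∧ (if s then lo u.1 u'.2 u.2 else lo u.1 u.2 u'.2) = true ∧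
    w' = (w.1, u'.2) ∧ u' = (u.1, u'.2))

open Classical in
private lemma Kap_smo {N : ℕ} (s : Bool) (u u' w w' : Lab N) :
    PowerSeries.coeff 0 (smo uX s (fun x y => if x = w' ∧ y = u' then 1 else 0) u w :
      PowerSeries ℚ) = if Kap_P s u u' w w' then 1 else 0 := by
  unfold smo Kap_P
  beta_reduce
  by_cases h1 : u.1 = w.1
  · rw [if_pos h1]
    by_cases h2 : (if s then lo u.1 u.2 w.2 else lo u.1 w.2 u.2) = true
    · rw [if_pos h2]
      by_cases h3 : u = w' ∧ w = u'
      · rw [if_pos h3, if_pos (Or.inl ⟨h1, h2, h3⟩)]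
        simp
      · rw [if_neg h3, if_neg]
        · simp
        · rintro (h4 | h4)
          · exact h3 h4.2.2
          · exact h4.1 h1
    · rw [if_neg h2, if_neg]
      · simp
      · rintro (h4 | h4)
        · exact h2 h4.2.1
        · exact h4.1 h1
  · rw [if_neg h1]
    by_cases h2 : u.2 = w.2
    · rw [if_pos h2, map_sum]
      have h5 : ∀ k : Fin N, PowerSeries.coeff 0
          ((if (if s then lo u.1 k u.2 else lo u.1 u.2 k) = true then
            (if u.1 then (1 : PowerSeries ℚ) else ((uX ^ (cx u.2 - cx k) : (PowerSeries ℚ)ˣ) :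
              PowerSeries ℚ)) * (if (w.1, k) = w' ∧ (u.1, k) = u' then 1 else 0) else 0 :
              PowerSeries ℚ)) =
          if k = u'.2 then (if (if s then lo u.1 u'.2 u.2 else lo u.1 u.2 u'.2) = true ∧
            w' = (w.1, u'.2) ∧ u' = (u.1, u'.2) then (1 : ℚ) else 0) else 0 := by
        intro k
        have h6 : PowerSeries.coeff 0 (if u.1 then (1 : PowerSeries ℚ) else
            ((uX ^ (cx u.2 - cx k) : (PowerSeries ℚ)ˣ) : PowerSeries ℚ)) = 1 := by
          split_ifs
          · simp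
          · exact (Kap_pow _).1
        by_cases hk : k = u'.2
        · subst hk
          rw [if_pos rfl]
          by_cases h7 : (if s then lo u.1 u'.2 u.2 else lo u.1 u.2 u'.2) = true
          · rw [if_pos h7, Kap_mul0, h6, one_mul]
            by_cases h8 : w' = (w.1, u'.2) ∧ u' = (u.1, u'.2)
            · rw [if_pos ⟨h8.1.symm, h8.2.symm⟩, if_pos ⟨h7, h8⟩]
              simp
            · rw [if_neg (fun h9 => h8 ⟨h9.1.symm, h9.2.symm⟩), if_neg (fun h9 => h8 h9.2)]
              simp
          · rw [if_neg h7, if_neg (fun h9 => h7 h9.1)]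
            simp
        · rw [if_neg hk]
          have h8 : ¬ ((w.1, k) = w' ∧ (u.1, k) = u') := by
            rintro ⟨-, h9⟩
            exact hk (by rw [← h9])
          rw [if_neg h8, mul_zero]
          split_ifs <;> simp
      rw [Finset.sum_congr rfl fun k _ => h5 k, Finset.sum_ite_eq' Finset.univ u'.2,
        if_pos (Finset.mem_univ _)]
      by_cases h7 : (if s then lo u.1 u'.2 u.2 else lo u.1 u.2 u'.2) = true ∧
          w' = (w.1, u'.2) ∧ u' = (u.1, u'.2)
      · rw [if_pos h7, if_pos (Or.inr ⟨h1, h2, h7⟩)]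
      · rw [if_neg h7, if_neg]
        rintro (h8 | h8)
        · exact h1 h8.1
        · exact h7 h8.2.2
    · rw [if_neg h2, if_neg]
      · simp
      · rintro (h4 | h4)
        · exact h1 h4.1
        · exact h2 h4.2.1

/-- the kernel in general labels -/
private lemma Kap_one {N : ℕ} (p : Bool) (u u' w w' : Lab N) (P : Prop) [Decidable P]
    (hP : Kap_P (p == (u.1 == w.1)) u u' w w' ↔ P) :
    PowerSeries.coeff 1 (kap uX p u u' w w' : PowerSeries ℚ) =
      (if p = (u.1 == w.1) then 1 else -1) * (-(N : ℚ) * (if u = u' ∧ w = w' then 1 else 0) +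
        (if (u = u' ∧ w = w') ∧ u.2 = w.2 then 1 else 0) + 2 * (if P then 1 else 0)) := by
  classical
  have h0 : (if P then (1 : ℚ) else 0) = if Kap_P (p == (u.1 == w.1)) u u' w w' then 1 else 0 := by
    by_cases h : P
    · rw [if_pos h, if_pos (hP.mpr h)]
    · rw [if_neg h, if_neg (fun h' => h (hP.mp h'))]
  rw [h0]
  unfold kap opX
  beta_reduce
  have hid : (if w = w' ∧ u = u' then (1 : PowerSeries ℚ) else 0) =
      PowerSeries.C (if u = u' ∧ w = w' then (1 : ℚ) else 0) := by
    by_cases h : u = u' ∧ w = w'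
    · rw [if_pos h, if_pos h.symm]; simp
    · rw [if_neg h, if_neg (fun h' => h h'.symm)]; simp
  have hid' : (if u = u' ∧ w = w' then (1 : PowerSeries ℚ) else 0) =
      PowerSeries.C (if u = u' ∧ w = w' then (1 : ℚ) else 0) := by
    by_cases h : u = u' ∧ w = w'
    · rw [if_pos h, if_pos h]; simp
    · rw [if_neg h, if_neg h]; simp
  have hc1 : ∀ a : ℚ, PowerSeries.coeff 1 (PowerSeries.C a) = 0 := by
    intro a
    rw [PowerSeries.coeff_C]; simp
  have hc0 : ∀ a : ℚ, PowerSeries.coeff 0 (PowerSeries.C a) = a := by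
    intro a
    rw [PowerSeries.coeff_C]; simp
  have hand : (if (u = u' ∧ w = w') ∧ u.2 = w.2 then (1 : ℚ) else 0) =
      (if u.2 = w.2 then 1 else 0) * (if u = u' ∧ w = w' then 1 else 0) := by
    by_cases h : u = u' ∧ w = w'
    · by_cases h' : u.2 = w.2
      · rw [if_pos h, if_pos h', if_pos ⟨h, h'⟩, one_mul]
      · rw [if_neg h', if_neg (fun h'' => h' h''.2), zero_mul]
    · rw [if_neg h, if_neg (fun h'' => h h''.1), mul_zero]
  rw [hand]
  by_cases hp : p = (u.1 == w.1)
  · rw [if_pos hp, if_pos hp]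
    have hs : (p == (u.1 == w.1)) = true := by rw [hp]; simp
    rw [hs, ← Kap_smo]
    rw [map_sub, Kap_mul1, map_add, map_add, Kap_mul1, Kap_mul1, Kap_mul0, Kap_mul0,
      (Kap_pow _).1, (Kap_pow _).2, Kap_zz.1, Kap_zz.2, hid, hid', hc1, hc0]
    have ha : PowerSeries.coeff 0 (if u.2 = w.2 then ((uX : (PowerSeries ℚ)ˣ) : PowerSeries ℚ)
        else 1) = 1 := by
      split_ifs
      · exact Kap_u0
      · simp
    have hb : PowerSeries.coeff 1 (if u.2 = w.2 then ((uX : (PowerSeries ℚ)ˣ) : PowerSeries ℚ)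
        else 1) = if u.2 = w.2 then 1 else 0 := by
      split_ifs
      · exact Kap_u1
      · rw [PowerSeries.coeff_one]; simp
    rw [ha, hb]
    push_cast
    ring
  · rw [if_neg hp, if_neg hp]
    have hs : (p == (u.1 == w.1)) = false := by simpa using hp
    rw [hs, ← Kap_smo]
    rw [map_sub, Kap_mul1, map_sub, map_sub, Kap_mul1, Kap_mul1, Kap_mul0, Kap_mul0,
      (Kap_pow _).1, (Kap_pow _).2, Kap_zz.1, Kap_zz.2, hid, hid', hc1, hc0]
    have ha : PowerSeries.coeff 0 (if u.2 = w.2 then ((uX⁻¹ : (PowerSeries ℚ)ˣ) : PowerSeries ℚ)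
        else 1) = 1 := by
      split_ifs
      · exact Kap_v0
      · simp
    have hb : PowerSeries.coeff 1 (if u.2 = w.2 then ((uX⁻¹ : (PowerSeries ℚ)ˣ) : PowerSeries ℚ)
        else 1) = -(if u.2 = w.2 then 1 else 0) := by
      split_ifs
      · exact Kap_v1
      · rw [PowerSeries.coeff_one]; simp
    rw [ha, hb]
    push_cast
    ring

/-- **Kap**. The kernel for `q = 1 + X`. -/
theorem thm_Kap : St_Kap := by
  intro N _
  refine ⟨?_, ?_⟩
  · intro p u u' w w'
    refine ⟨?_, ?_⟩
    · unfold kap opX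
      beta_reduce
      have hid : PowerSeries.coeff 0 (if w = w' ∧ u = u' then (1 : PowerSeries ℚ) else 0) =
          PowerSeries.coeff 0 (if u = u' ∧ w = w' then (1 : PowerSeries ℚ) else 0) := by
        by_cases h : u = u' ∧ w = w'
        · rw [if_pos h, if_pos h.symm]
        · rw [if_neg h, if_neg (fun h' => h h'.symm)]
      by_cases hp : p = (u.1 == w.1)
      · rw [if_pos hp, map_sub, Kap_mul0, map_add, Kap_mul0, Kap_mul0, (Kap_pow _).1, Kap_zz.1,
          hid]
        have ha : PowerSeries.coeff 0 (if u.2 = w.2 then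
            ((uX : (PowerSeries ℚ)ˣ) : PowerSeries ℚ) else 1) = 1 := by
          split_ifs
          · exact Kap_u0
          · simp
        rw [ha]
        ring
      · rw [if_neg hp, map_sub, Kap_mul0, map_sub, Kap_mul0, Kap_mul0, (Kap_pow _).1, Kap_zz.1,
          hid]
        have ha : PowerSeries.coeff 0 (if u.2 = w.2 then
            ((uX⁻¹ : (PowerSeries ℚ)ˣ) : PowerSeries ℚ) else 1) = 1 := by
          split_ifs
          · exact Kap_v0
          · simp
        rw [ha]
        ring
    · intro h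
      have h1 : ¬ (u = u' ∧ w = w') := by
        rintro ⟨rfl, rfl⟩
        rcases h with h | h <;> exact h rfl
      have h1' : ¬ (w = w' ∧ u = u') := fun h' => h1 h'.symm
      have h2 : ∀ s, smo uX s (fun x y => if x = w' ∧ y = u' then (1 : PowerSeries ℚ) else 0)
          u w = 0 := by
        intro s
        unfold smo
        beta_reduce
        by_cases h3 : u.1 = w.1
        · rw [if_pos h3]
          have h4 : ¬ (u = w' ∧ w = u') := by
            rintro ⟨rfl, rfl⟩
            rcases h with h | h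
            · exact h h3
            · exact h h3.symm
          rw [if_neg h4]
          split_ifs <;> rfl
        · rw [if_neg h3]
          by_cases h5 : u.2 = w.2
          · rw [if_pos h5]
            refine Finset.sum_eq_zero fun k _ => ?_
            have h4 : ¬ ((w.1, k) = w' ∧ (u.1, k) = u') := by
              rintro ⟨rfl, rfl⟩
              rcases h with h | h <;> exact h rfl
            rw [if_neg h4, mul_zero]
            split_ifs <;> rfl
          · rw [if_neg h5]
      unfold kap opX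
      beta_reduce
      rw [h2, h2, if_neg h1, if_neg h1']
      split_ifs <;> ring
  · intro p d e θ i i' j j'
    have e1 : ((raw d (θ, i) (θ, i')).1.1 == (raw e (θ, j) (θ, j')).1.1) = (d == e) := by
      cases d <;> cases e <;> cases θ <;> rfl
    have e2 : ((raw d (θ, i) (θ, i')).1 = (raw d (θ, i) (θ, i')).2 ∧
        (raw e (θ, j) (θ, j')).1 = (raw e (θ, j) (θ, j')).2) ↔ (i = i' ∧ j = j') := by
      cases d <;> cases e <;> simp [raw, bar, eq_comm]
    have e3 : ((i = i' ∧ j = j') ∧
        (raw d (θ, i) (θ, i')).1.2 = (raw e (θ, j) (θ, j')).1.2) ↔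
        (i = i' ∧ j = j' ∧ i = j) := by
      rw [and_assoc]
      refine and_congr_right fun h1 => and_congr_right fun h2 => ?_
      subst h1 h2
      cases d <;> cases e <;> simp [raw, bar]
    have hP : Kap_P (p == ((raw d (θ, i) (θ, i')).1.1 == (raw e (θ, j) (θ, j')).1.1))
        (raw d (θ, i) (θ, i')).1 (raw d (θ, i) (θ, i')).2 (raw e (θ, j) (θ, j')).1
        (raw e (θ, j) (θ, j')).2 ↔
        (i' = j ∧ j' = i ∧ (if p = θ then i < i' else i' < i)) := by
      rw [e1]
      clear e1 e2 e3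
      cases d <;> cases e <;> cases θ <;> cases p <;> simp [Kap_P, raw, bar, lo] <;>
        grind
    rw [Kap_one p _ _ _ _ _ hP, e1]
    simp only [e2, e3]

end IBN
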