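import Pool.Agent.IBN.StD

/-!
# IBN, module LSy: the linking numbers are symmetric
-/

set_option autoImplicit false

namespace IBN

private theorem LSy_ord (s : Fin 10) (b : Bool) :
    sS s < mS s b ∧ mS s b < eS s ∧ sS s < eS s ∧ eS s < 40 := by
  revert s b; decide

private theorem LSy_disj (s t : Fin 10) (h : s ≠ t) (b c : Bool) :
    ∀ a ∈ [sS s, mS s b, eS s], ∀ a' ∈ [sS t, mS t c, eS t], a ≠ a' := by
  have h1 : ∀ s t : Fin 10, s ≠ t → ∀ b c : Bool, ∀ a ∈ [sS s, mS s b, eS s],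
      ∀ a' ∈ [sS t, mS t c, eS t], a ≠ a' := by decide
  exact h1 s t h b c

private theorem LSy_inj {n : ℕ} {v : ℕ → ℕ} (hv : Inc n v) {a b : ℕ} (ha : a < 40) (hb : b < 40)
    (h : a ≠ b) : v a ≠ v b := by
  intro h0
  rcases lt_trichotomy a b with h1 | h1 | h1
  · have := hv.1 a b h1 hb
    omega
  · exact h h1
  · have := hv.1 b a h1 ha
    omega

private theorem LSy_slot (hAnt : St_Ant) (n : ℕ) (G : Diagram n) (v : ℕ → ℕ) (hv : Inc n v)
    (i j : Fin 10) (hij : i ≠ j) (b' : Bool) : ∃ R : ℤ, ∀ b : Bool,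
    ((pE v i b).map fun e => ((pE v j b').map fun f => ov G e f).sum).sum -
      ((pE v j b').map fun f => ((pE v i b).map fun e => ov G f e).sum).sum = R := by
  obtain ⟨χ, hχ⟩ : ∃ χ : ℕ → ℕ → ℕ → ℤ, ∀ k l x, χ k l x = if k < x ∧ x < l then 1 else 0 :=
    ⟨fun k l x => _, fun k l x => rfl⟩
  have key : ∀ a b k l : ℕ, a < b → b < 40 → k < l → l < 40 → a ≠ k → a ≠ l → b ≠ k → b ≠ l →
      ov G (v a, v b) (v k, v l) - ov G (v k, v l) (v a, v b) =
        χ (v k) (v l) (v b) - χ (v k) (v l) (v a) := by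
    intro a b k l h1 h2 h3 h4 h5 h6 h7 h8
    rw [hχ, hχ]
    exact hAnt n G (v a) (v b) (v k) (v l) (hv.1 a b h1 h2) (hv.2 b h2) (hv.1 k l h3 h4)
      (hv.2 l h4) (LSy_inj hv (h1.trans h2) (h3.trans h4) h5) (LSy_inj hv (h1.trans h2) h4 h6)
      (LSy_inj hv h2 (h3.trans h4) h7) (LSy_inj hv h2 h4 h8)
  refine ⟨χ (v (sS j)) (v (mS j b')) (v (eS i)) - χ (v (sS j)) (v (mS j b')) (v (sS i)) +
    (χ (v (mS j b')) (v (eS j)) (v (eS i)) - χ (v (mS j b')) (v (eS j)) (v (sS i))), ?_⟩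
  intro b
  have hi := LSy_ord i b
  have hj := LSy_ord j b'
  have hd := LSy_disj i j hij b b'
  have d1 : sS i ≠ sS j := hd _ (by simp) _ (by simp)
  have d2 : sS i ≠ mS j b' := hd _ (by simp) _ (by simp)
  have d3 : sS i ≠ eS j := hd _ (by simp) _ (by simp)
  have d4 : mS i b ≠ sS j := hd _ (by simp) _ (by simp)
  have d5 : mS i b ≠ mS j b' := hd _ (by simp) _ (by simp)
  have d6 : mS i b ≠ eS j := hd _ (by simp) _ (by simp)
  have d7 : eS i ≠ sS j := hd _ (by simp) _ (by simp)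
  have d8 : eS i ≠ mS j b' := hd _ (by simp) _ (by simp)
  have d9 : eS i ≠ eS j := hd _ (by simp) _ (by simp)
  have k1 := key (sS i) (mS i b) (sS j) (mS j b') hi.1 (hi.2.1.trans hi.2.2.2) hj.1
    (hj.2.1.trans hj.2.2.2) d1 d2 d4 d5
  have k2 := key (sS i) (mS i b) (mS j b') (eS j) hi.1 (hi.2.1.trans hi.2.2.2) hj.2.1
    hj.2.2.2 d2 d3 d5 d6
  have k3 := key (mS i b) (eS i) (sS j) (mS j b') hi.2.1 hi.2.2.2 hj.1
    (hj.2.1.trans hj.2.2.2) d4 d5 d7 d8
  have k4 := key (mS i b) (eS i) (mS j b') (eS j) hi.2.1 hi.2.2.2 hj.2.1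
    hj.2.2.2 d5 d6 d8 d9
  simp only [pE, List.map_cons, List.map_nil, List.sum_cons, List.sum_nil]
  linarith

theorem thm_LSy : St_Ant → St_LSy := by
  intro hAnt n G v hv i j hij
  obtain ⟨Rt, hRt⟩ := LSy_slot hAnt n G v hv i j hij true
  obtain ⟨Rf, hRf⟩ := LSy_slot hAnt n G v hv i j hij false
  have h1 := hRt true
  have h2 := hRt false
  have h3 := hRf true
  have h4 := hRf false
  unfold LL
  simp only [Fintype.sum_bool, if_true, reduceCtorEq, if_false]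
  linarith

end IBN
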