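import Pool.Agent.IBN.StC

/-!
# IBN, Lead (helper52): the leading coefficient as a sum over the colours
-/

set_option autoImplicit false

namespace IBN

private theorem Lead_const (g : Fin 10 → Bool) (h : ∀ i, g (i + 1) = g i) (i : Fin 10) :
    g i = g 0 := by
  have h1 : ∀ (k : ℕ) (hk : k < 10), g ⟨k, hk⟩ = g 0 := by
    intro k
    induction k with
    | zero =>
      intro hk
      rfl
    | succ k ih =>
      intro hk
      have h3 : (⟨k + 1, hk⟩ : Fin 10) = ⟨k, by omega⟩ + 1 := by
        ext
        rw [Fin.val_add]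
        show k + 1 = (k + 1) % 10
        omega
      rw [h3, h, ih]
  exact h1 i.val i.isLt

/-- the function with the constant orientation `x.1` and the colours `x.2` -/
private def Lead_f {N : ℕ} (x : Bool × (Fin 10 → Fin N)) : Fin 10 → Lab N := fun i => (x.1, x.2 i)

private theorem Lead_inj {N : ℕ} : Function.Injective (Lead_f (N := N)) := by
  rintro ⟨a, x⟩ ⟨b, y⟩ h
  have h0 := congrArg Prod.fst (congrFun h 0)
  have h1 : a = b := h0
  have h2 : x = y := by
    funext i
    exact congrArg Prod.snd (congrFun h i)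
  rw [h1, h2]

private theorem Lead_M {N n : ℕ} [NeZero N] (hG : St_GGe) (G : Diagram n) (v : ℕ → ℕ)
    (hv : Inc n v) (A : Finset (Fin 10)) (M : Finset (Fin 10 × Fin 10)) (hM : M ∈ PM A) :
    (∑ D : Fin 10 → Lab N, if ∀ i, i ∉ A → D (i + 1) = D i then
      ∏ e ∈ M, GG G v e D else 0) =
      2 * ((∏ e ∈ M, (LL G v e.1 e.2 : ℚ)) * WW N A M) := by
  have hM1 : ∀ e ∈ M, e.1 < e.2 := by
    intro e he
    unfold PM at hM
    rw [Finset.mem_filter, Finset.mem_powerset] at hM
    have h := hM.1 he
    rw [Finset.mem_filter] at h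
    exact h.2
  have hM2 : ∀ a ∈ A, ∃ e ∈ M, e.1 = a ∨ e.2 = a := by
    intro a ha
    unfold PM at hM
    rw [Finset.mem_filter] at hM
    have h := hM.2 a ha
    have h2 : (M.filter fun e => e.1 = a ∨ e.2 = a).Nonempty := by
      rw [← Finset.card_pos, h]
      exact one_pos
    obtain ⟨e, he⟩ := h2
    rw [Finset.mem_filter] at he
    exact ⟨e, he.1, he.2⟩
  have key := Fintype.sum_of_injective (Lead_f (N := N)) Lead_inj
    (fun x => if ∀ i, i ∉ A → Lead_f x (i + 1) = Lead_f x i then
      ∏ e ∈ M, GG G v e (Lead_f x) else 0)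
    (fun D => if ∀ i, i ∉ A → D (i + 1) = D i then ∏ e ∈ M, GG G v e D else 0) (by
      intro D hD
      split_ifs with hc
      · by_contra hne
        apply hD
        have hor : ∀ i, (D (i + 1)).1 = (D i).1 := by
          intro i
          by_contra hi
          by_cases hiA : i ∈ A
          · obtain ⟨e, he, hei⟩ := hM2 i hiA
            apply hne
            refine Finset.prod_eq_zero he ?_
            have h1 := (hG N n G v hv e.1 e.2 (ne_of_lt (hM1 e he)) D).1
            refine h1 ?_
            rcases hei with h2 | h2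
            · left
              rw [h2]
              exact Ne.symm hi
            · right
              rw [h2]
              exact Ne.symm hi
          · exact hi (by rw [hc i hiA])
        have hcst := Lead_const (fun i => (D i).1) hor
        refine ⟨((D 0).1, fun i => (D i).2), ?_⟩
        funext i
        show ((D 0).1, (D i).2) = D i
        rw [← hcst i]
      · rfl) (fun x => rfl)
  rw [← key, Fintype.sum_prod_type]
  have hθ : ∀ θ : Bool, (∑ D : Fin 10 → Fin N,
      if ∀ i, i ∉ A → Lead_f (θ, D) (i + 1) = Lead_f (θ, D) i then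
        ∏ e ∈ M, GG G v e (Lead_f (θ, D)) else 0) =
      (∏ e ∈ M, (LL G v e.1 e.2 : ℚ)) * WW N A M := by
    intro θ
    unfold WW
    rw [Int.cast_sum, Finset.mul_sum]
    refine Finset.sum_congr rfl fun D _ => ?_
    by_cases hc : ∀ i, i ∉ A → D (i + 1) = D i
    · have hc' : ∀ i, i ∉ A → Lead_f (θ, D) (i + 1) = Lead_f (θ, D) i := by
        intro i hi
        show (θ, D (i + 1)) = (θ, D i)
        rw [hc i hi]
      rw [if_pos hc', if_pos hc, Int.cast_prod, ← Finset.prod_mul_distrib]
      refine Finset.prod_congr rfl fun e he => ?_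
      exact (hG N n G v hv e.1 e.2 (ne_of_lt (hM1 e he)) (Lead_f (θ, D))).2 θ rfl rfl rfl rfl
    · have hc' : ¬ ∀ i, i ∉ A → Lead_f (θ, D) (i + 1) = Lead_f (θ, D) i := by
        intro h
        apply hc
        intro i hi
        exact congrArg Prod.snd (h i hi)
      rw [if_neg hc', if_neg hc, Int.cast_zero, mul_zero]
  rw [Fintype.sum_bool, hθ, hθ]
  ring

theorem thm_Lead : St_Red → St_GGe → St_Lead := by
  intro hR hG N n _ G v hv
  refine ⟨(hR N n G v hv).1, ?_⟩
  intro A k hk
  rw [(hR N n G v hv).2 A k hk]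
  have h1 : ∀ D : Fin 10 → Lab N, (if ∀ i, i ∉ A → D (i + 1) = D i then
      ∑ M ∈ PM A, ∏ e ∈ M, GG G v e D else 0) =
      ∑ M ∈ PM A, if ∀ i, i ∉ A → D (i + 1) = D i then ∏ e ∈ M, GG G v e D else 0 := by
    intro D
    by_cases hc : ∀ i, i ∉ A → D (i + 1) = D i
    · rw [if_pos hc]
      refine Finset.sum_congr rfl fun M _ => ?_
      rw [if_pos hc]
    · rw [if_neg hc]
      symm
      refine Finset.sum_eq_zero fun M _ => ?_
      rw [if_neg hc]
  rw [Finset.sum_congr rfl fun D _ => h1 D, Finset.sum_comm, Finset.mul_sum]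
  exact Finset.sum_congr rfl fun M hM => Lead_M hG G v hv A M hM

end IBN
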