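import Pool.Agent.IBN.StD

/-!
# IBN, module Lk: linking numbers modulo `16` after Ramsey
-/

set_option autoImplicit false

namespace IBN

private theorem Lk_ord (s : Fin 10) (b : Bool) :
    sS s < mS s b ∧ mS s b < eS s ∧ sS s < eS s ∧ eS s < 40 := by
  revert s b; decide

private theorem Lk_disj (s t : Fin 10) (h : s ≠ t) (b c : Bool) :
    ∀ a ∈ [sS s, mS s b, eS s], ∀ a' ∈ [sS t, mS t c, eS t], a ≠ a' := by
  have h1 : ∀ s t : Fin 10, s ≠ t → ∀ b c : Bool, ∀ a ∈ [sS s, mS s b, eS s],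
      ∀ a' ∈ [sS t, mS t c, eS t], a ≠ a' := by decide
  exact h1 s t h b c

private theorem Lk_inj {n : ℕ} {v : ℕ → ℕ} (hv : Inc n v) {a b : ℕ} (ha : a < 40) (hb : b < 40)
    (h : a ≠ b) : v a ≠ v b := by
  intro h0
  rcases lt_trichotomy a b with h1 | h1 | h1
  · have := hv.1 a b h1 hb
    omega
  · exact h h1
  · have := hv.1 b a h1 ha
    omega

/-- coefficients (of `o₁`, `o₂`, `o₃`, `1`) of the number of crossings of `(a, b)` over `(c, d)` -/
private def Lk_code (a b c d : ℕ) : ℤ × ℤ × ℤ × ℤ :=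
  if b < c ∨ d < a then (1, 0, 0, 0)
  else if (a < c ∧ d < b) ∨ (c < a ∧ b < d) then (0, 1, 0, 0)
  else if a < c then (0, 0, 1, 0) else (0, 0, 1, -1)

private def Lk_ev (o : ZMod 16 × ZMod 16 × ZMod 16) (z : ℤ × ℤ × ℤ × ℤ) : ZMod 16 :=
  (z.1 : ZMod 16) * o.1 + (z.2.1 : ZMod 16) * o.2.1 + (z.2.2.1 : ZMod 16) * o.2.2 +
    (z.2.2.2 : ZMod 16)

private theorem Lk_ev_add (o : ZMod 16 × ZMod 16 × ZMod 16) (z w : ℤ × ℤ × ℤ × ℤ) :
    Lk_ev o (z + w) = Lk_ev o z + Lk_ev o w := by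
  unfold Lk_ev
  simp only [Prod.fst_add, Prod.snd_add, Int.cast_add]
  ring

private theorem Lk_ev_sub (o : ZMod 16 × ZMod 16 × ZMod 16) (z w : ℤ × ℤ × ℤ × ℤ) :
    Lk_ev o (z - w) = Lk_ev o z - Lk_ev o w := by
  unfold Lk_ev
  simp only [Prod.fst_sub, Prod.snd_sub, Int.cast_sub]
  ring

private def Lk_four (i j : Fin 10) (b b' : Bool) : ℤ × ℤ × ℤ × ℤ :=
  Lk_code (sS i) (mS i b) (sS j) (mS j b') + Lk_code (sS i) (mS i b) (mS j b') (eS j) +
    Lk_code (mS i b) (eS i) (sS j) (mS j b') + Lk_code (mS i b) (eS i) (mS j b') (eS j)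

private def Lk_sum (i j : Fin 10) : ℤ × ℤ × ℤ × ℤ :=
  Lk_four i j true true - Lk_four i j true false - Lk_four i j false true + Lk_four i j false false

private theorem Lk_table : ∀ i j : Fin 10, i < j →
    Lk_sum i j = if (i, j) ∈ PP then (0, 2, -2, 1) else (0, 0, 0, 0) := by
  decide +kernel

/-- number of crossings of two edges after Ramsey -/
private theorem Lk_edge (hAnt : St_Ant) {n : ℕ} {G : Diagram n} {v : ℕ → ℕ} (hv : Inc n v)
    {o : ZMod 16 × ZMod 16 × ZMod 16}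
    (hc : ∀ i j k l : ℕ, i < j → j < k → k < l → l < 40 →
      ((ov G (v i, v j) (v k, v l) : ZMod 16), (ov G (v i, v l) (v j, v k) : ZMod 16),
        (ov G (v i, v k) (v j, v l) : ZMod 16)) = o)
    {a b c d : ℕ} (h1 : a < b) (h2 : b < 40) (h3 : c < d) (h4 : d < 40) (h5 : a ≠ c) (h6 : a ≠ d)
    (h7 : b ≠ c) (h8 : b ≠ d) :
    (ov G (v a, v b) (v c, v d) : ZMod 16) = Lk_ev o (Lk_code a b c d) := by
  have hA := hAnt n G (v a) (v b) (v c) (v d) (hv.1 a b h1 h2) (hv.2 b h2) (hv.1 c d h3 h4)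
      (hv.2 d h4) (Lk_inj hv (h1.trans h2) (h3.trans h4) h5) (Lk_inj hv (h1.trans h2) h4 h6)
      (Lk_inj hv h2 (h3.trans h4) h7) (Lk_inj hv h2 h4 h8)
  have hlt : ∀ x y : ℕ, x < 40 → y < 40 → x ≠ y → (v x < v y ↔ x < y) := by
    intro x y hx hy hxy
    constructor
    · intro h
      by_contra h'
      have := hv.1 y x (by omega) hx
      omega
    · intro h
      exact hv.1 x y h hy
  simp only [hlt c b (h3.trans h4) h2 (Ne.symm h7), hlt b d h2 h4 h8, hlt c a (h3.trans h4)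
    (h1.trans h2) (Ne.symm h5), hlt a d (h1.trans h2) h4 h6] at hA
  have hA' : (ov G (v a, v b) (v c, v d) : ZMod 16) = (ov G (v c, v d) (v a, v b) : ZMod 16) +
      ((if c < b ∧ b < d then (1 : ℤ) else 0) - (if c < a ∧ a < d then (1 : ℤ) else 0) : ℤ) := by
    have h : ov G (v a, v b) (v c, v d) = ov G (v c, v d) (v a, v b) +
      ((if c < b ∧ b < d then (1 : ℤ) else 0) - (if c < a ∧ a < d then (1 : ℤ) else 0)) := by
      linarith
    rw [h]
    push_cast
    ring
  unfold Lk_ev Lk_code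
  by_cases s1 : b < c
  · rw [if_pos (Or.inl s1)]
    have := congrArg Prod.fst (hc a b c d h1 s1 h3 h4)
    simp only at this
    rw [this]
    simp
  by_cases s2 : d < a
  · rw [if_pos (Or.inr s2)]
    have := congrArg Prod.fst (hc c d a b h3 s2 h1 h2)
    simp only at this
    rw [hA', this, if_neg (by omega), if_neg (by omega)]
    simp
  rw [if_neg (by omega)]
  by_cases s3 : a < c ∧ d < b
  · rw [if_pos (Or.inl s3)]
    have := congrArg (fun z => z.2.1) (hc a c d b s3.1 h3 s3.2 h2)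
    simp only at this
    rw [this]
    simp
  by_cases s4 : c < a ∧ b < d
  · rw [if_pos (Or.inr s4)]
    have := congrArg (fun z => z.2.1) (hc c a b d s4.1 h1 s4.2 h4)
    simp only at this
    rw [hA', this, if_pos (by omega), if_pos (by omega)]
    simp
  rw [if_neg (by omega)]
  by_cases s5 : a < c
  · rw [if_pos s5]
    have := congrArg (fun z => z.2.2) (hc a c b d s5 (by omega) (by omega) h4)
    simp only at this
    rw [this]
    simp
  · rw [if_neg s5]
    have := congrArg (fun z => z.2.2) (hc c a d b (by omega) (by omega) (by omega) h2)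
    simp only at this
    rw [hA', this, if_neg (by omega), if_pos (by omega)]
    simp

theorem thm_Lk : St_Ant → St_Ram → St_Lk := by
  intro hAnt hRam
  obtain ⟨n, hn⟩ := hRam (ZMod 16 × ZMod 16 × ZMod 16)
  refine ⟨n, fun G => ?_⟩
  obtain ⟨v, hv, o, hc⟩ := hn fun i j k l =>
    ((ov G (i, j) (k, l) : ZMod 16), (ov G (i, l) (j, k) : ZMod 16), (ov G (i, k) (j, l) : ZMod 16))
  refine ⟨v, hv, fun i j hij => ?_⟩
  have hLL : (LL G v i j : ZMod 16) = Lk_ev o (Lk_sum i j) := by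
    have hne : i ≠ j := ne_of_lt hij
    have hf : ∀ b b' : Bool,
        ((((pE v i b).map fun e => ((pE v j b').map fun f => ov G e f).sum).sum : ℤ) : ZMod 16) =
          Lk_ev o (Lk_four i j b b') := by
      intro b b'
      have hi := Lk_ord i b
      have hj := Lk_ord j b'
      have hd := Lk_disj i j hne b b'
      have d1 : sS i ≠ sS j := hd _ (by simp) _ (by simp)
      have d2 : sS i ≠ mS j b' := hd _ (by simp) _ (by simp)
      have d3 : sS i ≠ eS j := hd _ (by simp) _ (by simp)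
      have d4 : mS i b ≠ sS j := hd _ (by simp) _ (by simp)
      have d5 : mS i b ≠ mS j b' := hd _ (by simp) _ (by simp)
      have d6 : mS i b ≠ eS j := hd _ (by simp) _ (by simp)
      have d7 : eS i ≠ sS j := hd _ (by simp) _ (by simp)
      have d8 : eS i ≠ mS j b' := hd _ (by simp) _ (by simp)
      have d9 : eS i ≠ eS j := hd _ (by simp) _ (by simp)
      have k1 := Lk_edge hAnt (G := G) hv hc hi.1 (hi.2.1.trans hi.2.2.2) hj.1
        (hj.2.1.trans hj.2.2.2) d1 d2 d4 d5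
      have k2 := Lk_edge hAnt (G := G) hv hc hi.1 (hi.2.1.trans hi.2.2.2) hj.2.1
        hj.2.2.2 d2 d3 d5 d6
      have k3 := Lk_edge hAnt (G := G) hv hc hi.2.1 hi.2.2.2 hj.1
        (hj.2.1.trans hj.2.2.2) d4 d5 d7 d8
      have k4 := Lk_edge hAnt (G := G) hv hc hi.2.1 hi.2.2.2 hj.2.1
        hj.2.2.2 d5 d6 d8 d9
      simp only [pE, List.map_cons, List.map_nil, List.sum_cons, List.sum_nil, Int.cast_add,
        Int.cast_zero, add_zero]
      rw [k1, k2, k3, k4, Lk_four, Lk_ev_add, Lk_ev_add, Lk_ev_add]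
      ring
    unfold LL
    simp only [Fintype.sum_bool, if_true, reduceCtorEq, if_false]
    rw [Lk_sum, Lk_ev_add, Lk_ev_sub, Lk_ev_sub, ← hf, ← hf, ← hf, ← hf]
    push_cast
    ring
  rw [Lk_table i j hij] at hLL
  split_ifs with hP
  · rw [if_pos hP] at hLL
    have h1 : ((LL G v i j - (2 * (o.2.1.val : ℤ) - 2 * (o.2.2.val : ℤ) + 1) : ℤ) : ZMod 16) = 0 := by
      push_cast
      rw [hLL, ZMod.natCast_zmod_val, ZMod.natCast_zmod_val]
      unfold Lk_ev
      push_cast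
      ring
    rw [ZMod.intCast_zmod_eq_zero_iff_dvd] at h1
    obtain ⟨k, hk⟩ := h1
    push_cast at hk
    refine ⟨(o.2.1.val : ℤ) - (o.2.2.val : ℤ) + 8 * k, ?_⟩
    linarith
  · rw [if_neg hP] at hLL
    have h1 : (LL G v i j : ZMod 16) = 0 := by
      rw [hLL]
      unfold Lk_ev
      simp
    rw [ZMod.intCast_zmod_eq_zero_iff_dvd] at h1
    exact_mod_cast h1

end IBN
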