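import Pool.Agent.IBN.StD

/-!
# IBN: the main theorem
-/

set_option autoImplicit false

namespace IBN

theorem thm_Main : St_InvP' → St_TwoP → St_EN → St_OkK → St_Slo → St_Lead → St_One →
    St_Lk → St_Ari → St_Main := by
  intro hI hT hE hO hS hL h1 hK hA
  obtain ⟨n, hn⟩ := hK
  refine ⟨n, fun G => ?_⟩
  by_contra hcon
  push Not at hcon
  obtain ⟨v, hv, hLL⟩ := hn G
  have hc : ∀ ε, IsCycle n (cyc v ε) := fun ε => (hS n v hv ε).1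
  have hw : ∀ ε, ∃ w : Word, Iso 0 (G.knot (cyc v ε)) w ∧ maxima w < 3 :=
    fun ε => hcon (cyc v ε) (hc ε)
  choose w hw1 hw2 using hw
  have hok : ∀ ε, Ok (w ε) 0 0 := fun ε => hO.2 _ _ (hw1 ε) (hO.1 n G _ (hc ε))
  have hval : ∀ (N : ℕ), (N = 2 ∨ N = 3) → ∀ ε, VN G N v ε = val (N := N) uX (w ε) [] := by
    intro N hN ε
    exact hI _ uX N hN _ _ (hw1 ε)
  have hg : ∀ ε, ∃ g : List Ltr, ∀ N : ℕ, (N = 2 ∨ N = 3) →
      val (N := N) uX (w ε) [] = 2 * qn uX N * pol (uX ^ (-(N : ℤ))) (zz uX ^ 2) g := by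
    intro ε
    have h2 : PowerSeries.coeff 0 (VN G 2 v ε) = 2 * ((2 : ℕ) : ℚ) := h1 2 n G v hv ε
    rw [hval 2 (Or.inl rfl) ε] at h2
    rcases hT (w ε) (hok ε) (by have := hw2 ε; omega) with h | h | h
    · rw [h] at h2
      simp [val, opW] at h2
      norm_num at h2
    · exact h
    · rw [h 2 (Or.inl rfl)] at h2
      norm_num at h2
  choose g hg using hg
  have e2 : (uX ^ (-((2 : ℕ) : ℤ)) : (PowerSeries ℚ)ˣ) = uX ^ (-(2 : ℤ)) := rfl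
  have e3 : (uX ^ (-((3 : ℕ) : ℤ)) : (PowerSeries ℚ)ˣ) = uX ^ (-(3 : ℤ)) := rfl
  obtain ⟨L2a, L2b⟩ := hL 2 n G v hv
  obtain ⟨L3a, L3b⟩ := hL 3 n G v hv
  refine hA (VN G 2 v) (VN G 3 v) (fun ε => pol (uX ^ (-(2 : ℤ))) (zz uX ^ 2) (g ε))
    (fun ε => pol (uX ^ (-(3 : ℤ))) (zz uX ^ 2) (g ε)) (LL G v) ?_ ?_ ?_ L2a L3a L2b L3b hLL
  · intro ε
    rw [hval 2 (Or.inl rfl) ε, hg ε 2 (Or.inl rfl), e2]
  · intro ε
    rw [hval 3 (Or.inr rfl) ε, hg ε 3 (Or.inr rfl), e3]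
  · intro ε
    exact hE (g ε)

end IBN
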