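import Pool.Agent.IBN.StA

/-!
# IBN Nat : naturality of the vertex model in the ring
-/

set_option autoImplicit false

namespace IBN

section

variable {A B : Type} [CommRing A] [CommRing B] (f : A →+* B) (q : Aˣ) {N : ℕ}

private theorem Nat_zpow (n : ℤ) :
    f ((q ^ n : Aˣ) : A) = (((Units.map (f : A →* B) q) ^ n : Bˣ) : B) := by
  rw [← map_zpow, Units.coe_map]
  rfl

private theorem Nat_val : f ((q : Aˣ) : A) = ((Units.map (f : A →* B) q : Bˣ) : B) := by
  rw [Units.coe_map]
  rfl

private theorem Nat_inv :
    f ((q⁻¹ : Aˣ) : A) = (((Units.map (f : A →* B) q)⁻¹ : Bˣ) : B) := by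
  rw [← map_inv, Units.coe_map]
  rfl

private theorem Nat_capw (x y : Lab N) :
    f (capw q x y) = capw (Units.map (f : A →* B) q) x y := by
  unfold capw
  split_ifs
  · exact map_one f
  · exact Nat_zpow f q _
  · exact map_zero f

private theorem Nat_cupw (x y : Lab N) :
    f (cupw q x y) = cupw (Units.map (f : A →* B) q) x y := by
  unfold cupw
  split_ifs
  · exact Nat_zpow f q _
  · exact map_one f
  · exact map_zero f

private theorem Nat_zz : f (zz q) = zz (Units.map (f : A →* B) q) := by
  unfold zz
  rw [map_sub, Nat_val, Nat_inv]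

private theorem Nat_smo (s : Bool) (F : Lab N → Lab N → A) (x y : Lab N) :
    f (smo q s F x y) = smo (Units.map (f : A →* B) q) s (fun a b => f (F a b)) x y := by
  unfold smo
  rw [apply_ite f, apply_ite f, apply_ite f, map_zero, map_sum]
  have h : ∀ k : Fin N,
      f (if (if s then lo x.1 k x.2 else lo x.1 x.2 k) then
        (if x.1 then 1 else ((q ^ (cx x.2 - cx k) : Aˣ) : A)) * F (y.1, k) (x.1, k) else 0) =
      (if (if s then lo x.1 k x.2 else lo x.1 x.2 k) then
        (if x.1 then 1 else (((Units.map (f : A →* B) q) ^ (cx x.2 - cx k) : Bˣ) : B)) *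
          f (F (y.1, k) (x.1, k)) else 0) := by
    intro k
    rw [apply_ite f, map_mul, map_zero, apply_ite f (x.1 = true), map_one, Nat_zpow]
  simp only [h]

private theorem Nat_opX (p : Bool) (F : Lab N → Lab N → A) (x y : Lab N) :
    f (opX q p F x y) = opX (Units.map (f : A →* B) q) p (fun a b => f (F a b)) x y := by
  unfold opX
  split_ifs <;>
    simp only [map_mul, map_add, map_sub, map_one, Nat_val, Nat_smo, Nat_zz, map_zpow, map_inv]

private theorem Nat_opP (s : Piece) (F : List (Lab N) → A) (l : List (Lab N)) :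
    f (opP q s F l) = opP (Units.map (f : A →* B) q) s (fun l => f (F l)) l := by
  obtain ⟨k, i⟩ := s
  cases k with
  | mi =>
    show f (∑ x : Lab N, cupw q x (bar x) * F (l.take i ++ x :: bar x :: l.drop i)) =
      ∑ x : Lab N, cupw (Units.map (f : A →* B) q) x (bar x) *
        f (F (l.take i ++ x :: bar x :: l.drop i))
    rw [map_sum]
    refine Finset.sum_congr rfl (fun x _ => ?_)
    rw [map_mul, Nat_cupw]
  | ma =>
    unfold opP
    dsimp only
    rcases l.drop i with _ | ⟨x, _ | ⟨y, r⟩⟩
    · exact map_zero f
    · exact map_zero f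
    · show f (capw q x y * F (l.take i ++ r)) = _
      rw [map_mul, Nat_capw]
  | cr p =>
    unfold opP
    dsimp only
    rcases l.drop i with _ | ⟨x, _ | ⟨y, r⟩⟩
    · exact map_zero f
    · exact map_zero f
    · exact Nat_opX f q p _ x y

end

/-- **Nat** -/
theorem thm_Nat : St_Nat := by
  intro A B _ _ f q N w F l
  induction w generalizing l with
  | nil => rfl
  | cons s w ih =>
    show f (opP q s (opW q w F) l) =
      opP (Units.map (f : A →* B) q) s (opW (Units.map (f : A →* B) q) w fun l => f (F l)) l
    rw [Nat_opP]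
    have h : (fun l => f (opW q w F l)) =
        opW (Units.map (f : A →* B) q) w fun l => f (F l) := funext ih
    rw [h]

end IBN
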