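import Pool.Agent.IBN.StD

/-!
# IBN, module OkK: the diagrams of cycles are closed words; isotopy preserves this
-/

set_option autoImplicit false

namespace IBN

private theorem OkK_append (u v : Word) : ∀ n m : ℕ,
    Ok (u ++ v) n m ↔ ∃ k, Ok u n k ∧ Ok v k m := by
  induction u with
  | nil =>
    intro n m
    constructor
    · intro h
      exact ⟨n, rfl, h⟩
    · rintro ⟨k, h1, h2⟩
      have h1' : n = k := h1
      rw [h1']
      exact h2
  | cons s u ih =>
    intro n m
    show (s.i + s.k.inn ≤ n ∧ Ok (u ++ v) (n - s.k.inn + s.k.out) m) ↔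
      ∃ k, (s.i + s.k.inn ≤ n ∧ Ok u (n - s.k.inn + s.k.out) k) ∧ Ok v k m
    rw [ih]
    constructor
    · rintro ⟨h0, k, h1, h2⟩
      exact ⟨k, ⟨h0, h1⟩, h2⟩
    · rintro ⟨k, ⟨h0, h1⟩, h2⟩
      exact ⟨h0, k, h1, h2⟩

private theorem OkK_unique (u : Word) : ∀ n k k' : ℕ, Ok u n k → Ok u n k' → k = k' := by
  induction u with
  | nil =>
    intro n k k' h1 h2
    have h1' : n = k := h1
    have h2' : n = k' := h2
    omega
  | cons s u ih =>
    intro n k k' h1 h2
    exact ih _ _ _ h1.2 h2.2

private theorem OkK_step {n : ℕ} {w w' : Word} (h : Step n w w') {m : ℕ} (hw : Ok w n m) :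
    Ok w' n m := by
  obtain ⟨u, a, b, v, k, l, rfl, rfl, h1, h2, h3, -⟩ := h
  rw [OkK_append] at hw ⊢
  obtain ⟨k', h4, h5⟩ := hw
  have e1 := OkK_unique u n k k' h1 h4
  subst e1
  refine ⟨k, h1, ?_⟩
  rw [OkK_append] at h5 ⊢
  obtain ⟨l', h6, h7⟩ := h5
  have e2 := OkK_unique a k l l' h2 h6
  subst e2
  exact ⟨l, h3, h7⟩

private theorem OkK_iso {n : ℕ} {w w' : Word} (h : Iso n w w') {m : ℕ} (hw : Ok w n m) :
    Ok w' n m := by
  induction h with
  | refl => exact hw
  | tail _ h2 ih => exact OkK_step h2 ih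

private theorem OkK_min (m : ℕ) : Ok ((List.range m).map (fun t => pU (2 * t))) 0 (2 * m) := by
  induction m with
  | zero => rfl
  | succ m ih =>
    rw [List.range_succ, List.map_append, OkK_append]
    refine ⟨2 * m, ih, ?_⟩
    show 2 * m + 0 ≤ 2 * m ∧ 2 * m - 0 + 2 = 2 * (m + 1)
    omega

private theorem OkK_max (m : ℕ) : Ok (List.replicate m (pN 0)) (2 * m) 0 := by
  induction m with
  | zero => rfl
  | succ m ih =>
    rw [List.replicate_succ]
    show 0 + 2 ≤ 2 * (m + 1) ∧ Ok (List.replicate m (pN 0)) (2 * (m + 1) - 2 + 0) 0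
    have e : 2 * (m + 1) - 2 + 0 = 2 * m := by omega
    rw [e]
    exact ⟨by omega, ih⟩

private theorem OkK_swp {α : Type} : ∀ (i : ℕ) (l : List α), (swp i l).Perm l
  | 0, [] => List.Perm.refl _
  | 0, [_] => List.Perm.refl _
  | 0, a :: b :: l => List.Perm.swap a b l
  | _ + 1, [] => List.Perm.refl _
  | i + 1, a :: l => (OkK_swp i l).cons a

private theorem OkK_sub {α : Type} (k : α → Bool) (b : List (ℕ × Bool)) : ∀ l : List α,
    (∀ c ∈ b, c.1 + 2 ≤ l.length) → Ok (sub k b l) (l.countP k) (l.countP k) := by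
  induction b with
  | nil =>
    intro l _
    show l.countP k = l.countP k
    rfl
  | cons c b ih =>
    intro l hl
    have h0 : c.1 + 2 ≤ l.length := hl c List.mem_cons_self
    have hp := OkK_swp c.1 l
    have h1 : Ok (sub k b (swp c.1 l)) (l.countP k) (l.countP k) := by
      have h2 := ih (swp c.1 l) (fun d hd => by
        rw [hp.length_eq]
        exact hl d (List.mem_cons_of_mem _ hd))
      rw [hp.countP_eq k] at h2
      exact h2
    have hlen : 2 ≤ (l.drop c.1).length := by
      rw [List.length_drop]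
      omega
    obtain ⟨s, s', t, ht⟩ : ∃ s s' t, l.drop c.1 = s :: s' :: t := by
      rcases hd : l.drop c.1 with _ | ⟨s, _ | ⟨s', t⟩⟩
      · rw [hd] at hlen
        simp at hlen
      · rw [hd] at hlen
        simp at hlen
      · exact ⟨s, s', t, rfl⟩
    have hsub : sub k (c :: b) l = if k s && k s' then
        pX ((l.take c.1).countP k) c.2 :: sub k b (swp c.1 l) else sub k b (swp c.1 l) := by
      show (match l.drop c.1 with
        | s :: s' :: _ =>
          if k s && k s' then pX ((l.take c.1).countP k) c.2 :: sub k b (swp c.1 l)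
          else sub k b (swp c.1 l)
        | _ => sub k b (swp c.1 l)) = _
      rw [ht]
    rw [hsub]
    by_cases hk : (k s && k s') = true
    · rw [if_pos hk]
      have hk' := Bool.and_eq_true_iff.1 hk
      have hcount : l.countP k = (l.take c.1).countP k + (t.countP k + 2) := by
        have e0 : l.countP k = (l.take c.1 ++ l.drop c.1).countP k := by
          rw [List.take_append_drop]
        rw [e0, List.countP_append, ht, List.countP_cons_of_pos hk'.1,
          List.countP_cons_of_pos hk'.2]
      show (l.take c.1).countP k + 2 ≤ l.countP k ∧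
        Ok (sub k b (swp c.1 l)) (l.countP k - 2 + 2) (l.countP k)
      have e : l.countP k - 2 + 2 = l.countP k := by omega
      rw [e]
      exact ⟨by omega, h1⟩
    · rw [if_neg hk]
      exact h1

private theorem OkK_cnt (p : ℕ → Bool) (N : ℕ) :
    (List.range N).countP p = ∑ j ∈ Finset.range N, if p j = true then 1 else 0 := by
  induction N with
  | zero => rfl
  | succ N ih =>
    rw [List.range_succ, List.countP_append, ih, Finset.sum_range_succ, List.countP_singleton]

private theorem OkK_lsum (f : ℕ → ℕ) (N : ℕ) :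
    ((List.range N).map f).sum = ∑ j ∈ Finset.range N, f j := by
  induction N with
  | zero => rfl
  | succ N ih =>
    rw [List.range_succ, List.map_append, List.sum_append, ih, Finset.sum_range_succ]
    simp

private theorem OkK_sym (F : ℕ → ℕ → ℕ) (h1 : ∀ i j, F i j = F j i) (h2 : ∀ i, F i i = 0) (N : ℕ) :
    Even (∑ i ∈ Finset.range N, ∑ j ∈ Finset.range N, F i j) := by
  induction N with
  | zero => exact ⟨0, rfl⟩
  | succ N ih =>
    rw [Finset.sum_range_succ, Finset.sum_range_succ, h2]
    have e : ∑ i ∈ Finset.range N, ∑ j ∈ Finset.range (N + 1), F i j =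
        ∑ i ∈ Finset.range N, ∑ j ∈ Finset.range N, F i j + ∑ i ∈ Finset.range N, F N i := by
      rw [← Finset.sum_add_distrib]
      refine Finset.sum_congr rfl fun i _ => ?_
      rw [Finset.sum_range_succ, h1 i N]
    rw [e]
    obtain ⟨a, ha⟩ := ih
    refine ⟨a + ∑ i ∈ Finset.range N, F N i, ?_⟩
    omega

private theorem OkK_vrow (r : ℕ → ℕ → ℕ) (K : ℕ → ℕ → Bool) (N i : ℕ) :
    (vrow r N i).countP (fun s : Strand => K s.1 s.2.1) =
      ∑ j ∈ Finset.range N, if j ≠ i ∧ K (min i j) (max i j) = true then 1 else 0 := by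
  unfold vrow
  rw [List.countP_map, List.countP_filter, OkK_cnt]
  refine Finset.sum_congr rfl fun j _ => ?_
  by_cases hj : j = i
  · simp [hj]
  · by_cases hij : i < j
    · have e1 : min i j = i := min_eq_left hij.le
      have e2 : max i j = j := max_eq_right hij.le
      simp [hj, hij, e1, e2]
    · have hji : j ≤ i := by omega
      have e1 : min i j = j := min_eq_right hji
      have e2 : max i j = i := max_eq_left hji
      simp [hj, hij, e1, e2]

private theorem OkK_minrow (K : ℕ → ℕ → Bool) (l : List Strand) :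
    Even ((minrow l).countP (fun s : Strand => K s.1 s.2.1)) := by
  induction l with
  | nil => exact ⟨0, rfl⟩
  | cons m l ih =>
    obtain ⟨a, ha⟩ := ih
    have e : minrow (m :: l) =
        [(m.1, m.2.1, 2 * m.2.2 + 1), (m.1, m.2.1, 2 * m.2.2 + 2)] ++ minrow l := rfl
    rw [e, List.countP_append, ha]
    by_cases hk : K m.1 m.2.1 = true
    · refine ⟨a + 1, ?_⟩
      simp [hk]
      omega
    · refine ⟨a, ?_⟩
      simp [hk]

private theorem OkK_even {N : ℕ} (G : Diagram N) (K : ℕ → ℕ → Bool) :
    Even (G.bottom.countP (fun s : Strand => K s.1 s.2.1)) := by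
  unfold Diagram.bottom
  rw [List.countP_append, List.countP_flatMap]
  refine Even.add ?_ (OkK_minrow K G.mins)
  have e : (List.map (List.countP (fun s : Strand => K s.1 s.2.1) ∘ vrow G.r N)
      (List.range N)).sum = ∑ i ∈ Finset.range N, ∑ j ∈ Finset.range N,
        if j ≠ i ∧ K (min i j) (max i j) = true then 1 else 0 := by
    rw [OkK_lsum]
    refine Finset.sum_congr rfl fun i _ => ?_
    exact OkK_vrow G.r K N i
  rw [e]
  refine OkK_sym _ ?_ ?_ N
  · intro i j
    have e1 : min i j = min j i := min_comm _ _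
    have e2 : max i j = max j i := max_comm _ _
    rw [e1, e2]
    by_cases hij : j = i
    · simp [hij]
    · have hji : i ≠ j := fun h => hij h.symm
      simp [hij, hji]
  · intro i
    simp

theorem thm_OkK : St_OkK := by
  refine ⟨?_, fun w w' h hw => OkK_iso h hw⟩
  intro n G c _
  unfold Diagram.knot Diagram.link
  have hev := OkK_even G (edge c)
  set P := G.bottom.countP (fun s : Strand => edge c s.1 s.2.1) with hP
  have h2 : 2 * (P / 2) = P := Nat.mul_div_cancel' hev.two_dvd
  rw [OkK_append]
  refine ⟨2 * (P / 2), OkK_min _, ?_⟩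
  rw [OkK_append]
  refine ⟨2 * (P / 2), ?_, OkK_max _⟩
  rw [h2]
  exact OkK_sub (fun s : Strand => edge c s.1 s.2.1) G.braid G.bottom G.braid_lt

end IBN
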