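import Pool.Agent.IBN.StC

/-!
# IBN, module One (helper89): the constant coefficient
-/

set_option autoImplicit false

namespace IBN

private theorem One_const {α : Type} (D : Fin 10 → α) (h : ∀ i : Fin 10, D (i + 1) = D i) :
    ∀ i, D i = D 0 := by
  have h0 := h 0
  have h1 := h 1
  have h2 := h 2
  have h3 := h 3
  have h4 := h 4
  have h5 := h 5
  have h6 := h 6
  have h7 := h 7
  have h8 := h 8
  intro i
  fin_cases i
  · rfl
  · exact h0
  · exact h1.trans h0
  · exact h2.trans (h1.trans h0)
  · exact h3.trans (h2.trans (h1.trans h0))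
  · exact h4.trans (h3.trans (h2.trans (h1.trans h0)))
  · exact h5.trans (h4.trans (h3.trans (h2.trans (h1.trans h0))))
  · exact h6.trans (h5.trans (h4.trans (h3.trans (h2.trans (h1.trans h0)))))
  · exact h7.trans (h6.trans (h5.trans (h4.trans (h3.trans (h2.trans (h1.trans h0))))))
  · exact h8.trans (h7.trans (h6.trans (h5.trans (h4.trans (h3.trans (h2.trans (h1.trans h0)))))))

private theorem One_card (N : ℕ) : Fintype.card (Lab N) = 2 * N := by
  simp [Lab]

theorem thm_One : St_VT → St_VD → St_One := by
  classical
  intro hVT hVD N n _ G v hv ε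
  obtain ⟨h1, h2, -⟩ := hVT N n G v hv
  rw [h1 ε, map_sum, Finset.sum_eq_single (∅ : Finset (Fin G.X.length))]
  · have h3 := hVD N n G v hv ∅ ε ∅ (by simp) (by simp)
    rw [Finset.card_empty] at h3
    rw [h3, if_pos (by simp)]
    have h4 : ∀ D : Fin 10 → Lab N, (if ∀ i, i ∉ (∅ : Finset (Fin 10)) → D (i + 1) = D i then
        ∏ i ∈ (∅ : Finset (Fin G.X.length)), kD v (G.X.get i) D else 0) =
        if D ∈ (Finset.univ.image (fun x : Lab N => (fun _ : Fin 10 => x))) then (1 : ℚ) else 0 := by
      intro D
      rw [Finset.prod_empty]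
      congr 1
      rw [eq_iff_iff]
      constructor
      · intro h
        rw [Finset.mem_image]
        refine ⟨D 0, Finset.mem_univ _, ?_⟩
        funext i
        exact (One_const D (fun i => h i (Finset.notMem_empty i)) i).symm
      · intro h i _
        rw [Finset.mem_image] at h
        obtain ⟨x, -, rfl⟩ := h
        rfl
    rw [Finset.sum_congr rfl fun D _ => h4 D, Finset.sum_boole, Finset.filter_mem_eq_inter,
      Finset.univ_inter, Finset.card_image_of_injective, Finset.card_univ, One_card]
    · push_cast
      ring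
    · intro x y hxy
      exact congrFun hxy 0
  · intro T _ hT
    refine h2 T ε 0 ?_
    rw [Finset.card_pos]
    exact Finset.nonempty_iff_ne_empty.2 hT
  · intro h
    exact absurd (Finset.mem_univ _) h

end IBN
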