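import Pool.Agent.IBN.StA

/-!
# IBN : module R2, the second Reidemeister move
-/

set_option autoImplicit false

namespace IBN

section R2

variable {K : Type} [Field K] (q : Kˣ)

private theorem R2_two (p : Bool) (F : Lab 2 → Lab 2 → K) (x y : Lab 2) :
    opX q p (opX q (!p) F) x y = F x y := by
  have hq : (q : K) ≠ 0 := q.ne_zero
  obtain ⟨b, i⟩ := x
  obtain ⟨c, j⟩ := y
  cases p <;> cases b <;> cases c <;> fin_cases i <;> fin_cases j <;>
    simp [opX, smo, lo, cx, zz, Fin.sum_univ_succ, Units.val_zpow_eq_zpow_val,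
      Units.val_inv_eq_inv_val] <;> field_simp <;> ring

private theorem R2_three (p : Bool) (F : Lab 3 → Lab 3 → K) (x y : Lab 3) :
    opX q p (opX q (!p) F) x y = F x y := by
  have hq : (q : K) ≠ 0 := q.ne_zero
  obtain ⟨b, i⟩ := x
  obtain ⟨c, j⟩ := y
  cases p <;> cases b <;> cases c <;> fin_cases i <;> fin_cases j <;>
    simp [opX, smo, lo, cx, zz, Fin.sum_univ_succ, Units.val_zpow_eq_zpow_val,
      Units.val_inv_eq_inv_val] <;> field_simp <;> ring

/-- **R2** -/
theorem thm_R2 : St_R2 := by
  intro K _ q N hN p F x y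
  rcases hN with rfl | rfl
  · exact R2_two q p F x y
  · exact R2_three q p F x y

end R2

end IBN
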