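import Pool.Agent.IBN.StA

/-!
# IBN, R3a: third Reidemeister move for `N = 2`
-/

set_option autoImplicit false
set_option linter.unusedSimpArgs false
set_option linter.unusedVariables false

namespace IBN

section

variable {K : Type} [Field K] (q : Kˣ) (U V : K)

private theorem R3a_t0t0 (hU : (q : K) = U) (hV : ((q⁻¹ : Kˣ) : K) = V) (F : Lab 2 → Lab 2 → K) :
    opX q true F (true, 0) (true, 0) = V ^ 2 * (U * F (true, 0) (true, 0)) := by
  subst hU hV
  simp [opX, smo, lo, cx, zz, Fin.sum_univ_two]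

private theorem R3a_t0t1 (hU : (q : K) = U) (hV : ((q⁻¹ : Kˣ) : K) = V) (F : Lab 2 → Lab 2 → K) :
    opX q true F (true, 0) (true, 1) = V ^ 2 * (F (true, 1) (true, 0) + (U - V) * F (true, 0) (true, 1)) := by
  subst hU hV
  simp [opX, smo, lo, cx, zz, Fin.sum_univ_two]

private theorem R3a_t1t0 (hU : (q : K) = U) (hV : ((q⁻¹ : Kˣ) : K) = V) (F : Lab 2 → Lab 2 → K) :
    opX q true F (true, 1) (true, 0) = V ^ 2 * F (true, 0) (true, 1) := by
  subst hU hV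
  simp [opX, smo, lo, cx, zz, Fin.sum_univ_two]

private theorem R3a_t1t1 (hU : (q : K) = U) (hV : ((q⁻¹ : Kˣ) : K) = V) (F : Lab 2 → Lab 2 → K) :
    opX q true F (true, 1) (true, 1) = V ^ 2 * (U * F (true, 1) (true, 1)) := by
  subst hU hV
  simp [opX, smo, lo, cx, zz, Fin.sum_univ_two]

private theorem R3a_f0f0 (hU : (q : K) = U) (hV : ((q⁻¹ : Kˣ) : K) = V) (F : Lab 2 → Lab 2 → K) :
    opX q true F (false, 0) (false, 0) = V ^ 2 * (U * F (false, 0) (false, 0)) := by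
  subst hU hV
  simp [opX, smo, lo, cx, zz, Fin.sum_univ_two]

private theorem R3a_f0f1 (hU : (q : K) = U) (hV : ((q⁻¹ : Kˣ) : K) = V) (F : Lab 2 → Lab 2 → K) :
    opX q true F (false, 0) (false, 1) = V ^ 2 * F (false, 1) (false, 0) := by
  subst hU hV
  simp [opX, smo, lo, cx, zz, Fin.sum_univ_two]

private theorem R3a_f1f0 (hU : (q : K) = U) (hV : ((q⁻¹ : Kˣ) : K) = V) (F : Lab 2 → Lab 2 → K) :
    opX q true F (false, 1) (false, 0) = V ^ 2 * (F (false, 0) (false, 1) + (U - V) * F (false, 1) (false, 0)) := by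
  subst hU hV
  simp [opX, smo, lo, cx, zz, Fin.sum_univ_two]

private theorem R3a_f1f1 (hU : (q : K) = U) (hV : ((q⁻¹ : Kˣ) : K) = V) (F : Lab 2 → Lab 2 → K) :
    opX q true F (false, 1) (false, 1) = V ^ 2 * (U * F (false, 1) (false, 1)) := by
  subst hU hV
  simp [opX, smo, lo, cx, zz, Fin.sum_univ_two]

private theorem R3a_t0f0 (hU : (q : K) = U) (hV : ((q⁻¹ : Kˣ) : K) = V) (F : Lab 2 → Lab 2 → K) :
    opX q true F (true, 0) (false, 0) = U ^ 2 * (V * F (false, 0) (true, 0) - (U - V) * F (false, 1) (true, 1)) := by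
  subst hU hV
  simp [opX, smo, lo, cx, zz, Fin.sum_univ_two]

private theorem R3a_t0f1 (hU : (q : K) = U) (hV : ((q⁻¹ : Kˣ) : K) = V) (F : Lab 2 → Lab 2 → K) :
    opX q true F (true, 0) (false, 1) = U ^ 2 * F (false, 1) (true, 0) := by
  subst hU hV
  simp [opX, smo, lo, cx, zz, Fin.sum_univ_two]

private theorem R3a_t1f0 (hU : (q : K) = U) (hV : ((q⁻¹ : Kˣ) : K) = V) (F : Lab 2 → Lab 2 → K) :
    opX q true F (true, 1) (false, 0) = U ^ 2 * F (false, 0) (true, 1) := by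
  subst hU hV
  simp [opX, smo, lo, cx, zz, Fin.sum_univ_two]

private theorem R3a_t1f1 (hU : (q : K) = U) (hV : ((q⁻¹ : Kˣ) : K) = V) (F : Lab 2 → Lab 2 → K) :
    opX q true F (true, 1) (false, 1) = U ^ 2 * (V * F (false, 1) (true, 1)) := by
  subst hU hV
  simp [opX, smo, lo, cx, zz, Fin.sum_univ_two]

private theorem R3a_f0t0 (hU : (q : K) = U) (hV : ((q⁻¹ : Kˣ) : K) = V) (F : Lab 2 → Lab 2 → K) :
    opX q true F (false, 0) (true, 0) = U ^ 2 * (V * F (true, 0) (false, 0)) := by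
  subst hU hV
  simp [opX, smo, lo, cx, zz, Fin.sum_univ_two]

private theorem R3a_f0t1 (hU : (q : K) = U) (hV : ((q⁻¹ : Kˣ) : K) = V) (F : Lab 2 → Lab 2 → K) :
    opX q true F (false, 0) (true, 1) = U ^ 2 * F (true, 1) (false, 0) := by
  subst hU hV
  simp [opX, smo, lo, cx, zz, Fin.sum_univ_two]

private theorem R3a_f1t0 (hU : (q : K) = U) (hV : ((q⁻¹ : Kˣ) : K) = V) (F : Lab 2 → Lab 2 → K) :
    opX q true F (false, 1) (true, 0) = U ^ 2 * F (true, 0) (false, 1) := by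
  subst hU hV
  simp [opX, smo, lo, cx, zz, Fin.sum_univ_two]

private theorem R3a_f1t1 (hU : (q : K) = U) (hV : ((q⁻¹ : Kˣ) : K) = V) (F : Lab 2 → Lab 2 → K) :
    opX q true F (false, 1) (true, 1) = U ^ 2 * (V * F (true, 1) (false, 1) - (U - V) * V ^ 2 * F (true, 0) (false, 0)) := by
  subst hU hV
  simp [opX, smo, lo, cx, zz, Fin.sum_univ_two]
  ring

end

private theorem R3a_fin (i : Fin 2) : i = 0 ∨ i = 1 := by
  revert i
  decide

/-- **R3a** -/
theorem thm_R3a : St_R3a := by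
  intro K _ q F x y w
  obtain ⟨U, hU⟩ : ∃ U : K, (q : K) = U := ⟨_, rfl⟩
  obtain ⟨V, hV⟩ : ∃ V : K, ((q⁻¹ : Kˣ) : K) = V := ⟨_, rfl⟩
  have hne : U ≠ 0 := hU ▸ q.ne_zero
  have hVU : V = U⁻¹ := by
    rw [← hU, ← hV, Units.val_inv_eq_inv_val]
  obtain ⟨bx, ix⟩ := x
  obtain ⟨by', iy⟩ := y
  obtain ⟨bw, iw⟩ := w
  rcases R3a_fin ix with rfl | rfl <;> rcases R3a_fin iy with rfl | rfl <;>
    rcases R3a_fin iw with rfl | rfl <;> rcases bx with _ | _ <;> rcases by' with _ | _ <;>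
    rcases bw with _ | _ <;>
    simp only [R3a_t0t0 q U V hU hV, R3a_t0t1 q U V hU hV, R3a_t0f0 q U V hU hV, R3a_t0f1 q U V hU hV, R3a_t1t0 q U V hU hV, R3a_t1t1 q U V hU hV, R3a_t1f0 q U V hU hV, R3a_t1f1 q U V hU hV, R3a_f0t0 q U V hU hV, R3a_f0t1 q U V hU hV, R3a_f0f0 q U V hU hV, R3a_f0f1 q U V hU hV, R3a_f1t0 q U V hU hV, R3a_f1t1 q U V hU hV, R3a_f1f0 q U V hU hV, R3a_f1f1 q U V hU hV] <;>
    rw [hVU] <;> field_simp <;> ring

end IBN
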