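import Pool.Agent.IBN.StA

/-!
# IBN, R3b: third Reidemeister move for `N = 3`
-/

set_option autoImplicit false
set_option linter.unusedSimpArgs false
set_option linter.unusedVariables false

namespace IBN

section

variable {K : Type} [Field K] (q : Kˣ) (U V : K)

private theorem R3b_t0t0 (hU : (q : K) = U) (hV : ((q⁻¹ : Kˣ) : K) = V) (F : Lab 3 → Lab 3 → K) :
    opX q true F (true, 0) (true, 0) = V ^ 3 * (U * F (true, 0) (true, 0)) := by
  subst hU hV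
  simp [opX, smo, lo, cx, zz, Fin.sum_univ_three]
  try ring

private theorem R3b_t0t1 (hU : (q : K) = U) (hV : ((q⁻¹ : Kˣ) : K) = V) (F : Lab 3 → Lab 3 → K) :
    opX q true F (true, 0) (true, 1) = V ^ 3 * (F (true, 1) (true, 0) + (U - V) * F (true, 0) (true, 1)) := by
  subst hU hV
  simp [opX, smo, lo, cx, zz, Fin.sum_univ_three]
  try ring

private theorem R3b_t0t2 (hU : (q : K) = U) (hV : ((q⁻¹ : Kˣ) : K) = V) (F : Lab 3 → Lab 3 → K) :
    opX q true F (true, 0) (true, 2) = V ^ 3 * (F (true, 2) (true, 0) + (U - V) * F (true, 0) (true, 2)) := by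
  subst hU hV
  simp [opX, smo, lo, cx, zz, Fin.sum_univ_three]
  try ring

private theorem R3b_t0f0 (hU : (q : K) = U) (hV : ((q⁻¹ : Kˣ) : K) = V) (F : Lab 3 → Lab 3 → K) :
    opX q true F (true, 0) (false, 0) = U ^ 3 * (V * F (false, 0) (true, 0) - (U - V) * (F (false, 1) (true, 1) + F (false, 2) (true, 2))) := by
  subst hU hV
  simp [opX, smo, lo, cx, zz, Fin.sum_univ_three]
  try ring

private theorem R3b_t0f1 (hU : (q : K) = U) (hV : ((q⁻¹ : Kˣ) : K) = V) (F : Lab 3 → Lab 3 → K) :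
    opX q true F (true, 0) (false, 1) = U ^ 3 * F (false, 1) (true, 0) := by
  subst hU hV
  simp [opX, smo, lo, cx, zz, Fin.sum_univ_three]
  try ring

private theorem R3b_t0f2 (hU : (q : K) = U) (hV : ((q⁻¹ : Kˣ) : K) = V) (F : Lab 3 → Lab 3 → K) :
    opX q true F (true, 0) (false, 2) = U ^ 3 * F (false, 2) (true, 0) := by
  subst hU hV
  simp [opX, smo, lo, cx, zz, Fin.sum_univ_three]
  try ring

private theorem R3b_t1t0 (hU : (q : K) = U) (hV : ((q⁻¹ : Kˣ) : K) = V) (F : Lab 3 → Lab 3 → K) :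
    opX q true F (true, 1) (true, 0) = V ^ 3 * F (true, 0) (true, 1) := by
  subst hU hV
  simp [opX, smo, lo, cx, zz, Fin.sum_univ_three]
  try ring

private theorem R3b_t1t1 (hU : (q : K) = U) (hV : ((q⁻¹ : Kˣ) : K) = V) (F : Lab 3 → Lab 3 → K) :
    opX q true F (true, 1) (true, 1) = V ^ 3 * (U * F (true, 1) (true, 1)) := by
  subst hU hV
  simp [opX, smo, lo, cx, zz, Fin.sum_univ_three]
  try ring

private theorem R3b_t1t2 (hU : (q : K) = U) (hV : ((q⁻¹ : Kˣ) : K) = V) (F : Lab 3 → Lab 3 → K) :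
    opX q true F (true, 1) (true, 2) = V ^ 3 * (F (true, 2) (true, 1) + (U - V) * F (true, 1) (true, 2)) := by
  subst hU hV
  simp [opX, smo, lo, cx, zz, Fin.sum_univ_three]
  try ring

private theorem R3b_t1f0 (hU : (q : K) = U) (hV : ((q⁻¹ : Kˣ) : K) = V) (F : Lab 3 → Lab 3 → K) :
    opX q true F (true, 1) (false, 0) = U ^ 3 * F (false, 0) (true, 1) := by
  subst hU hV
  simp [opX, smo, lo, cx, zz, Fin.sum_univ_three]
  try ring

private theorem R3b_t1f1 (hU : (q : K) = U) (hV : ((q⁻¹ : Kˣ) : K) = V) (F : Lab 3 → Lab 3 → K) :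
    opX q true F (true, 1) (false, 1) = U ^ 3 * (V * F (false, 1) (true, 1) - (U - V) * (F (false, 2) (true, 2))) := by
  subst hU hV
  simp [opX, smo, lo, cx, zz, Fin.sum_univ_three]
  try ring

private theorem R3b_t1f2 (hU : (q : K) = U) (hV : ((q⁻¹ : Kˣ) : K) = V) (F : Lab 3 → Lab 3 → K) :
    opX q true F (true, 1) (false, 2) = U ^ 3 * F (false, 2) (true, 1) := by
  subst hU hV
  simp [opX, smo, lo, cx, zz, Fin.sum_univ_three]
  try ring

private theorem R3b_t2t0 (hU : (q : K) = U) (hV : ((q⁻¹ : Kˣ) : K) = V) (F : Lab 3 → Lab 3 → K) :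
    opX q true F (true, 2) (true, 0) = V ^ 3 * F (true, 0) (true, 2) := by
  subst hU hV
  simp [opX, smo, lo, cx, zz, Fin.sum_univ_three]
  try ring

private theorem R3b_t2t1 (hU : (q : K) = U) (hV : ((q⁻¹ : Kˣ) : K) = V) (F : Lab 3 → Lab 3 → K) :
    opX q true F (true, 2) (true, 1) = V ^ 3 * F (true, 1) (true, 2) := by
  subst hU hV
  simp [opX, smo, lo, cx, zz, Fin.sum_univ_three]
  try ring

private theorem R3b_t2t2 (hU : (q : K) = U) (hV : ((q⁻¹ : Kˣ) : K) = V) (F : Lab 3 → Lab 3 → K) :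
    opX q true F (true, 2) (true, 2) = V ^ 3 * (U * F (true, 2) (true, 2)) := by
  subst hU hV
  simp [opX, smo, lo, cx, zz, Fin.sum_univ_three]
  try ring

private theorem R3b_t2f0 (hU : (q : K) = U) (hV : ((q⁻¹ : Kˣ) : K) = V) (F : Lab 3 → Lab 3 → K) :
    opX q true F (true, 2) (false, 0) = U ^ 3 * F (false, 0) (true, 2) := by
  subst hU hV
  simp [opX, smo, lo, cx, zz, Fin.sum_univ_three]
  try ring

private theorem R3b_t2f1 (hU : (q : K) = U) (hV : ((q⁻¹ : Kˣ) : K) = V) (F : Lab 3 → Lab 3 → K) :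
    opX q true F (true, 2) (false, 1) = U ^ 3 * F (false, 1) (true, 2) := by
  subst hU hV
  simp [opX, smo, lo, cx, zz, Fin.sum_univ_three]
  try ring

private theorem R3b_t2f2 (hU : (q : K) = U) (hV : ((q⁻¹ : Kˣ) : K) = V) (F : Lab 3 → Lab 3 → K) :
    opX q true F (true, 2) (false, 2) = U ^ 3 * (V * F (false, 2) (true, 2)) := by
  subst hU hV
  simp [opX, smo, lo, cx, zz, Fin.sum_univ_three]
  try ring

private theorem R3b_f0t0 (hU : (q : K) = U) (hV : ((q⁻¹ : Kˣ) : K) = V) (F : Lab 3 → Lab 3 → K) :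
    opX q true F (false, 0) (true, 0) = U ^ 3 * (V * F (true, 0) (false, 0)) := by
  subst hU hV
  simp [opX, smo, lo, cx, zz, Fin.sum_univ_three]
  try ring

private theorem R3b_f0t1 (hU : (q : K) = U) (hV : ((q⁻¹ : Kˣ) : K) = V) (F : Lab 3 → Lab 3 → K) :
    opX q true F (false, 0) (true, 1) = U ^ 3 * F (true, 1) (false, 0) := by
  subst hU hV
  simp [opX, smo, lo, cx, zz, Fin.sum_univ_three]
  try ring

private theorem R3b_f0t2 (hU : (q : K) = U) (hV : ((q⁻¹ : Kˣ) : K) = V) (F : Lab 3 → Lab 3 → K) :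
    opX q true F (false, 0) (true, 2) = U ^ 3 * F (true, 2) (false, 0) := by
  subst hU hV
  simp [opX, smo, lo, cx, zz, Fin.sum_univ_three]
  try ring

private theorem R3b_f0f0 (hU : (q : K) = U) (hV : ((q⁻¹ : Kˣ) : K) = V) (F : Lab 3 → Lab 3 → K) :
    opX q true F (false, 0) (false, 0) = V ^ 3 * (U * F (false, 0) (false, 0)) := by
  subst hU hV
  simp [opX, smo, lo, cx, zz, Fin.sum_univ_three]
  try ring

private theorem R3b_f0f1 (hU : (q : K) = U) (hV : ((q⁻¹ : Kˣ) : K) = V) (F : Lab 3 → Lab 3 → K) :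
    opX q true F (false, 0) (false, 1) = V ^ 3 * F (false, 1) (false, 0) := by
  subst hU hV
  simp [opX, smo, lo, cx, zz, Fin.sum_univ_three]
  try ring

private theorem R3b_f0f2 (hU : (q : K) = U) (hV : ((q⁻¹ : Kˣ) : K) = V) (F : Lab 3 → Lab 3 → K) :
    opX q true F (false, 0) (false, 2) = V ^ 3 * F (false, 2) (false, 0) := by
  subst hU hV
  simp [opX, smo, lo, cx, zz, Fin.sum_univ_three]
  try ring

private theorem R3b_f1t0 (hU : (q : K) = U) (hV : ((q⁻¹ : Kˣ) : K) = V) (F : Lab 3 → Lab 3 → K) :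
    opX q true F (false, 1) (true, 0) = U ^ 3 * F (true, 0) (false, 1) := by
  subst hU hV
  simp [opX, smo, lo, cx, zz, Fin.sum_univ_three]
  try ring

private theorem R3b_f1t1 (hU : (q : K) = U) (hV : ((q⁻¹ : Kˣ) : K) = V) (F : Lab 3 → Lab 3 → K) :
    opX q true F (false, 1) (true, 1) = U ^ 3 * (V * F (true, 1) (false, 1) - (U - V) * (V ^ 2 * F (true, 0) (false, 0))) := by
  subst hU hV
  simp [opX, smo, lo, cx, zz, Fin.sum_univ_three]
  try ring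

private theorem R3b_f1t2 (hU : (q : K) = U) (hV : ((q⁻¹ : Kˣ) : K) = V) (F : Lab 3 → Lab 3 → K) :
    opX q true F (false, 1) (true, 2) = U ^ 3 * F (true, 2) (false, 1) := by
  subst hU hV
  simp [opX, smo, lo, cx, zz, Fin.sum_univ_three]
  try ring

private theorem R3b_f1f0 (hU : (q : K) = U) (hV : ((q⁻¹ : Kˣ) : K) = V) (F : Lab 3 → Lab 3 → K) :
    opX q true F (false, 1) (false, 0) = V ^ 3 * (F (false, 0) (false, 1) + (U - V) * F (false, 1) (false, 0)) := by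
  subst hU hV
  simp [opX, smo, lo, cx, zz, Fin.sum_univ_three]
  try ring

private theorem R3b_f1f1 (hU : (q : K) = U) (hV : ((q⁻¹ : Kˣ) : K) = V) (F : Lab 3 → Lab 3 → K) :
    opX q true F (false, 1) (false, 1) = V ^ 3 * (U * F (false, 1) (false, 1)) := by
  subst hU hV
  simp [opX, smo, lo, cx, zz, Fin.sum_univ_three]
  try ring

private theorem R3b_f1f2 (hU : (q : K) = U) (hV : ((q⁻¹ : Kˣ) : K) = V) (F : Lab 3 → Lab 3 → K) :
    opX q true F (false, 1) (false, 2) = V ^ 3 * F (false, 2) (false, 1) := by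
  subst hU hV
  simp [opX, smo, lo, cx, zz, Fin.sum_univ_three]
  try ring

private theorem R3b_f2t0 (hU : (q : K) = U) (hV : ((q⁻¹ : Kˣ) : K) = V) (F : Lab 3 → Lab 3 → K) :
    opX q true F (false, 2) (true, 0) = U ^ 3 * F (true, 0) (false, 2) := by
  subst hU hV
  simp [opX, smo, lo, cx, zz, Fin.sum_univ_three]
  try ring

private theorem R3b_f2t1 (hU : (q : K) = U) (hV : ((q⁻¹ : Kˣ) : K) = V) (F : Lab 3 → Lab 3 → K) :
    opX q true F (false, 2) (true, 1) = U ^ 3 * F (true, 1) (false, 2) := by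
  subst hU hV
  simp [opX, smo, lo, cx, zz, Fin.sum_univ_three]
  try ring

private theorem R3b_f2t2 (hU : (q : K) = U) (hV : ((q⁻¹ : Kˣ) : K) = V) (F : Lab 3 → Lab 3 → K) :
    opX q true F (false, 2) (true, 2) = U ^ 3 * (V * F (true, 2) (false, 2) - (U - V) * (V ^ 4 * F (true, 0) (false, 0) + V ^ 2 * F (true, 1) (false, 1))) := by
  subst hU hV
  simp [opX, smo, lo, cx, zz, Fin.sum_univ_three]
  try ring

private theorem R3b_f2f0 (hU : (q : K) = U) (hV : ((q⁻¹ : Kˣ) : K) = V) (F : Lab 3 → Lab 3 → K) :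
    opX q true F (false, 2) (false, 0) = V ^ 3 * (F (false, 0) (false, 2) + (U - V) * F (false, 2) (false, 0)) := by
  subst hU hV
  simp [opX, smo, lo, cx, zz, Fin.sum_univ_three]
  try ring

private theorem R3b_f2f1 (hU : (q : K) = U) (hV : ((q⁻¹ : Kˣ) : K) = V) (F : Lab 3 → Lab 3 → K) :
    opX q true F (false, 2) (false, 1) = V ^ 3 * (F (false, 1) (false, 2) + (U - V) * F (false, 2) (false, 1)) := by
  subst hU hV
  simp [opX, smo, lo, cx, zz, Fin.sum_univ_three]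
  try ring

private theorem R3b_f2f2 (hU : (q : K) = U) (hV : ((q⁻¹ : Kˣ) : K) = V) (F : Lab 3 → Lab 3 → K) :
    opX q true F (false, 2) (false, 2) = V ^ 3 * (U * F (false, 2) (false, 2)) := by
  subst hU hV
  simp [opX, smo, lo, cx, zz, Fin.sum_univ_three]
  try ring

end

private theorem R3b_fin (i : Fin 3) : i = 0 ∨ i = 1 ∨ i = 2 := by
  revert i
  decide

private theorem R3b_ttt {K : Type} [Field K] (q : Kˣ) (F : Lab 3 → Lab 3 → Lab 3 → K) (i j k : Fin 3) :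
    opX q true (fun a b => opX q true (fun c d => opX q true (fun e f => F e f d) a c) b (true, k)) (true, i) (true, j) =
      opX q true (fun b c => opX q true (fun a b => opX q true (fun d e => F a d e) b c) (true, i) b) (true, j) (true, k) := by
  obtain ⟨U, hU⟩ : ∃ U : K, (q : K) = U := ⟨_, rfl⟩
  obtain ⟨V, hV⟩ : ∃ V : K, ((q⁻¹ : Kˣ) : K) = V := ⟨_, rfl⟩
  have hne : U ≠ 0 := hU ▸ q.ne_zero
  have hVU : V = U⁻¹ := by
    rw [← hU, ← hV, Units.val_inv_eq_inv_val]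
  rcases R3b_fin i with rfl | rfl | rfl <;> rcases R3b_fin j with rfl | rfl | rfl <;>
    rcases R3b_fin k with rfl | rfl | rfl <;>
    simp only [R3b_t0t0 q U V hU hV, R3b_t0t1 q U V hU hV, R3b_t0t2 q U V hU hV, R3b_t0f0 q U V hU hV, R3b_t0f1 q U V hU hV, R3b_t0f2 q U V hU hV, R3b_t1t0 q U V hU hV, R3b_t1t1 q U V hU hV, R3b_t1t2 q U V hU hV, R3b_t1f0 q U V hU hV, R3b_t1f1 q U V hU hV, R3b_t1f2 q U V hU hV, R3b_t2t0 q U V hU hV, R3b_t2t1 q U V hU hV, R3b_t2t2 q U V hU hV, R3b_t2f0 q U V hU hV, R3b_t2f1 q U V hU hV, R3b_t2f2 q U V hU hV, R3b_f0t0 q U V hU hV, R3b_f0t1 q U V hU hV, R3b_f0t2 q U V hU hV, R3b_f0f0 q U V hU hV, R3b_f0f1 q U V hU hV, R3b_f0f2 q U V hU hV, R3b_f1t0 q U V hU hV, R3b_f1t1 q U V hU hV, R3b_f1t2 q U V hU hV, R3b_f1f0 q U V hU hV, R3b_f1f1 q U V hU hV, R3b_f1f2 q U V hU hV, R3b_f2t0 q U V hU hV, R3b_f2t1 q U V hU hV, R3b_f2t2 q U V hU hV, R3b_f2f0 q U V hU hV, R3b_f2f1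 q U V hU hV, R3b_f2f2 q U V hU hV] <;>
    (try rw [hVU]) <;> (try field_simp) <;> (try ring)

private theorem R3b_ttf {K : Type} [Field K] (q : Kˣ) (F : Lab 3 → Lab 3 → Lab 3 → K) (i j k : Fin 3) :
    opX q true (fun a b => opX q true (fun c d => opX q true (fun e f => F e f d) a c) b (false, k)) (true, i) (true, j) =
      opX q true (fun b c => opX q true (fun a b => opX q true (fun d e => F a d e) b c) (true, i) b) (true, j) (false, k) := by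
  obtain ⟨U, hU⟩ : ∃ U : K, (q : K) = U := ⟨_, rfl⟩
  obtain ⟨V, hV⟩ : ∃ V : K, ((q⁻¹ : Kˣ) : K) = V := ⟨_, rfl⟩
  have hne : U ≠ 0 := hU ▸ q.ne_zero
  have hVU : V = U⁻¹ := by
    rw [← hU, ← hV, Units.val_inv_eq_inv_val]
  rcases R3b_fin i with rfl | rfl | rfl <;> rcases R3b_fin j with rfl | rfl | rfl <;>
    rcases R3b_fin k with rfl | rfl | rfl <;>
    simp only [R3b_t0t0 q U V hU hV, R3b_t0t1 q U V hU hV, R3b_t0t2 q U V hU hV, R3b_t0f0 q U V hU hV, R3b_t0f1 q U V hU hV, R3b_t0f2 q U V hU hV, R3b_t1t0 q U V hU hV, R3b_t1t1 q U V hU hV, R3b_t1t2 q U V hU hV, R3b_t1f0 q U V hU hV, R3b_t1f1 q U V hU hV, R3b_t1f2 q U V hU hV, R3b_t2t0 q U V hU hV, R3b_t2t1 q U V hU hV, R3b_t2t2 q U V hU hV, R3b_t2f0 q U V hU hV, R3b_t2f1 q U V hU hV, R3b_t2f2 q U V hU hV, R3b_f0t0 q U V hU hV, R3b_f0t1 q U V hU hV, R3b_f0t2 q U V hU hV, R3b_f0f0 q U V hU hV, R3b_f0f1 q U V hU hV, R3b_f0f2 q U V hU hV, R3b_f1t0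 q U V hU hV, R3b_f1t1 q U V hU hV, R3b_f1t2 q U V hU hV, R3b_f1f0 q U V hU hV, R3b_f1f1 q U V hU hV, R3b_f1f2 q U V hU hV, R3b_f2t0 q U V hU hV, R3b_f2t1 q U V hU hV, R3b_f2t2 q U V hU hV, R3b_f2f0 q U V hU hV, R3b_f2f1 q U V hU hV, R3b_f2f2 q U V hU hV] <;>
    (try rw [hVU]) <;> (try field_simp) <;> (try ring)

private theorem R3b_tft {K : Type} [Field K] (q : Kˣ) (F : Lab 3 → Lab 3 → Lab 3 → K) (i j k : Fin 3) :
    opX q true (fun a b => opX q true (fun c d => opX q true (fun e f => F e f d) a c) b (true, k)) (true, i) (false, j) =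
      opX q true (fun b c => opX q true (fun a b => opX q true (fun d e => F a d e) b c) (true, i) b) (false, j) (true, k) := by
  obtain ⟨U, hU⟩ : ∃ U : K, (q : K) = U := ⟨_, rfl⟩
  obtain ⟨V, hV⟩ : ∃ V : K, ((q⁻¹ : Kˣ) : K) = V := ⟨_, rfl⟩
  have hne : U ≠ 0 := hU ▸ q.ne_zero
  have hVU : V = U⁻¹ := by
    rw [← hU, ← hV, Units.val_inv_eq_inv_val]
  rcases R3b_fin i with rfl | rfl | rfl <;> rcases R3b_fin j with rfl | rfl | rfl <;>
    rcases R3b_fin k with rfl | rfl | rfl <;>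
    simp only [R3b_t0t0 q U V hU hV, R3b_t0t1 q U V hU hV, R3b_t0t2 q U V hU hV, R3b_t0f0 q U V hU hV, R3b_t0f1 q U V hU hV, R3b_t0f2 q U V hU hV, R3b_t1t0 q U V hU hV, R3b_t1t1 q U V hU hV, R3b_t1t2 q U V hU hV, R3b_t1f0 q U V hU hV, R3b_t1f1 q U V hU hV, R3b_t1f2 q U V hU hV, R3b_t2t0 q U V hU hV, R3b_t2t1 q U V hU hV, R3b_t2t2 q U V hU hV, R3b_t2f0 q U V hU hV, R3b_t2f1 q U V hU hV, R3b_t2f2 q U V hU hV, R3b_f0t0 q U V hU hV, R3b_f0t1 q U V hU hV, R3b_f0t2 q U V hU hV, R3b_f0f0 q U V hU hV, R3b_f0f1 q U V hU hV, R3b_f0f2 q U V hU hV, R3b_f1t0 q U V hU hV, R3b_f1t1 q U V hU hV, R3b_f1t2 q U V hU hV, R3b_f1f0 q U V hU hV, R3b_f1f1 q U V hU hV, R3b_f1f2 q U V hU hV, R3b_f2t0 q U V hU hV, R3b_f2t1 q U V hU hV, R3b_f2t2 q U V hU hV, R3b_f2f0 q U V hU hV, R3b_f2f1 q U V hU hV, R3b_f2f2 q U V hU hV] <;>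
    (try rw [hVU]) <;> (try field_simp) <;> (try ring)

private theorem R3b_tff {K : Type} [Field K] (q : Kˣ) (F : Lab 3 → Lab 3 → Lab 3 → K) (i j k : Fin 3) :
    opX q true (fun a b => opX q true (fun c d => opX q true (fun e f => F e f d) a c) b (false, k)) (true, i) (false, j) =
      opX q true (fun b c => opX q true (fun a b => opX q true (fun d e => F a d e) b c) (true, i) b) (false, j) (false, k) := by
  obtain ⟨U, hU⟩ : ∃ U : K, (q : K) = U := ⟨_, rfl⟩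
  obtain ⟨V, hV⟩ : ∃ V : K, ((q⁻¹ : Kˣ) : K) = V := ⟨_, rfl⟩
  have hne : U ≠ 0 := hU ▸ q.ne_zero
  have hVU : V = U⁻¹ := by
    rw [← hU, ← hV, Units.val_inv_eq_inv_val]
  rcases R3b_fin i with rfl | rfl | rfl <;> rcases R3b_fin j with rfl | rfl | rfl <;>
    rcases R3b_fin k with rfl | rfl | rfl <;>
    simp only [R3b_t0t0 q U V hU hV, R3b_t0t1 q U V hU hV, R3b_t0t2 q U V hU hV, R3b_t0f0 q U V hU hV, R3b_t0f1 q U V hU hV, R3b_t0f2 q U V hU hV, R3b_t1t0 q U V hU hV, R3b_t1t1 q U V hU hV, R3b_t1t2 q U V hU hV, R3b_t1f0 q U V hU hV, R3b_t1f1 q U V hU hV, R3b_t1f2 q U V hU hV, R3b_t2t0 q U V hU hV, R3b_t2t1 q U V hU hV, R3b_t2t2 q U V hU hV, R3b_t2f0 q U V hU hV, R3b_t2f1 q U V hU hV, R3b_t2f2 q U V hU hV, R3b_f0t0 q U V hU hV, R3b_f0t1 q U V hU hV, R3b_f0t2 q U V hU hV, R3b_f0f0 q U V hU hV, R3b_f0f1 q U V hU hV, R3b_f0f2 q U V hU hV, R3b_f1t0 q U V hU hV, R3b_f1t1 q U V hU hV, R3b_f1t2 q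 U V hU hV, R3b_f1f0 q U V hU hV, R3b_f1f1 q U V hU hV, R3b_f1f2 q U V hU hV, R3b_f2t0 q U V hU hV, R3b_f2t1 q U V hU hV, R3b_f2t2 q U V hU hV, R3b_f2f0 q U V hU hV, R3b_f2f1 q U V hU hV, R3b_f2f2 q U V hU hV] <;>
    (try rw [hVU]) <;> (try field_simp) <;> (try ring)

private theorem R3b_ftt {K : Type} [Field K] (q : Kˣ) (F : Lab 3 → Lab 3 → Lab 3 → K) (i j k : Fin 3) :
    opX q true (fun a b => opX q true (fun c d => opX q true (fun e f => F e f d) a c) b (true, k)) (false, i) (true, j) =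
      opX q true (fun b c => opX q true (fun a b => opX q true (fun d e => F a d e) b c) (false, i) b) (true, j) (true, k) := by
  obtain ⟨U, hU⟩ : ∃ U : K, (q : K) = U := ⟨_, rfl⟩
  obtain ⟨V, hV⟩ : ∃ V : K, ((q⁻¹ : Kˣ) : K) = V := ⟨_, rfl⟩
  have hne : U ≠ 0 := hU ▸ q.ne_zero
  have hVU : V = U⁻¹ := by
    rw [← hU, ← hV, Units.val_inv_eq_inv_val]
  rcases R3b_fin i with rfl | rfl | rfl <;> rcases R3b_fin j with rfl | rfl | rfl <;>
    rcases R3b_fin k with rfl | rfl | rfl <;>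
    simp only [R3b_t0t0 q U V hU hV, R3b_t0t1 q U V hU hV, R3b_t0t2 q U V hU hV, R3b_t0f0 q U V hU hV, R3b_t0f1 q U V hU hV, R3b_t0f2 q U V hU hV, R3b_t1t0 q U V hU hV, R3b_t1t1 q U V hU hV, R3b_t1t2 q U V hU hV, R3b_t1f0 q U V hU hV, R3b_t1f1 q U V hU hV, R3b_t1f2 q U V hU hV, R3b_t2t0 q U V hU hV, R3b_t2t1 q U V hU hV, R3b_t2t2 q U V hU hV, R3b_t2f0 q U V hU hV, R3b_t2f1 q U V hU hV, R3b_t2f2 q U V hU hV, R3b_f0t0 q U V hU hV, R3b_f0t1 q U V hU hV, R3b_f0t2 q U V hU hV, R3b_f0f0 q U V hU hV, R3b_f0f1 q U V hU hV, R3b_f0f2 q U V hU hV, R3b_f1t0 q U V hU hV, R3b_f1t1 q U V hU hV, R3b_f1t2 q U V hU hV, R3b_f1f0 q U V hU hV, R3b_f1f1 q U V hU hV, R3b_f1f2 q U V hU hV, R3b_f2t0 q U V hU hV, R3b_f2t1 q U V hU hV, R3b_f2t2 q U V hU hV, R3b_f2f0 q U V hU hV, R3b_f2f1 q U V hU hV, R3b_f2f2 q U V hU hV] <;>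
    (try rw [hVU]) <;> (try field_simp) <;> (try ring)

private theorem R3b_ftf {K : Type} [Field K] (q : Kˣ) (F : Lab 3 → Lab 3 → Lab 3 → K) (i j k : Fin 3) :
    opX q true (fun a b => opX q true (fun c d => opX q true (fun e f => F e f d) a c) b (false, k)) (false, i) (true, j) =
      opX q true (fun b c => opX q true (fun a b => opX q true (fun d e => F a d e) b c) (false, i) b) (true, j) (false, k) := by
  obtain ⟨U, hU⟩ : ∃ U : K, (q : K) = U := ⟨_, rfl⟩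
  obtain ⟨V, hV⟩ : ∃ V : K, ((q⁻¹ : Kˣ) : K) = V := ⟨_, rfl⟩
  have hne : U ≠ 0 := hU ▸ q.ne_zero
  have hVU : V = U⁻¹ := by
    rw [← hU, ← hV, Units.val_inv_eq_inv_val]
  rcases R3b_fin i with rfl | rfl | rfl <;> rcases R3b_fin j with rfl | rfl | rfl <;>
    rcases R3b_fin k with rfl | rfl | rfl <;>
    simp only [R3b_t0t0 q U V hU hV, R3b_t0t1 q U V hU hV, R3b_t0t2 q U V hU hV, R3b_t0f0 q U V hU hV, R3b_t0f1 q U V hU hV, R3b_t0f2 q U V hU hV, R3b_t1t0 q U V hU hV, R3b_t1t1 q U V hU hV, R3b_t1t2 q U V hU hV, R3b_t1f0 q U V hU hV, R3b_t1f1 q U V hU hV, R3b_t1f2 q U V hU hV, R3b_t2t0 q U V hU hV, R3b_t2t1 q U V hU hV, R3b_t2t2 q U V hU hV, R3b_t2f0 q U V hU hV, R3b_t2f1 q U V hU hV, R3b_t2f2 q U V hU hV, R3b_f0t0 q U V hU hV, R3b_f0t1 q U V hU hV, R3b_f0t2 q U V hU hV, R3b_f0f0 q U V hU hV, R3b_f0f1 q U V hU hV, R3b_f0f2 q U V hU hV, R3b_f1t0 q U V hU hV, R3b_f1t1 q U V hU hV, R3b_f1t2 q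 U V hU hV, R3b_f1f0 q U V hU hV, R3b_f1f1 q U V hU hV, R3b_f1f2 q U V hU hV, R3b_f2t0 q U V hU hV, R3b_f2t1 q U V hU hV, R3b_f2t2 q U V hU hV, R3b_f2f0 q U V hU hV, R3b_f2f1 q U V hU hV, R3b_f2f2 q U V hU hV] <;>
    (try rw [hVU]) <;> (try field_simp) <;> (try ring)

private theorem R3b_fft {K : Type} [Field K] (q : Kˣ) (F : Lab 3 → Lab 3 → Lab 3 → K) (i j k : Fin 3) :
    opX q true (fun a b => opX q true (fun c d => opX q true (fun e f => F e f d) a c) b (true, k)) (false, i) (false, j) =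
      opX q true (fun b c => opX q true (fun a b => opX q true (fun d e => F a d e) b c) (false, i) b) (false, j) (true, k) := by
  obtain ⟨U, hU⟩ : ∃ U : K, (q : K) = U := ⟨_, rfl⟩
  obtain ⟨V, hV⟩ : ∃ V : K, ((q⁻¹ : Kˣ) : K) = V := ⟨_, rfl⟩
  have hne : U ≠ 0 := hU ▸ q.ne_zero
  have hVU : V = U⁻¹ := by
    rw [← hU, ← hV, Units.val_inv_eq_inv_val]
  rcases R3b_fin i with rfl | rfl | rfl <;> rcases R3b_fin j with rfl | rfl | rfl <;>
    rcases R3b_fin k with rfl | rfl | rfl <;>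
    simp only [R3b_t0t0 q U V hU hV, R3b_t0t1 q U V hU hV, R3b_t0t2 q U V hU hV, R3b_t0f0 q U V hU hV, R3b_t0f1 q U V hU hV, R3b_t0f2 q U V hU hV, R3b_t1t0 q U V hU hV, R3b_t1t1 q U V hU hV, R3b_t1t2 q U V hU hV, R3b_t1f0 q U V hU hV, R3b_t1f1 q U V hU hV, R3b_t1f2 q U V hU hV, R3b_t2t0 q U V hU hV, R3b_t2t1 q U V hU hV, R3b_t2t2 q U V hU hV, R3b_t2f0 q U V hU hV, R3b_t2f1 q U V hU hV, R3b_t2f2 q U V hU hV, R3b_f0t0 q U V hU hV, R3b_f0t1 q U V hU hV, R3b_f0t2 q U V hU hV, R3b_f0f0 q U V hU hV, R3b_f0f1 q U V hU hV, R3b_f0f2 q U V hU hV, R3b_f1t0 q U V hU hV, R3b_f1t1 q U V hU hV, R3b_f1t2 q U V hU hV, R3b_f1f0 q U V hU hV, R3b_f1f1 q U V hU hV, R3b_f1f2 q U V hU hV, R3b_f2t0 q U V hU hV, R3b_f2t1 q U V hU hV, R3b_f2t2 q U V hU hV, R3b_f2f0 q U V hU hV, R3b_f2f1 q U V hU hV, R3b_f2f2 q U V hU hV] <;>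
    (try rw [hVU]) <;> (try field_simp) <;> (try ring)

private theorem R3b_fff {K : Type} [Field K] (q : Kˣ) (F : Lab 3 → Lab 3 → Lab 3 → K) (i j k : Fin 3) :
    opX q true (fun a b => opX q true (fun c d => opX q true (fun e f => F e f d) a c) b (false, k)) (false, i) (false, j) =
      opX q true (fun b c => opX q true (fun a b => opX q true (fun d e => F a d e) b c) (false, i) b) (false, j) (false, k) := by
  obtain ⟨U, hU⟩ : ∃ U : K, (q : K) = U := ⟨_, rfl⟩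
  obtain ⟨V, hV⟩ : ∃ V : K, ((q⁻¹ : Kˣ) : K) = V := ⟨_, rfl⟩
  have hne : U ≠ 0 := hU ▸ q.ne_zero
  have hVU : V = U⁻¹ := by
    rw [← hU, ← hV, Units.val_inv_eq_inv_val]
  rcases R3b_fin i with rfl | rfl | rfl <;> rcases R3b_fin j with rfl | rfl | rfl <;>
    rcases R3b_fin k with rfl | rfl | rfl <;>
    simp only [R3b_t0t0 q U V hU hV, R3b_t0t1 q U V hU hV, R3b_t0t2 q U V hU hV, R3b_t0f0 q U V hU hV, R3b_t0f1 q U V hU hV, R3b_t0f2 q U V hU hV, R3b_t1t0 q U V hU hV, R3b_t1t1 q U V hU hV, R3b_t1t2 q U V hU hV, R3b_t1f0 q U V hU hV, R3b_t1f1 q U V hU hV, R3b_t1f2 q U V hU hV, R3b_t2t0 q U V hU hV, R3b_t2t1 q U V hU hV, R3b_t2t2 q U V hU hV, R3b_t2f0 q U V hU hV, R3b_t2f1 q U V hU hV, R3b_t2f2 q U V hU hV, R3b_f0t0 q U V hU hV, R3b_f0t1 q U V hU hV, R3b_f0t2 q U V hU hV, R3b_f0f0 q U V hU hV, R3b_f0f1 q U V hU hV, R3b_f0f2 q U V hU hV, R3b_f1t0 q U V hU hV, R3b_f1t1 q U V hU hV, R3b_f1t2 q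 U V hU hV, R3b_f1f0 q U V hU hV, R3b_f1f1 q U V hU hV, R3b_f1f2 q U V hU hV, R3b_f2t0 q U V hU hV, R3b_f2t1 q U V hU hV, R3b_f2t2 q U V hU hV, R3b_f2f0 q U V hU hV, R3b_f2f1 q U V hU hV, R3b_f2f2 q U V hU hV] <;>
    (try rw [hVU]) <;> (try field_simp) <;> (try ring)

/-- **R3b** -/
theorem thm_R3b : St_R3b := by
  intro K _ q F x y w
  obtain ⟨bx, ix⟩ := x
  obtain ⟨by', iy⟩ := y
  obtain ⟨bw, iw⟩ := w
  rcases bx with _ | _ <;> rcases by' with _ | _ <;> rcases bw with _ | _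
  · exact R3b_fff q F ix iy iw
  · exact R3b_fft q F ix iy iw
  · exact R3b_ftf q F ix iy iw
  · exact R3b_ftt q F ix iy iw
  · exact R3b_tff q F ix iy iw
  · exact R3b_tft q F ix iy iw
  · exact R3b_ttf q F ix iy iw
  · exact R3b_ttt q F ix iy iw

end IBN
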