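import Pool.Agent.IBN.StD
import Pool.Agent.Helper18.EH.Ramsey

/-!
# IBN, module Ram: finite Ramsey theorem for 4-subsets
-/

set_option autoImplicit false

namespace IBN

private lemma Ram_inf {C : Type} [Finite C] (k : ℕ) (c : (Fin k → ℕ) → C) :
    ∃ (φ : ℕ → ℕ) (κ : C), StrictMono φ ∧ ∀ v : Fin k → ℕ, StrictMono v → c (fun i => φ (v i)) = κ := by
  classical
  let F : Finset ℕ → C := fun s =>
    if h : s.card = k then c (s.orderEmbOfFin h) else c fun _ => 0
  obtain ⟨B, -, hB, κ, hκ⟩ := Pool.Agent.Helper18.EH.ramsey k F Set.univ Set.infinite_univ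
  have hBi : Infinite B := hB.to_subtype
  let φ : ℕ → ℕ := fun i => (Nat.orderEmbeddingOfSet B) i
  have hφ : StrictMono φ := (Nat.orderEmbeddingOfSet B).strictMono
  have hφB : ∀ i, φ i ∈ B := fun i => by
    have h1 : φ i ∈ Set.range (Nat.orderEmbeddingOfSet B) := ⟨i, rfl⟩
    rwa [Nat.orderEmbeddingOfSet_range] at h1
  refine ⟨φ, κ, hφ, fun v hv => ?_⟩
  let s : Finset ℕ := Finset.univ.image (φ ∘ v)
  have hinj : Function.Injective (φ ∘ v) := (hφ.comp hv).injective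
  have hs : s.card = k := by
    rw [Finset.card_image_of_injective _ hinj, Finset.card_univ, Fintype.card_fin]
  have h1 : F s = κ := by
    refine hκ s ?_ hs
    intro x hx
    obtain ⟨i, -, rfl⟩ := Finset.mem_image.1 (Finset.mem_coe.1 hx)
    exact hφB _
  have h2 : F s = c (s.orderEmbOfFin hs) := dif_pos hs
  have h3 : φ ∘ v = s.orderEmbOfFin hs :=
    Finset.orderEmbOfFin_unique hs (fun i => Finset.mem_image_of_mem _ (Finset.mem_univ i))
      (hφ.comp hv)
  have h4 : c (φ ∘ v) = κ := by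
    rw [h3, ← h2, h1]
  exact h4

private lemma Ram_const {C : Type} [Finite C] (U : Ultrafilter ℕ) (g : ℕ → C) :
    ∃ κ, ∀ᶠ n in (U : Filter ℕ), g n = κ := by
  obtain ⟨a, ha⟩ := Ultrafilter.eq_pure_of_finite (U.map g)
  refine ⟨a, ?_⟩
  have h : ({a} : Set C) ∈ U.map g := by
    rw [ha]
    exact Ultrafilter.mem_pure.2 rfl
  exact Ultrafilter.mem_map.1 h

theorem thm_Ram : St_Ram := by
  intro C _
  by_contra hcon
  push Not at hcon
  choose c hc using hcon
  have hlim : ∀ i j k l : ℕ, ∃ κ, ∀ᶠ n in (Filter.hyperfilter ℕ : Filter ℕ), c n i j k l = κ :=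
    fun i j k l => Ram_const (Filter.hyperfilter ℕ) (fun n => c n i j k l)
  choose d hd using hlim
  obtain ⟨φ, κ, hφ, hκ⟩ := Ram_inf 4 (fun v => d (v 0) (v 1) (v 2) (v 3))
  have h1 : ∀ᶠ n in (Filter.hyperfilter ℕ : Filter ℕ), ∀ t : Fin 40 × Fin 40 × Fin 40 × Fin 40,
      c n (φ t.1) (φ t.2.1) (φ t.2.2.1) (φ t.2.2.2) =
        d (φ t.1) (φ t.2.1) (φ t.2.2.1) (φ t.2.2.2) := by
    rw [Filter.eventually_all]
    intro t
    exact hd _ _ _ _
  have h2 : ∀ᶠ n in (Filter.hyperfilter ℕ : Filter ℕ), φ 39 + 1 ≤ n := by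
    apply Filter.hyperfilter_le_cofinite
    rw [Filter.mem_cofinite]
    refine (Set.finite_Iio (φ 39 + 1)).subset ?_
    intro n hn
    rw [Set.mem_compl_iff] at hn
    rw [Set.mem_Iio]
    exact not_le.1 hn
  obtain ⟨n, hn1, hn2⟩ := (h1.and h2).exists
  have hInc : Inc n φ := by
    refine ⟨fun i j hij _ => hφ hij, fun i hi => ?_⟩
    have : φ i ≤ φ 39 := hφ.monotone (by omega)
    omega
  obtain ⟨i, j, k, l, hij, hjk, hkl, hl, hne⟩ := hc n φ hInc κ
  apply hne
  have h3 := hn1 (⟨i, by omega⟩, ⟨j, by omega⟩, ⟨k, by omega⟩, ⟨l, hl⟩)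
  simp only at h3
  rw [h3]
  have hv : StrictMono (![i, j, k, l] : Fin 4 → ℕ) := by
    rw [Fin.strictMono_iff_lt_succ]
    intro a
    fin_cases a
    · exact hij
    · exact hjk
    · exact hkl
  exact hκ ![i, j, k, l] hv

end IBN
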