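import Pool.Agent.IBN.StC

/-!
helper82. Module Red of IBN: the alternating sum of the values of the cycles is a sum over the
perfect matchings.
-/

set_option autoImplicit false

namespace IBN

/-! ## Coverings -/

/-- every element of `A` is in exactly one of the sets `B x`, `x ∈ T`, the others are in none -/
private def Red_cv {α : Type} (B : α → Finset (Fin 10)) (T : Finset α) (A : Finset (Fin 10)) : Prop :=
  ∀ a, (T.filter fun x => a ∈ B x).card = if a ∈ A then 1 else 0

private theorem Red_cv_insert {α : Type} [DecidableEq α] (B : α → Finset (Fin 10)) (T : Finset α)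
    (A : Finset (Fin 10)) (x : α) (hx : x ∉ T) :
    Red_cv B (insert x T) A ↔ B x ⊆ A ∧ Red_cv B T (A \ B x) := by
  have h : ∀ a, ((insert x T).filter fun x => a ∈ B x).card =
      (if a ∈ B x then 1 else 0) + (T.filter fun x => a ∈ B x).card := by
    intro a
    rw [Finset.filter_insert]
    by_cases h1 : a ∈ B x
    · rw [if_pos h1, if_pos h1, Finset.card_insert_of_notMem (fun h => hx (Finset.mem_filter.1 h).1),
        add_comm]
    · rw [if_neg h1, if_neg h1, zero_add]
  constructor
  · intro hc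
    refine ⟨fun a ha => ?_, fun a => ?_⟩
    · have h1 := hc a
      rw [h, if_pos ha] at h1
      by_contra h2
      rw [if_neg h2] at h1
      omega
    · have h1 := hc a
      rw [h] at h1
      by_cases h2 : a ∈ B x
      · rw [if_pos h2] at h1
        rw [if_neg (fun h3 => (Finset.mem_sdiff.1 h3).2 h2)]
        split_ifs at h1 with h4 <;> omega
      · rw [if_neg h2, zero_add] at h1
        rw [h1]
        by_cases h4 : a ∈ A
        · rw [if_pos h4, if_pos (Finset.mem_sdiff.2 ⟨h4, h2⟩)]
        · rw [if_neg h4, if_neg (fun h3 => h4 (Finset.mem_sdiff.1 h3).1)]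
  · rintro ⟨h1, h2⟩ a
    have h3 := h2 a
    rw [h, h3]
    by_cases h4 : a ∈ B x
    · rw [if_pos h4, if_neg (fun h3 => (Finset.mem_sdiff.1 h3).2 h4), if_pos (h1 h4)]
    · rw [if_neg h4, zero_add]
      by_cases h5 : a ∈ A
      · rw [if_pos h5, if_pos (Finset.mem_sdiff.2 ⟨h5, h4⟩)]
      · rw [if_neg h5, if_neg (fun h3 => h5 (Finset.mem_sdiff.1 h3).1)]

private theorem Red_cv_empty {α : Type} (B : α → Finset (Fin 10)) (A : Finset (Fin 10)) :
    Red_cv B ∅ A ↔ A = ∅ := by
  constructor
  · intro h
    rw [Finset.eq_empty_iff_forall_notMem]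
    intro a ha
    have h1 := h a
    rw [if_pos ha, Finset.filter_empty, Finset.card_empty] at h1
    omega
  · intro h a
    rw [h, Finset.filter_empty, Finset.card_empty, if_neg (Finset.notMem_empty a)]

/-- the two slots of a pair -/
private def Red_B (f : Fin 10 × Fin 10) : Finset (Fin 10) := {f.1, f.2}

private theorem Red_mem_B (f : Fin 10 × Fin 10) (a : Fin 10) : a ∈ Red_B f ↔ f.1 = a ∨ f.2 = a := by
  unfold Red_B
  rw [Finset.mem_insert, Finset.mem_singleton, eq_comm, @eq_comm _ a]

private theorem Red_PM (A : Finset (Fin 10)) (M : Finset (Fin 10 × Fin 10)) :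
    M ∈ PM A ↔ (∀ f ∈ M, f.1 < f.2) ∧ Red_cv Red_B M A := by
  have hf : ∀ a, (M.filter fun x => a ∈ Red_B x) = M.filter fun e => e.1 = a ∨ e.2 = a := by
    intro a
    apply Finset.filter_congr
    intro x _
    exact Red_mem_B x a
  unfold PM
  rw [Finset.mem_filter, Finset.mem_powerset]
  constructor
  · rintro ⟨h1, h2⟩
    refine ⟨fun f hf => (Finset.mem_filter.1 (h1 hf)).2, fun a => ?_⟩
    rw [hf]
    by_cases ha : a ∈ A
    · rw [if_pos ha]
      exact h2 a ha
    · rw [if_neg ha, Finset.card_eq_zero, Finset.filter_eq_empty_iff]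
      intro f hf h
      have h3 := Finset.mem_product.1 (Finset.mem_filter.1 (h1 hf)).1
      rcases h with h | h
      · exact ha (h ▸ h3.1)
      · exact ha (h ▸ h3.2)
  · rintro ⟨h1, h2⟩
    have h3 : ∀ f ∈ M, ∀ a, a ∈ Red_B f → a ∈ A := by
      intro f hf a ha
      by_contra h4
      have h5 := h2 a
      rw [if_neg h4, Finset.card_eq_zero, Finset.filter_eq_empty_iff] at h5
      exact h5 hf ha
    refine ⟨fun f hf => ?_, fun a ha => ?_⟩
    · rw [Finset.mem_filter, Finset.mem_product]
      exact ⟨⟨h3 f hf _ ((Red_mem_B f _).2 (Or.inl rfl)), h3 f hf _ ((Red_mem_B f _).2 (Or.inr rfl))⟩,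
        h1 f hf⟩
    · have h5 := h2 a
      rwa [hf, if_pos ha] at h5

private theorem Red_PM_insert (A : Finset (Fin 10)) (M : Finset (Fin 10 × Fin 10))
    (f : Fin 10 × Fin 10) (hf : f ∉ M) :
    insert f M ∈ PM A ↔ f.1 < f.2 ∧ Red_B f ⊆ A ∧ M ∈ PM (A \ Red_B f) := by
  rw [Red_PM, Red_PM, Red_cv_insert _ _ _ _ hf, Finset.forall_mem_insert]
  tauto

open Classical in
private theorem Red_sum {ι : Type} (S : ι → Finset (Fin 10)) (e : ι → Fin 10 × Fin 10) (g : ι → ℚ)
    (he : ∀ x, (S x).card = 2 → (e x).1 < (e x).2 ∧ S x = Red_B (e x)) (s : Finset ι) :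
    ∀ A : Finset (Fin 10),
      (∑ T ∈ s.powerset, if (∀ x ∈ T, (S x).card = 2) ∧ Red_cv S T A then ∏ x ∈ T, g x else 0) =
        ∑ M ∈ PM A, ∏ f ∈ M, ∑ x ∈ s, if (S x).card = 2 ∧ e x = f then g x else 0 := by
  induction s using Finset.induction_on with
  | empty =>
    intro A
    rw [Finset.powerset_empty, Finset.sum_singleton, Red_cv_empty, Finset.prod_empty]
    by_cases hA : A = ∅
    · rw [if_pos ⟨fun x hx => absurd hx (Finset.notMem_empty x), hA⟩]
      have h1 : PM A = {∅} := by
        ext M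
        rw [Finset.mem_singleton]
        constructor
        · intro hM
          rw [Finset.eq_empty_iff_forall_notMem]
          intro f hf
          have h2 := (Finset.mem_filter.1 hM).1
          rw [Finset.mem_powerset] at h2
          have h3 := Finset.mem_product.1 (Finset.mem_filter.1 (h2 hf)).1
          rw [hA] at h3
          exact Finset.notMem_empty _ h3.1
        · intro hM
          rw [hM, Red_PM, Red_cv_empty]
          exact ⟨fun f hf => absurd hf (Finset.notMem_empty f), hA⟩
      rw [h1, Finset.sum_singleton, Finset.prod_empty]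
    · rw [if_neg (fun h => hA h.2)]
      symm
      apply Finset.sum_eq_zero
      intro M hM
      have h1 : M.Nonempty := by
        rw [Finset.nonempty_iff_ne_empty]
        intro h2
        rw [h2, Red_PM, Red_cv_empty] at hM
        exact hA hM.2
      obtain ⟨f, hf⟩ := h1
      exact Finset.prod_eq_zero hf Finset.sum_empty
  | insert x s hx ih =>
    intro A
    obtain ⟨W, hW⟩ : ∃ W : Fin 10 × Fin 10 → ℚ, W = fun f =>
      ∑ y ∈ s, if (S y).card = 2 ∧ e y = f then g y else 0 := ⟨_, rfl⟩
    have hW' : ∀ f, (∑ y ∈ insert x s, if (S y).card = 2 ∧ e y = f then g y else 0) =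
        (if (S x).card = 2 ∧ e x = f then g x else 0) + W f := by
      intro f
      rw [Finset.sum_insert hx, hW]
    have ih' : ∀ A : Finset (Fin 10), (∑ T ∈ s.powerset,
        if (∀ x ∈ T, (S x).card = 2) ∧ Red_cv S T A then ∏ x ∈ T, g x else 0) =
        ∑ M ∈ PM A, ∏ f ∈ M, W f := by
      intro A
      rw [ih A, hW]
    rw [Finset.sum_powerset_insert hx, ih' A]
    simp only [hW']
    by_cases hc : (S x).card = 2
    · obtain ⟨h1, h2⟩ := he x hc
      have e1 : ∀ T ∈ s.powerset, (if (∀ y ∈ insert x T, (S y).card = 2) ∧ Red_cv S (insert x T) A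
          then ∏ y ∈ insert x T, g y else 0) =
          if S x ⊆ A then g x * (if (∀ y ∈ T, (S y).card = 2) ∧ Red_cv S T (A \ S x) then
            ∏ y ∈ T, g y else 0) else 0 := by
        intro T hT
        have hxT : x ∉ T := fun h => hx (Finset.mem_powerset.1 hT h)
        rw [Finset.prod_insert hxT]
        have h3 : ((∀ y ∈ insert x T, (S y).card = 2) ∧ Red_cv S (insert x T) A) ↔
            (S x ⊆ A ∧ (∀ y ∈ T, (S y).card = 2) ∧ Red_cv S T (A \ S x)) := by
          rw [Red_cv_insert _ _ _ _ hxT, Finset.forall_mem_insert]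
          tauto
        by_cases h4 : S x ⊆ A
        · rw [if_pos h4]
          by_cases h5 : (∀ y ∈ T, (S y).card = 2) ∧ Red_cv S T (A \ S x)
          · rw [if_pos h5, if_pos (h3.2 ⟨h4, h5⟩)]
          · rw [if_neg h5, if_neg (fun h => h5 (h3.1 h).2), mul_zero]
        · rw [if_neg h4, if_neg (fun h => h4 (h3.1 h).1)]
      rw [Finset.sum_congr rfl e1]
      have e2 : ∀ M ∈ PM A, (∏ f ∈ M, ((if (S x).card = 2 ∧ e x = f then g x else 0) + W f)) =
          (∏ f ∈ M, W f) + if e x ∈ M then g x * ∏ f ∈ M.erase (e x), W f else 0 := by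
        intro M _
        by_cases hm : e x ∈ M
        · rw [if_pos hm, ← Finset.mul_prod_erase M _ hm, ← Finset.mul_prod_erase M W hm,
            if_pos ⟨hc, rfl⟩]
          have h3 : ∏ f ∈ M.erase (e x), ((if (S x).card = 2 ∧ e x = f then g x else 0) + W f) =
              ∏ f ∈ M.erase (e x), W f := by
            apply Finset.prod_congr rfl
            intro f hf
            have h9 : ¬ ((S x).card = 2 ∧ e x = f) :=
              fun h => (Finset.ne_of_mem_erase hf) h.2.symm
            rw [if_neg h9, zero_add]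
          rw [h3]
          ring
        · rw [if_neg hm, add_zero]
          apply Finset.prod_congr rfl
          intro f hf
          have h9 : ¬ ((S x).card = 2 ∧ e x = f) := by
            intro h
            rw [h.2] at hm
            exact hm hf
          rw [if_neg h9, zero_add]
      rw [Finset.sum_congr rfl e2, Finset.sum_add_distrib]
      congr 1
      by_cases h4 : S x ⊆ A
      · rw [Finset.sum_congr rfl fun T _ => if_pos h4, ← Finset.mul_sum, ih' (A \ S x),
          ← Finset.sum_filter, Finset.mul_sum]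
        symm
        refine Finset.sum_bij' (fun M _ => M.erase (e x)) (fun M _ => insert (e x) M) ?_ ?_ ?_ ?_ ?_
        · intro M hM
          obtain ⟨hM1, hM2⟩ := Finset.mem_filter.1 hM
          rw [← Finset.insert_erase hM2, Red_PM_insert _ _ _ (Finset.notMem_erase _ _)] at hM1
          rw [h2]
          exact hM1.2.2
        · intro M hM
          have h5 : e x ∉ M := by
            intro h6
            rw [Red_PM] at hM
            have h7 := hM.2 (e x).1
            have h8 : (e x).1 ∈ Red_B (e x) := (Red_mem_B _ _).2 (Or.inl rfl)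
            rw [if_neg (fun h => (Finset.mem_sdiff.1 h).2 (h2 ▸ h8)), Finset.card_eq_zero,
              Finset.filter_eq_empty_iff] at h7
            exact h7 h6 h8
          rw [Finset.mem_filter, Red_PM_insert _ _ _ h5]
          rw [h2] at hM h4
          exact ⟨⟨h1, h4, hM⟩, Finset.mem_insert_self _ _⟩
        · intro M hM
          exact Finset.insert_erase (Finset.mem_filter.1 hM).2
        · intro M hM
          have h5 : e x ∉ M := by
            intro h6
            rw [Red_PM] at hM
            have h7 := hM.2 (e x).1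
            have h8 : (e x).1 ∈ Red_B (e x) := (Red_mem_B _ _).2 (Or.inl rfl)
            rw [if_neg (fun h => (Finset.mem_sdiff.1 h).2 (h2 ▸ h8)), Finset.card_eq_zero,
              Finset.filter_eq_empty_iff] at h7
            exact h7 h6 h8
          exact Finset.erase_insert h5
        · intro M _
          rfl
      · rw [Finset.sum_congr rfl fun T _ => if_neg h4, Finset.sum_const_zero]
        symm
        apply Finset.sum_eq_zero
        intro M hM
        rw [if_neg]
        intro h5
        rw [← Finset.insert_erase h5, Red_PM_insert _ _ _ (Finset.notMem_erase _ _)] at hM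
        rw [h2] at h4
        exact h4 hM.2.1
    · have e1 : ∀ T ∈ s.powerset, (if (∀ y ∈ insert x T, (S y).card = 2) ∧ Red_cv S (insert x T) A
          then ∏ y ∈ insert x T, g y else 0) = 0 := by
        intro T _
        rw [if_neg]
        intro h
        exact hc (h.1 x (Finset.mem_insert_self _ _))
      rw [Finset.sum_congr rfl e1, Finset.sum_const_zero, add_zero]
      apply Finset.sum_congr rfl
      intro M _
      apply Finset.prod_congr rfl
      intro f _
      have h9 : ¬ ((S x).card = 2 ∧ e x = f) := fun h => hc h.1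
      rw [if_neg h9, zero_add]

/-- touching all of `A` -/
private theorem Red_touch {ι : Type} (S : ι → Finset (Fin 10)) (hS : ∀ x, (S x).card ≤ 2)
    (T : Finset ι) : ∀ A : Finset (Fin 10), (∀ a ∈ A, ∃ x ∈ T, a ∈ S x) →
      A.card ≤ 2 * T.card ∧ (A.card = 2 * T.card → (∀ x ∈ T, (S x).card = 2) ∧ Red_cv S T A) := by
  classical
  induction T using Finset.induction_on with
  | empty =>
    intro A hA
    have h1 : A = ∅ := by
      rw [Finset.eq_empty_iff_forall_notMem]
      intro a ha
      obtain ⟨x, hx, _⟩ := hA a ha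
      exact absurd hx (Finset.notMem_empty x)
    refine ⟨by rw [h1, Finset.card_empty]; omega, fun _ =>
      ⟨fun x hx => absurd hx (Finset.notMem_empty x), (Red_cv_empty _ _).2 h1⟩⟩
  | insert x T hx ih =>
    intro A hA
    obtain ⟨h1, h2⟩ := ih (A \ S x) (by
      intro a ha
      rw [Finset.mem_sdiff] at ha
      obtain ⟨y, hy, hy2⟩ := hA a ha.1
      rw [Finset.mem_insert] at hy
      rcases hy with hy | hy
      · rw [hy] at hy2
        exact absurd hy2 ha.2
      · exact ⟨y, hy, hy2⟩)
    rw [Finset.card_insert_of_notMem hx]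
    have h3 := Finset.card_sdiff_add_card_inter A (S x)
    have h4 : (A ∩ S x).card ≤ (S x).card := Finset.card_le_card Finset.inter_subset_right
    have h5 := hS x
    refine ⟨by omega, fun h6 => ?_⟩
    have h7 : (A ∩ S x).card = 2 := by omega
    have h8 : (S x).card = 2 := by omega
    obtain ⟨h9, h10⟩ := h2 (by omega)
    have h11 : A ∩ S x = S x := Finset.eq_of_subset_of_card_le Finset.inter_subset_right (by omega)
    refine ⟨Finset.forall_mem_insert _ _ _ |>.2 ⟨h8, h9⟩, (Red_cv_insert _ _ _ _ hx).2 ⟨?_, h10⟩⟩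
    rw [← h11]
    exact Finset.inter_subset_left

private theorem Red_card {ι : Type} (S : ι → Finset (Fin 10)) (T : Finset ι) :
    ∀ A : Finset (Fin 10), (∀ x ∈ T, (S x).card = 2) → Red_cv S T A → A.card = 2 * T.card := by
  classical
  induction T using Finset.induction_on with
  | empty =>
    intro A _ hA
    rw [(Red_cv_empty _ _).1 hA]
    rfl
  | insert x T hx ih =>
    intro A h1 hA
    rw [Finset.forall_mem_insert] at h1
    obtain ⟨h2, h3⟩ := (Red_cv_insert _ _ _ _ hx).1 hA
    have h4 := ih _ h1.2 h3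
    rw [Finset.card_insert_of_notMem hx]
    have h5 := Finset.card_sdiff_add_card_eq_card h2
    omega

private theorem Red_prod {ι : Type} (S : ι → Finset (Fin 10)) (f : Fin 10 → ℚ) (i j : ι → Fin 10)
    (T : Finset ι) :
    ∀ A : Finset (Fin 10), (∀ x ∈ T, i x ≠ j x ∧ S x = {i x, j x}) → Red_cv S T A →
      ∏ a ∈ A, f a = ∏ x ∈ T, (f (i x) * f (j x)) := by
  classical
  induction T using Finset.induction_on with
  | empty =>
    intro A _ hA
    rw [(Red_cv_empty _ _).1 hA]
    rfl
  | insert x T hx ih =>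
    intro A h1 hA
    rw [Finset.forall_mem_insert] at h1
    obtain ⟨h2, h3⟩ := (Red_cv_insert _ _ _ _ hx).1 hA
    rw [Finset.prod_insert hx, ← ih _ h1.2 h3, ← Finset.prod_sdiff h2]
    have h4 : ∏ a ∈ S x, f a = f (i x) * f (j x) := by
      rw [h1.1.2, Finset.prod_pair h1.1.1]
    rw [h4]
    ring

/-! ## The slots -/

private theorem Red_v {n : ℕ} {v : ℕ → ℕ} (hv : Inc n v) {a b : ℕ} (ha : a < 40) (hb : b < 40)
    (h : v a = v b) : a = b := by
  rcases lt_trichotomy a b with h1 | h1 | h1
  · exact absurd h (hv.1 a b h1 hb).ne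
  · exact h1
  · exact absurd h.symm (hv.1 b a h1 ha).ne

private theorem Red_lt : ∀ (i : Fin 10) (b : Bool), sS i < mS i b ∧ mS i b < eS i ∧ eS i < 40 := by
  decide

private theorem Red_u : ∀ (i i' : Fin 10) (b b' : Bool), (mS i b = mS i' b' → i = i' ∧ b = b') ∧
    sS i ≠ mS i' b' ∧ sS i ≠ eS i' ∧ mS i b ≠ eS i' := by
  decide

private theorem Red_s40 (i : Fin 10) : sS i < 40 := by
  have := Red_lt i true
  omega

private theorem Red_m40 (i : Fin 10) (b : Bool) : mS i b < 40 := by
  have := Red_lt i b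
  omega

private theorem Red_e40 (i : Fin 10) : eS i < 40 := (Red_lt i true).2.2

private theorem Red_in {n : ℕ} {v : ℕ → ℕ} (hv : Inc n v) {s : Strand} {i i' : Fin 10}
    {b b' : Bool} (h : inSl v s i b) (h' : inSl v s i' b') : i = i' ∧ b = b' := by
  rcases h with ⟨h1, h2⟩ | ⟨h1, h2⟩ <;> rcases h' with ⟨h3, h4⟩ | ⟨h3, h4⟩
  · exact (Red_u i i' b b').1 (Red_v hv (Red_m40 _ _) (Red_m40 _ _) (h2.symm.trans h4))
  · exact absurd (Red_v hv (Red_s40 _) (Red_m40 _ _) (h1.symm.trans h3)) (Red_u i i' b b').2.1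
  · exact absurd (Red_v hv (Red_s40 _) (Red_m40 _ _) (h3.symm.trans h1)) (Red_u i' i b' b).2.1
  · exact (Red_u i i' b b').1 (Red_v hv (Red_m40 _ _) (Red_m40 _ _) (h1.symm.trans h3))

private theorem Red_edge (hS : St_Slo) {n : ℕ} {v : ℕ → ℕ} (hv : Inc n v) (ε : Finset (Fin 10))
    {s : Strand} {i : Fin 10} {b : Bool} (h : inSl v s i b) :
    edge (cyc v ε) s.1 s.2.1 = true ↔ b = decide (i ∈ ε) := by
  have hlt : s.1 < s.2.1 := by
    rcases h with ⟨h1, h2⟩ | ⟨h1, h2⟩
    · rw [h1, h2]
      exact hv.1 _ _ (Red_lt i b).1 (Red_m40 _ _)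
    · rw [h1, h2]
      exact hv.1 _ _ (Red_lt i b).2.1 (Red_e40 _)
  rw [(hS n v hv ε).2.1 _ _ hlt]
  constructor
  · rintro (⟨t, ht⟩ | ⟨t, ht⟩)
    · obtain ⟨h1, h2⟩ := Red_in hv h (show inSl v s t (decide (t ∈ ε)) from ht)
      rw [h1]
      exact h2
    · exfalso
      rcases h with ⟨h1, h2⟩ | ⟨h1, h2⟩ <;> rcases ht with ⟨h3, h4⟩ | ⟨h3, h4⟩
      · exact (Red_u i t b b).2.2.1 (Red_v hv (Red_s40 _) (Red_e40 _) (h1.symm.trans h3))
      · exact (Red_u i t b b).2.2.2 (Red_v hv (Red_m40 _ _) (Red_e40 _) (h2.symm.trans h3))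
      · exact (Red_u i t b b).2.2.2 (Red_v hv (Red_m40 _ _) (Red_e40 _) (h1.symm.trans h3))
      · exact (Red_u (t + 1) i b b).2.1 (Red_v hv (Red_s40 _) (Red_m40 _ _) (h4.symm.trans h1))
  · intro hb
    left
    refine ⟨i, ?_⟩
    rw [← hb]
    exact h

private theorem Red_slots {n : ℕ} {v : ℕ → ℕ} (hv : Inc n v) (c : Cro) (S : Finset (Fin 10))
    (hS : ∀ i, i ∈ S ↔ tch v c i) : S.card ≤ 2 ∧ (S.card = 2 → ∃ (i j : Fin 10) (b b' : Bool),
      inSl v c.a i b ∧ inSl v c.b j b' ∧ i ≠ j ∧ S = {i, j}) := by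
  by_cases ha : ∃ i b, inSl v c.a i b
  · obtain ⟨i, b, hi⟩ := ha
    by_cases hb : ∃ i b, inSl v c.b i b
    · obtain ⟨j, b', hj⟩ := hb
      have hS' : S = {i, j} := by
        ext t
        rw [hS, Finset.mem_insert, Finset.mem_singleton]
        constructor
        · rintro ⟨b1, h1 | h1⟩
          · exact Or.inl (Red_in hv h1 hi).1
          · exact Or.inr (Red_in hv h1 hj).1
        · rintro (h1 | h1)
          · exact ⟨b, Or.inl (h1 ▸ hi)⟩
          · exact ⟨b', Or.inr (h1 ▸ hj)⟩
      refine ⟨by rw [hS']; exact Finset.card_le_two, fun h2 => ⟨i, j, b, b', hi, hj, ?_, hS'⟩⟩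
      intro h3
      rw [hS', h3, Finset.pair_eq_singleton, Finset.card_singleton] at h2
      omega
    · have h1 : S ⊆ {i} := by
        intro t ht
        rw [hS] at ht
        rw [Finset.mem_singleton]
        obtain ⟨b1, h1 | h1⟩ := ht
        · exact (Red_in hv h1 hi).1
        · exact absurd ⟨t, b1, h1⟩ hb
      have h2 := Finset.card_le_card h1
      rw [Finset.card_singleton] at h2
      exact ⟨by omega, fun h3 => by omega⟩
  · by_cases hb : ∃ i b, inSl v c.b i b
    · obtain ⟨j, b', hj⟩ := hb
      have h1 : S ⊆ {j} := by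
        intro t ht
        rw [hS] at ht
        rw [Finset.mem_singleton]
        obtain ⟨b1, h1 | h1⟩ := ht
        · exact absurd ⟨t, b1, h1⟩ ha
        · exact (Red_in hv h1 hj).1
      have h2 := Finset.card_le_card h1
      rw [Finset.card_singleton] at h2
      exact ⟨by omega, fun h3 => by omega⟩
    · have h1 : S = ∅ := by
        rw [Finset.eq_empty_iff_forall_notMem]
        intro t ht
        rw [hS] at ht
        obtain ⟨b1, h1 | h1⟩ := ht
        · exact ha ⟨t, b1, h1⟩
        · exact hb ⟨t, b1, h1⟩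
      rw [h1, Finset.card_empty]
      exact ⟨by omega, fun h3 => by omega⟩

private theorem Red_hx {n : ℕ} {v : ℕ → ℕ} (hv : Inc n v) (c : Cro) {i j : Fin 10} {b b' : Bool}
    (hi : inSl v c.a i b) (hj : inSl v c.b j b') (i' j' : Fin 10) {N : ℕ} (D : Fin 10 → Lab N) :
    hx v c i' j' D = if i' = i ∧ j' = j then
      (if b = b' then 1 else -1) * k1 c (D i) (D (i + 1)) (D j) (D (j + 1)) else 0 := by
  unfold hx
  by_cases h : i' = i ∧ j' = j
  · obtain ⟨h1, h2⟩ := h
    subst h1
    subst h2
    rw [if_pos ⟨rfl, rfl⟩, Finset.sum_eq_single b, Finset.sum_eq_single b', if_pos ⟨hi, hj⟩]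
    · intro b1 _ hb
      rw [if_neg]
      rintro ⟨_, h2⟩
      exact hb (Red_in hv h2 hj).2
    · intro h
      exact absurd (Finset.mem_univ _) h
    · intro b1 _ hb
      apply Finset.sum_eq_zero
      intro b2 _
      rw [if_neg]
      rintro ⟨h1, _⟩
      exact hb (Red_in hv h1 hi).2
    · intro h
      exact absurd (Finset.mem_univ _) h
  · rw [if_neg h]
    apply Finset.sum_eq_zero
    intro b1 _
    apply Finset.sum_eq_zero
    intro b2 _
    rw [if_neg]
    rintro ⟨h1, h2⟩
    exact h ⟨(Red_in hv h1 hi).1, (Red_in hv h2 hj).1⟩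

private theorem Red_kD {n : ℕ} {v : ℕ → ℕ} (hv : Inc n v) (c : Cro) {i j : Fin 10} {b b' : Bool}
    (hi : inSl v c.a i b) (hj : inSl v c.b j b') {N : ℕ} (D : Fin 10 → Lab N) :
    kD v c D = k1 c (D i) (D (i + 1)) (D j) (D (j + 1)) := by
  unfold kD
  rw [Finset.sum_eq_single i, Finset.sum_eq_single j, if_pos ⟨⟨b, hi⟩, ⟨b', hj⟩⟩]
  · intro j' _ hb
    rw [if_neg]
    rintro ⟨_, ⟨b2, h2⟩⟩
    exact hb (Red_in hv h2 hj).1
  · intro h
    exact absurd (Finset.mem_univ _) h
  · intro i' _ hb
    apply Finset.sum_eq_zero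
    intro j' _
    rw [if_neg]
    rintro ⟨⟨b1, h1⟩, _⟩
    exact hb (Red_in hv h1 hi).1
  · intro h
    exact absurd (Finset.mem_univ _) h

private theorem Red_hx_zero {v : ℕ → ℕ} (c : Cro) (S : Finset (Fin 10))
    (hS : ∀ i, i ∈ S ↔ tch v c i) (hc : S.card ≤ 2) (hc2 : S.card ≠ 2) (i' j' : Fin 10)
    (hij : i' ≠ j') {N : ℕ} (D : Fin 10 → Lab N) : hx v c i' j' D = 0 := by
  unfold hx
  apply Finset.sum_eq_zero
  intro b1 _
  apply Finset.sum_eq_zero
  intro b2 _
  rw [if_neg]
  rintro ⟨h1, h2⟩
  have h3 : ({i', j'} : Finset (Fin 10)) ⊆ S := by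
    intro t ht
    rw [Finset.mem_insert, Finset.mem_singleton] at ht
    rw [hS]
    rcases ht with ht | ht
    · rw [ht]
      exact ⟨b1, Or.inl h1⟩
    · rw [ht]
      exact ⟨b2, Or.inr h2⟩
  have h4 := Finset.card_le_card h3
  rw [Finset.card_pair hij] at h4
  omega

/-! ## Alternating sums -/

private theorem Red_mob_zero {R : Type} [CommRing R] (f : Finset (Fin 10) → R)
    (A : Finset (Fin 10)) (s : Fin 10) (hs : s ∈ A) (h : ∀ ε, s ∉ ε → f (insert s ε) = f ε) :
    mob f A = 0 := by
  unfold mob
  have h0 : A.powerset = (insert s (A.erase s)).powerset := by rw [Finset.insert_erase hs]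
  rw [h0, Finset.sum_powerset_insert (Finset.notMem_erase s A), ← Finset.sum_add_distrib]
  apply Finset.sum_eq_zero
  intro ε hε
  have h1 : s ∉ ε := fun h => Finset.notMem_erase s A (Finset.mem_powerset.1 hε h)
  rw [h ε h1]
  have h2 : (A \ ε).card = (A \ insert s ε).card + 1 := by
    rw [Finset.sdiff_insert, Finset.card_erase_add_one (Finset.mem_sdiff.2 ⟨hs, h1⟩)]
  rw [h2, pow_succ]
  ring

private theorem Red_mob_sum {R : Type} [CommRing R] {τ : Type} (s : Finset τ)
    (F : τ → Finset (Fin 10) → R) (A : Finset (Fin 10)) :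
    mob (fun ε => ∑ T ∈ s, F T ε) A = ∑ T ∈ s, mob (F T) A := by
  unfold mob
  simp only [Finset.mul_sum]
  exact Finset.sum_comm

private theorem Red_mob_coeff (f : Finset (Fin 10) → PowerSeries ℚ) (A : Finset (Fin 10)) (k : ℕ) :
    PowerSeries.coeff k (mob f A) =
      ∑ ε ∈ A.powerset, (-1) ^ (A \ ε).card * PowerSeries.coeff k (f ε) := by
  unfold mob
  rw [map_sum]
  refine Finset.sum_congr rfl fun ε _ => ?_
  have h : ((-1 : PowerSeries ℚ)) ^ (A \ ε).card = PowerSeries.C ((-1 : ℚ) ^ (A \ ε).card) := by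
    rw [map_pow, map_neg, map_one]
  rw [h, PowerSeries.coeff_C_mul]

private theorem Red_sign (A B : Finset (Fin 10)) :
    ∏ a ∈ A, (if a ∈ B then (1 : ℚ) else -1) = (-1) ^ (A \ B).card := by
  rw [Finset.prod_ite, Finset.prod_const_one, one_mul, Finset.prod_const,
    Finset.filter_notMem_eq_sdiff]

theorem thm_Red : St_Slo → St_VT → St_VD → St_Red := by
  intro hSlo hVT hVD N n _ G v hv
  classical
  obtain ⟨hT1, hT2, hT3⟩ := hVT N n G v hv
  obtain ⟨S, hS⟩ : ∃ S : Fin G.X.length → Finset (Fin 10), ∀ x i,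
      i ∈ S x ↔ tch v (G.X.get x) i :=
    ⟨fun x => Finset.univ.filter fun i => tch v (G.X.get x) i, fun x i => by
      rw [Finset.mem_filter]
      exact ⟨fun h => h.2, fun h => ⟨Finset.mem_univ _, h⟩⟩⟩
  have hS2 : ∀ x, (S x).card ≤ 2 := fun x => (Red_slots hv _ (S x) (hS x)).1
  have key : ∀ x, ∃ (i j : Fin 10) (b b' : Bool), (S x).card = 2 →
      inSl v (G.X.get x).a i b ∧ inSl v (G.X.get x).b j b' ∧ i ≠ j ∧ S x = {i, j} := by
    intro x
    by_cases hc : (S x).card = 2
    · obtain ⟨i, j, b, b', h⟩ := (Red_slots hv _ (S x) (hS x)).2 hc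
      exact ⟨i, j, b, b', fun _ => h⟩
    · exact ⟨0, 0, true, true, fun h => absurd h hc⟩
  choose iX jX bX cX hX using key
  have hVN : VN G N v = fun ε =>
      ∑ T ∈ (Finset.univ : Finset (Finset (Fin G.X.length))), vT G N v T ε := funext hT1
  have hun : ∀ (A : Finset (Fin 10)) (T : Finset (Fin G.X.length)),
      (¬ ∀ a ∈ A, ∃ x ∈ T, a ∈ S x) → mob (vT G N v T) A = 0 := by
    intro A T h
    push Not at h
    obtain ⟨a, ha, h2⟩ := h
    exact Red_mob_zero _ _ a ha fun ε hε =>
      hT3 T ε a (fun x hx h3 => h2 x hx ((hS x a).2 h3)) hε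
  have hsm : ∀ (A : Finset (Fin 10)) (T : Finset (Fin G.X.length)) (j : ℕ), j < T.card →
      PowerSeries.coeff j (mob (vT G N v T) A) = 0 := by
    intro A T j hj
    rw [Red_mob_coeff]
    exact Finset.sum_eq_zero fun ε _ => by rw [hT2 T ε j hj, mul_zero]
  refine ⟨fun A j hj => ?_, fun A k hk => ?_⟩
  · rw [hVN, Red_mob_sum, map_sum]
    apply Finset.sum_eq_zero
    intro T _
    by_cases h : ∀ a ∈ A, ∃ x ∈ T, a ∈ S x
    · exact hsm A T j (by have := (Red_touch S hS2 T A h).1; omega)
    · rw [hun A T h, map_zero]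
  · rw [hVN, Red_mob_sum, map_sum]
    obtain ⟨σ, hσ⟩ : ∃ σ : Fin G.X.length → ℚ, σ = fun x => if bX x = cX x then 1 else -1 :=
      ⟨_, rfl⟩
    have e3 : ∀ T : Finset (Fin G.X.length), PowerSeries.coeff k (mob (vT G N v T) A) =
        if (∀ x ∈ T, (S x).card = 2) ∧ Red_cv S T A then (∏ x ∈ T, σ x) *
          ∑ D : Fin 10 → Lab N, if ∀ i, i ∉ A → D (i + 1) = D i then
            ∏ x ∈ T, kD v (G.X.get x) D else 0 else 0 := by
      intro T
      by_cases hC : (∀ x ∈ T, (S x).card = 2) ∧ Red_cv S T A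
      · rw [if_pos hC]
        obtain ⟨h2, hcv⟩ := hC
        have hcard := Red_card S T A h2 hcv
        have hk' : k = T.card := by omega
        have hsub : ∀ x ∈ T, ∀ a, a ∈ S x → a ∈ A := by
          intro x hx a ha
          by_contra h
          have h1 := hcv a
          rw [if_neg h, Finset.card_eq_zero, Finset.filter_eq_empty_iff] at h1
          exact h1 hx ha
        have hdis : ∀ x ∈ T, ∀ y ∈ T, ∀ a, a ∈ S x → a ∈ S y → x = y := by
          intro x hx y hy a h1 h3
          have h4 : (T.filter fun x => a ∈ S x).card ≤ 1 := by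
            rw [hcv a]
            split_ifs <;> omega
          exact Finset.card_le_one.1 h4 x (Finset.mem_filter.2 ⟨hx, h1⟩) y
            (Finset.mem_filter.2 ⟨hy, h3⟩)
        have hcov : ∀ a ∈ A, ∃ x ∈ T, a ∈ S x := by
          intro a ha
          have h1 := hcv a
          rw [if_pos ha] at h1
          obtain ⟨x, hx⟩ := Finset.card_pos.1 (by omega : 0 < (T.filter fun x => a ∈ S x).card)
          exact ⟨x, (Finset.mem_filter.1 hx).1, (Finset.mem_filter.1 hx).2⟩
        have hi : ∀ x ∈ T, iX x ∈ S x := by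
          intro x hx
          rw [(hX x (h2 x hx)).2.2.2]
          exact Finset.mem_insert_self _ _
        have hj : ∀ x ∈ T, jX x ∈ S x := by
          intro x hx
          rw [(hX x (h2 x hx)).2.2.2]
          exact Finset.mem_insert_of_mem (Finset.mem_singleton_self _)
        obtain ⟨E, hE⟩ : ∃ E : Finset (Fin 10), E = A.filter fun a =>
            ∃ x ∈ T, (iX x = a ∧ bX x = true) ∨ (jX x = a ∧ cX x = true) := ⟨_, rfl⟩
        have hEA : E ⊆ A := by
          rw [hE]
          exact Finset.filter_subset _ _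
        have hEi : ∀ x ∈ T, (iX x ∈ E ↔ bX x = true) := by
          intro x hx
          rw [hE, Finset.mem_filter]
          constructor
          · rintro ⟨_, y, hy, h | h⟩
            · have h3 : y = x := hdis y hy x hx (iX x) (h.1 ▸ hi y hy) (hi x hx)
              rw [← h3]
              exact h.2
            · have h3 : y = x := hdis y hy x hx (iX x) (h.1 ▸ hj y hy) (hi x hx)
              rw [h3] at h
              exact absurd h.1.symm (hX x (h2 x hx)).2.2.1
          · intro h
            exact ⟨hsub x hx _ (hi x hx), x, hx, Or.inl ⟨rfl, h⟩⟩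
        have hEj : ∀ x ∈ T, (jX x ∈ E ↔ cX x = true) := by
          intro x hx
          rw [hE, Finset.mem_filter]
          constructor
          · rintro ⟨_, y, hy, h | h⟩
            · have h3 : y = x := hdis y hy x hx (jX x) (h.1 ▸ hi y hy) (hj x hx)
              rw [h3] at h
              exact absurd h.1 (hX x (h2 x hx)).2.2.1
            · have h3 : y = x := hdis y hy x hx (jX x) (h.1 ▸ hj y hy) (hj x hx)
              rw [← h3]
              exact h.2
          · intro h
            exact ⟨hsub x hx _ (hj x hx), x, hx, Or.inr ⟨rfl, h⟩⟩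
        have halw : ∀ ε : Finset (Fin 10), (∀ x ∈ T, alw v ε (G.X.get x)) ↔
            ∀ x ∈ T, bX x = decide (iX x ∈ ε) ∧ cX x = decide (jX x ∈ ε) := by
          intro ε
          refine forall₂_congr fun x hx => ?_
          unfold alw
          rw [Red_edge hSlo hv ε (hX x (h2 x hx)).1, Red_edge hSlo hv ε (hX x (h2 x hx)).2.1]
        have hE1 : ∀ x ∈ T, alw v E (G.X.get x) := by
          rw [halw]
          intro x hx
          constructor
          · rw [Bool.eq_iff_iff, decide_eq_true_iff]
            exact (hEi x hx).symm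
          · rw [Bool.eq_iff_iff, decide_eq_true_iff]
            exact (hEj x hx).symm
        have hE2 : ∀ ε : Finset (Fin 10), ε ⊆ A → (∀ x ∈ T, alw v ε (G.X.get x)) → ε = E := by
          intro ε hε h
          rw [halw] at h
          ext a
          by_cases ha : a ∈ A
          · obtain ⟨x, hx, hax⟩ := hcov a ha
            rw [(hX x (h2 x hx)).2.2.2, Finset.mem_insert, Finset.mem_singleton] at hax
            rcases hax with hax | hax
            · rw [hax, hEi x hx, (h x hx).1, decide_eq_true_iff]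
            · rw [hax, hEj x hx, (h x hx).2, decide_eq_true_iff]
          · exact ⟨fun h => absurd (hε h) ha, fun h => absurd (hEA h) ha⟩
        have hsg : ((-1 : ℚ)) ^ (A \ E).card = ∏ x ∈ T, σ x := by
          rw [← Red_sign, Red_prod S _ iX jX T A
            (fun x hx => ⟨(hX x (h2 x hx)).2.2.1, (hX x (h2 x hx)).2.2.2⟩) hcv]
          apply Finset.prod_congr rfl
          intro x hx
          have h3 := hEi x hx
          have h4 := hEj x hx
          rw [hσ]
          simp only [h3, h4]
          cases bX x <;> cases cX x <;> simp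
        rw [Red_mob_coeff, Finset.sum_eq_single E, hk',
          hVD N n G v hv A E T hcard (fun s hs => by
            obtain ⟨x, hx, hx2⟩ := hcov s hs
            exact ⟨x, hx, (hS x s).1 hx2⟩), if_pos hE1, hsg]
        · intro ε hε hne
          rw [hk', hVD N n G v hv A ε T hcard (fun s hs => by
            obtain ⟨x, hx, hx2⟩ := hcov s hs
            exact ⟨x, hx, (hS x s).1 hx2⟩), if_neg, mul_zero]
          intro h
          exact hne (hE2 ε (Finset.mem_powerset.1 hε) h)
        · intro h
          exact absurd (Finset.mem_powerset.2 hEA) h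
      · rw [if_neg hC]
        by_cases h : ∀ a ∈ A, ∃ x ∈ T, a ∈ S x
        · obtain ⟨h1, h2⟩ := Red_touch S hS2 T A h
          have h3 : A.card ≠ 2 * T.card := fun h3 => hC (h2 h3)
          exact hsm A T k (by omega)
        · rw [hun A T h, map_zero]
    have e4 : ∀ T : Finset (Fin G.X.length), PowerSeries.coeff k (mob (vT G N v T) A) =
        ∑ D : Fin 10 → Lab N, if ∀ i, i ∉ A → D (i + 1) = D i then
          (if (∀ x ∈ T, (S x).card = 2) ∧ Red_cv S T A then
            ∏ x ∈ T, (σ x * kD v (G.X.get x) D) else 0) else 0 := by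
      intro T
      rw [e3 T]
      by_cases hC : (∀ x ∈ T, (S x).card = 2) ∧ Red_cv S T A
      · rw [if_pos hC, Finset.mul_sum]
        apply Finset.sum_congr rfl
        intro D _
        rw [if_pos hC]
        by_cases hD : ∀ i, i ∉ A → D (i + 1) = D i
        · rw [if_pos hD, if_pos hD, Finset.prod_mul_distrib]
        · rw [if_neg hD, if_neg hD, mul_zero]
      · rw [if_neg hC]
        symm
        apply Finset.sum_eq_zero
        intro D _
        rw [if_neg hC, ite_self]
    rw [Finset.sum_congr rfl fun T _ => e4 T, Finset.sum_comm]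
    apply Finset.sum_congr rfl
    intro D _
    by_cases hD : ∀ i, i ∉ A → D (i + 1) = D i
    · rw [if_pos hD, Finset.sum_congr rfl fun T _ => if_pos hD]
      obtain ⟨e, he⟩ : ∃ e : Fin G.X.length → Fin 10 × Fin 10, e = fun x =>
        if iX x < jX x then (iX x, jX x) else (jX x, iX x) := ⟨_, rfl⟩
      have he2 : ∀ x, (S x).card = 2 → (e x).1 < (e x).2 ∧ S x = Red_B (e x) := by
        intro x hc
        obtain ⟨h1, h2, h3, h4⟩ := hX x hc
        rw [he]
        by_cases hlt : iX x < jX x
        · simp only [if_pos hlt]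
          exact ⟨hlt, h4⟩
        · simp only [if_neg hlt]
          refine ⟨lt_of_le_of_ne (not_lt.1 hlt) (Ne.symm h3), ?_⟩
          rw [h4]
          exact Finset.pair_comm _ _
      have hsum := Red_sum S e (fun x => σ x * kD v (G.X.get x) D) he2 Finset.univ A
      rw [Finset.powerset_univ] at hsum
      refine Eq.trans (Finset.sum_congr rfl fun T _ => ?_) (Eq.trans hsum ?_)
      · by_cases hC : (∀ x ∈ T, (S x).card = 2) ∧ Red_cv S T A
        · rw [if_pos hC, if_pos hC]
        · rw [if_neg hC, if_neg hC]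
      apply Finset.sum_congr rfl
      intro M hM
      apply Finset.prod_congr rfl
      intro f hf
      have hlt := ((Red_PM A M).1 hM).1 f hf
      unfold GG
      rw [← Fin.sum_univ_fun_getElem]
      apply Finset.sum_congr rfl
      intro x _
      change _ = hx v (G.X.get x) f.1 f.2 D + hx v (G.X.get x) f.2 f.1 D
      by_cases hc : (S x).card = 2
      · obtain ⟨h1, h2, h3, h4⟩ := hX x hc
        rw [Red_hx hv _ h1 h2, Red_hx hv _ h1 h2, Red_kD hv _ h1 h2, he, hσ]
        by_cases hij : iX x < jX x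
        · have h5 : ¬ (f.2 = iX x ∧ f.1 = jX x) := by
            rintro ⟨h6, h7⟩
            rw [h6, h7] at hlt
            exact absurd (hlt.trans hij) (lt_irrefl _)
          rw [if_neg h5, add_zero]
          simp only [if_pos hij]
          by_cases h6 : f.1 = iX x ∧ f.2 = jX x
          · rw [if_pos h6, if_pos ⟨hc, by rw [← h6.1, ← h6.2]⟩]
          · rw [if_neg h6, if_neg]
            rintro ⟨_, h7⟩
            exact h6 ⟨by rw [← h7], by rw [← h7]⟩
        · have h5 : ¬ (f.1 = iX x ∧ f.2 = jX x) := by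
            rintro ⟨h6, h7⟩
            rw [h6, h7] at hlt
            exact hij hlt
          rw [if_neg h5, zero_add]
          simp only [if_neg hij]
          by_cases h6 : f.2 = iX x ∧ f.1 = jX x
          · rw [if_pos h6, if_pos ⟨hc, by rw [← h6.1, ← h6.2]⟩]
          · rw [if_neg h6, if_neg]
            rintro ⟨_, h7⟩
            exact h6 ⟨by rw [← h7], by rw [← h7]⟩
      · rw [Red_hx_zero _ (S x) (hS x) (hS2 x) hc _ _ hlt.ne,
          Red_hx_zero _ (S x) (hS x) (hS2 x) hc _ _ hlt.ne', add_zero, if_neg (fun h => hc h.1)]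
    · rw [if_neg hD, Finset.sum_congr rfl fun T _ => if_neg hD, Finset.sum_const_zero]

end IBN
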