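import Pool.Agent.IBN.StA

/-!
# IBN, module SL: a crossing slides over a minimum or a maximum
-/

set_option autoImplicit false

namespace IBN

private theorem SL1_two (K : Type) [Field K] (q : Kˣ) (p : Bool)
    (F : Lab 2 → Lab 2 → Lab 2 → K) (z : Lab 2) :
    ∑ x : Lab 2, cupw q x (bar x) * opX q p (fun a b => F a b (bar x)) z x =
      ∑ x : Lab 2, cupw q x (bar x) * opX q (!p) (fun a b => F x a b) (bar x) z := by
  obtain ⟨b, i⟩ := z
  have hq : (q : K) ≠ 0 := q.ne_zero
  rcases b <;> rcases p <;> fin_cases i <;>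
  simp [Fintype.sum_prod_type, Fin.sum_univ_succ, cupw, opX, smo, lo, bar, zz, cx,
    Units.val_zpow_eq_zpow_val] <;> field_simp <;> ring

private theorem SL1_three (K : Type) [Field K] (q : Kˣ) (p : Bool)
    (F : Lab 3 → Lab 3 → Lab 3 → K) (z : Lab 3) :
    ∑ x : Lab 3, cupw q x (bar x) * opX q p (fun a b => F a b (bar x)) z x =
      ∑ x : Lab 3, cupw q x (bar x) * opX q (!p) (fun a b => F x a b) (bar x) z := by
  obtain ⟨b, i⟩ := z
  have hq : (q : K) ≠ 0 := q.ne_zero
  rcases b <;> rcases p <;> fin_cases i <;>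
  simp [Fintype.sum_prod_type, Fin.sum_univ_succ, cupw, opX, smo, lo, bar, zz, cx,
    Units.val_zpow_eq_zpow_val] <;> field_simp <;> ring

private theorem SL2_two (K : Type) [Field K] (q : Kˣ) (p : Bool) (F : Lab 2 → K) (x y w : Lab 2) :
    opX q p (fun a b => capw q b w * F a) x y =
      opX q (!p) (fun a b => capw q x a * F b) y w := by
  obtain ⟨b, i⟩ := x
  obtain ⟨c, j⟩ := y
  obtain ⟨d, k⟩ := w
  have hq : (q : K) ≠ 0 := q.ne_zero
  rcases b <;> rcases c <;> rcases d <;> rcases p <;> fin_cases i <;> fin_cases j <;>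
  fin_cases k <;>
  simp [Fin.sum_univ_succ, capw, opX, smo, lo, bar, zz, cx, Units.val_zpow_eq_zpow_val] <;>
  field_simp <;> ring_nf <;> simp

private theorem SL2_three (K : Type) [Field K] (q : Kˣ) (p : Bool) (F : Lab 3 → K)
    (x y w : Lab 3) :
    opX q p (fun a b => capw q b w * F a) x y =
      opX q (!p) (fun a b => capw q x a * F b) y w := by
  obtain ⟨b, i⟩ := x
  obtain ⟨c, j⟩ := y
  obtain ⟨d, k⟩ := w
  have hq : (q : K) ≠ 0 := q.ne_zero
  rcases b <;> rcases c <;> rcases d <;> rcases p <;> fin_cases i <;> fin_cases j <;>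
  fin_cases k <;>
  simp [Fin.sum_univ_succ, capw, opX, smo, lo, bar, zz, cx, Units.val_zpow_eq_zpow_val] <;>
  field_simp <;> ring_nf <;> simp

/-- **SL**: a crossing slides over a minimum or maximum. -/
theorem thm_SL : St_SL := by
  intro K _ q N hN p
  rcases hN with rfl | rfl
  · exact ⟨fun F z => SL1_two K q p F z, fun F x y w => SL2_two K q p F x y w⟩
  · exact ⟨fun F z => SL1_three K q p F z, fun F x y w => SL2_three K q p F x y w⟩

end IBN
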