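import Pool.Agent.IBN.StC

/-!
# IBN, module Slo: the cycle in terms of the slots
-/

set_option autoImplicit false

namespace IBN

private theorem Slo_zip (v : ℕ → ℕ) (ε : Finset (Fin 10)) :
    (cyc v ε).zip ((cyc v ε).rotate 1) = (List.finRange 10).flatMap fun s =>
      [(v (sS s), v (mS s (decide (s ∈ ε)))), (v (mS s (decide (s ∈ ε))), v (eS s)),
        (v (eS s), v (sS (s + 1)))] := rfl

private theorem Slo_get0 (v : ℕ → ℕ) (ε : Finset (Fin 10)) (s : Fin 10) :
    (cyc v ε).getD (3 * (s : ℕ)) 0 = v (sS s) := by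
  fin_cases s <;> rfl

private theorem Slo_get1 (v : ℕ → ℕ) (ε : Finset (Fin 10)) (s : Fin 10) :
    (cyc v ε).getD (3 * (s : ℕ) + 1) 0 = v (mS s (decide (s ∈ ε))) := by
  fin_cases s <;> rfl

private theorem Slo_get1' (v : ℕ → ℕ) (ε : Finset (Fin 10)) (s : Fin 10) :
    (cyc v ε).getD ((3 * (s : ℕ) + 1) % 30) 0 = v (mS s (decide (s ∈ ε))) := by
  fin_cases s <;> rfl

private theorem Slo_get2 (v : ℕ → ℕ) (ε : Finset (Fin 10)) (s : Fin 10) :
    (cyc v ε).getD (3 * (s : ℕ) + 2) 0 = v (eS s) := by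
  fin_cases s <;> rfl

private theorem Slo_get2' (v : ℕ → ℕ) (ε : Finset (Fin 10)) (s : Fin 10) :
    (cyc v ε).getD ((3 * (s : ℕ) + 2) % 30) 0 = v (eS s) := by
  fin_cases s <;> rfl

private theorem Slo_get3 (v : ℕ → ℕ) (ε : Finset (Fin 10)) (s : Fin 10) :
    (cyc v ε).getD ((3 * (s : ℕ) + 3) % 30) 0 = v (sS (s + 1)) := by
  fin_cases s <;> rfl

private theorem Slo_get4 (v : ℕ → ℕ) (ε : Finset (Fin 10)) (s : Fin 10) :
    (cyc v ε).getD ((3 * (s : ℕ) + 4) % 30) 0 = v (mS (s + 1) (decide (s + 1 ∈ ε))) := by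
  fin_cases s <;> rfl

private theorem Slo_range : List.range 30 = (List.finRange 10).flatMap fun s : Fin 10 =>
    [3 * (s : ℕ), 3 * (s : ℕ) + 1, 3 * (s : ℕ) + 2] := by decide

private theorem Slo_prod {α β M : Type} [Monoid M] (l : List α) (f : α → List β) (g : β → M) :
    ((l.flatMap f).map g).prod = (l.map fun a => ((f a).map g).prod).prod := by
  induction l with
  | nil => rfl
  | cons a l ih =>
    rw [List.flatMap_cons, List.map_append, List.prod_append, ih, List.map_cons, List.prod_cons]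

private theorem Slo_ord (s : Fin 10) (b : Bool) :
    sS s < mS s b ∧ mS s b < eS s ∧ sS s < eS s ∧ eS s < 40 := by
  revert s b; decide

private theorem Slo_cmp (s : Fin 10) (b : Bool) :
    (mS s b < sS (s + 1) ↔ sS s < sS (s + 1)) ∧ (eS s < mS (s + 1) b ↔ eS s < eS (s + 1)) ∧
      sS s ≠ sS (s + 1) ∧ mS s b ≠ sS (s + 1) ∧ eS s ≠ mS (s + 1) b ∧ eS s ≠ eS (s + 1) := by
  revert s b; decide

private theorem Slo_disj (s t : Fin 10) (h : s ≠ t) (b c : Bool) :
    List.Disjoint [sS s, mS s b, eS s] [sS t, mS t c, eS t] := by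
  have h1 : ∀ s t : Fin 10, s ≠ t → ∀ b c : Bool, ∀ a ∈ [sS s, mS s b, eS s],
      a ∉ [sS t, mS t c, eS t] := by decide
  intro a h2 h3
  exact h1 s t h b c a h2 h3

private theorem Slo_map (v : ℕ → ℕ) (ε : Finset (Fin 10)) :
    cyc v ε = ((List.finRange 10).flatMap fun s =>
      [sS s, mS s (decide (s ∈ ε)), eS s]).map v := rfl

private theorem Slo_lt (ε : Finset (Fin 10)) :
    ∀ a ∈ (List.finRange 10).flatMap (fun s => [sS s, mS s (decide (s ∈ ε)), eS s]), a < 40 := by
  intro a ha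
  rw [List.mem_flatMap] at ha
  obtain ⟨s, -, hs⟩ := ha
  have h := Slo_ord s (decide (s ∈ ε))
  simp only [List.mem_cons, List.not_mem_nil, or_false] at hs
  omega

private theorem Slo_nodup (ε : Finset (Fin 10)) :
    ((List.finRange 10).flatMap fun s => [sS s, mS s (decide (s ∈ ε)), eS s]).Nodup := by
  rw [List.nodup_flatMap]
  refine ⟨fun s _ => ?_, ?_⟩
  · have h := Slo_ord s (decide (s ∈ ε))
    simp only [List.nodup_cons, List.mem_cons, List.not_mem_nil, or_false, not_false_eq_true,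
      List.nodup_nil, and_true, not_or]
    omega
  · exact (List.nodup_finRange 10).pairwise_of_forall_ne fun s _ t _ h =>
      Slo_disj s t h (decide (s ∈ ε)) (decide (t ∈ ε))

private theorem Slo_inj {n : ℕ} {v : ℕ → ℕ} (hv : Inc n v) {a b : ℕ} (ha : a < 40) (hb : b < 40)
    (h : v a = v b) : a = b := by
  rcases lt_trichotomy a b with h1 | h1 | h1
  · have := hv.1 a b h1 hb
    omega
  · exact h1
  · have := hv.1 b a h1 ha
    omega

private theorem Slo_lt_iff {n : ℕ} {v : ℕ → ℕ} (hv : Inc n v) {a b : ℕ} (ha : a < 40)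
    (hb : b < 40) : v a < v b ↔ a < b := by
  constructor
  · intro h
    by_contra h1
    rcases Nat.lt_or_ge b a with h2 | h2
    · have := hv.1 b a h2 ha
      omega
    · have : a = b := by omega
      subst this
      omega
  · intro h
    exact hv.1 a b h hb

private theorem Slo_vrt {A : Type} [CommRing A] (q : Aˣ) {N a b c d : ℕ} (h : a < b ↔ c < d) :
    vrt (N := N) q a b = vrt q c d := by
  unfold vrt
  by_cases h1 : c < d
  · rw [if_pos h1, if_pos (h.mpr h1)]
  · rw [if_neg h1, if_neg (fun h2 => h1 (h.mp h2))]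

theorem thm_Slo : St_Slo := by
  intro n v hv ε
  refine ⟨⟨?_, ?_, ?_⟩, ?_, ?_⟩
  · rw [Slo_map]
    exact List.Nodup.map_on (fun a ha b hb h => Slo_inj hv (Slo_lt ε a ha) (Slo_lt ε b hb) h)
      (Slo_nodup ε)
  · show 3 ≤ 30
    omega
  · intro w hw
    rw [Slo_map, List.mem_map] at hw
    obtain ⟨a, ha, rfl⟩ := hw
    exact hv.2 a (Slo_lt ε a ha)
  · intro i j hij
    unfold edge
    rw [decide_eq_true_iff, Slo_zip, List.mem_flatMap, List.mem_flatMap]
    have hlt : ∀ s : Fin 10, v (sS s) < v (mS s (decide (s ∈ ε))) ∧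
        v (mS s (decide (s ∈ ε))) < v (eS s) := by
      intro s
      have h := Slo_ord s (decide (s ∈ ε))
      exact ⟨hv.1 _ _ h.1 (by omega), hv.1 _ _ h.2.1 h.2.2.2⟩
    constructor
    · rintro (⟨s, -, hs⟩ | ⟨s, -, hs⟩)
      · simp only [List.mem_cons, Prod.mk.injEq, List.not_mem_nil, or_false] at hs
        rcases hs with h | h | h
        · exact Or.inl ⟨s, Or.inl h⟩
        · exact Or.inl ⟨s, Or.inr h⟩
        · exact Or.inr ⟨s, Or.inl h⟩
      · simp only [List.mem_cons, Prod.mk.injEq, List.not_mem_nil, or_false] at hs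
        have h1 := hlt s
        rcases hs with h | h | h
        · exfalso
          rw [h.1, h.2] at hij
          omega
        · exfalso
          rw [h.1, h.2] at hij
          omega
        · exact Or.inr ⟨s, Or.inr h⟩
    · rintro (⟨s, h | h⟩ | ⟨s, h | h⟩)
      · exact Or.inl ⟨s, List.mem_finRange s, by simp [h.1, h.2]⟩
      · exact Or.inl ⟨s, List.mem_finRange s, by simp [h.1, h.2]⟩
      · exact Or.inl ⟨s, List.mem_finRange s, by simp [h.1, h.2]⟩
      · exact Or.inr ⟨s, List.mem_finRange s, by simp [h.1, h.2]⟩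
  · intro A _ q N F rr
    have hlen : (cyc v ε).length = 30 := rfl
    unfold loopM
    rw [hlen, Slo_range, Slo_prod]
    congr 1
    refine List.map_congr_left fun s _ => ?_
    have h0 := Slo_ord s (decide (s ∈ ε))
    have h1 := Slo_ord (s + 1) (decide (s + 1 ∈ ε))
    have h2 := Slo_cmp s (decide (s ∈ ε))
    have h3 := Slo_cmp s (decide (s + 1 ∈ ε))
    simp only [List.map_cons, List.map_nil, List.prod_cons, List.prod_nil, mul_one]
    rw [Slo_get0, Slo_get1, Slo_get2, Slo_get1', Slo_get2',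
      show 3 * (s : ℕ) + 1 + 2 = 3 * (s : ℕ) + 3 from rfl,
      show 3 * (s : ℕ) + 2 + 1 = 3 * (s : ℕ) + 3 from rfl,
      show 3 * (s : ℕ) + 2 + 2 = 3 * (s : ℕ) + 4 from rfl, Slo_get3, Slo_get4]
    have e1 : edgM q F rr (v (sS s)) (v (mS s (decide (s ∈ ε)))) =
        fwd q F rr (v (sS s)) (v (mS s (decide (s ∈ ε)))) := by
      unfold edgM
      rw [if_pos (hv.1 _ _ h0.1 (by omega))]
    have e2 : edgM q F rr (v (mS s (decide (s ∈ ε)))) (v (eS s)) =
        fwd q F rr (v (mS s (decide (s ∈ ε)))) (v (eS s)) := by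
      unfold edgM
      rw [if_pos (hv.1 _ _ h0.2.1 h0.2.2.2)]
    have e3 : vrt (N := N) q (v (sS s)) (v (eS s)) = uM q := by
      unfold vrt
      rw [if_pos (hv.1 _ _ h0.2.2.1 h0.2.2.2)]
    have e4 : vrt (N := N) q (v (mS s (decide (s ∈ ε)))) (v (sS (s + 1))) =
        vrt q (v (sS s)) (v (sS (s + 1))) := by
      refine Slo_vrt q ?_
      rw [Slo_lt_iff hv (by omega) (by omega), Slo_lt_iff hv (by omega) (by omega)]
      exact h2.1
    have e5 : vrt (N := N) q (v (eS s)) (v (mS (s + 1) (decide (s + 1 ∈ ε)))) =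
        vrt q (v (eS s)) (v (eS (s + 1))) := by
      refine Slo_vrt q ?_
      rw [Slo_lt_iff hv (by omega) (by omega), Slo_lt_iff hv (by omega) (by omega)]
      exact h3.2.1
    rw [e1, e2, e3, e4, e5]
    simp only [mul_assoc]

end IBN
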