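import Pool.Agent.IBN.StB

/-!
# IBN : module TBa, the action of crossings on the functions of two maxima
-/

set_option autoImplicit false
set_option linter.unusedSimpArgs false

namespace IBN

section tab

variable {K : Type} [Field K]

private theorem TBa_tab0 (a : Kˣ) (z : K) (i : ℕ) (hi : i ≠ 1) (X : Bool → Pr → K) (m : Pr → K)
    (C : Pr → Prop) (h1 : ∀ t, X t .a = m .a) (h2 : X true .b = m .c) (h3 : X false .c = m .b)
    (h4 : C .b → C .c → X false .b =
      ((a⁻¹ : Kˣ) : K) ^ 2 * m .c - ((a⁻¹ : Kˣ) : K) * z * m .b)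
    (h5 : C .a → C .c → X false .b = (a : K) ^ 2 * m .c + a * z * m .a)
    (h6 : C .b → C .c → X true .c = (a : K) ^ 2 * m .b + a * z * m .c)
    (h7 : C .a → C .b → X true .c =
      ((a⁻¹ : Kˣ) : K) ^ 2 * m .b - ((a⁻¹ : Kˣ) : K) * z * m .a)
    (t : Bool) (p s : Pr) (hps : p ≠ s) (hp : C (swI i p)) (hs : C (swI i s)) (v : K × K) :
    z * v.1 * X t p + v.2 * X t s =
      z * (stpO a (z ^ 2) (trI i t p s) v).1 * m (swI i p) +
        (stpO a (z ^ 2) (trI i t p s) v).2 * m (swI i s) := by
  have e1 : swI i .a = .a := by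
    unfold swI
    rw [if_neg hi]
  have e2 : swI i .b = .c := by
    unfold swI
    rw [if_neg hi]
  have e3 : swI i .c = .b := by
    unfold swI
    rw [if_neg hi]
  have e4 : trI i t p s = trI 0 t p s := by
    unfold trI
    rw [if_neg hi, if_neg zero_ne_one]
  rw [e4]
  cases p <;> cases s <;> first | exact absurd rfl hps | skip
  · rw [e1] at hp
    rw [e2] at hs
    rw [e1, e2, h1 t]
    cases t
    · have e5 : trI 0 false .a .b = some (false, true) := rfl
      rw [h5 hp hs, e5]
      simp only [stpO, stp]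
      ring
    · have e5 : trI 0 true .a .b = none := rfl
      rw [h2, e5]
      simp only [stpO]
  · rw [e1] at hp
    rw [e3] at hs
    rw [e1, e3, h1 t]
    cases t
    · have e5 : trI 0 false .a .c = none := rfl
      rw [h3, e5]
      simp only [stpO]
    · have e5 : trI 0 true .a .c = some (false, false) := rfl
      rw [h7 hp hs, e5]
      simp only [stpO, stp]
      ring
  · rw [e2] at hp
    rw [e1] at hs
    rw [e1, e2, h1 t]
    cases t
    · have e5 : trI 0 false .b .a = some (true, true) := rfl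
      rw [h5 hs hp, e5]
      simp only [stpO, stp]
      ring
    · have e5 : trI 0 true .b .a = none := rfl
      rw [h2, e5]
      simp only [stpO]
  · rw [e2] at hp
    rw [e3] at hs
    rw [e2, e3]
    cases t
    · have e5 : trI 0 false .b .c = some (true, false) := rfl
      rw [h4 hs hp, h3, e5]
      simp only [stpO, stp]
      ring
    · have e5 : trI 0 true .b .c = some (false, true) := rfl
      rw [h6 hs hp, h2, e5]
      simp only [stpO, stp]
      ring
  · rw [e3] at hp
    rw [e1] at hs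
    rw [e1, e3, h1 t]
    cases t
    · have e5 : trI 0 false .c .a = none := rfl
      rw [h3, e5]
      simp only [stpO]
    · have e5 : trI 0 true .c .a = some (true, false) := rfl
      rw [h7 hs hp, e5]
      simp only [stpO, stp]
      ring
  · rw [e3] at hp
    rw [e2] at hs
    rw [e2, e3]
    cases t
    · have e5 : trI 0 false .c .b = some (false, false) := rfl
      rw [h4 hp hs, h3, e5]
      simp only [stpO, stp]
      ring
    · have e5 : trI 0 true .c .b = some (true, true) := rfl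
      rw [h6 hp hs, h2, e5]
      simp only [stpO, stp]
      ring

private theorem TBa_tab1 (a : Kˣ) (z : K) (X : Bool → Pr → K) (m : Pr → K)
    (C : Pr → Prop) (h1 : ∀ t, X t .b = m .b) (h2 : X true .c = m .a) (h3 : X false .a = m .c)
    (h4 : C .b → C .c → X true .a =
      ((a⁻¹ : Kˣ) : K) ^ 2 * m .c - ((a⁻¹ : Kˣ) : K) * z * m .b)
    (h5 : C .a → C .b → X false .c = (a : K) ^ 2 * m .a + a * z * m .b)
    (h6 : C .a → C .c → X true .a = (a : K) ^ 2 * m .c + a * z * m .a)
    (h7 : C .a → C .c → X false .c =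
      ((a⁻¹ : Kˣ) : K) ^ 2 * m .a - ((a⁻¹ : Kˣ) : K) * z * m .c)
    (t : Bool) (p s : Pr) (hps : p ≠ s) (hp : C (swI 1 p)) (hs : C (swI 1 s)) (v : K × K) :
    z * v.1 * X t p + v.2 * X t s =
      z * (stpO a (z ^ 2) (trI 1 t p s) v).1 * m (swI 1 p) +
        (stpO a (z ^ 2) (trI 1 t p s) v).2 * m (swI 1 s) := by
  have e1 : swI 1 .a = .c := rfl
  have e2 : swI 1 .b = .b := rfl
  have e3 : swI 1 .c = .a := rfl
  cases p <;> cases s <;> first | exact absurd rfl hps | skip
  · rw [e1] at hp
    rw [e2] at hs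
    rw [e1, e2, h1 t]
    cases t
    · have e5 : trI 1 false .a .b = none := rfl
      rw [h3, e5]
      simp only [stpO]
    · have e5 : trI 1 true .a .b = some (true, false) := rfl
      rw [h4 hs hp, e5]
      simp only [stpO, stp]
      ring
  · rw [e1] at hp
    rw [e3] at hs
    rw [e1, e3]
    cases t
    · have e5 : trI 1 false .a .c = some (false, false) := rfl
      rw [h7 hs hp, h3, e5]
      simp only [stpO, stp]
      ring
    · have e5 : trI 1 true .a .c = some (true, true) := rfl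
      rw [h6 hs hp, h2, e5]
      simp only [stpO, stp]
      ring
  · rw [e2] at hp
    rw [e1] at hs
    rw [e1, e2, h1 t]
    cases t
    · have e5 : trI 1 false .b .a = none := rfl
      rw [h3, e5]
      simp only [stpO]
    · have e5 : trI 1 true .b .a = some (false, false) := rfl
      rw [h4 hp hs, e5]
      simp only [stpO, stp]
      ring
  · rw [e2] at hp
    rw [e3] at hs
    rw [e2, e3, h1 t]
    cases t
    · have e5 : trI 1 false .b .c = some (false, true) := rfl
      rw [h5 hs hp, e5]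
      simp only [stpO, stp]
      ring
    · have e5 : trI 1 true .b .c = none := rfl
      rw [h2, e5]
      simp only [stpO]
  · rw [e3] at hp
    rw [e1] at hs
    rw [e1, e3]
    cases t
    · have e5 : trI 1 false .c .a = some (true, false) := rfl
      rw [h7 hp hs, h3, e5]
      simp only [stpO, stp]
      ring
    · have e5 : trI 1 true .c .a = some (false, true) := rfl
      rw [h6 hp hs, h2, e5]
      simp only [stpO, stp]
      ring
  · rw [e3] at hp
    rw [e2] at hs
    rw [e2, e3, h1 t]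
    cases t
    · have e5 : trI 1 false .c .b = some (true, true) := rfl
      rw [h5 hp hs, e5]
      simp only [stpO, stp]
      ring
    · have e5 : trI 1 true .c .b = none := rfl
      rw [h2, e5]
      simp only [stpO]

end tab

section TBa

variable {K : Type} [Field K] (q : Kˣ) {N : ℕ}

/-! ### linearity and skein relations, for every `N` -/

private theorem TBa_smo (s : Bool) (F G : Lab N → Lab N → K) (α β : K) (x y : Lab N) :
    smo q s (fun a b => α * F a b + β * G a b) x y = α * smo q s F x y + β * smo q s G x y := by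
  unfold smo
  by_cases h1 : x.1 = y.1
  · rw [if_pos h1, if_pos h1, if_pos h1]
    by_cases h3 : (if s = true then lo x.1 x.2 y.2 else lo x.1 y.2 x.2) = true
    · rw [if_pos h3, if_pos h3, if_pos h3]
    · rw [if_neg h3, if_neg h3, if_neg h3]
      ring
  · rw [if_neg h1, if_neg h1, if_neg h1]
    by_cases h2 : x.2 = y.2
    · rw [if_pos h2, if_pos h2, if_pos h2, Finset.mul_sum, Finset.mul_sum,
        ← Finset.sum_add_distrib]
      refine Finset.sum_congr rfl fun k _ => ?_
      by_cases h3 : (if s = true then lo x.1 k x.2 else lo x.1 x.2 k) = true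
      · rw [if_pos h3, if_pos h3, if_pos h3]
        ring
      · rw [if_neg h3, if_neg h3, if_neg h3]
        ring
    · rw [if_neg h2, if_neg h2, if_neg h2]
      ring

private theorem TBa_lin (p : Bool) (F G : Lab N → Lab N → K) (α β : K) (x y : Lab N) :
    opX q p (fun a b => α * F a b + β * G a b) x y = α * opX q p F x y + β * opX q p G x y := by
  unfold opX
  rw [TBa_smo, TBa_smo]
  by_cases h : p = (x.1 == y.1)
  · rw [if_pos h, if_pos h, if_pos h]
    ring
  · rw [if_neg h, if_neg h, if_neg h]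
    ring

private theorem TBa_mul (p : Bool) (F : Lab N → Lab N → K) (α : K) (x y : Lab N) :
    opX q p (fun a b => α * F a b) x y = α * opX q p F x y := by
  have h := TBa_lin q p F F α 0 x y
  rw [zero_mul, add_zero] at h
  rw [← h]
  refine congrArg (fun G => opX q p G x y) ?_
  funext a b
  ring

private theorem TBa_aa : (((q ^ (-(N : ℤ)))⁻¹ : Kˣ) : K) * ((q ^ (-(N : ℤ)) : Kˣ) : K) = 1 := by
  rw [← Units.val_mul, inv_mul_cancel, Units.val_one]

private theorem TBa_inv : ((q ^ (N : ℤ) : Kˣ) : K) = (((q ^ (-(N : ℤ)))⁻¹ : Kˣ) : K) := by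
  rw [zpow_neg, inv_inv]

private theorem TBa_lo (b : Bool) (i j : Fin N) (h : i ≠ j) : lo b j i = !(lo b i j) := by
  unfold lo
  rcases lt_or_gt_of_ne h with h1 | h1
  · have h2 : ¬ j < i := not_lt.2 h1.le
    cases b <;> simp [h1, h2]
  · have h2 : ¬ i < j := not_lt.2 h1.le
    cases b <;> simp [h1, h2]

private theorem TBa_lo_self (b : Bool) (i : Fin N) : lo b i i = false := by
  unfold lo
  cases b <;> simp

private theorem TBa_pt (F : Lab N → Lab N → K) (x y : Lab N) (h : x.1 = y.1) :
    opX q true F x y = ((q ^ (-(N : ℤ)) : Kˣ) : K) *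
      ((if x.2 = y.2 then (q : K) else 1) * F y x + zz q * smo q true F x y) := by
  have hb : (x.1 == y.1) = true := by
    rw [h]
    exact beq_self_eq_true _
  unfold opX
  rw [hb]
  rfl

private theorem TBa_pf (F : Lab N → Lab N → K) (x y : Lab N) (h : x.1 = y.1) :
    opX q false F x y = (((q ^ (-(N : ℤ)))⁻¹ : Kˣ) : K) *
      ((if x.2 = y.2 then ((q⁻¹ : Kˣ) : K) else 1) * F y x - zz q * smo q false F x y) := by
  have hb : (x.1 == y.1) = true := by
    rw [h]
    exact beq_self_eq_true _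
  unfold opX
  rw [hb, ← TBa_inv]
  rfl

private theorem TBa_at (F : Lab N → Lab N → K) (x y : Lab N) (h : x.1 ≠ y.1) :
    opX q true F x y = (((q ^ (-(N : ℤ)))⁻¹ : Kˣ) : K) *
      ((if x.2 = y.2 then ((q⁻¹ : Kˣ) : K) else 1) * F y x - zz q * smo q false F x y) := by
  have hb : (x.1 == y.1) = false := by
    rw [beq_eq_false_iff_ne]
    exact h
  unfold opX
  rw [hb, ← TBa_inv]
  rfl

private theorem TBa_af (F : Lab N → Lab N → K) (x y : Lab N) (h : x.1 ≠ y.1) :
    opX q false F x y = ((q ^ (-(N : ℤ)) : Kˣ) : K) *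
      ((if x.2 = y.2 then (q : K) else 1) * F y x + zz q * smo q true F x y) := by
  have hb : (x.1 == y.1) = false := by
    rw [beq_eq_false_iff_ne]
    exact h
  unfold opX
  rw [hb]
  rfl

private theorem TBa_par (F : Lab N → Lab N → K) (x y : Lab N) (h : x.1 = y.1) :
    (((q ^ (-(N : ℤ)))⁻¹ : Kˣ) : K) * opX q true F x y -
      ((q ^ (-(N : ℤ)) : Kˣ) : K) * opX q false F x y = zz q * F x y := by
  have ha := TBa_aa q (N := N)
  have s1 : smo q true F x y = if lo x.1 x.2 y.2 = true then F x y else 0 := by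
    unfold smo
    rw [if_pos h]
    rfl
  have s2 : smo q false F x y = if lo x.1 y.2 x.2 = true then F x y else 0 := by
    unfold smo
    rw [if_pos h]
    rfl
  rw [TBa_pt q F x y h, TBa_pf q F x y h, s1, s2]
  by_cases h2 : x.2 = y.2
  · have hxy : x = y := Prod.ext h h2
    subst hxy
    rw [if_pos rfl, if_pos rfl, TBa_lo_self]
    unfold zz
    simp only [Bool.false_eq_true, if_false]
    linear_combination ((q : K) * F x x - ((q⁻¹ : Kˣ) : K) * F x x) * ha
  · rw [if_neg h2, if_neg h2]
    have h3 := TBa_lo x.1 x.2 y.2 h2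
    rw [h3]
    cases lo x.1 x.2 y.2
    · simp only [Bool.false_eq_true, if_false, Bool.not_false, if_true]
      linear_combination (zz q * F x y) * ha
    · simp only [Bool.false_eq_true, if_false, Bool.not_true, if_true]
      linear_combination (zz q * F x y) * ha

private theorem TBa_split (b : Bool) (j : Fin N) (W : Fin N → K) :
    ∑ k, W k = W j + (∑ k, if lo b k j = true then W k else 0) +
      ∑ k, if lo b j k = true then W k else 0 := by
  have h1 : W j = ∑ k, if k = j then W k else 0 := by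
    rw [Finset.sum_ite_eq' Finset.univ j W, if_pos (Finset.mem_univ j)]
  rw [h1, ← Finset.sum_add_distrib, ← Finset.sum_add_distrib]
  refine Finset.sum_congr rfl fun k _ => ?_
  by_cases h : k = j
  · subst h
    rw [if_pos rfl, TBa_lo_self]
    simp only [Bool.false_eq_true, if_false]
    ring
  · rw [if_neg h, TBa_lo b k j h]
    cases lo b k j
    · simp only [Bool.false_eq_true, if_false, Bool.not_false, if_true]
      ring
    · simp only [Bool.false_eq_true, if_false, Bool.not_true, if_true]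
      ring

private theorem TBa_anti (F : Lab N → Lab N → K) (x y : Lab N) (h : x.1 ≠ y.1) :
    ((q ^ (-(N : ℤ)) : Kˣ) : K) * opX q true F x y -
      (((q ^ (-(N : ℤ)))⁻¹ : Kˣ) : K) * opX q false F x y =
      -(zz q * (capw q x y *
        ∑ k : Fin N, cupw q (!x.1, k) (x.1, k) * F (!x.1, k) (x.1, k))) := by
  have ha := TBa_aa q (N := N)
  have hy : y.1 = !x.1 := by
    revert h
    cases x.1 <;> cases y.1 <;> decide
  rw [TBa_at q F x y h, TBa_af q F x y h]
  by_cases h2 : x.2 = y.2
  · have hyx : y = bar x := by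
      unfold bar
      exact Prod.ext hy h2.symm
    have hW : ∀ k : Fin N, capw q x y * (cupw q (!x.1, k) (x.1, k) * F (!x.1, k) (x.1, k)) =
        (if x.1 = true then 1 else ((q ^ (cx x.2 - cx k) : Kˣ) : K)) * F (y.1, k) (x.1, k) := by
      intro k
      have h4 : capw q x y = if x.1 = true then 1 else ((q ^ cx x.2 : Kˣ) : K) := by
        unfold capw
        rw [if_pos hyx]
      have h5 : cupw q (!x.1, k) (x.1, k) =
          if (!x.1) = true then ((q ^ (-cx k) : Kˣ) : K) else 1 := by
        unfold cupw bar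
        rw [if_pos (by simp)]
      rw [h4, h5, hy]
      cases x.1
      · simp only [Bool.false_eq_true, if_false, Bool.not_false, if_true]
        rw [sub_eq_add_neg, zpow_add, Units.val_mul]
        ring
      · simp only [Bool.false_eq_true, if_false, Bool.not_true, if_true]
        ring
    have s1 : smo q true F x y = ∑ k : Fin N, if lo x.1 k x.2 = true then
        (if x.1 = true then 1 else ((q ^ (cx x.2 - cx k) : Kˣ) : K)) * F (y.1, k) (x.1, k)
        else 0 := by
      unfold smo
      rw [if_neg h, if_pos h2]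
      rfl
    have s2 : smo q false F x y = ∑ k : Fin N, if lo x.1 x.2 k = true then
        (if x.1 = true then 1 else ((q ^ (cx x.2 - cx k) : Kˣ) : K)) * F (y.1, k) (x.1, k)
        else 0 := by
      unfold smo
      rw [if_neg h, if_pos h2]
      rfl
    have h8 := TBa_split x.1 x.2 (fun k =>
      (if x.1 = true then 1 else ((q ^ (cx x.2 - cx k) : Kˣ) : K)) * F (y.1, k) (x.1, k))
    have h6 : (if x.1 = true then (1 : K) else ((q ^ (cx x.2 - cx x.2) : Kˣ) : K)) = 1 := by
      cases x.1
      · simp only [Bool.false_eq_true, if_false]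
        rw [sub_self, zpow_zero, Units.val_one]
      · rfl
    have h7 : F (y.1, x.2) (x.1, x.2) = F y x := by
      rw [h2]
      have h9 : (x.1, y.2) = x := Prod.ext rfl h2.symm
      rw [h9]
    have h10 : capw q x y *
        ∑ k : Fin N, cupw q (!x.1, k) (x.1, k) * F (!x.1, k) (x.1, k) =
        F y x + smo q true F x y + smo q false F x y := by
      rw [Finset.mul_sum, Finset.sum_congr rfl fun k _ => hW k, h8, s1, s2, h6, h7, one_mul]
    rw [h10, if_pos h2, if_pos h2]
    unfold zz
    linear_combination ((((q⁻¹ : Kˣ) : K)) * F y x - (q : K) * F y x -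
      ((q : K) - ((q⁻¹ : Kˣ) : K)) * (smo q true F x y + smo q false F x y)) * ha
  · have hc : capw q x y = (0 : K) := by
      unfold capw
      rw [if_neg]
      intro h3
      apply h2
      rw [h3]
      rfl
    have s1 : smo q true F x y = 0 := by
      unfold smo
      rw [if_neg h, if_neg h2]
    have s2 : smo q false F x y = 0 := by
      unfold smo
      rw [if_neg h, if_neg h2]
    rw [hc, s1, s2, if_neg h2, if_neg h2]
    ring

/-! ### facts proved by computation, for `N = 2`, `3` -/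

/-- first and second Reidemeister moves, slides, smoothings -/
private structure TBaF (q : Kˣ) (N : ℕ) : Prop where
  kink : ∀ (p : Bool) (x y : Lab N), opX q p (capw q) x y = (capw q x y : K)
  r2 : ∀ (p : Bool) (F : Lab N → Lab N → K) (x y : Lab N),
    opX q p (opX q (!p) F) x y = F x y
  sl : ∀ (p : Bool) (F : Lab N → K) (x y w : Lab N),
    opX q p (fun a b => capw q b w * F a) x y = opX q (!p) (fun a b => capw q x a * F b) y w
  b0 : ∀ (s : Bool) (j l : Fin N), ∑ k : Fin N, cupw q (!s, k) (s, k) *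
    (capw q (s, k) (!s, j) * capw q (!s, k) (s, l)) = (capw q (!s, j) (s, l) : K)
  b2 : ∀ (s : Bool) (j l : Fin N), ∑ k : Fin N, cupw q (!s, k) (s, k) *
    (capw q (s, j) (!s, k) * capw q (!s, l) (s, k)) = (capw q (!s, l) (s, j) : K)
  a1 : ∀ (s : Bool) (j l : Fin N), ∑ k : Fin N, cupw q (!s, k) (s, k) *
    (capw q (s, j) (!s, k) * capw q (s, k) (!s, l)) = (capw q (s, j) (!s, l) : K)
  c0 : ∀ (s : Bool) (j l : Fin N), ∑ k : Fin N, cupw q (!s, k) (s, k) *
    mm q .c (!s, k) (s, k) (s, j) (!s, l) = (capw q (s, j) (!s, l) : K)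
  c2 : ∀ (s : Bool) (j l : Fin N), ∑ k : Fin N, cupw q (!s, k) (s, k) *
    mm q .c (s, j) (!s, l) (!s, k) (s, k) = (capw q (s, j) (!s, l) : K)
  c1 : ∀ (s : Bool) (j l : Fin N), ∑ k : Fin N, cupw q (!s, k) (s, k) *
    mm q .c (!s, j) (!s, k) (s, k) (s, l) = (capw q (!s, j) (s, l) : K)

private theorem TBa_two : TBaF q 2 := by
  have hq : (q : K) ≠ 0 := q.ne_zero
  refine ⟨?_, ?_, ?_, ?_, ?_, ?_, ?_, ?_, ?_⟩
  · intro p x y
    obtain ⟨b, i⟩ := x
    obtain ⟨b', j⟩ := y
    cases p <;> cases b <;> cases b' <;> fin_cases i <;> fin_cases j <;>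
      simp [opX, smo, lo, cx, zz, capw, bar, Fin.sum_univ_two,
        Units.val_zpow_eq_zpow_val, Units.val_inv_eq_inv_val] <;> field_simp <;> ring
  · intro p F x y
    obtain ⟨b, i⟩ := x
    obtain ⟨c, j⟩ := y
    cases p <;> cases b <;> cases c <;> fin_cases i <;> fin_cases j <;>
      simp [opX, smo, lo, cx, zz, Fin.sum_univ_succ, Units.val_zpow_eq_zpow_val,
        Units.val_inv_eq_inv_val] <;> field_simp <;> ring
  · intro p F x y w
    obtain ⟨b, i⟩ := x
    obtain ⟨c, j⟩ := y
    obtain ⟨d, k⟩ := w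
    rcases b <;> rcases c <;> rcases d <;> rcases p <;> fin_cases i <;> fin_cases j <;>
    fin_cases k <;>
    simp [Fin.sum_univ_succ, capw, opX, smo, lo, bar, zz, cx, Units.val_zpow_eq_zpow_val] <;>
    field_simp <;> ring_nf <;> simp
  · intro s j l
    cases s <;> fin_cases j <;> fin_cases l <;>
      simp [cupw, capw, bar, cx, Fin.sum_univ_succ, Units.val_zpow_eq_zpow_val]
  · intro s j l
    cases s <;> fin_cases j <;> fin_cases l <;>
      simp [cupw, capw, bar, cx, Fin.sum_univ_succ, Units.val_zpow_eq_zpow_val]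
  · intro s j l
    cases s <;> fin_cases j <;> fin_cases l <;>
      simp [cupw, capw, bar, cx, Fin.sum_univ_succ, Units.val_zpow_eq_zpow_val]
  · intro s j l
    cases s <;> fin_cases j <;> fin_cases l <;>
      simp [mm, opX, smo, lo, zz, cupw, capw, bar, cx, Fin.sum_univ_succ,
        Units.val_zpow_eq_zpow_val] <;> field_simp <;> ring
  · intro s j l
    cases s <;> fin_cases j <;> fin_cases l <;>
      simp [mm, opX, smo, lo, zz, cupw, capw, bar, cx, Fin.sum_univ_succ,
        Units.val_zpow_eq_zpow_val] <;> field_simp <;> ring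
  · intro s j l
    cases s <;> fin_cases j <;> fin_cases l <;>
      simp [mm, opX, smo, lo, zz, cupw, capw, bar, cx, Fin.sum_univ_succ,
        Units.val_zpow_eq_zpow_val] <;> field_simp <;> ring

private theorem TBa_three : TBaF q 3 := by
  have hq : (q : K) ≠ 0 := q.ne_zero
  refine ⟨?_, ?_, ?_, ?_, ?_, ?_, ?_, ?_, ?_⟩
  · intro p x y
    obtain ⟨b, i⟩ := x
    obtain ⟨b', j⟩ := y
    cases p <;> cases b <;> cases b' <;> fin_cases i <;> fin_cases j <;>
      simp [opX, smo, lo, cx, zz, capw, bar, Fin.sum_univ_three,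
        Units.val_zpow_eq_zpow_val, Units.val_inv_eq_inv_val] <;> field_simp <;> ring
  · intro p F x y
    obtain ⟨b, i⟩ := x
    obtain ⟨c, j⟩ := y
    cases p <;> cases b <;> cases c <;> fin_cases i <;> fin_cases j <;>
      simp [opX, smo, lo, cx, zz, Fin.sum_univ_succ, Units.val_zpow_eq_zpow_val,
        Units.val_inv_eq_inv_val] <;> field_simp <;> ring
  · intro p F x y w
    obtain ⟨b, i⟩ := x
    obtain ⟨c, j⟩ := y
    obtain ⟨d, k⟩ := w
    rcases b <;> rcases c <;> rcases d <;> rcases p <;> fin_cases i <;> fin_cases j <;>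
    fin_cases k <;>
    simp [Fin.sum_univ_succ, capw, opX, smo, lo, bar, zz, cx, Units.val_zpow_eq_zpow_val] <;>
    field_simp <;> ring_nf <;> simp
  · intro s j l
    cases s <;> fin_cases j <;> fin_cases l <;>
      simp [cupw, capw, bar, cx, Fin.sum_univ_succ, Units.val_zpow_eq_zpow_val]
  · intro s j l
    cases s <;> fin_cases j <;> fin_cases l <;>
      simp [cupw, capw, bar, cx, Fin.sum_univ_succ, Units.val_zpow_eq_zpow_val]
  · intro s j l
    cases s <;> fin_cases j <;> fin_cases l <;>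
      simp [cupw, capw, bar, cx, Fin.sum_univ_succ, Units.val_zpow_eq_zpow_val]
  · intro s j l
    cases s <;> fin_cases j <;> fin_cases l <;>
      simp [mm, opX, smo, lo, zz, cupw, capw, bar, cx, Fin.sum_univ_succ,
        Units.val_zpow_eq_zpow_val] <;> field_simp <;> ring
  · intro s j l
    cases s <;> fin_cases j <;> fin_cases l <;>
      simp [mm, opX, smo, lo, zz, cupw, capw, bar, cx, Fin.sum_univ_succ,
        Units.val_zpow_eq_zpow_val] <;> field_simp <;> ring
  · intro s j l
    cases s <;> fin_cases j <;> fin_cases l <;>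
      simp [mm, opX, smo, lo, zz, cupw, capw, bar, cx, Fin.sum_univ_succ,
        Units.val_zpow_eq_zpow_val] <;> field_simp <;> ring

/-! ### the functions `mm` -/

private theorem TBa_0a (h : TBaF q N) (t : Bool) (x y u w : Lab N) :
    opX q t (fun b c => mm q .a b c u w) x y = mm q .a x y u w := by
  have h1 := TBa_mul q t (capw q) (capw q u w) x y
  rw [h.kink] at h1
  have h2 : (fun b c => mm q .a b c u w) = fun b c : Lab N => capw q u w * capw q b c := by
    funext b c
    exact mul_comm _ _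
  rw [h2, h1]
  exact mul_comm _ _

private theorem TBa_2a (h : TBaF q N) (t : Bool) (x y u w : Lab N) :
    opX q t (fun b c => mm q .a x y b c) u w = mm q .a x y u w := by
  have h1 := TBa_mul q t (capw q) (capw q x y) u w
  rw [h.kink] at h1
  exact h1

private theorem TBa_1b (h : TBaF q N) (t : Bool) (x y u w : Lab N) :
    opX q t (fun b c => mm q .b x b c w) y u = mm q .b x y u w := by
  have h1 := TBa_mul q t (capw q) (capw q x w) y u
  rw [h.kink] at h1
  have h2 : (fun b c => mm q .b x b c w) = fun b c : Lab N => capw q x w * capw q b c := by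
    funext b c
    exact mul_comm _ _
  rw [h2, h1]
  exact mul_comm _ _

private theorem TBa_1c (h : TBaF q N) (x y u w : Lab N) :
    opX q true (fun b c => mm q .c x b c w) y u = mm q .a x y u w :=
  h.r2 true (fun b c => capw q x b * capw q c w) y u

private theorem TBa_0b (h : TBaF q N) (x y u w : Lab N) :
    opX q true (fun b c => mm q .b b c u w) x y = mm q .c x y u w :=
  h.sl true (fun a => capw q a w) x y u

private theorem TBa_0c (h : TBaF q N) (x y u w : Lab N) :
    opX q false (fun b c => mm q .c b c u w) x y = mm q .b x y u w := by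
  have h1 : (fun b c => mm q .c b c u w) = opX q (!false) (fun b c => mm q .b b c u w) := by
    funext b c
    exact (TBa_0b q h b c u w).symm
  rw [h1, h.r2]

private theorem TBa_2b (h : TBaF q N) (x y u w : Lab N) :
    opX q true (fun b c => mm q .b x y b c) u w = mm q .c x y u w := by
  have h1 := h.sl false (fun b => capw q x b) y u w
  have h2 : (fun a b : Lab N => capw q b w * capw q x a) =
      fun b c => capw q x b * capw q c w := by
    funext a b
    exact mul_comm _ _
  rw [h2] at h1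
  exact h1.symm

private theorem TBa_2c (h : TBaF q N) (x y u w : Lab N) :
    opX q false (fun b c => mm q .c x y b c) u w = mm q .b x y u w := by
  have h1 : (fun b c => mm q .c x y b c) = opX q (!false) (fun b c => mm q .b x y b c) := by
    funext b c
    exact (TBa_2b q h x y b c).symm
  rw [h1, h.r2]

private theorem TBa_parT (F : Lab N → Lab N → K) (x y : Lab N) (h : x.1 = y.1) (m1 m2 : K)
    (h1 : opX q false F x y = m1) (h2 : F x y = m2) :
    opX q true F x y = ((q ^ (-(N : ℤ)) : Kˣ) : K) ^ 2 * m1 +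
      ((q ^ (-(N : ℤ)) : Kˣ) : K) * zz q * m2 := by
  have h3 := TBa_par q F x y h
  have ha := TBa_aa q (N := N)
  rw [h1, h2] at h3
  linear_combination ((q ^ (-(N : ℤ)) : Kˣ) : K) * h3 - opX q true F x y * ha

private theorem TBa_parF (F : Lab N → Lab N → K) (x y : Lab N) (h : x.1 = y.1) (m1 m2 : K)
    (h1 : opX q true F x y = m1) (h2 : F x y = m2) :
    opX q false F x y = (((q ^ (-(N : ℤ)))⁻¹ : Kˣ) : K) ^ 2 * m1 -
      (((q ^ (-(N : ℤ)))⁻¹ : Kˣ) : K) * zz q * m2 := by
  have h3 := TBa_par q F x y h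
  have ha := TBa_aa q (N := N)
  rw [h1, h2] at h3
  linear_combination (-(((q ^ (-(N : ℤ)))⁻¹ : Kˣ) : K)) * h3 - opX q false F x y * ha

private theorem TBa_antiT (F : Lab N → Lab N → K) (x y : Lab N) (h : x.1 ≠ y.1) (m1 m2 m3 : K)
    (h1 : opX q false F x y = m1)
    (h2 : ∑ k : Fin N, cupw q (!x.1, k) (x.1, k) * F (!x.1, k) (x.1, k) = m2)
    (h4 : capw q x y * m2 = m3) :
    opX q true F x y = (((q ^ (-(N : ℤ)))⁻¹ : Kˣ) : K) ^ 2 * m1 -
      (((q ^ (-(N : ℤ)))⁻¹ : Kˣ) : K) * zz q * m3 := by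
  have h3 := TBa_anti q F x y h
  have ha := TBa_aa q (N := N)
  rw [h1, h2, h4] at h3
  linear_combination (((q ^ (-(N : ℤ)))⁻¹ : Kˣ) : K) * h3 - opX q true F x y * ha

private theorem TBa_antiF (F : Lab N → Lab N → K) (x y : Lab N) (h : x.1 ≠ y.1) (m1 m2 m3 : K)
    (h1 : opX q true F x y = m1)
    (h2 : ∑ k : Fin N, cupw q (!x.1, k) (x.1, k) * F (!x.1, k) (x.1, k) = m2)
    (h4 : capw q x y * m2 = m3) :
    opX q false F x y = ((q ^ (-(N : ℤ)) : Kˣ) : K) ^ 2 * m1 +
      ((q ^ (-(N : ℤ)) : Kˣ) : K) * zz q * m3 := by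
  have h3 := TBa_anti q F x y h
  have ha := TBa_aa q (N := N)
  rw [h1, h2, h4] at h3
  linear_combination (-((q ^ (-(N : ℤ)) : Kˣ) : K)) * h3 - opX q false F x y * ha

private theorem TBa_bne {a b : Bool} (h : a ≠ b) : b = !a := by
  revert h
  cases a <;> cases b <;> decide

private theorem TBa_bnn {a b : Bool} (h : (!a) ≠ b) : b = a := by
  revert h
  cases a <;> cases b <;> decide

private theorem TBa_beq {a b c : Bool} (h : a ≠ c) (h' : b ≠ c) : a = b := by
  revert h h'
  cases a <;> cases b <;> cases c <;> decide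

end TBa

/-- **TBa**: the action of a crossing on the functions `mm p`, `mm s` -/
theorem thm_TBa : St_TBa := by
  intro K _ q N hN i t p s hi hps v x y u w hcp hcs
  have h : TBaF q N := by
    rcases hN with rfl | rfl
    · exact TBa_two q
    · exact TBa_three q
  have hi3 : i = 0 ∨ i = 1 ∨ i = 2 := by omega
  obtain ⟨x1, x2⟩ := x
  obtain ⟨y1, y2⟩ := y
  obtain ⟨u1, u2⟩ := u
  obtain ⟨w1, w2⟩ := w
  rcases hi3 with rfl | rfl | rfl
  · have h1 := TBa_lin q t (fun b c => mm q p b c (u1, u2) (w1, w2))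
      (fun b c => mm q s b c (u1, u2) (w1, w2)) (zz q * v.1) v.2 (x1, x2) (y1, y2)
    refine Eq.trans h1 ?_
    refine TBa_tab0 (q ^ (-(N : ℤ))) (zz q) 0 (by decide)
      (fun t r => opX q t (fun b c => mm q r b c (u1, u2) (w1, w2)) (x1, x2) (y1, y2))
      (fun r => mm q r (x1, x2) (y1, y2) (u1, u2) (w1, w2))
      (fun r => compat r (x1, x2) (y1, y2) (u1, u2) (w1, w2))
      ?_ ?_ ?_ ?_ ?_ ?_ ?_ t p s hps hcp hcs v
    · intro t
      exact TBa_0a q h t _ _ _ _
    · exact TBa_0b q h _ _ _ _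
    · exact TBa_0c q h _ _ _ _
    · rintro ⟨a1, a2⟩ ⟨a3, a4⟩
      exact TBa_parF q _ _ _ (TBa_beq a3 a1) _ _ (TBa_0b q h _ _ _ _) rfl
    · rintro ⟨a1, a2⟩ ⟨a3, a4⟩
      obtain rfl : y1 = !x1 := TBa_bne a1
      obtain rfl : u1 = !x1 := TBa_bne a3
      obtain rfl : w1 = x1 := TBa_bnn a4
      exact TBa_antiF q _ _ _ a1 _ _ _ (TBa_0b q h _ _ _ _) (h.b0 _ u2 w2) rfl
    · rintro ⟨a1, a2⟩ ⟨a3, a4⟩
      exact TBa_parT q _ _ _ (TBa_beq a3 a1) _ _ (TBa_0c q h _ _ _ _) rfl
    · rintro ⟨a1, a2⟩ ⟨a3, a4⟩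
      obtain rfl : y1 = !x1 := TBa_bne a1
      obtain rfl : w1 = !x1 := TBa_bne a4
      obtain rfl : u1 = x1 := TBa_bnn a3
      exact TBa_antiT q _ _ _ a1 _ _ _ (TBa_0c q h _ _ _ _) (h.c0 _ u2 w2) rfl
  · have h1 := TBa_lin q t (fun b c => mm q p (x1, x2) b c (w1, w2))
      (fun b c => mm q s (x1, x2) b c (w1, w2)) (zz q * v.1) v.2 (y1, y2) (u1, u2)
    refine Eq.trans h1 ?_
    refine TBa_tab1 (q ^ (-(N : ℤ))) (zz q)
      (fun t r => opX q t (fun b c => mm q r (x1, x2) b c (w1, w2)) (y1, y2) (u1, u2))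
      (fun r => mm q r (x1, x2) (y1, y2) (u1, u2) (w1, w2))
      (fun r => compat r (x1, x2) (y1, y2) (u1, u2) (w1, w2))
      ?_ ?_ ?_ ?_ ?_ ?_ ?_ t p s hps hcp hcs v
    · intro t
      exact TBa_1b q h t _ _ _ _
    · exact TBa_1c q h _ _ _ _
    · rfl
    · rintro ⟨a1, a2⟩ ⟨a3, a4⟩
      obtain rfl : u1 = !y1 := TBa_bne a1
      obtain rfl : w1 = !y1 := TBa_bne a4
      obtain rfl : x1 = y1 := TBa_bnn (Ne.symm a3)
      exact TBa_antiT q _ _ _ a1 _ _ _ rfl (h.a1 _ x2 w2) rfl
    · rintro ⟨a1, a2⟩ ⟨a3, a4⟩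
      obtain rfl : u1 = !y1 := TBa_bne a3
      obtain rfl : x1 = !y1 := TBa_bne (Ne.symm a1)
      obtain rfl : w1 = y1 := TBa_bnn a4
      exact TBa_antiF q _ _ _ a3 _ _ _ (TBa_1c q h _ _ _ _) (h.c1 _ x2 w2) rfl
    · rintro ⟨a1, a2⟩ ⟨a3, a4⟩
      exact TBa_parT q _ _ _ (TBa_beq (Ne.symm a1) (Ne.symm a3)) _ _ rfl rfl
    · rintro ⟨a1, a2⟩ ⟨a3, a4⟩
      exact TBa_parF q _ _ _ (TBa_beq (Ne.symm a1) (Ne.symm a3)) _ _ (TBa_1c q h _ _ _ _) rfl
  · have h1 := TBa_lin q t (fun b c => mm q p (x1, x2) (y1, y2) b c)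
      (fun b c => mm q s (x1, x2) (y1, y2) b c) (zz q * v.1) v.2 (u1, u2) (w1, w2)
    refine Eq.trans h1 ?_
    refine TBa_tab0 (q ^ (-(N : ℤ))) (zz q) 2 (by decide)
      (fun t r => opX q t (fun b c => mm q r (x1, x2) (y1, y2) b c) (u1, u2) (w1, w2))
      (fun r => mm q r (x1, x2) (y1, y2) (u1, u2) (w1, w2))
      (fun r => compat r (x1, x2) (y1, y2) (u1, u2) (w1, w2))
      ?_ ?_ ?_ ?_ ?_ ?_ ?_ t p s hps hcp hcs v
    · intro t
      exact TBa_2a q h t _ _ _ _
    · exact TBa_2b q h _ _ _ _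
    · exact TBa_2c q h _ _ _ _
    · rintro ⟨a1, a2⟩ ⟨a3, a4⟩
      exact TBa_parF q _ _ _ (TBa_beq (Ne.symm a3) (Ne.symm a2)) _ _ (TBa_2b q h _ _ _ _) rfl
    · rintro ⟨a1, a2⟩ ⟨a3, a4⟩
      obtain rfl : w1 = !u1 := TBa_bne a2
      obtain rfl : x1 = !u1 := TBa_bne (Ne.symm a3)
      obtain rfl : y1 = u1 := TBa_bnn a1
      exact TBa_antiF q _ _ _ a2 _ _ _ (TBa_2b q h _ _ _ _) (h.b2 _ y2 x2) (mul_comm _ _)
    · rintro ⟨a1, a2⟩ ⟨a3, a4⟩
      exact TBa_parT q _ _ _ (TBa_beq (Ne.symm a3) (Ne.symm a2)) _ _ (TBa_2c q h _ _ _ _) rfl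
    · rintro ⟨a1, a2⟩ ⟨a3, a4⟩
      obtain rfl : w1 = !u1 := TBa_bne a2
      obtain rfl : y1 = !u1 := TBa_bne (Ne.symm a3)
      obtain rfl : x1 = u1 := TBa_bnn (Ne.symm a1)
      exact TBa_antiT q _ _ _ a2 _ _ _ (TBa_2c q h _ _ _ _) (h.c2 _ x2 y2) (mul_comm _ _)

end IBN
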