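import Pool.Agent.IBN.StB

/-!
# IBN TBb: minima below two maxima
-/

set_option autoImplicit false

namespace IBN

section

variable {K : Type} [Field K] (q : Kˣ) {N : ℕ}

private theorem TBb_capw (x y : Lab N) :
    capw q x y = if y.1 = !x.1 then (if y.2 = x.2 then (if x.1 then 1 else ((q ^ cx x.2 : Kˣ) : K))
      else 0) else 0 := by
  unfold capw bar
  obtain ⟨x1, x2⟩ := x
  obtain ⟨y1, y2⟩ := y
  by_cases h1 : y1 = !x1 <;> by_cases h2 : y2 = x2 <;> simp [h1, h2]

private theorem TBb_cupw (x : Lab N) :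
    cupw q x (bar x) = if x.1 then ((q ^ (-cx x.2) : Kˣ) : K) else 1 := by
  unfold cupw
  rw [if_pos rfl]

private theorem TBb_resF_comm (p s : Pr) (F : Lab N → Lab N → Lab N → Lab N → K) :
    resF p s F = resF s p F := by
  funext x y u w
  unfold resF
  by_cases h1 : compat p x y u w <;> by_cases h2 : compat s x y u w <;> simp [h1, h2]

private theorem TBb_qn (hN : N = 2 ∨ N = 3) :
    ∑ k : Fin N, ((q ^ (-cx k) : Kˣ) : K) = qn q N := by
  unfold qn
  rcases hN with rfl | rfl
  · rw [Fin.sum_univ_two, Fin.sum_univ_two]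
    simp [cx]
    ring
  · rw [Fin.sum_univ_three, Fin.sum_univ_three]
    simp [cx]
    ring

private theorem TBb_V0bc (F : Lab N → Lab N → Lab N → Lab N → K) (x y : Lab N) :
    cupI q 0 (resF .b .c F) x y = 0 := by
  unfold cupI
  rw [if_pos rfl]
  refine Finset.sum_eq_zero fun z _ => ?_
  obtain ⟨z1, z2⟩ := z
  obtain ⟨x1, x2⟩ := x
  obtain ⟨y1, y2⟩ := y
  unfold resF
  rw [if_neg, mul_zero]
  cases z1 <;> cases x1 <;> cases y1 <;> simp [compat, bar]

private theorem TBb_V2bc (F : Lab N → Lab N → Lab N → Lab N → K) (x y : Lab N) :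
    cupI q 2 (resF .b .c F) x y = 0 := by
  unfold cupI
  rw [if_neg (by decide), if_neg (by decide)]
  refine Finset.sum_eq_zero fun z _ => ?_
  obtain ⟨z1, z2⟩ := z
  obtain ⟨x1, x2⟩ := x
  obtain ⟨y1, y2⟩ := y
  unfold resF
  rw [if_neg, mul_zero]
  cases z1 <;> cases x1 <;> cases y1 <;> simp [compat, bar]

private theorem TBb_V1ac (F : Lab N → Lab N → Lab N → Lab N → K) (x y : Lab N) :
    cupI q 1 (resF .a .c F) x y = 0 := by
  unfold cupI
  rw [if_neg (by decide), if_pos rfl]
  refine Finset.sum_eq_zero fun z _ => ?_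
  obtain ⟨z1, z2⟩ := z
  obtain ⟨x1, x2⟩ := x
  obtain ⟨y1, y2⟩ := y
  unfold resF
  rw [if_neg, mul_zero]
  cases z1 <;> cases x1 <;> cases y1 <;> simp [compat, bar]

private theorem TBb_sum (G : Lab N → K) : ∑ z : Lab N, cupw q z (bar z) * G z =
    ∑ k : Fin N, ((q ^ (-cx k) : Kˣ) : K) * G (true, k) + ∑ k : Fin N, G (false, k) := by
  rw [Fintype.sum_prod_type, Fintype.sum_bool]
  simp [TBb_cupw]

private theorem TBb_qn1 (hN : N = 2 ∨ N = 3) :
    ∑ k : Fin N, ((q : K) ^ cx k)⁻¹ = qn q N := by
  rw [← TBb_qn q hN]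
  exact Finset.sum_congr rfl fun k _ => by simp

private theorem TBb_qn2 : ∑ k : Fin N, ((q : K) ^ cx k) = qn q N := by
  unfold qn
  exact Finset.sum_congr rfl fun k _ => by simp

private theorem TBb_V0aab (hN : N = 2 ∨ N = 3) (x y : Lab N) :
    cupI q 0 (resF .a .b (mm q .a)) x y = qn q N * capw q x y := by
  unfold cupI
  rw [if_pos rfl, TBb_sum q (fun z => resF .a .b (mm q .a) z (bar z) x y)]
  obtain ⟨x1, x2⟩ := x
  obtain ⟨y1, y2⟩ := y
  have h1 := TBb_qn1 q hN
  have h2 := TBb_qn2 q (N := N)
  unfold resF mm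
  cases x1 <;> cases y1 <;>
    simp [compat, TBb_capw, bar]
  all_goals
    by_cases h : y2 = x2
    · subst h
      simp [← Finset.mul_sum, h1, h2, mul_comm]
    · simp [h]

private theorem TBb_V0aac (hN : N = 2 ∨ N = 3) (x y : Lab N) :
    cupI q 0 (resF .a .c (mm q .a)) x y = qn q N * capw q x y := by
  unfold cupI
  rw [if_pos rfl, TBb_sum q (fun z => resF .a .c (mm q .a) z (bar z) x y)]
  obtain ⟨x1, x2⟩ := x
  obtain ⟨y1, y2⟩ := y
  have h1 := TBb_qn1 q hN
  have h2 := TBb_qn2 q (N := N)
  unfold resF mm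
  cases x1 <;> cases y1 <;>
    simp [compat, TBb_capw, bar]
  all_goals
    by_cases h : y2 = x2
    · subst h
      simp [← Finset.mul_sum, h1, h2, mul_comm]
    · simp [h]

private theorem TBb_V0bab (x y : Lab N) :
    cupI q 0 (resF .a .b (mm q .b)) x y = capw q x y := by
  unfold cupI
  rw [if_pos rfl, TBb_sum q (fun z => resF .a .b (mm q .b) z (bar z) x y)]
  obtain ⟨x1, x2⟩ := x
  obtain ⟨y1, y2⟩ := y
  unfold resF mm
  cases x1 <;> cases y1 <;>
    simp [compat, TBb_capw, bar]
  all_goals
    by_cases h : y2 = x2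
    · subst h
      field_simp
    · simp [h, Ne.symm h]

private theorem TBb_V0cac (hN : N = 2 ∨ N = 3) (x y : Lab N) :
    cupI q 0 (resF .a .c (mm q .c)) x y = capw q x y := by
  unfold cupI
  rw [if_pos rfl, TBb_sum q (fun z => resF .a .c (mm q .c) z (bar z) x y)]
  obtain ⟨x1, x2⟩ := x
  obtain ⟨y1, y2⟩ := y
  unfold resF mm
  cases x1 <;> cases y1 <;>
    simp [compat, TBb_capw, bar, opX, smo, lo]
  all_goals
    by_cases h : y2 = x2
    · subst h
      rcases hN with rfl | rfl
      · fin_cases y2 <;> simp [Fin.sum_univ_two, cx, zz] <;> field_simp <;> ring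
      · fin_cases y2 <;> simp [Fin.sum_univ_three, cx, zz] <;> field_simp <;> ring
    · simp only [h, if_false]
      apply Finset.sum_eq_zero
      intro x _
      by_cases h1 : y2 = x
      · subst h1
        simp [h, Ne.symm h]
      · simp [h, h1, Ne.symm h, Ne.symm h1]

private theorem TBb_V2aab (hN : N = 2 ∨ N = 3) (x y : Lab N) :
    cupI q 2 (resF .a .b (mm q .a)) x y = qn q N * capw q x y := by
  unfold cupI
  rw [if_neg (by decide), if_neg (by decide), TBb_sum q (fun z => resF .a .b (mm q .a) x y z (bar z))]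
  obtain ⟨x1, x2⟩ := x
  obtain ⟨y1, y2⟩ := y
  have h1 := TBb_qn1 q hN
  have h2 := TBb_qn2 q (N := N)
  unfold resF mm
  cases x1 <;> cases y1 <;>
    simp [compat, TBb_capw, bar]
  all_goals
    by_cases h : y2 = x2
    · subst h
      simp [← Finset.mul_sum, h1, h2, mul_comm]
    · simp [h]

private theorem TBb_V2aac (hN : N = 2 ∨ N = 3) (x y : Lab N) :
    cupI q 2 (resF .a .c (mm q .a)) x y = qn q N * capw q x y := by
  unfold cupI
  rw [if_neg (by decide), if_neg (by decide), TBb_sum q (fun z => resF .a .c (mm q .a) x y z (bar z))]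
  obtain ⟨x1, x2⟩ := x
  obtain ⟨y1, y2⟩ := y
  have h1 := TBb_qn1 q hN
  have h2 := TBb_qn2 q (N := N)
  unfold resF mm
  cases x1 <;> cases y1 <;>
    simp [compat, TBb_capw, bar]
  all_goals
    by_cases h : y2 = x2
    · subst h
      simp [← Finset.mul_sum, h1, h2, mul_comm]
    · simp [h]

private theorem TBb_V2bab (x y : Lab N) :
    cupI q 2 (resF .a .b (mm q .b)) x y = capw q x y := by
  unfold cupI
  rw [if_neg (by decide), if_neg (by decide), TBb_sum q (fun z => resF .a .b (mm q .b) x y z (bar z))]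
  obtain ⟨x1, x2⟩ := x
  obtain ⟨y1, y2⟩ := y
  unfold resF mm
  cases x1 <;> cases y1 <;>
    simp [compat, TBb_capw, bar]
  all_goals
    by_cases h : y2 = x2
    · subst h
      field_simp
    · simp [h, Ne.symm h]

private theorem TBb_V2cac (hN : N = 2 ∨ N = 3) (x y : Lab N) :
    cupI q 2 (resF .a .c (mm q .c)) x y = capw q x y := by
  unfold cupI
  rw [if_neg (by decide), if_neg (by decide), TBb_sum q (fun z => resF .a .c (mm q .c) x y z (bar z))]
  obtain ⟨x1, x2⟩ := x
  obtain ⟨y1, y2⟩ := y
  unfold resF mm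
  cases x1 <;> cases y1 <;>
    simp [compat, TBb_capw, bar, opX, smo, lo]
  all_goals
    by_cases h : y2 = x2
    · subst h
      rcases hN with rfl | rfl
      · fin_cases y2 <;> simp [Fin.sum_univ_two, cx, zz] <;> field_simp <;> ring
      · fin_cases y2 <;> simp [Fin.sum_univ_three, cx, zz] <;> field_simp <;> ring
    · simp only [h, if_false]
      apply Finset.sum_eq_zero
      intro x _
      by_cases h1 : y2 = x
      · subst h1
        simp [h, Ne.symm h]
      · simp [h, h1, Ne.symm h, Ne.symm h1]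

private theorem TBb_V1bab (hN : N = 2 ∨ N = 3) (x y : Lab N) :
    cupI q 1 (resF .a .b (mm q .b)) x y = qn q N * capw q x y := by
  unfold cupI
  rw [if_neg (by decide), if_pos rfl, TBb_sum q (fun z => resF .a .b (mm q .b) x z (bar z) y)]
  obtain ⟨x1, x2⟩ := x
  obtain ⟨y1, y2⟩ := y
  have h1 := TBb_qn1 q hN
  have h2 := TBb_qn2 q (N := N)
  unfold resF mm
  cases x1 <;> cases y1 <;>
    simp [compat, TBb_capw, bar]
  all_goals
    by_cases h : y2 = x2
    · subst h
      simp [← Finset.mul_sum, h1, h2, mul_comm]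
    · simp [h]

private theorem TBb_V1bbc (hN : N = 2 ∨ N = 3) (x y : Lab N) :
    cupI q 1 (resF .b .c (mm q .b)) x y = qn q N * capw q x y := by
  unfold cupI
  rw [if_neg (by decide), if_pos rfl, TBb_sum q (fun z => resF .b .c (mm q .b) x z (bar z) y)]
  obtain ⟨x1, x2⟩ := x
  obtain ⟨y1, y2⟩ := y
  have h1 := TBb_qn1 q hN
  have h2 := TBb_qn2 q (N := N)
  unfold resF mm
  cases x1 <;> cases y1 <;>
    simp [compat, TBb_capw, bar]
  all_goals
    by_cases h : y2 = x2
    · subst h
      simp [← Finset.mul_sum, h1, h2, mul_comm]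
    · simp [h]

private theorem TBb_V1aab (x y : Lab N) :
    cupI q 1 (resF .a .b (mm q .a)) x y = capw q x y := by
  unfold cupI
  rw [if_neg (by decide), if_pos rfl, TBb_sum q (fun z => resF .a .b (mm q .a) x z (bar z) y)]
  obtain ⟨x1, x2⟩ := x
  obtain ⟨y1, y2⟩ := y
  unfold resF mm
  cases x1 <;> cases y1 <;>
    simp [compat, TBb_capw, bar]
  all_goals
    by_cases h : y2 = x2
    · subst h
      field_simp
    · simp [h, Ne.symm h]

private theorem TBb_V1cbc (hN : N = 2 ∨ N = 3) (x y : Lab N) :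
    cupI q 1 (resF .b .c (mm q .c)) x y = capw q x y := by
  unfold cupI
  rw [if_neg (by decide), if_pos rfl, TBb_sum q (fun z => resF .b .c (mm q .c) x z (bar z) y)]
  obtain ⟨x1, x2⟩ := x
  obtain ⟨y1, y2⟩ := y
  unfold resF mm
  cases x1 <;> cases y1 <;>
    simp [compat, TBb_capw, bar, opX, smo, lo]
  all_goals
    by_cases h : y2 = x2
    · subst h
      rcases hN with rfl | rfl
      · fin_cases y2 <;> simp [Fin.sum_univ_two, cx, zz] <;> field_simp <;> ring
      · fin_cases y2 <;> simp [Fin.sum_univ_three, cx, zz] <;> field_simp <;> ring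
    · have key : ∀ (x' : Fin N) (A : K),
          (if y2 = x' then (if x' = x2 then A else 0) else 0) = 0 := by
        intro x' A
        by_cases h2 : y2 = x'
        · subst h2
          simp [h]
        · simp [h2]
      simp [h, key]

end

theorem thm_TBb : St_TBb := by
  intro K _ q N hN i p s hi hps x y
  constructor
  · intro hp
    rcases (by omega : i = 0 ∨ i = 1 ∨ i = 2) with rfl | rfl | rfl
    · rw [if_neg (by decide)] at hp
      subst hp
      cases s with
      | a => exact absurd rfl hps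
      | b => exact ⟨TBb_V0aab q hN x y, TBb_V0bab q x y⟩
      | c => exact ⟨TBb_V0aac q hN x y, TBb_V0cac q hN x y⟩
    · rw [if_pos rfl] at hp
      subst hp
      cases s with
      | a =>
        rw [TBb_resF_comm .b .a, TBb_resF_comm .b .a]
        exact ⟨TBb_V1bab q hN x y, TBb_V1aab q x y⟩
      | b => exact absurd rfl hps
      | c => exact ⟨TBb_V1bbc q hN x y, TBb_V1cbc q hN x y⟩
    · rw [if_neg (by decide)] at hp
      subst hp
      cases s with
      | a => exact absurd rfl hps
      | b => exact ⟨TBb_V2aab q hN x y, TBb_V2bab q x y⟩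
      | c => exact ⟨TBb_V2aac q hN x y, TBb_V2cac q hN x y⟩
  · intro hp hs
    rcases (by omega : i = 0 ∨ i = 1 ∨ i = 2) with rfl | rfl | rfl
    · rw [if_neg (by decide)] at hp hs
      cases p with
      | a => exact absurd rfl hp
      | b =>
        cases s with
        | a => exact absurd rfl hs
        | b => exact absurd rfl hps
        | c => exact ⟨TBb_V0bc q _ x y, TBb_V0bc q _ x y⟩
      | c =>
        cases s with
        | a => exact absurd rfl hs
        | b =>
          rw [TBb_resF_comm .c .b, TBb_resF_comm .c .b]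
          exact ⟨TBb_V0bc q _ x y, TBb_V0bc q _ x y⟩
        | c => exact absurd rfl hps
    · rw [if_pos rfl] at hp hs
      cases p with
      | a =>
        cases s with
        | a => exact absurd rfl hps
        | b => exact absurd rfl hs
        | c => exact ⟨TBb_V1ac q _ x y, TBb_V1ac q _ x y⟩
      | b => exact absurd rfl hp
      | c =>
        cases s with
        | a =>
          rw [TBb_resF_comm .c .a, TBb_resF_comm .c .a]
          exact ⟨TBb_V1ac q _ x y, TBb_V1ac q _ x y⟩
        | b => exact absurd rfl hs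
        | c => exact absurd rfl hps
    · rw [if_neg (by decide)] at hp hs
      cases p with
      | a => exact absurd rfl hp
      | b =>
        cases s with
        | a => exact absurd rfl hs
        | b => exact absurd rfl hps
        | c => exact ⟨TBb_V2bc q _ x y, TBb_V2bc q _ x y⟩
      | c =>
        cases s with
        | a => exact absurd rfl hs
        | b =>
          rw [TBb_resF_comm .c .b, TBb_resF_comm .c .b]
          exact ⟨TBb_V2bc q _ x y, TBb_V2bc q _ x y⟩
        | c => exact absurd rfl hps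

end IBN
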