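import Pool.Agent.IBN.StB

/-!
# IBN, module TwoB: the value of closed words with at most two maxima
-/

set_option autoImplicit false

namespace IBN

/-- number of minima -/
private def TwoB_mn (w : Word) : ℕ := w.countP fun s => s.k = .mi

private lemma TwoB_cnt : ∀ (v : Word) (k : ℕ), Ok v k 0 → k + 2 * TwoB_mn v = 2 * maxima v := by
  intro v
  induction v with
  | nil =>
    intro k h
    have h0 : k = 0 := h
    simp [TwoB_mn, maxima, h0]
  | cons s v ih =>
    intro k h
    obtain ⟨h1, h2⟩ := h
    have h3 := ih _ h2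
    rcases s with ⟨kd, i⟩
    unfold TwoB_mn maxima at h3 ⊢
    rw [List.countP_cons, List.countP_cons]
    cases kd with
    | mi =>
      simp only [Kind.inn, Kind.out] at h1 h2 h3
      simp
      omega
    | ma =>
      simp only [Kind.inn, Kind.out] at h1 h2 h3
      simp
      omega
    | cr p =>
      simp only [Kind.inn, Kind.out] at h1 h2 h3
      simp
      omega

private lemma TwoB_mn_mi (i : ℕ) (v : Word) : TwoB_mn (⟨.mi, i⟩ :: v) = TwoB_mn v + 1 := by
  unfold TwoB_mn
  rw [List.countP_cons]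
  simp

private lemma TwoB_mn_ma (i : ℕ) (v : Word) : TwoB_mn (⟨.ma, i⟩ :: v) = TwoB_mn v := by
  unfold TwoB_mn
  rw [List.countP_cons]
  simp

private lemma TwoB_mn_cr (p : Bool) (i : ℕ) (v : Word) :
    TwoB_mn (⟨.cr p, i⟩ :: v) = TwoB_mn v := by
  unfold TwoB_mn
  rw [List.countP_cons]
  simp

private lemma TwoB_nil (v : Word) (h : Ok v 0 0) (h0 : TwoB_mn v = 0) : v = [] := by
  rcases v with _ | ⟨⟨kd, i⟩, v⟩
  · rfl
  · exfalso
    obtain ⟨h1, -⟩ := h
    cases kd with
    | mi =>
      rw [TwoB_mn_mi] at h0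
      omega
    | ma =>
      simp only [Kind.inn] at h1
      omega
    | cr p =>
      simp only [Kind.inn] at h1
      omega

section ring

variable {A : Type} [CommRing A] (q : Aˣ) {N : ℕ}

private lemma TwoB_val_cons (s : Piece) (v : Word) (l : List (Lab N)) :
    val q (s :: v) l = opP q s (val q v) l := rfl

private lemma TwoB_opX_congr (p : Bool) (F G : Lab N → Lab N → A) (x y : Lab N)
    (h : ∀ b c : Lab N, b.1 = y.1 → c.1 = x.1 → F b c = G b c) :
    opX q p F x y = opX q p G x y := by
  have h1 : F y x = G y x := h y x rfl rfl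
  have h2 : ∀ s : Bool, smo q s F x y = smo q s G x y := by
    intro s
    unfold smo
    by_cases hxy : x.1 = y.1
    · rw [if_pos hxy, if_pos hxy, h x y hxy hxy.symm]
    · rw [if_neg hxy, if_neg hxy]
      by_cases h3 : x.2 = y.2
      · rw [if_pos h3, if_pos h3]
        refine Finset.sum_congr rfl fun k _ => ?_
        rw [h (y.1, k) (x.1, k) rfl rfl]
      · rw [if_neg h3, if_neg h3]
  unfold opX
  rw [h1, h2, h2]

private lemma TwoB_opX_smul (p : Bool) (c : A) (F : Lab N → Lab N → A) (x y : Lab N) :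
    opX q p (fun b d => c * F b d) x y = c * opX q p F x y := by
  have h2 : ∀ s : Bool, smo q s (fun b d => c * F b d) x y = c * smo q s F x y := by
    intro s
    unfold smo
    by_cases hxy : x.1 = y.1
    · rw [if_pos hxy, if_pos hxy, mul_ite, mul_zero]
    · rw [if_neg hxy, if_neg hxy]
      by_cases h3 : x.2 = y.2
      · rw [if_pos h3, if_pos h3, Finset.mul_sum]
        refine Finset.sum_congr rfl fun k _ => ?_
        rw [mul_ite, mul_zero]
        congr 1
        ring
      · rw [if_neg h3, if_neg h3, mul_zero]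
  unfold opX
  rw [h2, h2]
  split_ifs <;> ring

private lemma TwoB_opX_zero (p : Bool) (x y : Lab N) :
    opX q p (fun _ _ => (0 : A)) x y = 0 := by
  have h := TwoB_opX_smul q p 0 (fun _ _ => (0 : A)) x y
  simpa using h

private lemma TwoB_bar_sum (f : Lab N → A) : ∑ x : Lab N, f x =
    ∑ i : Fin N, f (true, i) + ∑ i : Fin N, f (false, i) := by
  rw [Fintype.sum_prod_type]
  simp

private lemma TwoB_rev : ∑ i : Fin N, ((q ^ (-cx i) : Aˣ) : A) = qn q N := by
  unfold qn
  rw [← Equiv.sum_comp Fin.revPerm]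
  refine Finset.sum_congr rfl fun i _ => ?_
  congr 2
  unfold cx
  rw [Fin.revPerm_apply, Fin.val_rev]
  have := i.2
  push_cast [Nat.cast_sub (show (i : ℕ) + 1 ≤ N from this)]
  ring

private lemma TwoB_circ (c : A) :
    ∑ x : Lab N, cupw q x (bar x) * (c * capw q x (bar x)) = c * (2 * qn q N) := by
  rw [TwoB_bar_sum]
  have h1 : ∑ i : Fin N, cupw q ((true, i) : Lab N) (bar (true, i)) *
      (c * capw q ((true, i) : Lab N) (bar (true, i))) = c * qn q N := by
    rw [← TwoB_rev, Finset.mul_sum]
    refine Finset.sum_congr rfl fun i _ => ?_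
    simp [cupw, capw, bar]
    ring
  have h2 : ∑ i : Fin N, cupw q ((false, i) : Lab N) (bar (false, i)) *
      (c * capw q ((false, i) : Lab N) (bar (false, i))) = c * qn q N := by
    unfold qn
    rw [Finset.mul_sum]
    refine Finset.sum_congr rfl fun i _ => ?_
    simp [cupw, capw, bar]
  rw [h1, h2]
  ring

end ring

/-! ### words with one maximum -/

private lemma TwoB_one (hK : St_Kink) (K : Type) [Field K] (q : Kˣ) (N : ℕ) (hN : N = 2 ∨ N = 3) :
    ∀ v : Word, Ok v 2 0 → TwoB_mn v = 0 → ∀ x y : Lab N, val q v [x, y] = capw q x y := by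
  intro v
  induction v with
  | nil =>
    intro h
    exact absurd (show (2 : ℕ) = 0 from h) (by decide)
  | cons s v ih =>
    intro h h0 x y
    obtain ⟨h1, h2⟩ := h
    rcases s with ⟨kd, i⟩
    cases kd with
    | mi =>
      rw [TwoB_mn_mi] at h0
      omega
    | ma =>
      simp only [Kind.inn, Kind.out] at h1 h2
      rw [TwoB_mn_ma] at h0
      have hi : i = 0 := by omega
      subst hi
      have hv := TwoB_nil v h2 h0
      subst hv
      rw [TwoB_val_cons]
      simp [opP, val, opW]
    | cr t =>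
      simp only [Kind.inn, Kind.out] at h1 h2
      rw [TwoB_mn_cr] at h0
      have hi : i = 0 := by omega
      subst hi
      have h3 := ih h2 h0
      rw [TwoB_val_cons]
      have h4 : opP q (⟨.cr t, 0⟩ : Piece) (val q v) [x, y] =
          opX q t (fun x' y' => val q v [x', y']) x y := by
        simp [opP]
      rw [h4, ← hK K q N hN t x y]
      exact TwoB_opX_congr q t _ _ x y fun b c _ _ => h3 b c

private lemma TwoB_oneone (hK : St_Kink) (K : Type) [Field K] (q : Kˣ) (N : ℕ) (hN : N = 2 ∨ N = 3)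
    (v : Word) (h : Ok v 0 0) (h0 : TwoB_mn v = 1) : val (N := N) q v [] = 2 * qn q N := by
  rcases v with _ | ⟨⟨kd, i⟩, v⟩
  · exact absurd h0 (by simp [TwoB_mn])
  · obtain ⟨h1, h2⟩ := h
    cases kd with
    | mi =>
      simp only [Kind.inn, Kind.out] at h1 h2
      rw [TwoB_mn_mi] at h0
      have hi : i = 0 := by omega
      subst hi
      have h3 := TwoB_one hK K q N hN v h2 (by omega)
      rw [TwoB_val_cons]
      have h4 : opP (N := N) q (⟨.mi, 0⟩ : Piece) (val q v) [] =
          ∑ x : Lab N, cupw q x (bar x) * (1 * capw q x (bar x)) := by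
        simp only [opP, List.take_nil, List.drop_nil, List.nil_append]
        refine Finset.sum_congr rfl fun x _ => ?_
        rw [h3, one_mul]
      rw [h4, TwoB_circ, one_mul]
    | ma =>
      simp only [Kind.inn] at h1
      omega
    | cr t =>
      simp only [Kind.inn] at h1
      omega

/-! ### words with two maxima, four strands -/

private lemma TwoB_compat (i : ℕ) (hi : i < 3) {N : ℕ} (r : Pr) (x y u w b c : Lab N) :
    (i = 0 → b.1 = y.1 → c.1 = x.1 → (compat (swI i r) x y u w ↔ compat r b c u w)) ∧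
    (i = 1 → b.1 = u.1 → c.1 = y.1 → (compat (swI i r) x y u w ↔ compat r x b c w)) ∧
    (i = 2 → b.1 = w.1 → c.1 = u.1 → (compat (swI i r) x y u w ↔ compat r x y b c)) := by
  refine ⟨?_, ?_, ?_⟩
  · rintro rfl h1 h2
    cases r <;> simp only [swI, compat, h1, h2] <;> simp <;> tauto
  · rintro rfl h1 h2
    cases r <;> simp only [swI, compat, h1, h2] <;> simp <;> tauto
  · rintro rfl h1 h2
    cases r <;> simp only [swI, compat, h1, h2] <;> simp <;> tauto

private lemma TwoB_swI_swI (i : ℕ) (r : Pr) : swI i (swI i r) = r := by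
  unfold swI
  by_cases h : i = 1
  · rw [if_pos h, if_pos h]
    cases r <;> rfl
  · rw [if_neg h, if_neg h]
    cases r <;> rfl

private def TwoB_oc (l : Option Ltr) (g : List Ltr) : List Ltr :=
  match l with
  | none => g
  | some l => l :: g

private lemma TwoB_sta_oc {A : Type} [CommRing A] (a : Aˣ) (Z : A) (l : Option Ltr) (g : List Ltr) :
    sta a Z (TwoB_oc l g) = stpO a Z l (sta a Z g) := by
  cases l with
  | none => rfl
  | some l => rfl

private lemma TwoB_opP_X {A : Type} [CommRing A] (q : Aˣ) {N : ℕ} (i : ℕ) (hi : i < 3) (t : Bool)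
    (F : List (Lab N) → A) (x y u w : Lab N) :
    opP q ⟨.cr t, i⟩ F [x, y, u, w] = opI q i t (fun x y u w => F [x, y, u, w]) x y u w := by
  interval_cases i
  · simp [opP, opI]
  · simp [opP, opI]
  · simp [opP, opI]

private lemma TwoB_opI_congr {A : Type} [CommRing A] (q : Aˣ) {N : ℕ} (i : ℕ) (hi : i < 3) (t : Bool)
    (F G : Lab N → Lab N → Lab N → Lab N → A) (x y u w : Lab N)
    (h : ∀ x' y' u' w' : Lab N, (∀ r, compat (swI i r) x y u w ↔ compat r x' y' u' w') →
      F x' y' u' w' = G x' y' u' w') :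
    opI q i t F x y u w = opI q i t G x y u w := by
  interval_cases i
  · exact TwoB_opX_congr q t _ _ x y fun b c hb hc =>
      h _ _ _ _ fun r => (TwoB_compat 0 (by omega) r x y u w b c).1 rfl hb hc
  · exact TwoB_opX_congr q t _ _ y u fun b c hb hc =>
      h _ _ _ _ fun r => (TwoB_compat 1 (by omega) r x y u w b c).2.1 rfl hb hc
  · exact TwoB_opX_congr q t _ _ u w fun b c hb hc =>
      h _ _ _ _ fun r => (TwoB_compat 2 (by omega) r x y u w b c).2.2 rfl hb hc

private lemma TwoB_opI_zero {A : Type} [CommRing A] (q : Aˣ) {N : ℕ} (i : ℕ) (t : Bool)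
    (x y u w : Lab N) : opI q i t (fun _ _ _ _ => (0 : A)) x y u w = 0 := by
  unfold opI
  split_ifs
  · exact TwoB_opX_zero q t x y
  · exact TwoB_opX_zero q t y u
  · exact TwoB_opX_zero q t u w

private lemma TwoB_capw_zero {A : Type} [CommRing A] (q : Aˣ) {N : ℕ} (x y : Lab N)
    (h : ¬ x.1 ≠ y.1) : capw q x y = 0 := by
  unfold capw
  rw [if_neg]
  intro h1
  apply h
  rw [h1]
  simp [bar]

private lemma TwoB_four (hK : St_Kink) (hA : St_TBa) : ∀ v : Word, Ok v 4 0 → TwoB_mn v = 0 →
    ∃ (s : Pr) (g : Pr → List Ltr), ∀ (K : Type) [Field K] (q : Kˣ) (N : ℕ), (N = 2 ∨ N = 3) →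
      ∀ x y u w : Lab N, (¬ compat s x y u w → val q v [x, y, u, w] = 0) ∧
      (∀ p, p ≠ s → compat p x y u w → compat s x y u w → val q v [x, y, u, w] =
        zz q * (sta (q ^ (-(N : ℤ))) (zz q ^ 2) (g p)).1 * mm q p x y u w +
          (sta (q ^ (-(N : ℤ))) (zz q ^ 2) (g p)).2 * mm q s x y u w) := by
  intro v
  induction v with
  | nil =>
    intro h
    exact absurd (show (4 : ℕ) = 0 from h) (by decide)
  | cons s v ih =>
    intro h h0
    obtain ⟨h1, h2⟩ := h
    rcases s with ⟨kd, i⟩
    cases kd with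
    | mi =>
      rw [TwoB_mn_mi] at h0
      omega
    | ma =>
      simp only [Kind.inn, Kind.out] at h1 h2
      rw [TwoB_mn_ma] at h0
      have key : ∀ (s0 : Pr), (∀ (K : Type) [Field K] (q : Kˣ) (N : ℕ), (N = 2 ∨ N = 3) →
          ∀ x y u w : Lab N, val q ((⟨.ma, i⟩ : Piece) :: v) [x, y, u, w] = mm q s0 x y u w) →
          (∀ (K : Type) [Field K] (q : Kˣ) (N : ℕ) (x y u w : Lab N), ¬ compat s0 x y u w →
            mm q s0 x y u w = 0) →
          ∃ (s : Pr) (g : Pr → List Ltr), ∀ (K : Type) [Field K] (q : Kˣ) (N : ℕ),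
            (N = 2 ∨ N = 3) → ∀ x y u w : Lab N,
            (¬ compat s x y u w → val q ((⟨.ma, i⟩ : Piece) :: v) [x, y, u, w] = 0) ∧
            (∀ p, p ≠ s → compat p x y u w → compat s x y u w →
              val q ((⟨.ma, i⟩ : Piece) :: v) [x, y, u, w] =
              zz q * (sta (q ^ (-(N : ℤ))) (zz q ^ 2) (g p)).1 * mm q p x y u w +
                (sta (q ^ (-(N : ℤ))) (zz q ^ 2) (g p)).2 * mm q s x y u w) := by
        intro s0 ha hb
        refine ⟨s0, fun _ => [], ?_⟩
        intro K _ q N hN x y u w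
        refine ⟨fun hc => ?_, fun p _ _ _ => ?_⟩
        · rw [ha K q N hN, hb K q N x y u w hc]
        · rw [ha K q N hN]
          simp [sta]
      have hi : i < 3 := by omega
      interval_cases i
      · refine key .a ?_ ?_
        · intro K _ q N hN x y u w
          rw [TwoB_val_cons]
          simp only [opP, List.drop_zero, List.take_zero, List.nil_append]
          rw [TwoB_one hK K q N hN v h2 h0]
          rfl
        · intro K _ q N x y u w hc
          simp only [compat, not_and_or] at hc
          simp only [mm]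
          rcases hc with hc | hc
          · rw [TwoB_capw_zero q x y hc, zero_mul]
          · rw [TwoB_capw_zero q u w hc, mul_zero]
      · refine key .b ?_ ?_
        · intro K _ q N hN x y u w
          rw [TwoB_val_cons]
          simp only [opP, List.drop_succ_cons, List.drop_zero, List.take_succ_cons, List.take_zero,
            List.cons_append, List.nil_append]
          rw [TwoB_one hK K q N hN v h2 h0]
          rfl
        · intro K _ q N x y u w hc
          simp only [compat, not_and_or] at hc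
          simp only [mm]
          rcases hc with hc | hc
          · rw [TwoB_capw_zero q y u hc, zero_mul]
          · rw [TwoB_capw_zero q x w hc, mul_zero]
      · refine key .a ?_ ?_
        · intro K _ q N hN x y u w
          rw [TwoB_val_cons]
          simp only [opP, List.drop_succ_cons, List.drop_zero, List.take_succ_cons, List.take_zero,
            List.cons_append, List.nil_append]
          rw [TwoB_one hK K q N hN v h2 h0]
          simp only [mm]
          ring
        · intro K _ q N x y u w hc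
          simp only [compat, not_and_or] at hc
          simp only [mm]
          rcases hc with hc | hc
          · rw [TwoB_capw_zero q x y hc, zero_mul]
          · rw [TwoB_capw_zero q u w hc, mul_zero]
    | cr t =>
      simp only [Kind.inn, Kind.out] at h1 h2
      rw [TwoB_mn_cr] at h0
      have hi : i < 3 := by omega
      obtain ⟨s', g', h3⟩ := ih h2 h0
      refine ⟨swI i s', fun p => TwoB_oc (trI i t (swI i p) s') (g' (swI i p)), ?_⟩
      intro K _ q N hN x y u w
      refine ⟨fun hc => ?_, fun p hp hcp hcs => ?_⟩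
      · rw [TwoB_val_cons, TwoB_opP_X q i hi, ← TwoB_opI_zero q i t x y u w]
        refine TwoB_opI_congr q i hi t _ _ x y u w fun x' y' u' w' he => ?_
        exact (h3 K q N hN x' y' u' w').1 fun hc' => hc ((he s').2 hc')
      · have hne : swI i p ≠ s' := by
          intro he
          apply hp
          rw [← he, TwoB_swI_swI]
        rw [TwoB_val_cons, TwoB_opP_X q i hi, TwoB_sta_oc]
        have h4 := hA K q N hN i t (swI i p) s' hi hne
          (sta (q ^ (-(N : ℤ))) (zz q ^ 2) (g' (swI i p))) x y u w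
          (by rw [TwoB_swI_swI]; exact hcp) hcs
        rw [TwoB_swI_swI] at h4
        rw [← h4]
        refine TwoB_opI_congr q i hi t _ _ x y u w fun x' y' u' w' he => ?_
        refine (h3 K q N hN x' y' u' w').2 (swI i p) hne ((he (swI i p)).1 ?_) ((he s').1 hcs)
        rw [TwoB_swI_swI]
        exact hcp

/-! ### words with two maxima, two strands -/

private lemma TwoB_zq (K : Type) [Field K] (q : Kˣ) (N : ℕ) (hN : N = 2 ∨ N = 3) :
    zz q * qn q N = (((q ^ (-(N : ℤ)))⁻¹ : Kˣ) : K) - ((q ^ (-(N : ℤ)) : Kˣ) : K) := by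
  have hq : (q : K) ≠ 0 := q.ne_zero
  rcases hN with rfl | rfl
  · simp only [qn, Fin.sum_univ_two, cx, zz, Units.val_zpow_eq_zpow_val, Units.val_inv_eq_inv_val]
    norm_num
    field_simp
    ring
  · simp only [qn, Fin.sum_univ_three, cx, zz, Units.val_zpow_eq_zpow_val, Units.val_inv_eq_inv_val]
    norm_num
    field_simp
    ring

private lemma TwoB_qn_one (K : Type) [Field K] (N : ℕ) : qn (1 : Kˣ) N = (N : K) := by
  unfold qn
  simp

private lemma TwoB_zz_one (K : Type) [Field K] : zz (1 : Kˣ) = (0 : K) := by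
  unfold zz
  simp

private lemma TwoB_sta_one (K : Type) [Field K] (N : ℕ) (g : List Ltr) :
    (sta ((1 : Kˣ) ^ (-(N : ℤ))) (zz (1 : Kˣ) ^ 2 : K) g).2 = 1 := by
  rw [one_zpow, TwoB_zz_one, show ((0 : K) ^ 2) = 0 by simp]
  induction g with
  | nil => rfl
  | cons l g ih =>
    have h : sta (1 : Kˣ) (0 : K) (l :: g) = stp 1 0 l (sta (1 : Kˣ) (0 : K) g) := rfl
    rw [h]
    rcases l with ⟨b, c⟩
    cases b <;> cases c <;> simp [stp, ih]

private lemma TwoB_excl (p1 p2 s : Pr) (h12 : p1 ≠ p2) (h1 : p1 ≠ s) (h2 : p2 ≠ s) {N : ℕ}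
    (x y u w : Lab N) (hc : compat s x y u w) :
    (compat p1 x y u w ∧ ¬ compat p2 x y u w) ∨ (¬ compat p1 x y u w ∧ compat p2 x y u w) := by
  rcases x with ⟨x, x'⟩
  rcases y with ⟨y, y'⟩
  rcases u with ⟨u, u'⟩
  rcases w with ⟨w, w'⟩
  cases p1 <;> cases p2 <;> cases s <;>
    first
    | exact absurd rfl h12
    | exact absurd rfl h1
    | exact absurd rfl h2
    | (simp only [compat] at hc ⊢
       revert hc
       cases x <;> cases y <;> cases u <;> cases w <;> simp)

private lemma TwoB_third (p s : Pr) (h : p ≠ s) : ∃ r : Pr, r ≠ p ∧ r ≠ s := by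
  cases p <;> cases s <;>
    first
    | exact absurd rfl h
    | exact ⟨.a, by decide, by decide⟩
    | exact ⟨.b, by decide, by decide⟩
    | exact ⟨.c, by decide, by decide⟩

private lemma TwoB_others (s : Pr) : ∃ p1 p2 : Pr, p1 ≠ p2 ∧ p1 ≠ s ∧ p2 ≠ s := by
  cases s
  · exact ⟨.b, .c, by decide, by decide, by decide⟩
  · exact ⟨.a, .c, by decide, by decide, by decide⟩
  · exact ⟨.a, .b, by decide, by decide, by decide⟩

section ring

variable {A : Type} [CommRing A] (q : Aˣ) {N : ℕ}

private lemma TwoB_cup_lin (i : ℕ) (c1 c2 c3 c4 : A)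
    (F1 F2 F3 F4 : Lab N → Lab N → Lab N → Lab N → A) (x y : Lab N) :
    cupI q i (fun a b c d => (c1 * F1 a b c d + c2 * F2 a b c d) +
      (c3 * F3 a b c d + c4 * F4 a b c d)) x y =
      (c1 * cupI q i F1 x y + c2 * cupI q i F2 x y) + (c3 * cupI q i F3 x y + c4 * cupI q i F4 x y) := by
  unfold cupI
  split_ifs
  all_goals
    simp only [Finset.mul_sum]
    rw [← Finset.sum_add_distrib, ← Finset.sum_add_distrib, ← Finset.sum_add_distrib]
    refine Finset.sum_congr rfl fun z _ => ?_
    ring

private lemma TwoB_opP_U (i : ℕ) (hi : i < 3) (F : List (Lab N) → A) (x y : Lab N) :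
    opP q ⟨.mi, i⟩ F [x, y] = cupI q i (fun x y u w => F [x, y, u, w]) x y := by
  interval_cases i
  · simp [opP, cupI]
  · simp [opP, cupI]
  · simp [opP, cupI]

private lemma TwoB_res_symm (p s : Pr) (F : Lab N → Lab N → Lab N → Lab N → A) :
    resF p s F = resF s p F := by
  funext x y u w
  unfold resF
  congr 1
  exact propext and_comm

end ring

/-- the value below four strands, as a sum over the two classes -/
private lemma TwoB_split (s p1 p2 : Pr) (h12 : p1 ≠ p2) (h1 : p1 ≠ s) (h2 : p2 ≠ s)
    (g : Pr → List Ltr) (v : Word) (K : Type) [Field K] (q : Kˣ) (N : ℕ)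
    (hv : ∀ x y u w : Lab N, (¬ compat s x y u w → val q v [x, y, u, w] = 0) ∧
      (∀ p, p ≠ s → compat p x y u w → compat s x y u w → val q v [x, y, u, w] =
        zz q * (sta (q ^ (-(N : ℤ))) (zz q ^ 2) (g p)).1 * mm q p x y u w +
          (sta (q ^ (-(N : ℤ))) (zz q ^ 2) (g p)).2 * mm q s x y u w)) (x y u w : Lab N) :
    val q v [x, y, u, w] =
      (zz q * (sta (q ^ (-(N : ℤ))) (zz q ^ 2) (g p1)).1 * resF p1 s (mm q p1) x y u w +
        (sta (q ^ (-(N : ℤ))) (zz q ^ 2) (g p1)).2 * resF p1 s (mm q s) x y u w) +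
      (zz q * (sta (q ^ (-(N : ℤ))) (zz q ^ 2) (g p2)).1 * resF p2 s (mm q p2) x y u w +
        (sta (q ^ (-(N : ℤ))) (zz q ^ 2) (g p2)).2 * resF p2 s (mm q s) x y u w) := by
  obtain ⟨ha, hb⟩ := hv x y u w
  by_cases hc : compat s x y u w
  · rcases TwoB_excl p1 p2 s h12 h1 h2 x y u w hc with ⟨e1, e2⟩ | ⟨e1, e2⟩
    · rw [hb p1 h1 e1 hc]
      simp [resF, e1, e2, hc]
    · rw [hb p2 h2 e2 hc]
      simp [resF, e1, e2, hc]
  · rw [ha hc]
    simp [resF, hc]

private lemma TwoB_two (hK : St_Kink) (hA : St_TBa) (hB : St_TBb) :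
    ∀ v : Word, Ok v 2 0 → TwoB_mn v = 1 →
    (∃ g : List Ltr, ∀ (K : Type) [Field K] (q : Kˣ) (N : ℕ), (N = 2 ∨ N = 3) → ∀ x y : Lab N,
      val q v [x, y] = pol (q ^ (-(N : ℤ))) (zz q ^ 2) g * capw q x y) ∨
    (∀ (K : Type) [Field K] (N : ℕ), (N = 2 ∨ N = 3) → ∀ x y : Lab N,
      val (A := K) 1 v [x, y] = 2 * (N : K) * capw 1 x y) := by
  intro v
  induction v with
  | nil =>
    intro h
    exact absurd (show (2 : ℕ) = 0 from h) (by decide)
  | cons s v ih =>
    intro h h0
    obtain ⟨h1, h2⟩ := h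
    rcases s with ⟨kd, i⟩
    cases kd with
    | mi =>
      simp only [Kind.inn, Kind.out] at h1 h2
      rw [TwoB_mn_mi] at h0
      have hi : i < 3 := by omega
      obtain ⟨s, g, hv⟩ := TwoB_four hK hA v h2 (by omega)
      have hval : ∀ (p1 p2 : Pr), p1 ≠ p2 → p1 ≠ s → p2 ≠ s →
          ∀ (K : Type) [Field K] (q : Kˣ) (N : ℕ), (N = 2 ∨ N = 3) → ∀ x y : Lab N,
          val q ((⟨.mi, i⟩ : Piece) :: v) [x, y] =
          (zz q * (sta (q ^ (-(N : ℤ))) (zz q ^ 2) (g p1)).1 * cupI q i (resF p1 s (mm q p1)) x y +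
            (sta (q ^ (-(N : ℤ))) (zz q ^ 2) (g p1)).2 * cupI q i (resF p1 s (mm q s)) x y) +
          (zz q * (sta (q ^ (-(N : ℤ))) (zz q ^ 2) (g p2)).1 * cupI q i (resF p2 s (mm q p2)) x y +
            (sta (q ^ (-(N : ℤ))) (zz q ^ 2) (g p2)).2 * cupI q i (resF p2 s (mm q s)) x y) := by
        intro p1 p2 e12 e1 e2 K _ q N hN x y
        rw [TwoB_val_cons, TwoB_opP_U q i hi, ← TwoB_cup_lin]
        congr 1
        funext a b c d
        exact TwoB_split s p1 p2 e12 e1 e2 g v K q N (hv K q N hN) a b c d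
      by_cases hpb : (if i = 1 then Pr.b else Pr.a) = s
      · right
        obtain ⟨p1, p2, e12, e1, e2⟩ := TwoB_others s
        intro K _ N hN x y
        rw [hval p1 p2 e12 e1 e2 K 1 N hN x y]
        have b1 := (hB K 1 N hN i s p1 hi e1.symm x y).1 hpb.symm
        have b2 := (hB K 1 N hN i s p2 hi e2.symm x y).1 hpb.symm
        rw [TwoB_res_symm s p1] at b1
        rw [TwoB_res_symm s p2] at b2
        rw [b1.1, b2.1, TwoB_sta_one, TwoB_sta_one, TwoB_zz_one, TwoB_qn_one]
        ring
      · left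
        obtain ⟨p2, e1, e2⟩ := TwoB_third (if i = 1 then Pr.b else Pr.a) s hpb
        refine ⟨g (if i = 1 then Pr.b else Pr.a), ?_⟩
        intro K _ q N hN x y
        rw [hval (if i = 1 then Pr.b else Pr.a) p2 e1.symm hpb e2 K q N hN x y]
        have b1 := (hB K q N hN i (if i = 1 then Pr.b else Pr.a) s hi hpb x y).1 rfl
        have b2 := (hB K q N hN i p2 s hi e2 x y).2 e1 (fun h => hpb h.symm)
        rw [b1.1, b1.2, b2.1, b2.2]
        unfold pol
        have hz := TwoB_zq K q N hN
        rw [← hz]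
        ring
    | ma =>
      simp only [Kind.inn, Kind.out] at h1 h2
      rw [TwoB_mn_ma] at h0
      have hi : i = 0 := by omega
      subst hi
      right
      intro K _ N hN x y
      rw [TwoB_val_cons]
      simp only [opP, List.drop_zero, List.take_zero, List.nil_append]
      rw [TwoB_oneone hK K 1 N hN v h2 h0, TwoB_qn_one]
      ring
    | cr t =>
      simp only [Kind.inn, Kind.out] at h1 h2
      rw [TwoB_mn_cr] at h0
      have hi : i = 0 := by omega
      subst hi
      have h4 : ∀ (K : Type) [Field K] (q : Kˣ) (N : ℕ) (x y : Lab N),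
          val q ((⟨.cr t, 0⟩ : Piece) :: v) [x, y] = opX q t (fun x' y' => val q v [x', y']) x y := by
        intro K _ q N x y
        rw [TwoB_val_cons]
        simp [opP]
      rcases ih h2 h0 with ⟨g, hg⟩ | hg
      · left
        refine ⟨g, ?_⟩
        intro K _ q N hN x y
        rw [h4, ← hK K q N hN t x y, ← TwoB_opX_smul]
        exact TwoB_opX_congr q t _ _ x y fun b c _ _ => hg K q N hN b c
      · right
        intro K _ N hN x y
        rw [h4, ← hK K 1 N hN t x y, ← TwoB_opX_smul]
        exact TwoB_opX_congr 1 t _ _ x y fun b c _ _ => hg K N hN b c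

theorem thm_TwoB : St_Kink → St_TBa → St_TBb → St_TwoB := by
  intro hK hA hB w hw hm
  have hc := TwoB_cnt w 0 hw
  have hm' : maxima w = 0 ∨ maxima w = 1 ∨ maxima w = 2 := by omega
  rcases hm' with h0 | h0 | h0
  · left
    exact TwoB_nil w hw (by omega)
  · right
    left
    refine ⟨[], ?_⟩
    intro K _ q N hN
    rw [TwoB_oneone hK K q N hN w hw (by omega)]
    simp [pol, sta]
  · rcases w with _ | ⟨⟨kd, i⟩, v⟩
    · left
      rfl
    · right
      obtain ⟨h1, h2⟩ := hw
      cases kd with
      | ma =>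
        simp only [Kind.inn] at h1
        omega
      | cr t =>
        simp only [Kind.inn] at h1
        omega
      | mi =>
        simp only [Kind.inn, Kind.out] at h1 h2
        rw [TwoB_mn_mi] at hc
        have hi : i = 0 := by omega
        subst hi
        have h4 : ∀ (K : Type) [Field K] (q : Kˣ) (N : ℕ),
            val (N := N) q ((⟨.mi, 0⟩ : Piece) :: v) [] =
              ∑ x : Lab N, cupw q x (bar x) * val q v [x, bar x] := by
          intro K _ q N
          rw [TwoB_val_cons]
          simp only [opP, List.take_nil, List.drop_nil, List.nil_append]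
        rcases TwoB_two hK hA hB v h2 (by omega) with ⟨g, hg⟩ | hg
        · left
          refine ⟨g, ?_⟩
          intro K _ q N hN
          rw [h4]
          have h5 : ∀ x : Lab N, cupw q x (bar x) * val q v [x, bar x] =
              cupw q x (bar x) * (pol (q ^ (-(N : ℤ))) (zz q ^ 2) g * capw q x (bar x)) :=
            fun x => by rw [hg K q N hN]
          rw [Finset.sum_congr rfl fun x _ => h5 x, TwoB_circ]
          ring
        · right
          intro K _ N hN
          rw [h4]
          have h5 : ∀ x : Lab N, cupw (1 : Kˣ) x (bar x) * val (A := K) 1 v [x, bar x] =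
              cupw (1 : Kˣ) x (bar x) * (2 * (N : K) * capw 1 x (bar x)) :=
            fun x => by rw [hg K N hN]
          rw [Finset.sum_congr rfl fun x _ => h5 x, TwoB_circ, TwoB_qn_one]
          ring

end IBN
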