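import Pool.Agent.IBN.StC

/-!
# IBN VD : leading coefficient of `vT`
-/

set_option autoImplicit false

namespace IBN

/-! ### lists and matrices -/

private theorem VD_lp {α M : Type} [Monoid M] (f : α → M) (k : α) : ∀ l : List α, l.Nodup →
    k ∈ l → (∀ x ∈ l, x ≠ k → f x = 1) → (l.map f).prod = f k
  | [], _, hk, _ => absurd hk List.not_mem_nil
  | a :: l, hn, hk, h => by
    rw [List.map_cons, List.prod_cons]
    rw [List.nodup_cons] at hn
    by_cases hak : a = k
    · subst hak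
      have : (l.map f).prod = 1 := List.prod_eq_one (by
        intro y hy
        obtain ⟨x, hx, rfl⟩ := List.mem_map.1 hy
        exact h x (List.mem_cons_of_mem _ hx) (fun e => hn.1 (e ▸ hx)))
      rw [this, mul_one]
    · have hk' : k ∈ l := (List.mem_cons.1 hk).resolve_left (Ne.symm hak)
      rw [h a List.mem_cons_self hak, one_mul,
        VD_lp f k l hn.2 hk' (fun x hx => h x (List.mem_cons_of_mem _ hx))]

private theorem VD_chain {ι R : Type} [Fintype ι] [DecidableEq ι] [CommRing R] :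
    ∀ (n : ℕ) (M : Fin n → Matrix ι ι R) (x y : ι),
      ((List.finRange n).map M).prod x y = ∑ z : Fin (n + 1) → ι,
        if z 0 = x ∧ z (Fin.last n) = y then ∏ i : Fin n, M i (z i.castSucc) (z i.succ) else 0
  | 0, M, x, y => by
    rw [List.finRange_zero, List.map_nil, List.prod_nil, Matrix.one_apply]
    rw [← (Equiv.funUnique (Fin 1) ι).symm.sum_comp]
    simp only [Finset.univ_eq_empty, Finset.prod_empty]
    have h : ∀ a : ι, ((Equiv.funUnique (Fin 1) ι).symm a 0 = x ∧
        (Equiv.funUnique (Fin 1) ι).symm a (Fin.last 0) = y) ↔ (a = x ∧ a = y) := fun a => Iff.rfl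
    simp only [h]
    by_cases hxy : x = y
    · subst hxy
      simp
    · rw [if_neg hxy]
      symm
      apply Finset.sum_eq_zero
      intro a _
      rw [if_neg]
      rintro ⟨rfl, h2⟩
      exact hxy h2
  | n + 1, M, x, y => by
    rw [List.finRange_succ, List.map_cons, List.prod_cons, List.map_map, Matrix.mul_apply]
    have ih := fun w => VD_chain n (M ∘ Fin.succ) w y
    simp only [ih]
    rw [← (Fin.consEquiv (fun _ : Fin (n + 2) => ι)).sum_comp, Fintype.sum_prod_type]
    have e1 : ∀ (a : ι) (z : Fin (n + 1) → ι),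
        (if (Fin.consEquiv (fun _ : Fin (n + 2) => ι)) (a, z) 0 = x ∧
          (Fin.consEquiv (fun _ : Fin (n + 2) => ι)) (a, z) (Fin.last (n + 1)) = y then
          ∏ i : Fin (n + 1), M i ((Fin.consEquiv (fun _ : Fin (n + 2) => ι)) (a, z) i.castSucc)
            ((Fin.consEquiv (fun _ : Fin (n + 2) => ι)) (a, z) i.succ) else 0) =
        if a = x then (if z (Fin.last n) = y then M 0 a (z 0) *
          ∏ i : Fin n, M i.succ (z i.castSucc) (z i.succ) else 0) else 0 := by
      intro a z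
      rw [Fin.prod_univ_succ]
      simp only [Fin.consEquiv_apply]
      rw [ite_and]
      rfl
    simp only [e1]
    rw [Finset.sum_comm]
    simp only [Finset.sum_ite_eq', Finset.mem_univ, if_true, Finset.mul_sum]
    rw [Finset.sum_comm]
    refine Finset.sum_congr rfl (fun z _ => ?_)
    by_cases hz : z (Fin.last n) = y
    · simp only [hz, and_true, if_true, mul_ite, mul_zero, Finset.sum_ite_eq, Finset.mem_univ]
      rfl
    · simp only [hz, and_false, if_false, mul_zero, Finset.sum_const_zero]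

private theorem VD_trace {ι R : Type} [Fintype ι] [DecidableEq ι] [CommRing R] (n : ℕ)
    (M : Fin (n + 1) → Matrix ι ι R) :
    Matrix.trace ((List.finRange (n + 1)).map M).prod =
      ∑ D : Fin (n + 1) → ι, ∏ i, M i (D i) (D (i + 1)) := by
  unfold Matrix.trace
  simp only [Matrix.diag_apply, VD_chain]
  rw [Finset.sum_comm]
  rw [← (Fin.snocEquiv (fun _ : Fin (n + 2) => ι)).sum_comp, Fintype.sum_prod_type]
  have e1 : ∀ (a : ι) (D : Fin (n + 1) → ι),
      (∑ x : ι, if (Fin.snocEquiv (fun _ : Fin (n + 2) => ι)) (a, D) 0 = x ∧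
        (Fin.snocEquiv (fun _ : Fin (n + 2) => ι)) (a, D) (Fin.last (n + 1)) = x then
        ∏ i : Fin (n + 1), M i ((Fin.snocEquiv (fun _ : Fin (n + 2) => ι)) (a, D) i.castSucc)
          ((Fin.snocEquiv (fun _ : Fin (n + 2) => ι)) (a, D) i.succ) else 0) =
      if a = D 0 then ∏ i : Fin (n + 1), M i (D i) (Fin.snoc (α := fun _ => ι) D a i.succ)
        else 0 := by
    intro a D
    have h0 : (Fin.snocEquiv (fun _ : Fin (n + 2) => ι)) (a, D) 0 = D 0 := by
      show Fin.snoc (α := fun _ => ι) D a 0 = D 0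
      rw [← Fin.castSucc_zero, Fin.snoc_castSucc]
    have h1 : (Fin.snocEquiv (fun _ : Fin (n + 2) => ι)) (a, D) (Fin.last (n + 1)) = a :=
      Fin.snoc_last (α := fun _ => ι) _ _
    have h2 : ∀ i : Fin (n + 1),
        (Fin.snocEquiv (fun _ : Fin (n + 2) => ι)) (a, D) i.castSucc = D i :=
      fun i => Fin.snoc_castSucc (α := fun _ => ι) _ _ _
    have h3 : ∀ i : Fin (n + 1), (Fin.snocEquiv (fun _ : Fin (n + 2) => ι)) (a, D) i.succ =
        Fin.snoc (α := fun _ => ι) D a i.succ := fun i => rfl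
    simp only [h0, h1, h2, h3]
    by_cases h : a = D 0
    · subst h
      simp
    · rw [if_neg h]
      apply Finset.sum_eq_zero
      intro x _
      rw [if_neg]
      rintro ⟨h4, h5⟩
      exact h (h5.trans h4.symm)
  simp only [e1]
  rw [Finset.sum_comm]
  refine Finset.sum_congr rfl (fun D _ => ?_)
  rw [Finset.sum_ite_eq', if_pos (Finset.mem_univ _)]
  refine Finset.prod_congr rfl (fun i _ => ?_)
  congr 1
  rcases Fin.eq_castSucc_or_eq_last i with ⟨j, rfl⟩ | rfl
  · rw [Fin.succ_castSucc, Fin.snoc_castSucc, Fin.coeSucc_eq_succ]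
  · rw [Fin.succ_last, Fin.snoc_last, Fin.last_add_one]

private theorem VD_coeff {m : ℕ} (f : Fin m → PowerSeries ℚ) (T : Finset (Fin m))
    (h0 : ∀ i ∈ T, PowerSeries.coeff 0 (f i) = 0) (h1 : ∀ i, i ∉ T → f i = 1)
    (g : PowerSeries ℚ) :
    PowerSeries.coeff T.card ((∏ i, f i) * g) =
      (∏ i ∈ T, PowerSeries.coeff 1 (f i)) * PowerSeries.coeff 0 g := by
  have e1 : ∏ i, f i = ∏ i ∈ T, f i :=
    (Finset.prod_subset (Finset.subset_univ T) (fun i _ hi => h1 i hi)).symm
  have hx : ∀ i ∈ T, f i = PowerSeries.X * PowerSeries.mk (fun n => PowerSeries.coeff (n + 1) (f i)) := by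
    intro i hi
    have h := PowerSeries.eq_X_mul_shift_add_const (f i)
    have h2 : PowerSeries.constantCoeff (f i) = 0 := by
      rw [← PowerSeries.coeff_zero_eq_constantCoeff_apply]
      exact h0 i hi
    rw [h2, map_zero, add_zero] at h
    exact h
  rw [e1, Finset.prod_congr rfl hx, Finset.prod_mul_distrib, Finset.prod_const, mul_assoc]
  have e2 := PowerSeries.coeff_X_pow_mul
    ((∏ i ∈ T, PowerSeries.mk (fun n => PowerSeries.coeff (n + 1) (f i))) * g) T.card 0
  rw [zero_add] at e2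
  rw [e2]
  simp only [PowerSeries.coeff_zero_eq_constantCoeff_apply, map_mul, map_prod]
  have e3 : ∀ i, PowerSeries.constantCoeff (PowerSeries.mk
      (fun n => PowerSeries.coeff (n + 1) (f i))) = PowerSeries.coeff 1 (f i) := by
    intro i
    rw [← PowerSeries.coeff_zero_eq_constantCoeff_apply, PowerSeries.coeff_mk]
  simp only [e3]

/-! ### naturality -/

section

variable {A B : Type} [CommRing A] [CommRing B] (f : A →+* B) (q : Aˣ) {N : ℕ}

private theorem VD_zpow (n : ℤ) :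
    f ((q ^ n : Aˣ) : A) = (((Units.map (f : A →* B) q) ^ n : Bˣ) : B) := by
  rw [← map_zpow, Units.coe_map]
  rfl

private theorem VD_cM : f.mapMatrix (cM q : Matrix (Lab N) (Lab N) A) =
    cM (Units.map (f : A →* B) q) := by
  ext x y
  show f (capw q x y) = capw (Units.map (f : A →* B) q) x y
  unfold capw
  split_ifs
  · exact map_one f
  · exact VD_zpow f q _
  · exact map_zero f

private theorem VD_uM : f.mapMatrix (uM q : Matrix (Lab N) (Lab N) A) =
    uM (Units.map (f : A →* B) q) := by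
  ext x y
  show f (cupw q x y) = cupw (Units.map (f : A →* B) q) x y
  unfold cupw
  split_ifs
  · exact VD_zpow f q _
  · exact map_one f
  · exact map_zero f

private theorem VD_tr (M : Matrix (Lab N) (Lab N) A) :
    f.mapMatrix M.transpose = (f.mapMatrix M).transpose := rfl

private theorem VD_fwd (F : Strand → Matrix (Lab N) (Lab N) A) (rr : ℕ → ℕ → ℕ) (i j : ℕ) :
    f.mapMatrix (fwd q F rr i j) =
      fwd (Units.map (f : A →* B) q) (fun s => f.mapMatrix (F s)) rr i j := by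
  unfold fwd
  rw [map_mul, map_mul, map_mul, map_list_prod, List.map_map, VD_tr, VD_cM]
  congr 2
  refine List.map_congr_left (fun t _ => ?_)
  show f.mapMatrix (F (i, j, 2 * t) * cM q * (F (i, j, 2 * t + 1)).transpose * uM q) = _
  rw [map_mul, map_mul, map_mul, VD_tr, VD_cM, VD_uM]

private theorem VD_loop (F : Strand → Matrix (Lab N) (Lab N) A) (rr : ℕ → ℕ → ℕ) (c : List ℕ) :
    f.mapMatrix (loopM q F rr c) =
      loopM (Units.map (f : A →* B) q) (fun s => f.mapMatrix (F s)) rr c := by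
  unfold loopM
  rw [map_list_prod, List.map_map]
  congr 1
  refine List.map_congr_left (fun k _ => ?_)
  rw [Function.comp_apply, map_mul]
  congr 1
  · unfold edgM
    split_ifs
    · exact VD_fwd f q F rr _ _
    · rw [VD_tr, VD_fwd]
  · unfold vrt
    split_ifs
    · exact VD_uM f q
    · rw [VD_tr, VD_uM]

private theorem VD_mtn (X : List Cro) (r : Fin X.length → Ter N) (s : Strand) :
    f.mapMatrix (mt X r s : Matrix (Lab N) (Lab N) A) = mt X r s := by
  unfold mt
  rw [map_list_prod, List.map_map]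
  congr 1
  refine List.map_congr_left (fun x _ => ?_)
  rw [Function.comp_apply]
  have h1 : ∀ u v : Lab N, f.mapMatrix (Matrix.single u v (1 : A)) = Matrix.single u v (1 : B) := by
    intro u v
    ext a b
    simp [Matrix.single_apply, apply_ite f]
  unfold fac
  rcases r x with _ | ⟨u, u', w, w'⟩
  · exact map_one _
  · dsimp only
    split_ifs
    · exact h1 _ _
    · exact h1 _ _
    · exact map_one _

end

/-! ### the value at `q = 1` -/

section

variable {R : Type} [CommRing R] {N : ℕ}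

/-- the matrix of the minima and maxima -/
private def VD_J (N : ℕ) (R : Type) [CommRing R] : Matrix (Lab N) (Lab N) R :=
  Matrix.of fun x y => if y = bar x then 1 else 0

private theorem VD_bar (x : Lab N) : bar (bar x) = x := by
  unfold bar
  simp

private theorem VD_bar2 (x y : Lab N) : y = bar x ↔ x = bar y := by
  constructor
  · rintro rfl
    rw [VD_bar]
  · rintro rfl
    rw [VD_bar]

private theorem VD_cJ : (cM (1 : Rˣ) : Matrix (Lab N) (Lab N) R) = VD_J N R := by
  ext x y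
  show capw (1 : Rˣ) x y = if y = bar x then 1 else 0
  unfold capw
  simp

private theorem VD_uJ : (uM (1 : Rˣ) : Matrix (Lab N) (Lab N) R) = VD_J N R := by
  ext x y
  show cupw (1 : Rˣ) x y = if y = bar x then 1 else 0
  unfold cupw
  simp

private theorem VD_JJ : VD_J N R * VD_J N R = 1 := by
  ext x z
  rw [Matrix.mul_apply, Matrix.one_apply]
  unfold VD_J
  simp only [Matrix.of_apply, ite_mul, one_mul, zero_mul, Finset.sum_ite_eq', Finset.mem_univ,
    if_true, VD_bar]
  simp only [eq_comm]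

private theorem VD_Jt : (VD_J N R).transpose = VD_J N R := by
  ext x y
  show (if x = bar y then (1 : R) else 0) = if y = bar x then 1 else 0
  simp only [VD_bar2 y x]

private theorem VD_vJ (u w : ℕ) : (vrt (1 : Rˣ) u w : Matrix (Lab N) (Lab N) R) = VD_J N R := by
  unfold vrt
  split_ifs
  · exact VD_uJ
  · rw [VD_uJ, VD_Jt]

/-- the matrix of a strand along its edge -/
private def VD_Q (b : Bool) (M : Matrix (Lab N) (Lab N) R) : Matrix (Lab N) (Lab N) R :=
  if b then M else VD_J N R * M.transpose * VD_J N R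

private theorem VD_Q1 (b : Bool) : VD_Q b (1 : Matrix (Lab N) (Lab N) R) = 1 := by
  unfold VD_Q
  split_ifs
  · rfl
  · rw [Matrix.transpose_one, mul_one, VD_JJ]

private theorem VD_Qs (b : Bool) (u u' x y : Lab N) :
    VD_Q b (Matrix.single u u' (1 : R)) x y = if raw b x y = (u, u') then 1 else 0 := by
  unfold VD_Q raw
  cases b with
  | true =>
    simp only [if_true, Matrix.single_apply, Prod.mk.injEq]
    simp only [eq_comm]
  | false =>
    simp only [Bool.false_eq_true, if_false, Matrix.transpose_single, Prod.mk.injEq]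
    rw [Matrix.mul_apply]
    unfold VD_J
    simp only [Matrix.of_apply, mul_ite, mul_one, mul_zero]
    have h : ∀ z : Lab N, (y = bar z) ↔ (z = bar y) := fun z => VD_bar2 z y
    simp only [h, Finset.sum_ite_eq', Finset.mem_univ, if_true]
    rw [Matrix.mul_apply]
    simp only [Matrix.of_apply, ite_mul, one_mul, zero_mul, Finset.sum_ite_eq', Finset.mem_univ,
      if_true, Matrix.single_apply]
    simp only [and_comm, eq_comm]

private theorem VD_fwd1 (F : Strand → Matrix (Lab N) (Lab N) R) (rr : ℕ → ℕ → ℕ) (i j t₀ : ℕ)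
    (ht : t₀ ≤ 2 * rr i j + 1) (h : ∀ t, t ≤ 2 * rr i j + 1 → t ≠ t₀ → F (i, j, t) = 1) :
    fwd (1 : Rˣ) F rr i j = VD_Q (up (i, j, t₀)) (F (i, j, t₀)) * VD_J N R := by
  have e1 : fwd (1 : Rˣ) F rr i j = ((List.range (rr i j + 1)).map fun t =>
      F (i, j, 2 * t) * VD_J N R * (F (i, j, 2 * t + 1)).transpose * VD_J N R).prod *
        VD_J N R := by
    have h0 : ∀ a b : Matrix (Lab N) (Lab N) R, a * (b * VD_J N R) * VD_J N R = a * b := by
      intro a b
      rw [mul_assoc, mul_assoc, VD_JJ, mul_one]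
    unfold fwd
    rw [VD_cJ, VD_uJ, List.range_succ, List.map_append, List.prod_append, List.map_cons,
      List.map_nil, List.prod_cons, List.prod_nil, mul_one, h0]
  have e2 : ((List.range (rr i j + 1)).map fun t =>
      F (i, j, 2 * t) * VD_J N R * (F (i, j, 2 * t + 1)).transpose * VD_J N R).prod =
      (fun t => F (i, j, 2 * t) * VD_J N R * (F (i, j, 2 * t + 1)).transpose * VD_J N R)
        (t₀ / 2) := by
    apply VD_lp _ _ _ (List.nodup_range)
    · rw [List.mem_range]
      omega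
    · intro t ht1 ht2
      rw [List.mem_range] at ht1
      rw [h (2 * t) (by omega) (by omega), h (2 * t + 1) (by omega) (by omega),
        Matrix.transpose_one, one_mul, mul_one, VD_JJ]
  rw [e1, e2]
  congr 1
  unfold up VD_Q
  rcases Nat.mod_two_eq_zero_or_one t₀ with h0 | h0
  · have h2 : 2 * (t₀ / 2) = t₀ := by omega
    simp only [h0, h2, decide_true, if_true]
    rw [h (t₀ + 1) (by omega) (by omega), Matrix.transpose_one, mul_one, mul_assoc, VD_JJ, mul_one]
  · have h2 : 2 * (t₀ / 2) + 1 = t₀ := by omega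
    have h3 : 2 * (t₀ / 2) = t₀ - 1 := by omega
    have h4 : t₀ - 1 + 1 = t₀ := by omega
    simp only [h0, h3]
    rw [h (t₀ - 1) (by omega) (by omega), one_mul, h4]
    simp

private theorem VD_fwd0 (F : Strand → Matrix (Lab N) (Lab N) R) (rr : ℕ → ℕ → ℕ) (i j : ℕ)
    (h : ∀ t, F (i, j, t) = 1) : fwd (1 : Rˣ) F rr i j = VD_J N R := by
  rw [VD_fwd1 F rr i j 0 (Nat.zero_le _) (fun t _ _ => h t), h, VD_Q1, one_mul]

private theorem VD_edg0 (F : Strand → Matrix (Lab N) (Lab N) R) (rr : ℕ → ℕ → ℕ) (i j : ℕ)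
    (h : ∀ t, F (i, j, t) = 1) (h' : ∀ t, F (j, i, t) = 1) :
    edgM (1 : Rˣ) F rr i j = VD_J N R := by
  unfold edgM
  split_ifs
  · exact VD_fwd0 F rr i j h
  · rw [VD_fwd0 F rr j i h', VD_Jt]

end

/-! ### strands and slots -/

private theorem VD_inj (n : ℕ) (v : ℕ → ℕ) (hv : Inc n v) (i j : ℕ) (hi : i < 40) (hj : j < 40)
    (h : v i = v j) : i = j := by
  rcases lt_trichotomy i j with h1 | h1 | h1
  · exact absurd h (hv.1 i j h1 hj).ne
  · exact h1
  · exact absurd h (hv.1 j i h1 hi).ne'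

private theorem VD_n : ∀ (s : Fin 10) (b : Bool), sS s < mS s b ∧ mS s b < eS s ∧ eS s < 40 := by
  decide

private theorem VD_d1 : ∀ (s s' : Fin 10) (b b' : Bool),
    (sS s = sS s' → mS s b = mS s' b' → s = s' ∧ b = b') ∧
    (sS s = mS s' b' → mS s b = eS s' → s = s' ∧ b = b') ∧
    (mS s b = sS s' → eS s = mS s' b' → s = s' ∧ b = b') ∧
    (mS s b = mS s' b' → eS s = eS s' → s = s' ∧ b = b') := by
  decide

private theorem VD_d2 : ∀ (s s' : Fin 10) (b : Bool),
    ¬ (sS s = eS s' ∧ mS s b = sS (s' + 1)) ∧ ¬ (mS s b = eS s' ∧ sS s = sS (s' + 1)) ∧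
    ¬ (mS s b = eS s' ∧ eS s = sS (s' + 1)) ∧ ¬ (eS s = eS s' ∧ mS s b = sS (s' + 1)) := by
  decide

private theorem VD_uniq (n : ℕ) (v : ℕ → ℕ) (hv : Inc n v) (σ : Strand) (s s' : Fin 10)
    (b b' : Bool) (h : inSl v σ s b) (h' : inSl v σ s' b') : s = s' ∧ b = b' := by
  have n1 := VD_n s b
  have n2 := VD_n s' b'
  have d := VD_d1 s s' b b'
  have inj := VD_inj n v hv
  rcases h with ⟨h1, h2⟩ | ⟨h1, h2⟩ <;> rcases h' with ⟨h3, h4⟩ | ⟨h3, h4⟩
  · exact d.1 (inj _ _ (by omega) (by omega) (h1.symm.trans h3))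
      (inj _ _ (by omega) (by omega) (h2.symm.trans h4))
  · exact d.2.1 (inj _ _ (by omega) (by omega) (h1.symm.trans h3))
      (inj _ _ (by omega) (by omega) (h2.symm.trans h4))
  · exact d.2.2.1 (inj _ _ (by omega) (by omega) (h1.symm.trans h3))
      (inj _ _ (by omega) (by omega) (h2.symm.trans h4))
  · exact d.2.2.2 (inj _ _ (by omega) (by omega) (h1.symm.trans h3))
      (inj _ _ (by omega) (by omega) (h2.symm.trans h4))

/-- strands of the connecting edges are not in a slot -/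
private theorem VD_con (n : ℕ) (v : ℕ → ℕ) (hv : Inc n v) (σ : Strand) (s s' : Fin 10)
    (b : Bool) (h : inSl v σ s b) :
    ¬ (σ.1 = v (eS s') ∧ σ.2.1 = v (sS (s' + 1))) ∧
      ¬ (σ.2.1 = v (eS s') ∧ σ.1 = v (sS (s' + 1))) := by
  have n1 := VD_n s b
  have n2 := VD_n s' b
  have n3 := VD_n (s' + 1) b
  have d := VD_d2 s s' b
  have inj := VD_inj n v hv
  rcases h with ⟨h1, h2⟩ | ⟨h1, h2⟩ <;> constructor <;> rintro ⟨h3, h4⟩
  · exact d.1 ⟨inj _ _ (by omega) (by omega) (h1.symm.trans h3),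
      inj _ _ (by omega) (by omega) (h2.symm.trans h4)⟩
  · exact d.2.1 ⟨inj _ _ (by omega) (by omega) (h2.symm.trans h3),
      inj _ _ (by omega) (by omega) (h1.symm.trans h4)⟩
  · exact d.2.2.1 ⟨inj _ _ (by omega) (by omega) (h1.symm.trans h3),
      inj _ _ (by omega) (by omega) (h2.symm.trans h4)⟩
  · exact d.2.2.2 ⟨inj _ _ (by omega) (by omega) (h2.symm.trans h3),
      inj _ _ (by omega) (by omega) (h1.symm.trans h4)⟩

/-! ### strands of the diagram -/

private theorem VD_swp {α : Type} (x : α) : ∀ (i : ℕ) (l : List α), x ∈ swp i l → x ∈ l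
  | 0, [], h => h
  | 0, [a], h => h
  | 0, a :: b :: l, h => by
    have h' : x ∈ b :: a :: l := h
    simp only [List.mem_cons] at h' ⊢
    tauto
  | i + 1, [], h => h
  | i + 1, a :: l, h => by
    have h' : x ∈ a :: swp i l := h
    rw [List.mem_cons] at h' ⊢
    rcases h' with h' | h'
    · exact Or.inl h'
    · exact Or.inr (VD_swp x i l h')

private theorem VD_cros : ∀ (b : List (ℕ × Bool)) (l : List Strand) (c : Cro), c ∈ cros b l →
    c.a ∈ l ∧ c.b ∈ l
  | [], _, c, h => absurd h List.not_mem_nil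
  | x :: b, l, c, h => by
    have hd : ∀ y ∈ l.drop x.1, y ∈ l := fun y hy => List.mem_of_mem_drop hy
    unfold cros at h
    rcases hl : l.drop x.1 with _ | ⟨s, _ | ⟨s', t⟩⟩
    · rw [hl] at h
      have := VD_cros b _ c h
      exact ⟨VD_swp _ _ _ this.1, VD_swp _ _ _ this.2⟩
    · rw [hl] at h
      have := VD_cros b _ c h
      exact ⟨VD_swp _ _ _ this.1, VD_swp _ _ _ this.2⟩
    · rw [hl] at h hd
      rcases List.mem_cons.1 h with h | h
      · subst h
        exact ⟨hd s (by simp), hd s' (by simp)⟩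
      · have := VD_cros b _ c h
        exact ⟨VD_swp _ _ _ this.1, VD_swp _ _ _ this.2⟩

private theorem VD_bot {n : ℕ} (G : Diagram n) (σ : Strand) (h : σ ∈ G.bottom) :
    σ.2.2 ≤ 2 * G.r σ.1 σ.2.1 + 1 := by
  unfold Diagram.bottom at h
  rcases List.mem_append.1 h with h | h
  · obtain ⟨i, _, hi⟩ := List.mem_flatMap.1 h
    unfold vrow at hi
    obtain ⟨j, _, rfl⟩ := List.mem_map.1 hi
    by_cases hij : i < j
    · simp only [if_pos hij]
      exact Nat.zero_le _
    · simp only [if_neg hij]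
      exact le_rfl
  · unfold minrow at h
    obtain ⟨⟨i, j, t⟩, hm, hi⟩ := List.mem_flatMap.1 h
    have hm' := ((G.mins_mem i j t).1 hm).2.2
    simp only [List.mem_cons, List.not_mem_nil, or_false] at hi
    rcases hi with rfl | rfl
    · show 2 * t + 1 ≤ 2 * G.r i j + 1
      omega
    · show 2 * t + 2 ≤ 2 * G.r i j + 1
      omega

/-! ### the factor of a slot -/

section

variable {R : Type} [CommRing R] {N : ℕ}

/-- the factor of a slot -/
private def VD_slot (F : Strand → Matrix (Lab N) (Lab N) R) (rr : ℕ → ℕ → ℕ) (v : ℕ → ℕ)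
    (ε : Finset (Fin 10)) (s : Fin 10) : Matrix (Lab N) (Lab N) R :=
  (fwd (1 : Rˣ) F rr (v (sS s)) (v (mS s (decide (s ∈ ε)))) * uM (1 : Rˣ) *
    fwd (1 : Rˣ) F rr (v (mS s (decide (s ∈ ε)))) (v (eS s))) *
  (vrt (1 : Rˣ) (v (sS s)) (v (sS (s + 1))) * edgM (1 : Rˣ) F rr (v (eS s)) (v (sS (s + 1))) *
    vrt (1 : Rˣ) (v (eS s)) (v (eS (s + 1))))

private theorem VD_slot1 (F : Strand → Matrix (Lab N) (Lab N) R) (rr : ℕ → ℕ → ℕ) (n : ℕ)
    (v : ℕ → ℕ) (hv : Inc n v) (ε : Finset (Fin 10)) (s : Fin 10) (σ₀ : Strand)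
    (hσ : inSl v σ₀ s (decide (s ∈ ε))) (hval : σ₀.2.2 ≤ 2 * rr σ₀.1 σ₀.2.1 + 1)
    (h : ∀ σ : Strand, inSl v σ s (decide (s ∈ ε)) → σ ≠ σ₀ → F σ = 1)
    (hcon : ∀ σ : Strand, ((σ.1 = v (eS s) ∧ σ.2.1 = v (sS (s + 1))) ∨
      (σ.2.1 = v (eS s) ∧ σ.1 = v (sS (s + 1)))) → F σ = 1) :
    VD_slot F rr v ε s = VD_Q (up σ₀) (F σ₀) := by
  have n1 := VD_n s (decide (s ∈ ε))
  have hne : v (mS s (decide (s ∈ ε))) ≠ v (sS s) := fun e => by
    have := VD_inj n v hv _ _ (by omega) (by omega) e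
    omega
  have hJJ : (VD_J N R) * VD_J N R = 1 := VD_JJ
  have hedg : edgM (1 : Rˣ) F rr (v (eS s)) (v (sS (s + 1))) = VD_J N R :=
    VD_edg0 F rr _ _ (fun t => hcon (_, _, t) (Or.inl ⟨rfl, rfl⟩))
      (fun t => hcon (_, _, t) (Or.inr ⟨rfl, rfl⟩))
  obtain ⟨i, j, t⟩ := σ₀
  unfold VD_slot
  rw [hedg, VD_vJ, VD_vJ, VD_uJ, hJJ, one_mul]
  rcases hσ with ⟨h1, h2⟩ | ⟨h1, h2⟩
  · simp only at h1 h2
    subst h1 h2
    have e1 := VD_fwd1 F rr (v (sS s)) (v (mS s (decide (s ∈ ε)))) t hval (fun t' _ ht' =>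
      h (_, _, t') (Or.inl ⟨rfl, rfl⟩) (fun e => ht' (by simpa using e)))
    have e2 : fwd (1 : Rˣ) F rr (v (mS s (decide (s ∈ ε)))) (v (eS s)) = VD_J N R :=
      VD_fwd0 F rr _ _ (fun t' => h (_, _, t') (Or.inr ⟨rfl, rfl⟩)
        (fun e => hne (congrArg Prod.fst e)))
    rw [e1, e2, mul_assoc, mul_assoc, mul_assoc, hJJ, mul_one, hJJ, mul_one]
  · simp only at h1 h2
    subst h1 h2
    have e2 := VD_fwd1 F rr (v (mS s (decide (s ∈ ε)))) (v (eS s)) t hval (fun t' _ ht' =>
      h (_, _, t') (Or.inr ⟨rfl, rfl⟩) (fun e => ht' (by simpa using e)))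
    have e1 : fwd (1 : Rˣ) F rr (v (sS s)) (v (mS s (decide (s ∈ ε)))) = VD_J N R :=
      VD_fwd0 F rr _ _ (fun t' => h (_, _, t') (Or.inl ⟨rfl, rfl⟩)
        (fun e => hne (congrArg Prod.fst e).symm))
    rw [e1, e2, hJJ, one_mul, mul_assoc, hJJ, mul_one]

private theorem VD_slot0 (F : Strand → Matrix (Lab N) (Lab N) R) (rr : ℕ → ℕ → ℕ) (n : ℕ)
    (v : ℕ → ℕ) (hv : Inc n v) (ε : Finset (Fin 10)) (s : Fin 10)
    (h : ∀ σ : Strand, inSl v σ s (decide (s ∈ ε)) → F σ = 1)
    (hcon : ∀ σ : Strand, ((σ.1 = v (eS s) ∧ σ.2.1 = v (sS (s + 1))) ∨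
      (σ.2.1 = v (eS s) ∧ σ.1 = v (sS (s + 1)))) → F σ = 1) :
    VD_slot F rr v ε s = 1 := by
  have h0 : inSl v (v (sS s), v (mS s (decide (s ∈ ε))), 0) s (decide (s ∈ ε)) :=
    Or.inl ⟨rfl, rfl⟩
  rw [VD_slot1 F rr n v hv ε s _ h0 (Nat.zero_le _) (fun σ hσ _ => h σ hσ) hcon, h _ h0, VD_Q1]

private theorem VD_mt1 (X : List Cro) (r : Fin X.length → Ter N) (T : Finset (Fin X.length))
    (hr : ∀ i, r i ≠ none ↔ i ∈ T) (σ : Strand)
    (h : ∀ i ∈ T, σ ≠ (X.get i).a ∧ σ ≠ (X.get i).b) :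
    (mt X r σ : Matrix (Lab N) (Lab N) R) = 1 := by
  unfold mt
  refine List.prod_eq_one (fun M hM => ?_)
  obtain ⟨i, _, rfl⟩ := List.mem_map.1 hM
  by_cases hi : i ∈ T
  · have h1 := h i hi
    unfold fac
    rcases r i with _ | ⟨u, u', w, w'⟩
    · rfl
    · dsimp only
      rw [if_neg h1.1, if_neg h1.2]
  · have h1 : r i = none := by
      by_contra h2
      exact hi ((hr i).1 h2)
    rw [h1]
    rfl

private theorem VD_mt2 (X : List Cro) (r : Fin X.length → Ter N) (T : Finset (Fin X.length))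
    (hr : ∀ i, r i ≠ none ↔ i ∈ T) (σ : Strand) (x : Fin X.length)
    (h : ∀ i ∈ T, i ≠ x → σ ≠ (X.get i).a ∧ σ ≠ (X.get i).b) :
    (mt X r σ : Matrix (Lab N) (Lab N) R) = fac (X.get x) (r x) σ := by
  unfold mt
  refine VD_lp (fun x => (fac (X.get x) (r x) σ : Matrix (Lab N) (Lab N) R)) x _
    (List.nodup_finRange _) (List.mem_finRange _) (fun i _ hix => ?_)
  by_cases hi : i ∈ T
  · have h1 := h i hi hix
    unfold fac
    rcases r i with _ | ⟨u, u', w, w'⟩
    · rfl
    · dsimp only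
      rw [if_neg h1.1, if_neg h1.2]
  · have h1 : r i = none := by
      by_contra h2
      exact hi ((hr i).1 h2)
    rw [h1]
    rfl

end

/-! ### counting -/

private theorem VD_count {n : ℕ} (v : ℕ → ℕ) (hv : Inc n v) (X : List Cro) (A : Finset (Fin 10))
    (T : Finset (Fin X.length)) (hcard : A.card = 2 * T.card)
    (htch : ∀ s ∈ A, ∃ i ∈ T, tch v (X.get i) s) :
    ∃ sa sb : Fin X.length → Fin 10, (∀ x ∈ T, sa x ∈ A ∧ sb x ∈ A ∧ sa x ≠ sb x ∧
      (∃ b, inSl v (X.get x).a (sa x) b) ∧ ∃ b, inSl v (X.get x).b (sb x) b) ∧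
      ∀ x ∈ T, ∀ x' ∈ T, ∀ s ∈ A, tch v (X.get x) s → tch v (X.get x') s → x = x' := by
  classical
  have h1 : ∀ x, (A.filter (fun s => tch v (X.get x) s)).card ≤ 2 := by
    intro x
    have hsub : A.filter (fun s => tch v (X.get x) s) ⊆
        A.filter (fun s => ∃ b, inSl v (X.get x).a s b) ∪
          A.filter (fun s => ∃ b, inSl v (X.get x).b s b) := by
      intro s hs
      obtain ⟨hs1, b, hb⟩ := Finset.mem_filter.1 hs
      rw [Finset.mem_union, Finset.mem_filter, Finset.mem_filter]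
      rcases hb with hb | hb
      · exact Or.inl ⟨hs1, b, hb⟩
      · exact Or.inr ⟨hs1, b, hb⟩
    have c1 : (A.filter (fun s => ∃ b, inSl v (X.get x).a s b)).card ≤ 1 := by
      rw [Finset.card_le_one]
      intro s hs s' hs'
      obtain ⟨_, b, hb⟩ := Finset.mem_filter.1 hs
      obtain ⟨_, b', hb'⟩ := Finset.mem_filter.1 hs'
      exact (VD_uniq n v hv _ _ _ _ _ hb hb').1
    have c2 : (A.filter (fun s => ∃ b, inSl v (X.get x).b s b)).card ≤ 1 := by
      rw [Finset.card_le_one]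
      intro s hs s' hs'
      obtain ⟨_, b, hb⟩ := Finset.mem_filter.1 hs
      obtain ⟨_, b', hb'⟩ := Finset.mem_filter.1 hs'
      exact (VD_uniq n v hv _ _ _ _ _ hb hb').1
    calc (A.filter (fun s => tch v (X.get x) s)).card ≤ _ := Finset.card_le_card hsub
      _ ≤ _ := Finset.card_union_le _ _
      _ ≤ 2 := by omega
  have h2 : ∑ x ∈ T, (A.filter (fun s => tch v (X.get x) s)).card =
      ∑ s ∈ A, (T.filter (fun x => tch v (X.get x) s)).card :=
    Finset.sum_card_bipartiteAbove_eq_sum_card_bipartiteBelow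
      (fun (x : Fin X.length) (s : Fin 10) => tch v (X.get x) s)
  have h3 : ∀ s ∈ A, 1 ≤ (T.filter (fun x => tch v (X.get x) s)).card := by
    intro s hs
    obtain ⟨i, hi, ht⟩ := htch s hs
    exact Finset.card_pos.2 ⟨i, Finset.mem_filter.2 ⟨hi, ht⟩⟩
  have h4 : ∑ x ∈ T, (A.filter (fun s => tch v (X.get x) s)).card ≤ ∑ x ∈ T, 2 :=
    Finset.sum_le_sum (fun x _ => h1 x)
  have h5 : ∑ s ∈ A, 1 ≤ ∑ s ∈ A, (T.filter (fun x => tch v (X.get x) s)).card :=
    Finset.sum_le_sum h3
  have h6 : ∑ x ∈ T, 2 = 2 * T.card := by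
    rw [Finset.sum_const, smul_eq_mul, mul_comm]
  have h7 : ∑ s ∈ A, 1 = A.card := by
    rw [Finset.sum_const, smul_eq_mul, mul_one]
  have h8 : ∀ x ∈ T, (A.filter (fun s => tch v (X.get x) s)).card = 2 :=
    (Finset.sum_eq_sum_iff_of_le (fun x _ => h1 x)).1 (by omega)
  have h9 : ∀ s ∈ A, 1 = (T.filter (fun x => tch v (X.get x) s)).card :=
    (Finset.sum_eq_sum_iff_of_le h3).1 (by omega)
  have h10 : ∀ x, ∃ p : Fin 10 × Fin 10, x ∈ T → p.1 ∈ A ∧ p.2 ∈ A ∧ p.1 ≠ p.2 ∧
      (∃ b, inSl v (X.get x).a p.1 b) ∧ ∃ b, inSl v (X.get x).b p.2 b := by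
    intro x
    by_cases hx : x ∈ T
    swap
    · exact ⟨(0, 0), fun h => absurd h hx⟩
    obtain ⟨s, s', hne, hS⟩ := Finset.card_eq_two.1 (h8 x hx)
    have m1 : s ∈ A.filter (fun s => tch v (X.get x) s) := by
      rw [hS]
      simp
    have m2 : s' ∈ A.filter (fun s => tch v (X.get x) s) := by
      rw [hS]
      simp
    obtain ⟨a1, b, hb⟩ := Finset.mem_filter.1 m1
    obtain ⟨a2, b', hb'⟩ := Finset.mem_filter.1 m2
    rcases hb with hb | hb <;> rcases hb' with hb' | hb'
    · exact absurd (VD_uniq n v hv _ _ _ _ _ hb hb').1 hne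
    · exact ⟨(s, s'), fun _ => ⟨a1, a2, hne, ⟨b, hb⟩, ⟨b', hb'⟩⟩⟩
    · exact ⟨(s', s), fun _ => ⟨a2, a1, hne.symm, ⟨b', hb'⟩, ⟨b, hb⟩⟩⟩
    · exact absurd (VD_uniq n v hv _ _ _ _ _ hb hb').1 hne
  choose p hp using h10
  refine ⟨fun x => (p x).1, fun x => (p x).2, hp, fun x hx x' hx' s hs ht ht' => ?_⟩
  exact Finset.card_le_one.1 (h9 s hs).ge x (Finset.mem_filter.2 ⟨hx, ht⟩) x'
    (Finset.mem_filter.2 ⟨hx', ht'⟩)

/-- the alternative of a strand of the cycle -/
private theorem VD_alt (n : ℕ) (v : ℕ → ℕ) (hv : Inc n v) (ε : Finset (Fin 10))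
    (hE : ∀ i j : ℕ, i < j → (edge (cyc v ε) i j = true ↔
      (∃ s : Fin 10, (i = v (sS s) ∧ j = v (mS s (decide (s ∈ ε)))) ∨
        (i = v (mS s (decide (s ∈ ε))) ∧ j = v (eS s))) ∨
      ∃ s : Fin 10, (i = v (eS s) ∧ j = v (sS (s + 1))) ∨ (j = v (eS s) ∧ i = v (sS (s + 1)))))
    (σ : Strand) (s : Fin 10) (b : Bool) (h : inSl v σ s b)
    (he : edge (cyc v ε) σ.1 σ.2.1 = true) : b = decide (s ∈ ε) := by
  have n1 := VD_n s b
  have hlt : σ.1 < σ.2.1 := by
    rcases h with ⟨h1, h2⟩ | ⟨h1, h2⟩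
    · rw [h1, h2]
      exact hv.1 _ _ n1.1 (by omega)
    · rw [h1, h2]
      exact hv.1 _ _ n1.2.1 (by omega)
  rcases (hE _ _ hlt).1 he with ⟨s', hs'⟩ | ⟨s', hs'⟩
  · obtain ⟨rfl, h2⟩ := VD_uniq n v hv σ s s' b (decide (s' ∈ ε)) h hs'
    exact h2
  · have hc := VD_con n v hv σ s s' b h
    rcases hs' with hs' | hs'
    · exact absurd hs' hc.1
    · exact absurd hs' hc.2

open Classical in
/-- the choice of the terms for the labels `D` -/
private noncomputable def VD_r {N : ℕ} (X : List Cro) (T : Finset (Fin X.length))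
    (sa sb : Fin X.length → Fin 10) (D : Fin 10 → Lab N) (x : Fin X.length) : Ter N :=
  if x ∈ T then
    some ((raw (up (X.get x).a) (D (sa x)) (D (sa x + 1))).1,
      (raw (up (X.get x).a) (D (sa x)) (D (sa x + 1))).2,
      (raw (up (X.get x).b) (D (sb x)) (D (sb x + 1))).1,
      (raw (up (X.get x).b) (D (sb x)) (D (sb x + 1))).2)
  else none

open Classical in
/-- the constant coefficient of the trace -/
private theorem VD_ent {n N : ℕ} (G : Diagram n) (v : ℕ → ℕ) (hv : Inc n v)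
    (A ε : Finset (Fin 10)) (T : Finset (Fin G.X.length)) (sa sb : Fin G.X.length → Fin 10)
    (hs : ∀ x ∈ T, sa x ∈ A ∧ sb x ∈ A ∧ sa x ≠ sb x ∧
      (∃ b, inSl v (G.X.get x).a (sa x) b) ∧ ∃ b, inSl v (G.X.get x).b (sb x) b)
    (huni : ∀ x ∈ T, ∀ x' ∈ T, ∀ s ∈ A, tch v (G.X.get x) s → tch v (G.X.get x') s → x = x')
    (htch : ∀ s ∈ A, ∃ i ∈ T, tch v (G.X.get i) s)
    (halt : ∀ x ∈ T, inSl v (G.X.get x).a (sa x) (decide (sa x ∈ ε)) ∧
      inSl v (G.X.get x).b (sb x) (decide (sb x ∈ ε)))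
    (r : Fin G.X.length → Ter N) (hr : ∀ i, r i ≠ none ↔ i ∈ T) (D : Fin 10 → Lab N) :
    ∏ s : Fin 10, (VD_slot (R := ℚ) (mt G.X r) G.r v ε s) (D s) (D (s + 1)) =
      if (∀ s, s ∉ A → D (s + 1) = D s) ∧ r = VD_r G.X T sa sb D then 1 else 0 := by
  have ua : ∀ x ∈ T, ∀ s b, inSl v (G.X.get x).a s b → s = sa x := by
    intro x hx s b h
    obtain ⟨b', h'⟩ := (hs x hx).2.2.2.1
    exact (VD_uniq n v hv _ _ _ _ _ h h').1
  have ub : ∀ x ∈ T, ∀ s b, inSl v (G.X.get x).b s b → s = sb x := by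
    intro x hx s b h
    obtain ⟨b', h'⟩ := (hs x hx).2.2.2.2
    exact (VD_uniq n v hv _ _ _ _ _ h h').1
  have ta : ∀ x ∈ T, tch v (G.X.get x) (sa x) := by
    intro x hx
    obtain ⟨b', h'⟩ := (hs x hx).2.2.2.1
    exact ⟨b', Or.inl h'⟩
  have tb : ∀ x ∈ T, tch v (G.X.get x) (sb x) := by
    intro x hx
    obtain ⟨b', h'⟩ := (hs x hx).2.2.2.2
    exact ⟨b', Or.inr h'⟩
  have hmem : ∀ x : Fin G.X.length, G.X.get x ∈ G.X := fun x => List.get_mem G.X x
  have hcon : ∀ (s : Fin 10) (σ : Strand), ((σ.1 = v (eS s) ∧ σ.2.1 = v (sS (s + 1))) ∨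
      (σ.2.1 = v (eS s) ∧ σ.1 = v (sS (s + 1)))) →
      (mt G.X r σ : Matrix (Lab N) (Lab N) ℚ) = 1 := by
    intro s σ hσ
    refine VD_mt1 G.X r T hr σ (fun i hi => ⟨?_, ?_⟩)
    · rintro rfl
      have hc := VD_con n v hv _ (sa i) s _ (halt i hi).1
      exact hσ.elim hc.1 hc.2
    · rintro rfl
      have hc := VD_con n v hv _ (sb i) s _ (halt i hi).2
      exact hσ.elim hc.1 hc.2
  have hτ : ∀ x, ∃ τ : Lab N × Lab N × Lab N × Lab N, x ∈ T → r x = some τ := by
    intro x
    by_cases hx : x ∈ T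
    · obtain ⟨τ, hτ⟩ := Option.ne_none_iff_exists'.1 ((hr x).2 hx)
      exact ⟨τ, fun _ => hτ⟩
    · exact ⟨(D 0, D 0, D 0, D 0), fun h => absurd h hx⟩
  choose τ hτ using hτ
  have hent : ∀ s : Fin 10, (VD_slot (R := ℚ) (mt G.X r) G.r v ε s) (D s) (D (s + 1)) =
      if (s ∉ A → D (s + 1) = D s) ∧
        (∀ x ∈ T, s = sa x → raw (up (G.X.get x).a) (D s) (D (s + 1)) = ((τ x).1, (τ x).2.1)) ∧
        (∀ x ∈ T, s = sb x → raw (up (G.X.get x).b) (D s) (D (s + 1)) =
          ((τ x).2.2.1, (τ x).2.2.2)) then 1 else 0 := by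
    intro s
    by_cases hsA : s ∈ A
    · obtain ⟨x, hx, b, hb⟩ := htch s hsA
      rcases hb with hb | hb
      · obtain rfl := ua x hx s b hb
        have hother : ∀ i ∈ T, i ≠ x → ∀ σ : Strand, (∃ b, inSl v σ (sa x) b) →
            σ ≠ (G.X.get i).a ∧ σ ≠ (G.X.get i).b := by
          intro i hi hix σ hσ
          obtain ⟨b, hb⟩ := hσ
          constructor
          · rintro rfl
            exact hix (huni i hi x hx _ hsA ⟨b, Or.inl hb⟩ (ta x hx))
          · rintro rfl
            exact hix (huni i hi x hx _ hsA ⟨b, Or.inr hb⟩ (ta x hx))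
        have hval := VD_bot G _ (VD_cros _ _ _ (hmem x)).1
        have e0 := VD_slot1 (R := ℚ) (mt G.X r) G.r n v hv ε (sa x) (G.X.get x).a
          (halt x hx).1 hval (fun σ hσ hne => by
            refine VD_mt1 G.X r T hr σ (fun i hi => ?_)
            by_cases hix : i = x
            · subst hix
              refine ⟨hne, ?_⟩
              rintro rfl
              exact (hs i hi).2.2.1 (ub i hi _ _ hσ)
            · exact hother i hi hix σ ⟨_, hσ⟩) (hcon (sa x))
        rw [e0, VD_mt2 G.X r T hr _ x (fun i hi hix => hother i hi hix _ ⟨_, (halt x hx).1⟩)]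
        have e1 : (fac (G.X.get x) (r x) (G.X.get x).a : Matrix (Lab N) (Lab N) ℚ) =
            Matrix.single (τ x).1 (τ x).2.1 1 := by
          rw [hτ x hx]
          exact if_pos rfl
        rw [e1, VD_Qs]
        refine if_congr ⟨fun h => ⟨fun h' => absurd hsA h', fun i hi hi' => ?_,
          fun i hi hi' => ?_⟩, fun h => h.2.1 x hx rfl⟩ rfl rfl
        · have : i = x := huni i hi x hx _ hsA (hi' ▸ ta i hi) (ta x hx)
          subst this
          exact h
        · have : i = x := huni i hi x hx _ hsA (hi' ▸ tb i hi) (ta x hx)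
          subst this
          exact absurd hi' (hs i hi).2.2.1
      · obtain rfl := ub x hx s b hb
        have hother : ∀ i ∈ T, i ≠ x → ∀ σ : Strand, (∃ b, inSl v σ (sb x) b) →
            σ ≠ (G.X.get i).a ∧ σ ≠ (G.X.get i).b := by
          intro i hi hix σ hσ
          obtain ⟨b, hb⟩ := hσ
          constructor
          · rintro rfl
            exact hix (huni i hi x hx _ hsA ⟨b, Or.inl hb⟩ (tb x hx))
          · rintro rfl
            exact hix (huni i hi x hx _ hsA ⟨b, Or.inr hb⟩ (tb x hx))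
        have hval := VD_bot G _ (VD_cros _ _ _ (hmem x)).2
        have e0 := VD_slot1 (R := ℚ) (mt G.X r) G.r n v hv ε (sb x) (G.X.get x).b
          (halt x hx).2 hval (fun σ hσ hne => by
            refine VD_mt1 G.X r T hr σ (fun i hi => ?_)
            by_cases hix : i = x
            · subst hix
              refine ⟨?_, hne⟩
              rintro rfl
              exact (hs i hi).2.2.1 (ua i hi _ _ hσ).symm
            · exact hother i hi hix σ ⟨_, hσ⟩) (hcon (sb x))
        rw [e0, VD_mt2 G.X r T hr _ x (fun i hi hix => hother i hi hix _ ⟨_, (halt x hx).2⟩)]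
        have e1 : (fac (G.X.get x) (r x) (G.X.get x).b : Matrix (Lab N) (Lab N) ℚ) =
            Matrix.single (τ x).2.2.1 (τ x).2.2.2 1 := by
          rw [hτ x hx]
          have hne : (G.X.get x).b ≠ (G.X.get x).a := by
            intro e
            have h1 := (halt x hx).2
            rw [e] at h1
            exact (hs x hx).2.2.1 (ua x hx _ _ h1).symm
          exact (if_neg hne).trans (if_pos rfl)
        rw [e1, VD_Qs]
        refine if_congr ⟨fun h => ⟨fun h' => absurd hsA h', fun i hi hi' => ?_,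
          fun i hi hi' => ?_⟩, fun h => h.2.2 x hx rfl⟩ rfl rfl
        · have : i = x := huni i hi x hx _ hsA (hi' ▸ ta i hi) (tb x hx)
          subst this
          exact absurd hi'.symm (hs i hi).2.2.1
        · have : i = x := huni i hi x hx _ hsA (hi' ▸ tb i hi) (tb x hx)
          subst this
          exact h
    · have e0 := VD_slot0 (R := ℚ) (mt G.X r) G.r n v hv ε s (fun σ hσ => by
        refine VD_mt1 G.X r T hr σ (fun i hi => ⟨?_, ?_⟩)
        · rintro rfl
          exact hsA (ua i hi _ _ hσ ▸ (hs i hi).1)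
        · rintro rfl
          exact hsA (ub i hi _ _ hσ ▸ (hs i hi).2.1)) (hcon s)
      rw [e0, Matrix.one_apply]
      refine if_congr ⟨fun h => ⟨fun _ => h.symm, fun i hi hi' => ?_, fun i hi hi' => ?_⟩,
        fun h => (h.1 hsA).symm⟩ rfl rfl
      · exact absurd (hi' ▸ (hs i hi).1) hsA
      · exact absurd (hi' ▸ (hs i hi).2.1) hsA
  rw [Finset.prod_congr rfl (fun s _ => hent s), Finset.prod_ite_zero]
  simp only [Finset.prod_const_one]
  refine if_congr ?_ rfl rfl
  constructor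
  · intro h
    refine ⟨fun s => (h s (Finset.mem_univ s)).1, ?_⟩
    funext x
    unfold VD_r
    by_cases hx : x ∈ T
    · rw [if_pos hx, hτ x hx]
      have h1 := (h (sa x) (Finset.mem_univ _)).2.1 x hx rfl
      have h2 := (h (sb x) (Finset.mem_univ _)).2.2 x hx rfl
      rw [h1, h2]
    · rw [if_neg hx]
      by_contra h1
      exact hx ((hr x).1 h1)
  · rintro ⟨h1, h2⟩ s _
    refine ⟨h1 s, fun x hx hx' => ?_, fun x hx hx' => ?_⟩
    · subst hx'
      have h3 := hτ x hx
      rw [h2] at h3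
      unfold VD_r at h3
      rw [if_pos hx] at h3
      rw [← Option.some.inj h3]
    · subst hx'
      have h3 := hτ x hx
      rw [h2] at h3
      unfold VD_r at h3
      rw [if_pos hx] at h3
      rw [← Option.some.inj h3]

/-- **VD** -/
theorem thm_VD : St_Kap → St_Slo → St_VD := by
  classical
  intro hKap hSlo N n _ G v hv A ε T hcard htch
  obtain ⟨sa, sb, hs, huni⟩ := VD_count v hv G.X A T hcard htch
  by_cases hal : ∀ i ∈ T, alw v ε (G.X.get i)
  swap
  · rw [if_neg hal]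
    unfold vT
    rw [Finset.sum_eq_zero (fun r _ => if_neg (fun h => hal h.2)), map_zero]
  rw [if_pos hal]
  have hE := (hSlo n v hv ε).2.1
  have hL := (hSlo n v hv ε).2.2
  have halt : ∀ x ∈ T, inSl v (G.X.get x).a (sa x) (decide (sa x ∈ ε)) ∧
      inSl v (G.X.get x).b (sb x) (decide (sb x ∈ ε)) := by
    intro x hx
    obtain ⟨b, hb⟩ := (hs x hx).2.2.2.1
    obtain ⟨b', hb'⟩ := (hs x hx).2.2.2.2
    have h1 := VD_alt n v hv ε hE _ _ _ hb (hal x hx).1
    have h2 := VD_alt n v hv ε hE _ _ _ hb' (hal x hx).2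
    subst h1 h2
    exact ⟨hb, hb'⟩
  have ua : ∀ x ∈ T, ∀ s b, inSl v (G.X.get x).a s b → s = sa x := by
    intro x hx s b h
    exact (VD_uniq n v hv _ _ _ _ _ h (halt x hx).1).1
  have ub : ∀ x ∈ T, ∀ s b, inSl v (G.X.get x).b s b → s = sb x := by
    intro x hx s b h
    exact (VD_uniq n v hv _ _ _ _ _ h (halt x hx).2).1
  -- the kernel
  have hkD : ∀ x ∈ T, ∀ D : Fin 10 → Lab N,
      PowerSeries.coeff 1 (cfT uX (G.X.get x) (VD_r G.X T sa sb D x)) =
        kD v (G.X.get x) D := by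
    intro x hx D
    unfold kD
    rw [Finset.sum_eq_single (sa x), Finset.sum_eq_single (sb x)]
    · rw [if_pos ⟨(hs x hx).2.2.2.1, (hs x hx).2.2.2.2⟩]
      unfold VD_r
      rw [if_pos hx]
      rfl
    · intro j _ hj
      rw [if_neg]
      rintro ⟨_, b, hb⟩
      exact hj (ub x hx _ _ hb)
    · intro h
      exact absurd (Finset.mem_univ _) h
    · intro i _ hi
      apply Finset.sum_eq_zero
      intro j _
      rw [if_neg]
      rintro ⟨⟨b, hb⟩, _⟩
      exact hi (ua x hx _ _ hb)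
    · intro h
      exact absurd (Finset.mem_univ _) h
  -- the trace
  have hu1 : Units.map ((PowerSeries.constantCoeff (R := ℚ) : PowerSeries ℚ →+* ℚ) :
      PowerSeries ℚ →* ℚ) uX = 1 := by
    apply Units.ext
    rw [Units.coe_map]
    show PowerSeries.constantCoeff (1 + PowerSeries.X : PowerSeries ℚ) = 1
    simp
  have htr : ∀ r : Fin G.X.length → Ter N, (∀ i, r i ≠ none ↔ i ∈ T) →
      PowerSeries.coeff 0 (Matrix.trace (loopM uX (mt G.X r) G.r (cyc v ε) :
        Matrix (Lab N) (Lab N) (PowerSeries ℚ))) =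
      ∑ D : Fin 10 → Lab N,
        if (∀ s, s ∉ A → D (s + 1) = D s) ∧ r = VD_r G.X T sa sb D then 1 else 0 := by
    intro r hr
    have e1 : PowerSeries.coeff 0 (Matrix.trace (loopM uX (mt G.X r) G.r (cyc v ε) :
        Matrix (Lab N) (Lab N) (PowerSeries ℚ))) =
        Matrix.trace ((PowerSeries.constantCoeff (R := ℚ)).mapMatrix
          (loopM uX (mt G.X r) G.r (cyc v ε))) := by
      rw [PowerSeries.coeff_zero_eq_constantCoeff_apply]
      unfold Matrix.trace
      rw [map_sum]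
      rfl
    have e2 : (fun s => (PowerSeries.constantCoeff (R := ℚ)).mapMatrix
        (mt G.X r s : Matrix (Lab N) (Lab N) (PowerSeries ℚ))) = mt G.X r :=
      funext fun s => VD_mtn _ G.X r s
    rw [e1, VD_loop, hu1, e2, hL ℚ 1 N (mt G.X r) G.r]
    have e3 := VD_trace 9 (fun s : Fin 10 => VD_slot (R := ℚ) (mt G.X r) G.r v ε s)
    refine e3.trans (Finset.sum_congr rfl (fun D _ => ?_))
    exact VD_ent G v hv A ε T sa sb hs huni htch halt r hr D
  -- one term
  have key : ∀ r : Fin G.X.length → Ter N,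
      PowerSeries.coeff T.card (if (∀ i, r i ≠ none ↔ i ∈ T) ∧ ∀ i ∈ T, alw v ε (G.X.get i) then
        (∏ i, cfT uX (G.X.get i) (r i)) * Matrix.trace (loopM uX (mt G.X r) G.r (cyc v ε))
        else 0) =
      ∑ D : Fin 10 → Lab N,
        if (∀ s, s ∉ A → D (s + 1) = D s) ∧ r = VD_r G.X T sa sb D then
          ∏ i ∈ T, kD v (G.X.get i) D else 0 := by
    intro r
    by_cases hr : ∀ i, r i ≠ none ↔ i ∈ T
    · rw [if_pos ⟨hr, hal⟩, VD_coeff (fun i => cfT uX (G.X.get i) (r i)) T, htr r hr,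
        Finset.mul_sum]
      · refine Finset.sum_congr rfl (fun D _ => ?_)
        by_cases hD : (∀ s, s ∉ A → D (s + 1) = D s) ∧ r = VD_r G.X T sa sb D
        · rw [if_pos hD, if_pos hD, mul_one]
          refine Finset.prod_congr rfl (fun i hi => ?_)
          rw [hD.2]
          exact hkD i hi D
        · rw [if_neg hD, if_neg hD, mul_zero]
      · intro i hi
        obtain ⟨⟨u, u', w, w'⟩, hτ⟩ := Option.ne_none_iff_exists'.1 ((hr i).2 hi)
        show PowerSeries.coeff 0 (cfT uX (G.X.get i) (r i)) = 0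
        rw [hτ]
        exact ((hKap N).1 _ u u' w w').1
      · intro i hi
        have h1 : r i = none := by
          by_contra h2
          exact hi ((hr i).1 h2)
        show cfT uX (G.X.get i) (r i) = 1
        rw [h1]
        rfl
    · rw [if_neg (fun h => hr h.1), map_zero]
      symm
      refine Finset.sum_eq_zero (fun D _ => if_neg ?_)
      rintro ⟨_, h⟩
      apply hr
      intro i
      rw [h]
      unfold VD_r
      by_cases hi : i ∈ T
      · rw [if_pos hi]
        simp [hi]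
      · rw [if_neg hi]
        simp [hi]
  unfold vT
  rw [map_sum, Finset.sum_congr rfl (fun r _ => key r), Finset.sum_comm]
  refine Finset.sum_congr rfl (fun D _ => ?_)
  by_cases hD : ∀ i, i ∉ A → D (i + 1) = D i
  · rw [if_pos hD, Finset.sum_congr rfl (fun r _ => if_congr (and_iff_right hD) rfl rfl),
      Finset.sum_ite_eq', if_pos (Finset.mem_univ _)]
  · rw [if_neg hD]
    exact Finset.sum_eq_zero (fun r _ => if_neg (fun h => hD h.1))

end IBN
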