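import Pool.Agent.IBN.StC

/-!
# IBN: the module VT (the parts `vT` of the expansion)
-/

set_option autoImplicit false

namespace IBN

/-! ## 1. The matrices of maxima and minima are inverse to each other -/

private theorem VT_cMuM {A : Type} [CommRing A] (q : Aˣ) (N : ℕ) :
    cM (N := N) q * uM q = 1 := by
  ext x z
  rw [Matrix.mul_apply]
  simp only [cM, uM, Matrix.of_apply]
  rw [Finset.sum_eq_single (bar x)]
  · by_cases h : z = x
    · subst h
      rw [Matrix.one_apply_eq]
      rcases z with ⟨b, i⟩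
      cases b <;> simp [capw, cupw, bar]
    · rw [Matrix.one_apply_ne (Ne.symm h)]
      have h' : z ≠ bar (bar x) := by
        intro h1
        apply h
        rw [h1]
        simp [bar]
      simp [cupw, h']
  · intro y _ hy
    simp [capw, hy]
  · intro h
    exact absurd (Finset.mem_univ _) h

private theorem VT_fwd {A : Type} [CommRing A] (q : Aˣ) {N : ℕ}
    (F : Strand → Matrix (Lab N) (Lab N) A) (rr : ℕ → ℕ → ℕ) (i j : ℕ)
    (h : ∀ t, F (i, j, t) = 1) : fwd q F rr i j = cM q := by
  unfold fwd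
  simp only [h, Matrix.transpose_one, one_mul, mul_one]
  have h1 : (List.map (fun _ : ℕ => cM (N := N) q * uM q) (List.range (rr i j))).prod = 1 := by
    rw [List.map_const', List.prod_replicate, VT_cMuM, one_pow]
  rw [h1, one_mul]

/-! ## 2. The strands of a crossing -/

private theorem VT_swp {α : Type} (P : α → Prop) (i : ℕ) (l : List α) :
    (∀ x ∈ l, P x) → ∀ x ∈ swp i l, P x := by
  induction i, l using swp.induct with
  | case1 a b l =>
    intro h x hx
    simp only [swp, List.mem_cons] at hx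
    apply h
    simp only [List.mem_cons]
    tauto
  | case2 i a l ih =>
    intro h x hx
    simp only [swp, List.mem_cons] at hx
    rcases hx with hx | hx
    · exact h x (by rw [hx]; exact List.mem_cons_self)
    · exact ih (fun y hy => h y (List.mem_cons_of_mem _ hy)) x hx
  | case3 i l h1 h2 =>
    intro h x hx
    rw [swp] at hx
    · exact h x hx
    · exact h1
    · exact h2

private theorem VT_cros (P : Strand → Prop) : ∀ (b : List (ℕ × Bool)) (l : List Strand),
    (∀ x ∈ l, P x) → ∀ c ∈ cros b l, P c.a ∧ P c.b := by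
  intro b
  induction b with
  | nil =>
    intro l _ c hc
    simp [cros] at hc
  | cons d b ih =>
    intro l hl c hc
    have hs := VT_swp P d.1 l hl
    rw [cros] at hc
    split at hc
    · rename_i s s' r hd
      rcases List.mem_cons.1 hc with hc | hc
      · have h1 : s ∈ l := List.mem_of_mem_drop (by rw [hd]; simp : s ∈ l.drop d.1)
        have h2 : s' ∈ l := List.mem_of_mem_drop (by rw [hd]; simp : s' ∈ l.drop d.1)
        rw [hc]
        exact ⟨hl s h1, hl s' h2⟩
      · exact ih _ hs c hc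
    · exact ih _ hs c hc

private theorem VT_bottom {n : ℕ} (G : Diagram n) : ∀ x ∈ G.bottom, x.1 < x.2.1 := by
  intro x hx
  unfold Diagram.bottom at hx
  rcases List.mem_append.1 hx with hx | hx
  · rw [List.mem_flatMap] at hx
    obtain ⟨i, _, hx⟩ := hx
    unfold vrow at hx
    rw [List.mem_map] at hx
    obtain ⟨j, hj, rfl⟩ := hx
    have hji : j ≠ i := by
      have := (List.mem_filter.1 hj).2
      simpa using this
    split_ifs with h
    · exact h
    · show j < i
      omega
  · unfold minrow at hx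
    rw [List.mem_flatMap] at hx
    obtain ⟨⟨i, j, t⟩, hm, hx⟩ := hx
    have h := (G.mins_mem i j t).1 hm
    simp only [List.mem_cons, List.not_mem_nil, or_false] at hx
    rcases hx with hx | hx <;> (rw [hx]; exact h.1)

private theorem VT_X {n : ℕ} (G : Diagram n) (i : Fin G.X.length) :
    (G.X.get i).a.1 < (G.X.get i).a.2.1 ∧ (G.X.get i).b.1 < (G.X.get i).b.2.1 :=
  VT_cros (fun x => x.1 < x.2.1) G.braid G.bottom (VT_bottom G) _ (List.get_mem _ _)

/-! ## 3. The kernel is divisible by `X` -/

private theorem VT_cfT (hK : St_Kap) (N : ℕ) [NeZero N] (c : Cro) (o : Ter N) (ho : o ≠ none) :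
    (PowerSeries.X : PowerSeries ℚ) ∣ cfT uX c o := by
  rcases o with _ | ⟨u, u', w, w'⟩
  · exact absurd rfl ho
  · show (PowerSeries.X : PowerSeries ℚ) ∣ kap uX c.p u u' w w'
    rw [PowerSeries.X_dvd_iff]
    rw [← PowerSeries.coeff_zero_eq_constantCoeff_apply]
    exact ((hK N).1 c.p u u' w w').1

/-! ## 4. The condition does not change -/

private theorem VT_edge (hS : St_Slo) {n : ℕ} {v : ℕ → ℕ} (hv : Inc n v) (ε : Finset (Fin 10))
    (s : Fin 10) (x : Strand) (hx : x.1 < x.2.1) (h : ∀ b, ¬ inSl v x s b) :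
    (edge (cyc v (insert s ε)) x.1 x.2.1 = true ↔ edge (cyc v ε) x.1 x.2.1 = true) := by
  rw [(hS n v hv (insert s ε)).2.1 x.1 x.2.1 hx, (hS n v hv ε).2.1 x.1 x.2.1 hx]
  apply or_congr _ Iff.rfl
  apply exists_congr
  intro s'
  by_cases hs : s' = s
  · subst hs
    constructor
    · intro h1
      exact absurd h1 (h _)
    · intro h1
      exact absurd h1 (h _)
  · have : decide (s' ∈ insert s ε) = decide (s' ∈ ε) := by
      simp [hs]
    rw [this]

private theorem VT_alw (hS : St_Slo) {n : ℕ} {v : ℕ → ℕ} (hv : Inc n v) (ε : Finset (Fin 10))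
    (s : Fin 10) (c : Cro) (hc : c.a.1 < c.a.2.1 ∧ c.b.1 < c.b.2.1) (h : ¬ tch v c s) :
    (alw v (insert s ε) c ↔ alw v ε c) := by
  unfold alw
  apply and_congr
  · exact VT_edge hS hv ε s c.a hc.1 fun b hb => h ⟨b, Or.inl hb⟩
  · exact VT_edge hS hv ε s c.b hc.2 fun b hb => h ⟨b, Or.inr hb⟩

/-! ## 5. The trace does not change -/

private theorem VT_mt {A : Type} [CommRing A] {N : ℕ} (X : List Cro) (r : Fin X.length → Ter N)
    (x : Strand) (h : ∀ i, r i ≠ none → x ≠ (X.get i).a ∧ x ≠ (X.get i).b) :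
    (mt X r x : Matrix (Lab N) (Lab N) A) = 1 := by
  unfold mt
  apply List.prod_eq_one
  intro M hM
  rw [List.mem_map] at hM
  obtain ⟨i, _, rfl⟩ := hM
  by_cases hi : r i = none
  · rw [hi]
    rfl
  · obtain ⟨h1, h2⟩ := h i hi
    rcases hri : r i with _ | ⟨u, u', w, w'⟩
    · rfl
    · show (if x = (X.get i).a then Matrix.single u u' 1
        else if x = (X.get i).b then Matrix.single w w' 1 else 1) = (1 : Matrix _ _ A)
      rw [if_neg h1, if_neg h2]

private theorem VT_loop (hS : St_Slo) {N n : ℕ} (G : Diagram n) (v : ℕ → ℕ)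
    (hv : Inc n v) (r : Fin G.X.length → Ter N) (ε : Finset (Fin 10)) (s : Fin 10)
    (h : ∀ i, r i ≠ none → ¬ tch v (G.X.get i) s) :
    loopM uX (mt G.X r) G.r (cyc v (insert s ε)) = loopM uX (mt G.X r) G.r (cyc v ε) := by
  rw [(hS n v hv (insert s ε)).2.2 (PowerSeries ℚ) uX N (mt G.X r) G.r,
    (hS n v hv ε).2.2 (PowerSeries ℚ) uX N (mt G.X r) G.r]
  apply congrArg List.prod
  apply List.map_congr_left
  intro s' _
  by_cases hs : s' = s
  · subst hs
    have hm : ∀ (b : Bool) (x : Strand), inSl v x s' b →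
        (mt G.X r x : Matrix (Lab N) (Lab N) (PowerSeries ℚ)) = 1 := by
      intro b x hx
      apply VT_mt
      intro i hi
      constructor
      · rintro rfl
        exact h i hi ⟨b, Or.inl hx⟩
      · rintro rfl
        exact h i hi ⟨b, Or.inr hx⟩
    have hf1 : ∀ b : Bool, fwd uX (mt G.X r) G.r (v (sS s')) (v (mS s' b)) =
        cM (N := N) (uX : (PowerSeries ℚ)ˣ) := by
      intro b
      apply VT_fwd
      intro t
      exact hm b _ (Or.inl ⟨rfl, rfl⟩)
    have hf2 : ∀ b : Bool, fwd uX (mt G.X r) G.r (v (mS s' b)) (v (eS s')) =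
        cM (N := N) (uX : (PowerSeries ℚ)ˣ) := by
      intro b
      apply VT_fwd
      intro t
      exact hm b _ (Or.inr ⟨rfl, rfl⟩)
    rw [hf1, hf1, hf2, hf2]
  · have : decide (s' ∈ insert s ε) = decide (s' ∈ ε) := by
      simp [hs]
    rw [this]

/-! ## 6. The theorem -/

theorem thm_VT : St_Bead → St_Kap → St_Slo → St_VT := by
  intro hB hK hS N n _ G v hv
  refine ⟨?_, ?_, ?_⟩
  · intro ε
    unfold VN
    rw [hB (PowerSeries ℚ) uX N n G (cyc v ε) (hS n v hv ε).1]
    unfold vT
    rw [Finset.sum_comm]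
    apply Finset.sum_congr rfl
    intro r _
    classical
    rw [Finset.sum_eq_single (Finset.univ.filter fun i => r i ≠ none)]
    · apply if_congr _ rfl rfl
      constructor
      · intro h
        refine ⟨fun i => ?_, fun i hi => ?_⟩
        · simp
        · exact h i (Finset.mem_filter.1 hi).2
      · rintro ⟨_, h⟩ i hi
        exact h i (Finset.mem_filter.2 ⟨Finset.mem_univ _, hi⟩)
    · intro T _ hT
      rw [if_neg]
      rintro ⟨h, _⟩
      apply hT
      ext i
      rw [Finset.mem_filter, ← h i]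
      simp
    · intro h
      exact absurd (Finset.mem_univ _) h
  · intro T ε j hj
    unfold vT
    rw [map_sum]
    apply Finset.sum_eq_zero
    intro r _
    split_ifs with h
    · have hd : (PowerSeries.X : PowerSeries ℚ) ^ T.card ∣ ∏ i, cfT uX (G.X.get i) (r i) := by
        have h1 : (PowerSeries.X : PowerSeries ℚ) ^ T.card ∣ ∏ i ∈ T, cfT uX (G.X.get i) (r i) := by
          rw [← Finset.prod_const]
          apply Finset.prod_dvd_prod_of_dvd
          intro i hi
          exact VT_cfT hK N _ _ ((h.1 i).2 hi)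
        exact h1.trans (Finset.prod_dvd_prod_of_subset _ _ _ (Finset.subset_univ T))
      exact (PowerSeries.X_pow_dvd_iff.1 (hd.mul_right _)) j hj
    · exact map_zero _
  · intro T ε s hT hs
    unfold vT
    apply Finset.sum_congr rfl
    intro r _
    have hal : ∀ i ∈ T, (alw v (insert s ε) (G.X.get i) ↔ alw v ε (G.X.get i)) := fun i hi =>
      VT_alw hS hv ε s _ (VT_X G i) (hT i hi)
    by_cases h : (∀ i, r i ≠ none ↔ i ∈ T) ∧ ∀ i ∈ T, alw v ε (G.X.get i)
    · have h' : (∀ i, r i ≠ none ↔ i ∈ T) ∧ ∀ i ∈ T, alw v (insert s ε) (G.X.get i) :=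
        ⟨h.1, fun i hi => (hal i hi).2 (h.2 i hi)⟩
      rw [if_pos h, if_pos h', VT_loop hS G v hv r ε s fun i hi => hT i ((h.1 i).1 hi)]
    · have h' : ¬ ((∀ i, r i ≠ none ↔ i ∈ T) ∧ ∀ i ∈ T, alw v (insert s ε) (G.X.get i)) := by
        rintro ⟨h1, h2⟩
        exact h ⟨h1, fun i hi => (hal i hi).1 (h2 i hi)⟩
      rw [if_neg h, if_neg h']

end IBN
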