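import Pool.Agent.IBN.StD

/-!
# IBN: values of the weights
-/

set_option autoImplicit false

namespace IBN

private theorem Wev_cons {N n : ℕ} (f : (Fin (n + 1) → Fin N) → ℤ) :
    ∑ D, f D = ∑ d : Fin N, ∑ D' : Fin n → Fin N, f (Matrix.vecCons d D') := by
  rw [← (Fin.consEquiv (fun _ : Fin (n + 1) => Fin N)).sum_comp, Fintype.sum_prod_type]
  rfl

private theorem Wev_nest {N : ℕ} (f : (Fin 10 → Fin N) → ℤ) :
    ∑ D, f D = ∑ d0 : Fin N, ∑ d1 : Fin N, ∑ d2 : Fin N, ∑ d3 : Fin N, ∑ d4 : Fin N,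
      ∑ d5 : Fin N, ∑ d6 : Fin N, ∑ d7 : Fin N, ∑ d8 : Fin N, ∑ d9 : Fin N,
        f ![d0, d1, d2, d3, d4, d5, d6, d7, d8, d9] := by
  rw [Wev_cons]
  refine Finset.sum_congr rfl fun d0 _ => ?_
  rw [Wev_cons]
  refine Finset.sum_congr rfl fun d1 _ => ?_
  rw [Wev_cons]
  refine Finset.sum_congr rfl fun d2 _ => ?_
  rw [Wev_cons]
  refine Finset.sum_congr rfl fun d3 _ => ?_
  rw [Wev_cons]
  refine Finset.sum_congr rfl fun d4 _ => ?_
  rw [Wev_cons]
  refine Finset.sum_congr rfl fun d5 _ => ?_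
  rw [Wev_cons]
  refine Finset.sum_congr rfl fun d6 _ => ?_
  rw [Wev_cons]
  refine Finset.sum_congr rfl fun d7 _ => ?_
  rw [Wev_cons]
  refine Finset.sum_congr rfl fun d8 _ => ?_
  rw [Wev_cons]
  refine Finset.sum_congr rfl fun d9 _ => ?_
  rw [Fintype.sum_eq_single (Matrix.vecEmpty : Fin 0 → Fin N)]
  intro x hx
  exact absurd (Subsingleton.elim _ _) hx

private def Wev_pr (a : ℤ) (b : Unit → ℤ) : ℤ := if a = 0 then 0 else a * b ()

private theorem Wev_pr_eq (a : ℤ) (b : Unit → ℤ) : Wev_pr a b = a * b () := by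
  unfold Wev_pr
  by_cases h : a = 0
  · rw [if_pos h, h, zero_mul]
  · rw [if_neg h]

private theorem Wev_form (N : ℕ) : WW N Finset.univ PP =
    ∑ d0 : Fin N, ∑ d1 : Fin N, ∑ d2 : Fin N, ∑ d3 : Fin N, ∑ d4 : Fin N,
      Wev_pr (tt N d0 d1 d3 d4) fun _ => ∑ d5 : Fin N, ∑ d6 : Fin N,
        Wev_pr (tt N d2 d3 d5 d6) fun _ => ∑ d7 : Fin N, ∑ d8 : Fin N,
          Wev_pr (tt N d4 d5 d7 d8) fun _ => ∑ d9 : Fin N,
            tt N d1 d2 d8 d9 * tt N d6 d7 d9 d0 := by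
  unfold WW
  rw [Wev_nest]
  simp only [Wev_pr_eq, Finset.mul_sum]
  refine Finset.sum_congr rfl fun d0 _ => ?_
  refine Finset.sum_congr rfl fun d1 _ => ?_
  refine Finset.sum_congr rfl fun d2 _ => ?_
  refine Finset.sum_congr rfl fun d3 _ => ?_
  refine Finset.sum_congr rfl fun d4 _ => ?_
  refine Finset.sum_congr rfl fun d5 _ => ?_
  refine Finset.sum_congr rfl fun d6 _ => ?_
  refine Finset.sum_congr rfl fun d7 _ => ?_
  refine Finset.sum_congr rfl fun d8 _ => ?_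
  refine Finset.sum_congr rfl fun d9 _ => ?_
  rw [if_pos (fun i hi => absurd (Finset.mem_univ i) hi)]
  unfold PP
  rw [Finset.prod_insert (by decide), Finset.prod_insert (by decide),
    Finset.prod_insert (by decide), Finset.prod_insert (by decide), Finset.prod_singleton]
  change tt N d0 d1 d3 d4 * (tt N d1 d2 d8 d9 * (tt N d2 d3 d5 d6 * (tt N d4 d5 d7 d8 *
    tt N d6 d7 d9 d0))) = _
  ring

private theorem Wev_2 : WW 2 Finset.univ PP = 0 := by
  rw [Wev_form]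
  decide +kernel

private theorem Wev_3 : WW 3 Finset.univ PP = -11520 := by
  rw [Wev_form]
  decide +kernel

private theorem Wev_p0 : WW 2 (vs {(0, 3), (1, 8)}) {(0, 3), (1, 8)} = -24 := by
  have h : vs {(0, 3), (1, 8)} = {0, 3, 1, 8} := by decide
  rw [h]
  unfold WW
  rw [Wev_nest]
  decide +kernel

private theorem Wev_q0 : WW 2 (vs (PP \ {(0, 3), (1, 8)})) (PP \ {(0, 3), (1, 8)}) = 96 := by
  have h0 : PP \ {(0, 3), (1, 8)} = {(2, 5), (4, 7), (6, 9)} := by decide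
  have h : vs {(2, 5), (4, 7), (6, 9)} = {2, 5, 4, 7, 6, 9} := by decide
  rw [h0, h]
  unfold WW
  rw [Wev_nest]
  decide +kernel

private theorem Wev_p1 : WW 2 (vs {(0, 3), (2, 5)}) {(0, 3), (2, 5)} = -24 := by
  have h : vs {(0, 3), (2, 5)} = {0, 3, 2, 5} := by decide
  rw [h]
  unfold WW
  rw [Wev_nest]
  decide +kernel

private theorem Wev_q1 : WW 2 (vs (PP \ {(0, 3), (2, 5)})) (PP \ {(0, 3), (2, 5)}) = 96 := by
  have h0 : PP \ {(0, 3), (2, 5)} = {(1, 8), (4, 7), (6, 9)} := by decide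
  have h : vs {(1, 8), (4, 7), (6, 9)} = {1, 8, 4, 7, 6, 9} := by decide
  rw [h0, h]
  unfold WW
  rw [Wev_nest]
  decide +kernel

private theorem Wev_p2 : WW 2 (vs {(0, 3), (4, 7)}) {(0, 3), (4, 7)} = 0 := by
  have h : vs {(0, 3), (4, 7)} = {0, 3, 4, 7} := by decide
  rw [h]
  unfold WW
  rw [Wev_nest]
  decide +kernel

private theorem Wev_p3 : WW 2 (vs {(0, 3), (6, 9)}) {(0, 3), (6, 9)} = 0 := by
  have h : vs {(0, 3), (6, 9)} = {0, 3, 6, 9} := by decide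
  rw [h]
  unfold WW
  rw [Wev_nest]
  decide +kernel

private theorem Wev_p4 : WW 2 (vs {(1, 8), (2, 5)}) {(1, 8), (2, 5)} = 0 := by
  have h : vs {(1, 8), (2, 5)} = {1, 8, 2, 5} := by decide
  rw [h]
  unfold WW
  rw [Wev_nest]
  decide +kernel

private theorem Wev_p5 : WW 2 (vs {(1, 8), (4, 7)}) {(1, 8), (4, 7)} = 0 := by
  have h : vs {(1, 8), (4, 7)} = {1, 8, 4, 7} := by decide
  rw [h]
  unfold WW
  rw [Wev_nest]
  decide +kernel

private theorem Wev_p6 : WW 2 (vs {(1, 8), (6, 9)}) {(1, 8), (6, 9)} = -24 := by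
  have h : vs {(1, 8), (6, 9)} = {1, 8, 6, 9} := by decide
  rw [h]
  unfold WW
  rw [Wev_nest]
  decide +kernel

private theorem Wev_q6 : WW 2 (vs (PP \ {(1, 8), (6, 9)})) (PP \ {(1, 8), (6, 9)}) = 96 := by
  have h0 : PP \ {(1, 8), (6, 9)} = {(0, 3), (2, 5), (4, 7)} := by decide
  have h : vs {(0, 3), (2, 5), (4, 7)} = {0, 3, 2, 5, 4, 7} := by decide
  rw [h0, h]
  unfold WW
  rw [Wev_nest]
  decide +kernel

private theorem Wev_p7 : WW 2 (vs {(2, 5), (4, 7)}) {(2, 5), (4, 7)} = -24 := by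
  have h : vs {(2, 5), (4, 7)} = {2, 5, 4, 7} := by decide
  rw [h]
  unfold WW
  rw [Wev_nest]
  decide +kernel

private theorem Wev_q7 : WW 2 (vs (PP \ {(2, 5), (4, 7)})) (PP \ {(2, 5), (4, 7)}) = 96 := by
  have h0 : PP \ {(2, 5), (4, 7)} = {(0, 3), (1, 8), (6, 9)} := by decide
  have h : vs {(0, 3), (1, 8), (6, 9)} = {0, 3, 1, 8, 6, 9} := by decide
  rw [h0, h]
  unfold WW
  rw [Wev_nest]
  decide +kernel

private theorem Wev_p8 : WW 2 (vs {(2, 5), (6, 9)}) {(2, 5), (6, 9)} = 0 := by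
  have h : vs {(2, 5), (6, 9)} = {2, 5, 6, 9} := by decide
  rw [h]
  unfold WW
  rw [Wev_nest]
  decide +kernel

private theorem Wev_p9 : WW 2 (vs {(4, 7), (6, 9)}) {(4, 7), (6, 9)} = -24 := by
  have h : vs {(4, 7), (6, 9)} = {4, 7, 6, 9} := by decide
  rw [h]
  unfold WW
  rw [Wev_nest]
  decide +kernel

private theorem Wev_q9 : WW 2 (vs (PP \ {(4, 7), (6, 9)})) (PP \ {(4, 7), (6, 9)}) = 96 := by
  have h0 : PP \ {(4, 7), (6, 9)} = {(0, 3), (1, 8), (2, 5)} := by decide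
  have h : vs {(0, 3), (1, 8), (2, 5)} = {0, 3, 1, 8, 2, 5} := by decide
  rw [h0, h]
  unfold WW
  rw [Wev_nest]
  decide +kernel

private theorem Wev_pow : PP.powersetCard 2 =
    {{(0, 3), (1, 8)},
      {(0, 3), (2, 5)},
      {(0, 3), (4, 7)},
      {(0, 3), (6, 9)},
      {(1, 8), (2, 5)},
      {(1, 8), (4, 7)},
      {(1, 8), (6, 9)},
      {(2, 5), (4, 7)},
      {(2, 5), (6, 9)},
      {(4, 7), (6, 9)}} := by
  decide

private theorem Wev_4 :
    (∑ M ∈ PP.powersetCard 2, WW 2 (vs M) M * WW 2 (vs (PP \ M)) (PP \ M)) = -11520 := by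
  rw [Wev_pow, Finset.sum_insert (by decide), Finset.sum_insert (by decide), Finset.sum_insert
    (by decide), Finset.sum_insert (by decide), Finset.sum_insert (by decide), Finset.sum_insert (by
    decide), Finset.sum_insert (by decide), Finset.sum_insert (by decide), Finset.sum_insert (by
    decide), Finset.sum_singleton, Wev_p0, Wev_q0, Wev_p1, Wev_q1, Wev_p2, Wev_p3, Wev_p4, Wev_p5,
    Wev_p6, Wev_q6, Wev_p7, Wev_q7, Wev_p8, Wev_p9, Wev_q9]
  norm_num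

private theorem Wev_5 (N : ℕ) (A : Finset (Fin 10)) (M : Finset (Fin 10 × Fin 10)) :
    (2 : ℤ) ^ M.card ∣ WW N A M := by
  unfold WW
  refine Finset.dvd_sum fun D _ => ?_
  split_ifs with h
  · unfold tt
    rw [Finset.prod_mul_distrib, Finset.prod_const]
    exact dvd_mul_right _ _
  · exact dvd_zero _

/-- **Wev**. Values of the weights. -/
theorem thm_Wev : St_Wev := ⟨Wev_2, Wev_3, Wev_4, Wev_5⟩

end IBN
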