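import Pool.Agent.IBN.StA

/-!
# IBN, ZZ: zigzags
-/

set_option autoImplicit false

namespace IBN

private theorem ZZ_bar {N : ℕ} (x : Lab N) : bar (bar x) = x := by
  obtain ⟨b, i⟩ := x
  unfold bar
  rw [Bool.not_not]

private theorem ZZ_q {K : Type} [Field K] (q : Kˣ) (n : ℤ) :
    ((q ^ (-n) : Kˣ) : K) * ((q ^ n : Kˣ) : K) = 1 := by
  rw [← Units.val_mul, ← zpow_add, neg_add_cancel, zpow_zero, Units.val_one]

theorem thm_ZZ : St_ZZ := by
  intro K _ q N F z
  constructor
  · rw [Finset.sum_eq_single z]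
    · unfold cupw capw
      rw [if_pos rfl, if_pos (ZZ_bar z).symm, ← mul_assoc]
      obtain ⟨b, i⟩ := z
      cases b
      · show (1 : K) * 1 * F _ = F _
        rw [one_mul, one_mul]
      · show ((q ^ (-cx i) : Kˣ) : K) * ((q ^ cx i : Kˣ) : K) * F _ = F _
        rw [ZZ_q, one_mul]
    · intro x _ hx
      unfold capw
      rw [if_neg (by rw [ZZ_bar]; exact Ne.symm hx), zero_mul, mul_zero]
    · intro h
      exact absurd (Finset.mem_univ _) h
  · rw [Finset.sum_eq_single (bar z)]
    · unfold cupw capw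
      rw [if_pos rfl, if_pos rfl, ← mul_assoc, ZZ_bar]
      obtain ⟨b, i⟩ := z
      cases b
      · show ((q ^ (-cx i) : Kˣ) : K) * ((q ^ cx i : Kˣ) : K) * F _ = F _
        rw [ZZ_q, one_mul]
      · show (1 : K) * 1 * F _ = F _
        rw [one_mul, one_mul]
    · intro x _ hx
      unfold capw
      rw [if_neg hx, zero_mul, mul_zero]
    · intro h
      exact absurd (Finset.mem_univ _) h

end IBN
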