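import Pool.Agent.IBN.R1
import Pool.Agent.IBN.R2
import Pool.Agent.IBN.ZZ
import Pool.Agent.IBN.SL
import Pool.Agent.IBN.R3a
import Pool.Agent.IBN.R3b
import Pool.Agent.IBN.Inv
import Pool.Agent.IBN.Nat
import Pool.Agent.IBN.InvP
import Pool.Agent.IBN.TBa
import Pool.Agent.IBN.TBb
import Pool.Agent.IBN.TwoB
import Pool.Agent.IBN.EMp
import Pool.Agent.IBN.EMv
import Pool.Agent.IBN.EMf
import Pool.Agent.IBN.EMw
import Pool.Agent.IBN.EM
import Pool.Agent.IBN.EN
import Pool.Agent.IBN.B1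
import Pool.Agent.IBN.B2
import Pool.Agent.IBN.B3
import Pool.Agent.IBN.Bead
import Pool.Agent.IBN.Kap
import Pool.Agent.IBN.Slo
import Pool.Agent.IBN.VT
import Pool.Agent.IBN.VD
import Pool.Agent.IBN.Red
import Pool.Agent.IBN.GGe
import Pool.Agent.IBN.Lead
import Pool.Agent.IBN.One
import Pool.Agent.IBN.Ant
import Pool.Agent.IBN.LSy
import Pool.Agent.IBN.Ram
import Pool.Agent.IBN.Lk
import Pool.Agent.IBN.Wev
import Pool.Agent.IBN.Ari
import Pool.Agent.IBN.OkK
import Pool.Agent.IBN.TwoP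
import Pool.Agent.IBN.Main

/-!
# IBN: all modules together
-/

set_option autoImplicit false

namespace IBN

theorem all_Inv : St_Inv := thm_Inv thm_R1 thm_R2 thm_ZZ thm_SL thm_R3a thm_R3b

theorem all_TwoB : St_TwoB :=
  thm_TwoB (fun K _ q N hN p => (thm_R1 K q N hN p).2) thm_TBa thm_TBb

theorem all_EN : St_EN := thm_EN (thm_EM thm_EMp thm_EMv thm_EMf thm_EMw)

theorem all_Bead : St_Bead := thm_Bead thm_B1 thm_B2 thm_B3

theorem all_VT : St_VT := thm_VT all_Bead thm_Kap thm_Slo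

theorem all_VD : St_VD := thm_VD thm_Kap thm_Slo

theorem all_Lead : St_Lead :=
  thm_Lead (thm_Red thm_Slo all_VT all_VD) (thm_GGe thm_Kap (thm_LSy thm_Ant))

theorem all_Main : St_Main :=
  thm_Main (thm_InvP all_Inv thm_Nat) (thm_TwoP all_TwoB thm_Nat) all_EN thm_OkK thm_Slo all_Lead
    (thm_One all_VT all_VD) (thm_Lk thm_Ant thm_Ram) (thm_Ari thm_Wev)

end IBN
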