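import Pool.Agent.IBN.StC

/-!
# IBN: module B1 (the value of the diagram of a cycle in terms of labels of strands)
-/

set_option autoImplicit false

namespace IBN

/-! ### `swp` -/

private theorem B1_swp_append {α : Type} (l₁ : List α) (s s' : α) (l₂ : List α) :
    swp l₁.length (l₁ ++ s :: s' :: l₂) = l₁ ++ s' :: s :: l₂ := by
  induction l₁ with
  | nil => rfl
  | cons a l₁ ih =>
    show a :: swp l₁.length (l₁ ++ s :: s' :: l₂) = _
    rw [ih]
    rfl

private theorem B1_split {α : Type} (l : List α) (i : ℕ) (h : i + 2 ≤ l.length) :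
    ∃ (l₁ : List α) (s s' : α) (l₂ : List α), l = l₁ ++ s :: s' :: l₂ ∧ l₁.length = i := by
  have h1 : (l.drop i).length = l.length - i := List.length_drop
  cases hd : l.drop i with
  | nil =>
    rw [hd, List.length_nil] at h1
    omega
  | cons s r =>
    cases r with
    | nil =>
      rw [hd, List.length_cons, List.length_nil] at h1
      omega
    | cons s' l₂ =>
      refine ⟨l.take i, s, s', l₂, ?_, ?_⟩
      · rw [← hd, List.take_append_drop]
      · rw [List.length_take]
        omega

private theorem B1_swp_perm {α : Type} (l : List α) (i : ℕ) (h : i + 2 ≤ l.length) :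
    (swp i l).Perm l := by
  obtain ⟨l₁, s, s', l₂, rfl, rfl⟩ := B1_split l i h
  rw [B1_swp_append]
  exact List.Perm.append_left l₁ (List.Perm.swap s s' l₂)

private theorem B1_run_perm {α : Type} (b : List (ℕ × Bool)) :
    ∀ (l : List α), (∀ c ∈ b, c.1 + 2 ≤ l.length) →
      (b.foldl (fun l c => swp c.1 l) l).Perm l := by
  induction b with
  | nil => intro l _; exact List.Perm.refl l
  | cons c b ih =>
    intro l h
    have h1 := B1_swp_perm l c.1 (h c (List.mem_cons_self))
    have h2 := ih (swp c.1 l) (fun c' hc' => by
      rw [h1.length_eq]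
      exact h c' (List.mem_cons_of_mem _ hc'))
    exact h2.trans h1

/-! ### products over pairs -/

section ring

variable {A : Type} [CommRing A] (q : Aˣ) {N : ℕ}

/-- product over the pairs of neighbours -/
private def B1_pp (g : Lab N → Lab N → A) : List (Lab N) → A
  | a :: b :: l => g a b * B1_pp g l
  | _ => 1

private theorem B1_prs_map {α : Type} (g : Lab N → Lab N → A) (f : α → Lab N) : ∀ (m : ℕ) (l : List α),
    l.length ≤ m → ((prs l).map fun e => g (f e.1) (f e.2)).prod = B1_pp g (l.map f) := by
  intro m
  induction m with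
  | zero =>
    intro l hl
    cases l with
    | nil => rfl
    | cons a l => simp at hl
  | succ m ih =>
    intro l hl
    cases l with
    | nil => rfl
    | cons a l =>
      cases l with
      | nil => rfl
      | cons b l =>
        show (g (f a) (f b) :: ((prs l).map fun e => g (f e.1) (f e.2))).prod =
          g (f a) (f b) * B1_pp g (l.map f)
        rw [List.prod_cons, ih l (by
          rw [List.length_cons, List.length_cons] at hl
          omega)]

private theorem B1_opW_append (u v : Word) (F : List (Lab N) → A) :
    opW q (u ++ v) F = opW q u (opW q v F) := by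
  unfold opW
  rw [List.foldr_append]

private theorem B1_opW_cons (s : Piece) (v : Word) (F : List (Lab N) → A) :
    opW q (s :: v) F = opP q s (opW q v F) := rfl

private theorem B1_maxima (m : ℕ) : ∀ (l : List (Lab N)), l.length = 2 * m →
    opW q (List.replicate m (pN 0)) (fun l => if l = [] then 1 else 0) l = B1_pp (capw q) l := by
  induction m with
  | zero =>
    intro l hl
    have : l = [] := List.length_eq_zero_iff.1 (by omega)
    subst this
    show (if ([] : List (Lab N)) = [] then (1 : A) else 0) = 1
    rw [if_pos rfl]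
  | succ m ih =>
    intro l hl
    match l, hl with
    | x :: y :: r, hl =>
      rw [List.replicate_succ, B1_opW_cons]
      show capw q x y * opW q (List.replicate m (pN 0)) (fun l => if l = [] then 1 else 0) ([] ++ r) =
        capw q x y * B1_pp (capw q) r
      rw [List.nil_append, ih r (by
        rw [List.length_cons, List.length_cons] at hl
        omega)]

/-- sums over all lists of `n` labels -/
private def B1_S (n : ℕ) (g : List (Lab N) → A) : A := ∑ x : Fin n → Lab N, g (List.ofFn x)

private theorem B1_S_zero (g : List (Lab N) → A) : B1_S 0 g = g [] := by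
  unfold B1_S
  rw [Fintype.sum_unique]
  rfl

private theorem B1_S_succ (n : ℕ) (g : List (Lab N) → A) :
    B1_S (n + 1) g = ∑ y : Lab N, B1_S n (fun l => g (y :: l)) := by
  unfold B1_S
  rw [← Fintype.sum_prod_type' (f := fun (y : Lab N) (x : Fin n → Lab N) => g (y :: List.ofFn x))]
  symm
  refine Fintype.sum_equiv (Fin.consEquiv (fun _ : Fin (n + 1) => Lab N)) _ _ fun p => ?_
  rw [List.ofFn_succ]
  rfl

private theorem B1_cup_sum (x : Lab N) (g : Lab N → A) :
    ∑ y : Lab N, cupw q x y * g y = cupw q x (bar x) * g (bar x) := by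
  rw [Fintype.sum_eq_single (bar x)]
  intro y hy
  unfold cupw
  rw [if_neg hy, zero_mul]

private theorem B1_minima (F : List (Lab N) → A) (m : ℕ) : ∀ (a : ℕ) (l₀ : List (Lab N)),
    l₀.length = a →
    opW q ((List.range m).map fun t => pU (2 * t + a)) F l₀ =
      B1_S (2 * m) (fun l => B1_pp (cupw q) l * F (l₀ ++ l)) := by
  induction m with
  | zero =>
    intro a l₀ _
    show F l₀ = B1_S 0 _
    rw [B1_S_zero, List.append_nil]
    show F l₀ = 1 * F l₀
    rw [one_mul]
  | succ m ih =>
    intro a l₀ hl
    have h1 : ((List.range (m + 1)).map fun t => pU (2 * t + a)) =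
        pU a :: ((List.range m).map fun t => pU (2 * t + (a + 2))) := by
      rw [List.range_succ_eq_map, List.map_cons, List.map_map, mul_zero, zero_add]
      congr 1
      refine List.map_congr_left fun t _ => ?_
      show pU (2 * (t + 1) + a) = pU (2 * t + (a + 2))
      congr 1
      omega
    rw [h1, B1_opW_cons]
    have h2 : l₀.take a = l₀ := by rw [← hl, List.take_length]
    have h3 : l₀.drop a = [] := by rw [← hl, List.drop_length]
    show ∑ x : Lab N, cupw q x (bar x) *
      opW q ((List.range m).map fun t => pU (2 * t + (a + 2))) F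
        (l₀.take a ++ x :: bar x :: l₀.drop a) = _
    rw [h2, h3]
    have h4 : 2 * (m + 1) = 2 * m + 1 + 1 := by ring
    rw [h4, B1_S_succ]
    refine Finset.sum_congr rfl fun x _ => ?_
    rw [ih (a + 2) (l₀ ++ x :: bar x :: []) (by
      rw [List.length_append, hl]
      rfl), B1_S_succ]
    have h5 : ∀ y : Lab N, B1_S (2 * m) (fun l => B1_pp (cupw q) (x :: y :: l) * F (l₀ ++ x :: y :: l)) =
        cupw q x y * B1_S (2 * m) (fun l => B1_pp (cupw q) l * F (l₀ ++ x :: y :: l)) := by
      intro y
      unfold B1_S
      rw [Finset.mul_sum]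
      refine Finset.sum_congr rfl fun z _ => ?_
      show cupw q x y * B1_pp (cupw q) (List.ofFn z) * _ = _
      rw [mul_assoc]
    rw [Finset.sum_congr rfl fun y _ => h5 y,
      B1_cup_sum q x (fun y => B1_S (2 * m) (fun l => B1_pp (cupw q) l * F (l₀ ++ x :: y :: l)))]
    congr 1
    unfold B1_S
    refine Finset.sum_congr rfl fun z _ => ?_
    show B1_pp (cupw q) (List.ofFn z) * F ((l₀ ++ [x, bar x]) ++ List.ofFn z) =
      B1_pp (cupw q) (List.ofFn z) * F (l₀ ++ x :: bar x :: List.ofFn z)
    rw [List.append_assoc]
    rfl

/-! ### the braid -/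

private theorem B1_braid (k : Strand → Bool) (F : List (Lab N) → A) (b : List (ℕ × Bool)) :
    ∀ (l : List Strand), l.Nodup → (∀ c ∈ b, c.1 + 2 ≤ l.length) → ∀ f : Strand → Lab N,
      opW q (sub k b l) F ((l.filter k).map f) =
        crosOp q k (cros b l)
          (fun f' => F (((b.foldl (fun l c => swp c.1 l) l).filter k).map f')) f := by
  induction b with
  | nil => intro l _ _ f; rfl
  | cons c b ih =>
    intro l hn hb f
    have hp := B1_swp_perm l c.1 (hb c List.mem_cons_self)
    have hn' : (swp c.1 l).Nodup := hp.nodup_iff.2 hn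
    have hb' : ∀ c' ∈ b, c'.1 + 2 ≤ (swp c.1 l).length := fun c' hc' => by
      rw [hp.length_eq]
      exact hb c' (List.mem_cons_of_mem _ hc')
    have hI := ih (swp c.1 l) hn' hb'
    obtain ⟨l₁, s, s', l₂, rfl, hl₁⟩ := B1_split l c.1 (hb c List.mem_cons_self)
    have hsw : swp c.1 (l₁ ++ s :: s' :: l₂) = l₁ ++ s' :: s :: l₂ := by
      rw [← hl₁, B1_swp_append]
    have hdr : (l₁ ++ s :: s' :: l₂).drop c.1 = s :: s' :: l₂ := by
      rw [← hl₁, List.drop_left]
    have htk : (l₁ ++ s :: s' :: l₂).take c.1 = l₁ := by
      rw [← hl₁, List.take_left]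
    have hsub : sub k (c :: b) (l₁ ++ s :: s' :: l₂) =
        if k s && k s' then pX (l₁.countP k) c.2 :: sub k b (swp c.1 (l₁ ++ s :: s' :: l₂))
        else sub k b (swp c.1 (l₁ ++ s :: s' :: l₂)) := by
      rw [sub, hdr, htk]
    have hcros : cros (c :: b) (l₁ ++ s :: s' :: l₂) =
        ⟨s, s', c.2⟩ :: cros b (swp c.1 (l₁ ++ s :: s' :: l₂)) := by
      rw [cros, hdr]
    have hop : ∀ Φ : (Strand → Lab N) → A, crosOp q k (⟨s, s', c.2⟩ ::
        cros b (swp c.1 (l₁ ++ s :: s' :: l₂))) Φ =
        if k s && k s' then cro q s s' c.2 (crosOp q k (cros b (swp c.1 (l₁ ++ s :: s' :: l₂))) Φ)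
        else crosOp q k (cros b (swp c.1 (l₁ ++ s :: s' :: l₂))) Φ := fun Φ => rfl
    rw [hsub, hcros, hop, List.foldl_cons]
    by_cases hk : (k s && k s') = true
    · rw [if_pos hk, if_pos hk, B1_opW_cons]
      have hks : k s = true := by
        rw [Bool.and_eq_true] at hk
        exact hk.1
      have hks' : k s' = true := by
        rw [Bool.and_eq_true] at hk
        exact hk.2
      have hfil : ((l₁ ++ s :: s' :: l₂).filter k).map f =
          (l₁.filter k).map f ++ f s :: f s' :: (l₂.filter k).map f := by
        rw [List.filter_append, List.filter_cons_of_pos hks, List.filter_cons_of_pos hks',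
          List.map_append, List.map_cons, List.map_cons]
      have hlen : ((l₁.filter k).map f).length = l₁.countP k := by
        rw [List.length_map, List.countP_eq_length_filter]
      rw [hfil]
      have hdr2 : ((l₁.filter k).map f ++ f s :: f s' :: (l₂.filter k).map f).drop (l₁.countP k) =
          f s :: f s' :: (l₂.filter k).map f := by
        rw [← hlen, List.drop_left]
      have htk2 : ((l₁.filter k).map f ++ f s :: f s' :: (l₂.filter k).map f).take (l₁.countP k) =
          (l₁.filter k).map f := by
        rw [← hlen, List.take_left]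
      have hopP : ∀ H : List (Lab N) → A,
          opP q (pX (l₁.countP k) c.2) H
            ((l₁.filter k).map f ++ f s :: f s' :: (l₂.filter k).map f) =
          opX q c.2 (fun x' y' => H ((l₁.filter k).map f ++ x' :: y' :: (l₂.filter k).map f))
            (f s) (f s') := by
        intro H
        show (match ((l₁.filter k).map f ++ f s :: f s' :: (l₂.filter k).map f).drop
            (l₁.countP k) with
          | x :: y :: r => opX q c.2 (fun x' y' =>
              H (((l₁.filter k).map f ++ f s :: f s' :: (l₂.filter k).map f).take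
                (l₁.countP k) ++ x' :: y' :: r)) x y
          | _ => 0) = _
        rw [hdr2, htk2]
      rw [hopP]
      show _ = opX q c.2 (fun x y => crosOp q k (cros b (swp c.1 (l₁ ++ s :: s' :: l₂)))
        (fun f' => F (((b.foldl (fun l c => swp c.1 l)
          (swp c.1 (l₁ ++ s :: s' :: l₂))).filter k).map f'))
        (Function.update (Function.update f s' x) s y)) (f s) (f s')
      congr 1
      funext x y
      rw [← hI]
      congr 1
      have hnd := hn
      rw [List.nodup_append] at hnd
      obtain ⟨-, h2, h3⟩ := hnd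
      rw [List.nodup_cons, List.nodup_cons] at h2
      obtain ⟨h4, h5, -⟩ := h2
      have hss : s' ≠ s := fun h => h4 (by rw [h]; exact List.mem_cons_self)
      have hg1 : ∀ t ∈ l₁, Function.update (Function.update f s' x) s y t = f t := by
        intro t ht
        rw [Function.update_of_ne (h3 t ht s List.mem_cons_self),
          Function.update_of_ne (h3 t ht s' (List.mem_cons_of_mem _ List.mem_cons_self))]
      have hg2 : ∀ t ∈ l₂, Function.update (Function.update f s' x) s y t = f t := by
        intro t ht
        rw [Function.update_of_ne (fun h => h4 (by rw [← h]; exact List.mem_cons_of_mem _ ht)),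
          Function.update_of_ne (fun h => h5 (by rw [← h]; exact ht))]
      rw [hsw, List.filter_append, List.filter_cons_of_pos hks', List.filter_cons_of_pos hks,
        List.map_append, List.map_cons, List.map_cons, Function.update_self,
        Function.update_of_ne hss, Function.update_self]
      congr 1
      · exact (List.map_congr_left fun t ht => hg1 t (List.mem_of_mem_filter ht)).symm
      · congr 2
        exact (List.map_congr_left fun t ht => hg2 t (List.mem_of_mem_filter ht)).symm
    · rw [if_neg hk, if_neg hk, ← hI]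
      congr 2
      rw [hsw, List.filter_append, List.filter_append]
      congr 1
      cases h1 : k s <;> cases h2 : k s' <;> simp_all

end ring

private theorem B1_maxrow_nodup (l : List Strand) (h : l.Nodup) : (maxrow l).Nodup := by
  unfold maxrow
  rw [List.nodup_flatMap]
  refine ⟨fun m _ => ?_, ?_⟩
  · simp
  · refine List.Pairwise.imp ?_ h
    rintro ⟨a, b, t⟩ ⟨a', b', t'⟩ hne
    intro x hx hx'
    simp only [List.mem_cons, List.not_mem_nil, or_false] at hx hx'
    apply hne
    rcases hx with rfl | rfl <;> rcases hx' with hx' | hx' <;>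
      · simp only [Prod.mk.injEq] at hx' ⊢
        omega

private theorem B1_map_extL {N : ℕ} [NeZero N] (B : List Strand) (hB : B.Nodup)
    (x : Fin B.length → Lab N) : B.map (extL B x) = List.ofFn x := by
  apply List.ext_getElem
  · rw [List.length_map, List.length_ofFn]
  · intro i h1 h2
    rw [List.getElem_map, List.getElem_ofFn]
    have h3 : i < B.length := by rwa [List.length_map] at h1
    have h4 : B.idxOf B[i] = i := hB.idxOf_getElem i h3
    unfold extL
    rw [dif_pos (by rw [h4]; exact h3)]
    congr 1
    exact Fin.ext h4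

theorem thm_B1 : St_B1 := by
  intro A _ q N n _ G K hev
  have hbot : G.bottom = (List.range n).flatMap (vrow G.r n) ++ minrow G.mins := rfl
  have hlt : ∀ c ∈ G.braid, c.1 + 2 ≤ G.bottom.length := G.braid_lt
  have hrun : G.braid.foldl (fun l c => swp c.1 l) G.bottom = maxrow G.maxs := G.braid_run
  have hperm : (maxrow G.maxs).Perm G.bottom := by
    rw [← hrun]
    exact B1_run_perm G.braid G.bottom hlt
  have hnd : G.bottom.Nodup := hperm.nodup_iff.1 (B1_maxrow_nodup _ G.maxs_nodup)
  obtain ⟨m, hm⟩ := hev
  have hcnt : G.bottom.countP (fun s => K s.1 s.2.1) =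
      (G.bottom.filter fun s => K s.1 s.2.1).length := List.countP_eq_length_filter
  have hm2 : G.bottom.countP (fun s => K s.1 s.2.1) / 2 = m := by
    rw [hcnt, hm]
    omega
  have hBl : (G.bottom.filter fun s => K s.1 s.2.1).length = 2 * m := by
    rw [hm]
    ring
  have hTl : ((maxrow G.maxs).filter fun s => K s.1 s.2.1).length = 2 * m := by
    rw [(hperm.filter _).length_eq, hBl]
  unfold val Diagram.link
  rw [hm2, B1_opW_append, B1_opW_append]
  have h1 := B1_minima q (opW q (sub (fun s : Strand => K s.1 s.2.1) G.braid G.bottom)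
    (opW q (List.replicate m (pN 0)) (fun l => if l = [] then 1 else 0))) m 0 ([] : List (Lab N)) rfl
  simp only [add_zero, List.nil_append] at h1
  rw [h1, ← hBl]
  unfold B1_S
  refine Finset.sum_congr rfl fun x _ => ?_
  have hmap := B1_map_extL (N := N) (G.bottom.filter fun s => K s.1 s.2.1) (hnd.filter _) x
  have h2 : cupP q (G.bottom.filter fun s => K s.1 s.2.1)
      (extL (G.bottom.filter fun s => K s.1 s.2.1) x) = B1_pp (cupw q) (List.ofFn x) := by
    rw [← hmap]
    exact B1_prs_map (cupw q) _ _ _ le_rfl
  rw [h2]
  show B1_pp (cupw q) (List.ofFn x) * opW q (sub (fun s : Strand => K s.1 s.2.1) G.braid G.bottom)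
      (opW q (List.replicate m (pN 0)) (fun l => if l = [] then 1 else 0)) (List.ofFn x) = _
  congr 1
  rw [← hmap, B1_braid q (fun s => K s.1 s.2.1) _ G.braid G.bottom hnd hlt, hrun]
  unfold Diagram.X
  congr 1
  funext f'
  rw [B1_maxima q m _ (by rw [List.length_map, hTl])]
  exact (B1_prs_map (capw q) _ _ _ le_rfl).symm

end IBN
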