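import Mathlib

/-!
# IBN (MP_c07f6b_gt): definitions used in the statement

1. Diagrams of links in Morse position: words of minima, maxima and crossings, read from bottom to
top, and isotopy of such words.
2. Diagrams of spatial embeddings of the complete graph on `N` vertices, and the diagram of the knot
which is the image of a cycle.
-/

set_option autoImplicit false

namespace IBN

/-! ## 1. Link diagrams in Morse position -/

/-- The pieces of a diagram: a minimum, a maximum, a crossing (`p = true`: the strand from the lower
left to the upper right is the over-strand). -/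
inductive Kind where
  | mi
  | ma
  | cr (p : Bool)
deriving DecidableEq

/-- number of strands entering a piece from below -/
def Kind.inn : Kind → ℕ
  | .mi => 0
  | .ma => 2
  | .cr _ => 2

/-- number of strands leaving a piece above -/
def Kind.out : Kind → ℕ
  | .mi => 2
  | .ma => 0
  | .cr _ => 2

/-- A piece at position `i`: there are `i` strands to the left of it. -/
structure Piece where
  k : Kind
  i : ℕ
deriving DecidableEq

/-- minimum at `i` -/
abbrev pU (i : ℕ) : Piece := ⟨.mi, i⟩
/-- maximum at `i` -/
abbrev pN (i : ℕ) : Piece := ⟨.ma, i⟩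
/-- crossing at `i` -/
abbrev pX (i : ℕ) (p : Bool) : Piece := ⟨.cr p, i⟩

/-- words, read from bottom to top -/
abbrev Word := List Piece

/-- `Ok w n m`: the word `w` fits on `n` strands and has `m` strands above it. -/
def Ok : Word → ℕ → ℕ → Prop
  | [], n, m => n = m
  | s :: w, n, m => s.i + s.k.inn ≤ n ∧ Ok w (n - s.k.inn + s.k.out) m

/-- The local moves: planar isotopy and Reidemeister moves. -/
inductive Loc : Word → Word → Prop
  /-- interchange of distant pieces -/
  | swap (s t : Kind) (i k : ℕ) : Loc [⟨s, i⟩, ⟨t, i + s.out + k⟩] [⟨t, i + s.inn + k⟩, ⟨s, i⟩]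
  /-- zigzags -/
  | zig (i : ℕ) : Loc [pU i, pN (i + 1)] []
  | zag (i : ℕ) : Loc [pU (i + 1), pN i] []
  /-- a strand slides over or under a minimum or a maximum -/
  | slU (i : ℕ) (p : Bool) : Loc [pU (i + 1), pX i p] [pU i, pX (i + 1) (!p)]
  | slN (i : ℕ) (p : Bool) : Loc [pX i p, pN (i + 1)] [pX (i + 1) (!p), pN i]
  /-- first Reidemeister move -/
  | r1U (i : ℕ) (p : Bool) : Loc [pU i, pX i p] [pU i]
  | r1N (i : ℕ) (p : Bool) : Loc [pX i p, pN i] [pN i]
  /-- second Reidemeister move -/
  | r2 (i : ℕ) (p : Bool) : Loc [pX i p, pX i (!p)] []
  /-- third Reidemeister move -/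
  | r3 (i : ℕ) (p : Bool) : Loc [pX i p, pX (i + 1) p, pX i p] [pX (i + 1) p, pX i p, pX (i + 1) p]

/-- One move, inside a word on `n` strands. -/
def Step (n : ℕ) (w w' : Word) : Prop :=
  ∃ (u a b v : Word) (k l : ℕ), w = u ++ (a ++ v) ∧ w' = u ++ (b ++ v) ∧ Ok u n k ∧ Ok a k l ∧
    Ok b k l ∧ (Loc a b ∨ Loc b a)

/-- Isotopy of words on `n` strands. -/
def Iso (n : ℕ) : Word → Word → Prop := Relation.ReflTransGen (Step n)

/-- number of local maxima -/
def maxima (w : Word) : ℕ := w.countP fun s => s.k = .ma

/-! ## 2. Diagrams of spatial embeddings of complete graphs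

Every spatial embedding of the complete graph with vertices `0, …, N-1` is isotopic to one with a
diagram of the following kind. The vertices are in a row at the bottom, ordered from left to right;
to the right of them are all the minima of the edges. At every vertex the edges start upwards, ordered
from left to right like their other endpoints. Then all strands go up, with crossings. At the top
the strands are joined in pairs of neighbours by the maxima of the edges.

The edge from `i` to `j`, `i < j`, has `r i j` minima, and consists of `2 * r i j + 2` strands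
`(i, j, t)`, `t = 0, …, 2 * r i j + 1`, in this order along the edge from `i` to `j`; so
`(i, j, 2t)` and `(i, j, 2t+1)` meet at a maximum and `(i, j, 2t+1)` and `(i, j, 2t+2)` at a minimum.
At every maximum and minimum the strand with the smaller number is on the left (if it is not, insert
a curl).
-/

/-- names of strands -/
abbrev Strand := ℕ × ℕ × ℕ

/-- the strands at the vertex `i`, from left to right -/
def vrow (r : ℕ → ℕ → ℕ) (N i : ℕ) : List Strand :=
  ((List.range N).filter fun j => j ≠ i).map fun j =>
    if i < j then (i, j, 0) else (j, i, 2 * r j i + 1)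

/-- the strands at the minima `l`; `(i, j, t) ∈ l` is the minimum between `(i, j, 2t+1)` and
`(i, j, 2t+2)` -/
def minrow (l : List Strand) : List Strand :=
  l.flatMap fun m => [(m.1, m.2.1, 2 * m.2.2 + 1), (m.1, m.2.1, 2 * m.2.2 + 2)]

/-- the strands at the maxima `l`; `(i, j, t) ∈ l` is the maximum between `(i, j, 2t)` and
`(i, j, 2t+1)` -/
def maxrow (l : List Strand) : List Strand :=
  l.flatMap fun m => [(m.1, m.2.1, 2 * m.2.2), (m.1, m.2.1, 2 * m.2.2 + 1)]

/-- exchange the entries at the positions `i` and `i + 1` -/
def swp {α : Type} : ℕ → List α → List α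
  | 0, a :: b :: l => b :: a :: l
  | i + 1, a :: l => a :: swp i l
  | _, l => l

/-- A diagram of a spatial embedding of the complete graph on `N` vertices. -/
structure Diagram (N : ℕ) where
  /-- number of minima of the edges -/
  r : ℕ → ℕ → ℕ
  /-- the minima of the edges, from left to right -/
  mins : List Strand
  /-- the maxima of the edges, from left to right -/
  maxs : List Strand
  /-- the crossings from bottom to top: position, and over/under information as for `pX` -/
  braid : List (ℕ × Bool)
  mins_nodup : mins.Nodup
  mins_mem : ∀ i j t, (i, j, t) ∈ mins ↔ i < j ∧ j < N ∧ t < r i j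
  maxs_nodup : maxs.Nodup
  maxs_mem : ∀ i j t, (i, j, t) ∈ maxs ↔ i < j ∧ j < N ∧ t ≤ r i j
  /-- the positions of the crossings are possible -/
  braid_lt : ∀ c ∈ braid, c.1 + 2 ≤ ((List.range N).flatMap (vrow r N) ++ minrow mins).length
  /-- the strands arrive at the top in the order of the maxima -/
  braid_run : braid.foldl (fun l c => swp c.1 l) ((List.range N).flatMap (vrow r N) ++ minrow mins)
    = maxrow maxs

/-- the strands at the bottom, from left to right -/
def Diagram.bottom {N : ℕ} (G : Diagram N) : List Strand :=
  (List.range N).flatMap (vrow G.r N) ++ minrow G.mins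

/-- The crossings between the strands selected by `k`; the list contains all strands in their
order below the crossings. -/
def sub {α : Type} (k : α → Bool) : List (ℕ × Bool) → List α → Word
  | [], _ => []
  | c :: b, l =>
    match l.drop c.1 with
    | s :: s' :: _ =>
      if k s && k s' then pX ((l.take c.1).countP k) c.2 :: sub k b (swp c.1 l)
      else sub k b (swp c.1 l)
    | _ => sub k b (swp c.1 l)

/-- The diagram of the union of the edges `ij`, `i < j`, with `K i j = true`, if at every vertex
there are none or two of them. -/
def Diagram.link {N : ℕ} (G : Diagram N) (K : ℕ → ℕ → Bool) : Word :=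
  (List.range (G.bottom.countP (fun s => K s.1 s.2.1) / 2)).map (fun t => pU (2 * t)) ++
    (sub (fun s : Strand => K s.1 s.2.1) G.braid G.bottom ++
      List.replicate (G.bottom.countP (fun s => K s.1 s.2.1) / 2) (pN 0))

/-- A cycle of the complete graph on `N` vertices: the list of its vertices. -/
def IsCycle (N : ℕ) (c : List ℕ) : Prop := c.Nodup ∧ 3 ≤ c.length ∧ ∀ v ∈ c, v < N

/-- `ij` is an edge of the cycle `c` -/
def edge (c : List ℕ) (i j : ℕ) : Bool := (i, j) ∈ c.zip (c.rotate 1) ∨ (j, i) ∈ c.zip (c.rotate 1)

/-- the diagram of the knot which is the image of the cycle `c` -/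
def Diagram.knot {N : ℕ} (G : Diagram N) (c : List ℕ) : Word := G.link (edge c)

end IBN
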