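import Pool.Agent.IBN.Defs

/-!
# IBN: the vertex model for the HOMFLY polynomial at `a = q^(-N)`, `z = q - q⁻¹`

Labels of strands: `(b, i)`, `b` = orientation (`true`: up), `i : Fin N` = colour. Words are evaluated
from the top: `opW w F` is a function of the labels of the strands below the word `w`, if `F` is a
function of the labels of the strands above it. `val w = opW w unit`, `val w []` is the value of a
closed word. For a knot the value is `2 (q^(N-1) + q^(N-3) + … + q^(1-N)) P(q^(-N), q - q⁻¹)` with the
HOMFLY polynomial `P` (every knot has two orientations).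
-/

set_option autoImplicit false

namespace IBN

/-- labels -/
abbrev Lab (N : ℕ) : Type := Bool × Fin N

/-- the label of the same strand seen from the other end of a minimum or maximum -/
def bar {N : ℕ} (x : Lab N) : Lab N := (!x.1, x.2)

/-- `N - 1 - 2 i` -/
def cx {N : ℕ} (i : Fin N) : ℤ := (N : ℤ) - 1 - 2 * (i : ℕ)

section ring

variable {A : Type} [CommRing A] (q : Aˣ) {N : ℕ}

/-- weight of a maximum -/
def capw (x y : Lab N) : A :=
  if y = bar x then (if x.1 then 1 else ((q ^ cx x.2 : Aˣ) : A)) else 0

/-- weight of a minimum -/
def cupw (x y : Lab N) : A :=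
  if y = bar x then (if x.1 then ((q ^ (-cx x.2) : Aˣ) : A) else 1) else 0

/-- `z = q - q⁻¹` -/
def zz : A := (q : A) - ((q⁻¹ : Aˣ) : A)

/-- `i < j`, or `j < i` for `b = false` -/
def lo (b : Bool) (i j : Fin N) : Bool := if b then decide (i < j) else decide (j < i)

/-- the smoothed part of a crossing; `s = true` for positive crossings -/
def smo (s : Bool) (F : Lab N → Lab N → A) (x y : Lab N) : A :=
  if x.1 = y.1 then
    (if (if s then lo x.1 x.2 y.2 else lo x.1 y.2 x.2) then F x y else 0)
  else if x.2 = y.2 then
    ∑ k : Fin N, if (if s then lo x.1 k x.2 else lo x.1 x.2 k) then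
      (if x.1 then 1 else ((q ^ (cx x.2 - cx k) : Aˣ) : A)) * F (y.1, k) (x.1, k) else 0
  else 0

/-- The crossing `p` with the labels `x`, `y` below; `F` is a function of the labels above (upper
left, upper right). The crossing is positive if `p = true` and the orientations agree, or `p = false`
and they do not. -/
def opX (p : Bool) (F : Lab N → Lab N → A) (x y : Lab N) : A :=
  if p = (x.1 == y.1) then
    ((q ^ (-(N : ℤ)) : Aˣ) : A) * ((if x.2 = y.2 then (q : A) else 1) * F y x
      + zz q * smo q true F x y)
  else
    ((q ^ (N : ℤ) : Aˣ) : A) * ((if x.2 = y.2 then ((q⁻¹ : Aˣ) : A) else 1) * F y x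
      - zz q * smo q false F x y)

/-- one piece -/
def opP (s : Piece) (F : List (Lab N) → A) (l : List (Lab N)) : A :=
  match s.k with
  | .mi => ∑ x : Lab N, cupw q x (bar x) * F (l.take s.i ++ x :: bar x :: l.drop s.i)
  | .ma => match l.drop s.i with
    | x :: y :: r => capw q x y * F (l.take s.i ++ r)
    | _ => 0
  | .cr p => match l.drop s.i with
    | x :: y :: r => opX q p (fun x' y' => F (l.take s.i ++ x' :: y' :: r)) x y
    | _ => 0

/-- a word -/
def opW (w : Word) (F : List (Lab N) → A) : List (Lab N) → A := w.foldr (opP q) F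

/-- the value of a word without strands above it, as a function of the labels below -/
def val (w : Word) : List (Lab N) → A := opW q w fun l => if l = [] then 1 else 0

/-- the quantum integer `[N] = q^(N-1) + q^(N-3) + … + q^(1-N)` -/
def qn (N : ℕ) : A := ∑ i : Fin N, ((q ^ cx i : Aˣ) : A)

end ring

end IBN
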