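import Pool.Agent.IBN.StA

/-!
# IBN, R1: first Reidemeister move for the vertex model, `N = 2`, `3`
-/

set_option autoImplicit false
set_option linter.unusedSimpArgs false

namespace IBN

private theorem R1_min2 (K : Type) [Field K] (q : Kˣ) (p : Bool) (F : Lab 2 → Lab 2 → K) :
    ∑ x : Lab 2, cupw q x (bar x) * opX q p F x (bar x) =
      ∑ x : Lab 2, cupw q x (bar x) * F x (bar x) := by
  have hq : (q : K) ≠ 0 := q.ne_zero
  cases p <;>
  · simp [opX, smo, lo, cx, zz, cupw, bar, Fintype.sum_prod_type, Fin.sum_univ_two,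
      Units.val_zpow_eq_zpow_val, Units.val_inv_eq_inv_val]
    field_simp
    ring

private theorem R1_max2 (K : Type) [Field K] (q : Kˣ) (p : Bool) (x y : Lab 2) :
    opX q p (capw q) x y = capw q x y := by
  have hq : (q : K) ≠ 0 := q.ne_zero
  obtain ⟨b, i⟩ := x
  obtain ⟨b', j⟩ := y
  cases p <;> cases b <;> cases b' <;> fin_cases i <;> fin_cases j <;>
    simp [opX, smo, lo, cx, zz, capw, bar, Fin.sum_univ_two,
      Units.val_zpow_eq_zpow_val, Units.val_inv_eq_inv_val] <;> field_simp <;> ring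

private theorem R1_min3 (K : Type) [Field K] (q : Kˣ) (p : Bool) (F : Lab 3 → Lab 3 → K) :
    ∑ x : Lab 3, cupw q x (bar x) * opX q p F x (bar x) =
      ∑ x : Lab 3, cupw q x (bar x) * F x (bar x) := by
  have hq : (q : K) ≠ 0 := q.ne_zero
  cases p <;>
  · simp [opX, smo, lo, cx, zz, cupw, bar, Fintype.sum_prod_type, Fin.sum_univ_three,
      Units.val_zpow_eq_zpow_val, Units.val_inv_eq_inv_val]
    field_simp
    ring

private theorem R1_max3 (K : Type) [Field K] (q : Kˣ) (p : Bool) (x y : Lab 3) :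
    opX q p (capw q) x y = capw q x y := by
  have hq : (q : K) ≠ 0 := q.ne_zero
  obtain ⟨b, i⟩ := x
  obtain ⟨b', j⟩ := y
  cases p <;> cases b <;> cases b' <;> fin_cases i <;> fin_cases j <;>
    simp [opX, smo, lo, cx, zz, capw, bar, Fin.sum_univ_three,
      Units.val_zpow_eq_zpow_val, Units.val_inv_eq_inv_val] <;> field_simp <;> ring

theorem thm_R1 : St_R1 := by
  rintro K _ q N (rfl | rfl) p
  · exact ⟨R1_min2 K q p, R1_max2 K q p⟩
  · exact ⟨R1_min3 K q p, R1_max3 K q p⟩

end IBN
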