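import Pool.Agent.IBN.Model

/-!
# IBN: statements of the modules, part A (invariance of the vertex model)

Every module `IBN/<Name>.lean` proves `theorem IBN.thm_<Name>` with the type given in its docstring
(other modules are hypotheses; keep exactly this type). Import only the `St*.lean` file which
contains the statement; standard axioms. GOAL (MP_c07f6b_gt): for some `n` every spatial embedding of
the complete graph `K_n` contains a knot of bridge number at least `3`.

`K` is a field, `q : Kˣ` (so `q ≠ 0`). Everything is an identity between Laurent polynomials in `q`;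
after unfolding, `field_simp` and `ring` should do (rewrite `((q ^ m : Kˣ) : K)` with
`Units.val_zpow_eq_zpow_val`). `opX q p F x y` is linear in `F`.
-/

set_option autoImplicit false

namespace IBN

/-- **R1** (1 h). `theorem thm_R1 : St_R1`. First Reidemeister move.
Write `c_i = cx i = N-1-2i`. (1) minimum followed by a crossing: for the labels `x`, `bar x` the crossing
is antiparallel. Take `x = (true, i)`: with `p = false` (positive)
`q^{-c_i} q^{-N} (q F(bar x, x) + z ∑_{k<i} F((false,k),(true,k)))`; with `x = (false, i)`:
`q^{-N}(q F(bar x, x) + z ∑_{k>i} q^{c_i - c_k} F((true,k),(false,k)))`. Collect the coefficient of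
`F((false,k),(true,k))`: `q^{-N}(q q^{-c_k} + z ∑_{i>k} q^{-c_i}) = 1` (geometric sum:
`z ∑_{i>k} q^{-c_i} = z ∑_{i>k} q^{2i+1-N} = q^N - q^{2k+2-N}`), and of
`F((true,k),(false,k))`: `q^{-N}(q + z ∑_{i<k} q^{c_i-c_k}) = q^{-c_k}`
(`z ∑_{i<k} q^{c_i} = z∑_{i<k} q^{N-1-2i} = q^N - q^{N-2k}`). Similarly for `p = true`. (2) the same
computation for the maximum. (If you prefer: it is only needed for `N = 2` and `N = 3`, so the statement is
restricted to them; `fin_cases` / `Fin.sum_univ_succ`, `simp`, `field_simp`, `ring`.) -/
def St_R1 : Prop :=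
  ∀ (K : Type) [Field K] (q : Kˣ) (N : ℕ), (N = 2 ∨ N = 3) → ∀ p : Bool,
    (∀ F : Lab N → Lab N → K, ∑ x : Lab N, cupw q x (bar x) * opX q p F x (bar x) =
      ∑ x : Lab N, cupw q x (bar x) * F x (bar x)) ∧
    ∀ x y : Lab N, opX q p (capw q) x y = capw q x y

/-- **R2** (1 h). `theorem thm_R2 : St_R2`. Second Reidemeister move. Parallel strands with
colours `i = j`: `q^{∓N} q^{±1} q^{±N} q^{∓1} = 1`. `i ≠ j`: pass-pass gives `F x y`, stay-stay is
impossible (the two conditions exclude each other, as the order of the colours is the same), the two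
mixed terms cancel. Antiparallel: similar. By cases for `N = 2`, `N = 3` (labels
`fin_cases`), or in general. -/
def St_R2 : Prop :=
  ∀ (K : Type) [Field K] (q : Kˣ) (N : ℕ), (N = 2 ∨ N = 3) → ∀ (p : Bool)
    (F : Lab N → Lab N → K) (x y : Lab N), opX q p (opX q (!p) F) x y = F x y

/-- **ZZ** (0.3 h). `theorem thm_ZZ : St_ZZ`. Zigzags: only `x = bar z` (resp. `x = z`...) contributes and
the two weights are inverse to each other. -/
def St_ZZ : Prop :=
  ∀ (K : Type) [Field K] (q : Kˣ) (N : ℕ) (F : Lab N → K) (z : Lab N),
    (∑ x : Lab N, cupw q x (bar x) * (capw q (bar x) z * F x) = F z) ∧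
    ∑ x : Lab N, cupw q x (bar x) * (capw q z x * F (bar x)) = F z

/-- **SL** (1 h). `theorem thm_SL : St_SL`. A crossing slides over a minimum or maximum. By cases on the labels
for `N = 2`, `N = 3` (`Fintype.sum_prod_type`, `Fin.sum_univ_succ`), or from the formula
`X^p(x,y;x',y') = X^{!p}(y, bar y'; bar x, x') capw(x, bar x) / capw(y', bar y')` for the matrix entries. -/
def St_SL : Prop :=
  ∀ (K : Type) [Field K] (q : Kˣ) (N : ℕ), (N = 2 ∨ N = 3) → ∀ p : Bool,
    (∀ (F : Lab N → Lab N → Lab N → K) (z : Lab N),
      ∑ x : Lab N, cupw q x (bar x) * opX q p (fun a b => F a b (bar x)) z x =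
        ∑ x : Lab N, cupw q x (bar x) * opX q (!p) (fun a b => F x a b) (bar x) z) ∧
    ∀ (F : Lab N → K) (x y w : Lab N),
      opX q p (fun a b => capw q b w * F a) x y = opX q (!p) (fun a b => capw q x a * F b) y w

/-- **R3a** (2 h). `theorem thm_R3a : St_R3a`. Third Reidemeister move, `N = 2`, `p = true`.
Brute force over the `4^3` labels (`rcases` on the labels, `fin_cases`), `simp` with the definitions
(`opX`, `smo`, `lo`, `cx`, `Fin.sum_univ_succ`), then `field_simp` and `ring`. To speed up: first prove a
table of `opX q true F (b,i) (c,j)` for the 16 pairs of labels as simp lemmas (explicit linear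
combinations with coefficients in `q`, `q⁻¹`). Verified numerically. For `R2` the brute force takes
12 s; for `R3a` the same, with `<;> try simp` at the end for goals like `True ∨ _`. -/
def St_R3a : Prop :=
  ∀ (K : Type) [Field K] (q : Kˣ) (F : Lab 2 → Lab 2 → Lab 2 → K) (x y w : Lab 2),
    opX q true (fun a b => opX q true (fun c d => opX q true (fun e f => F e f d) a c) b w) x y =
      opX q true (fun b c => opX q true (fun a b => opX q true (fun d e => F a d e) b c) x b) y w

/-- **R3b** (3 h). `theorem thm_R3b : St_R3b`. Third Reidemeister move, `N = 3`, `p = true`, as R3a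
(`6^3` labels, table of 36 pairs). You may split the file by the orientations of the labels
(`R3b1.lean`, …). -/
def St_R3b : Prop :=
  ∀ (K : Type) [Field K] (q : Kˣ) (F : Lab 3 → Lab 3 → Lab 3 → K) (x y w : Lab 3),
    opX q true (fun a b => opX q true (fun c d => opX q true (fun e f => F e f d) a c) b w) x y =
      opX q true (fun b c => opX q true (fun a b => opX q true (fun d e => F a d e) b c) x b) y w

/-- **Inv** (1.5 h). `theorem thm_Inv : St_R1 → St_R2 → St_ZZ → St_SL → St_R3a → St_R3b → St_Inv`.
Invariance under isotopy.
Proof. (1) `opW (u ++ v) F = opW u (opW v F)` (`List.foldr_append`). (2) If `Ok u n k` and `F`, `F'` agree on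
all lists of length `k`, then `opW u F`, `opW u F'` agree on all lists of length `n` (induction on `u`; look at
`opP` for the three kinds). (3) For `Loc a b` with `Ok a k m`, `Ok b k m`: `opW a F l = opW b F l` for `l` of
length `k`: write `l = l₁ ++ l₂`, `l₁` of length `i` (position of the move; for `swap` also the part in
between); the definitions are local: `take`/`drop`, and the identity is one of `R1` (both parts; note
`capw (x,y)` is a factor: `opX` is linear), `R2`, `ZZ`, `SL`, `R3a`/`R3b` for `F` restricted to the labels
concerned with the others fixed. `R3` for `p = false`: from the case `p = true` by `R2` (multiply on the left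
and on the right by the inverses: if `A B A = B A B` as operators and `A' , B'` are inverse to `A, B` then
`A' B' A' = B' A' B'`; apply to the functions). `swap`: the two operators act on different
entries (finite sums interchange). (4) induction on `Relation.ReflTransGen`. -/
def St_Inv : Prop :=
  ∀ (K : Type) [Field K] (q : Kˣ) (N : ℕ), (N = 2 ∨ N = 3) → ∀ (n : ℕ) (w w' : Word), Iso n w w' →
    ∀ (F : List (Lab N) → K) (l : List (Lab N)), l.length = n → opW q w F l = opW q w' F l

/-- **Nat** (0.5 h). `theorem thm_Nat : St_Nat`. Naturality in the ring. Proof: induction on `w`; `opP` commutes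
with ring homomorphisms (`map_sum`, `map_mul`, `Units.map`, `apply_ite`). -/
def St_Nat : Prop :=
  ∀ (A B : Type) [CommRing A] [CommRing B] (f : A →+* B) (q : Aˣ) (N : ℕ) (w : Word)
    (F : List (Lab N) → A) (l : List (Lab N)),
    f (opW q w F l) = opW (Units.map (f : A →* B) q) w (fun l => f (F l)) l

/-- **InvP** (0.4 h). `theorem thm_InvP : St_Inv → St_Nat → St_InvP`. Invariance over a domain. Proof:
`FractionRing A` is a field, `algebraMap` is injective; `Nat` and `Inv`. -/
def St_InvP : Prop :=
  ∀ (A : Type) [CommRing A] [IsDomain A] (q : Aˣ) (N : ℕ), (N = 2 ∨ N = 3) → ∀ (w w' : Word),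
    Iso 0 w w' → val (A := A) (N := N) q w [] = val (N := N) q w' []

end IBN
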