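import Pool.Agent.IBN.Model

/-!
# IBN: statements of the modules, part B (knots with at most two maxima)

Every module `IBN/<Name>.lean` proves `theorem IBN.thm_<Name>` with the type given in its docstring
(other modules are hypotheses; keep exactly this type). Import only the `St*.lean` file which
contains the statement; standard axioms. GOAL (MP_c07f6b_gt): for some `n` every spatial embedding of
the complete graph `K_n` contains a knot of bridge number at least `3`.

Section 1: the value of a word with at most two maxima is given by a product of matrices `A^{±1}`,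
`B^{±1}`. Section 2: a certain integer `E16` of such a product is divisible by `16`. Section 3: the
same for the number `EE` computed from the values at `N = 2, 3`, `q = 1 + X`. Everything has been
verified numerically.
-/

set_option autoImplicit false

namespace IBN

/-! ## 1. Words with at most two maxima -/

/-- letters: `(false, true) = A`, `(false, false) = A⁻¹`, `(true, true) = B`, `(true, false) = B⁻¹` -/
abbrev Ltr : Type := Bool × Bool

section ring

variable {A : Type} [CommRing A]

/-- the action of a letter -/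
def stp (a : Aˣ) (Z : A) (l : Ltr) (v : A × A) : A × A :=
  match l with
  | (false, true) => (v.1 + a * v.2, a ^ 2 * v.2)
  | (false, false) => (v.1 - ((a⁻¹ : Aˣ) : A) * v.2, ((a⁻¹ : Aˣ) : A) ^ 2 * v.2)
  | (true, true) => ((a : A) ^ 2 * v.1, v.2 + a * Z * v.1)
  | (true, false) => (((a⁻¹ : Aˣ) : A) ^ 2 * v.1, v.2 - ((a⁻¹ : Aˣ) : A) * Z * v.1)

/-- the product of the letters applied to `(0, 1)` -/
def sta (a : Aˣ) (Z : A) (g : List Ltr) : A × A := g.foldr (stp a Z) (0, 1)

/-- the polynomial of a word in the letters -/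
def pol (a : Aˣ) (Z : A) (g : List Ltr) : A :=
  (sta a Z g).2 + (((a⁻¹ : Aˣ) : A) - a) * (sta a Z g).1

/-- pairings of four points: `a = 12|34`, `b = 23|14`, `c = 13|24` -/
inductive Pr where
  | a | b | c
deriving DecidableEq

variable (q : Aˣ) {N : ℕ}

/-- the functions of four labels given by two maxima with the pairing `r` -/
def mm (r : Pr) (x y u w : Lab N) : A :=
  match r with
  | .a => capw q x y * capw q u w
  | .b => capw q y u * capw q x w
  | .c => opX q false (fun b c => capw q x b * capw q c w) y u

/-- the orientations of the labels are compatible with the pairing `r` -/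
def compat (r : Pr) (x y u w : Lab N) : Prop :=
  match r with
  | .a => x.1 ≠ y.1 ∧ u.1 ≠ w.1
  | .b => y.1 ≠ u.1 ∧ x.1 ≠ w.1
  | .c => x.1 ≠ u.1 ∧ y.1 ≠ w.1

/-- a crossing at the position `i`, applied to a function of four labels -/
def opI (i : ℕ) (p : Bool) (F : Lab N → Lab N → Lab N → Lab N → A) (x y u w : Lab N) : A :=
  if i = 0 then opX q p (fun b c => F b c u w) x y
  else if i = 1 then opX q p (fun b c => F x b c w) y u
  else opX q p (fun b c => F x y b c) u w

/-- the permutation of the pairings given by a crossing at the position `i` -/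
def swI (i : ℕ) (r : Pr) : Pr :=
  if i = 1 then (match r with | .a => .c | .b => .b | .c => .a)
  else (match r with | .a => .a | .b => .c | .c => .b)

/-- the letter of a crossing `(i, t)` above which there is the state `(p, s)`; `none` = identity -/
def trI (i : ℕ) (t : Bool) (p s : Pr) : Option Ltr :=
  if i = 1 then
    match p, s, t with
    | .a, .b, true => some (true, false)
    | .b, .a, true => some (false, false)
    | .c, .b, false => some (true, true)
    | .b, .c, false => some (false, true)
    | .a, .c, false => some (false, false)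
    | .c, .a, false => some (true, false)
    | .a, .c, true => some (true, true)
    | .c, .a, true => some (false, true)
    | _, _, _ => none
  else
    match p, s, t with
    | .a, .b, false => some (false, true)
    | .b, .a, false => some (true, true)
    | .a, .c, true => some (false, false)
    | .c, .a, true => some (true, false)
    | .b, .c, true => some (false, true)
    | .c, .b, true => some (true, true)
    | .b, .c, false => some (true, false)
    | .c, .b, false => some (false, false)
    | _, _, _ => none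

/-- apply a letter or the identity -/
def stpO (a : Aˣ) (Z : A) (l : Option Ltr) (v : A × A) : A × A :=
  match l with
  | none => v
  | some l => stp a Z l v

/-- `F` restricted to the labels compatible with `p` and with `s` -/
noncomputable def resF (p s : Pr) (F : Lab N → Lab N → Lab N → Lab N → A) (x y u w : Lab N) : A :=
  open Classical in if compat p x y u w ∧ compat s x y u w then F x y u w else 0

/-- a minimum at the position `i` below a function of four labels -/
def cupI (i : ℕ) (F : Lab N → Lab N → Lab N → Lab N → A) (x y : Lab N) : A :=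
  if i = 0 then ∑ z : Lab N, cupw q z (bar z) * F z (bar z) x y
  else if i = 1 then ∑ z : Lab N, cupw q z (bar z) * F x z (bar z) y
  else ∑ z : Lab N, cupw q z (bar z) * F x y z (bar z)

end ring

/-- **TBa** (2.5 h). `theorem thm_TBa : St_TBa`. The action of a crossing on the functions `mm p`, `mm s`.
`a = q^(-N)`, `z = q - q⁻¹`, `Z = z²`; the state `(x', y)` is the function `z x' mm p + y mm s`.
Verified numerically for `N = 2, 3` (all labels). Write `X_i^t` for `opI i t`.
Proof (all identities for `N = 2, 3`; the facts (i) to (iii) by computation over the labels as for the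
Reidemeister moves, or in general). (i) kinks: `X_0^t mm a = mm a`, `X_2^t mm a = mm a`,
`X_1^t mm b = mm b`; `X_1^false mm a = mm c` (definition), `X_1^true mm c = mm a` (second Reidemeister move),
`X_0^true mm b = mm c`, `X_2^true mm b = mm c` (slide over a maximum), `X_0^false mm c = mm b`,
`X_2^false mm c = mm b`, and `X_0^false mm b = X_2^false mm b = X_1^true mm a`. (ii) skein relation for
parallel labels (`x.1 = y.1`): `a⁻¹ opX true F x y - a opX false F x y = z F x y`; for antiparallel labels
`a opX true F x y - a⁻¹ opX false F x y = - z capw x y * ∑ k, cupw (!x.1, k) (x.1, k) * F (!x.1, k) (x.1, k)`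
(sum over one orientation only; directly from the definition of `opX`, for every `N`). (iii) the
smoothing: for labels in the class (compatible with `swI i p` and `swI i s`) the sum over the one
orientation of a minimum at `i` below `mm r` is: `mm b` at `0` on the class `a,c` : `capw u w`; `mm c` at `0`
on the class `a,b`: `capw u w`; `mm c` at `1` on the class `a,b`: `capw x w`; `mm a` at `1` on the class
`b,c`: `capw x w`; the same at `2` as at `0` (with `capw x y`). (iv) So: class (below) `b,c`, position `0`
(parallel): `X_0^true mm c = a² mm b + a z mm c`, `X_0^false mm b = a⁻² mm c - a⁻¹ z mm b`; class `a,c`: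
`X_0^false mm b = a² mm c + a z mm a`; class `a,b`: `X_0^true mm c = a⁻² mm b - a⁻¹ z mm a`; class
`b,c`, position `1`: `X_1^true mm a = a⁻² mm c - a⁻¹ z mm b`; class `a,b`:
`X_1^false mm c = a² mm a + a z mm b`; class `a,c` (parallel): `X_1^true mm a = a² mm c + a z mm a`,
`X_1^false mm c = a⁻² mm a - a⁻¹ z mm c`. Position `2` as position `0`. This is the table `trI`. -/
def St_TBa : Prop :=
  ∀ (K : Type) [Field K] (q : Kˣ) (N : ℕ), (N = 2 ∨ N = 3) → ∀ (i : ℕ) (t : Bool) (p s : Pr),
    i < 3 → p ≠ s → ∀ (v : K × K) (x y u w : Lab N),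
    compat (swI i p) x y u w → compat (swI i s) x y u w →
    opI q i t (fun x y u w => zz q * v.1 * mm q p x y u w + v.2 * mm q s x y u w) x y u w =
      zz q * (stpO (q ^ (-(N : ℤ))) (zz q ^ 2) (trI i t p s) v).1 * mm q (swI i p) x y u w +
        (stpO (q ^ (-(N : ℤ))) (zz q ^ 2) (trI i t p s) v).2 * mm q (swI i s) x y u w

/-- **TBb** (1 h). `theorem thm_TBb : St_TBb`. Minima below two maxima. Verified numerically. Proof by computation
over the labels, or: circle (`∑ k, q^(∓ cx k) = qn`), zigzag, and for `mm c` the first Reidemeister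
move. -/
def St_TBb : Prop :=
  ∀ (K : Type) [Field K] (q : Kˣ) (N : ℕ), (N = 2 ∨ N = 3) → ∀ (i : ℕ) (p s : Pr), i < 3 → p ≠ s →
    ∀ x y : Lab N,
    (p = (if i = 1 then Pr.b else Pr.a) →
      cupI q i (resF p s (mm q p)) x y = qn q N * capw q x y ∧
      cupI q i (resF p s (mm q s)) x y = capw q x y) ∧
    (p ≠ (if i = 1 then Pr.b else Pr.a) → s ≠ (if i = 1 then Pr.b else Pr.a) →
      cupI q i (resF p s (mm q p)) x y = 0 ∧ cupI q i (resF p s (mm q s)) x y = 0)

/-- the hypothesis of `TwoB` (the second half of `St_R1` in `StA.lean`) -/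
def St_Kink : Prop :=
  ∀ (K : Type) [Field K] (q : Kˣ) (N : ℕ), (N = 2 ∨ N = 3) → ∀ (p : Bool) (x y : Lab N),
    opX q p (capw q) x y = capw q x y

/-- **TwoB** (2.5 h). `theorem thm_TwoB : St_Kink → St_TBa → St_TBb → St_TwoB`. The value of a closed word with at most two maxima: it is empty, or it is `2 [N] pol g` for a word `g` in the
letters (not depending on `K, q, N`), or it is a link of two components, and then the value for `q = 1` is
`(2N)²`.
Proof. Look at the suffixes `v` of `w` (`w = u ++ v`), `Ok v k 0`; the numbers `k + 2 #minima = 2 #maxima`.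
`val q v` as a function of lists of length `k` (`opX q p F x y` uses only values of `F` at labels with the
orientations of `x`, `y` exchanged): (0) `k = 0`, no maxima: `v = []`, value `1`. (1) `k = 2`, one
maximum: `v` = crossings at `0` and then `pN 0`: `capw x y` (`St_Kink`). (2) `k = 0`, one maximum (and one
minimum): `2 [N]` (`∑ x, cupw x (bar x) * capw x (bar x) = 2 qn`). (3) `k = 4`, two maxima, no
minimum: claim: there are `s : Pr` and `g : Pr → List Ltr` such that for all `K, q, N` and labels:
`val = 0` if `¬ compat s`, and for `p ≠ s` with `compat p`, `compat s`: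
`val = z (sta g_p).1 mm p + (sta g_p).2 mm s`. For `v = pN i :: v'`: `s = b` if `i = 1`, else `s = a`,
`g = []`. For `v = pX i t :: v'`: new `s = swI i s'`, new `g_p = letter :: g'_{swI i p}` (`TBa`; `swI` is an
involution; a crossing exchanges the orientations at `i`, `i+1`, so it maps the class `{swI p, swI s}` below to
the class `{p, s}` above; labels are compatible with `s` iff they are compatible with `s` and exactly one
`p ≠ s`). (4) `k = 2`, two maxima, one minimum: claim: either (P) `val v [x,y] = pol g * capw x y` for all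
`K, q, N`, or (T) for `q = 1` and all `K, N`: `val v [x, y] = 2 N capw x y`. `v = pX 0 t :: v'`: `St_Kink`.
`v = pN 0 :: v'` (then `v'` is of type (2)): (T), as `2 [N] = 2N` for `q = 1`. `v = pU i :: v'`, `v'` of type
(3): let `pb = b` if `i = 1`, else `a`. By (3) `val v' = ∑_{p ≠ s} resF p s (…)`. If `pb ≠ s`: `TBb` for
`(pb, s)`: `(z x' [N] + y) capw`, and `z [N] = a⁻¹ - a` (geometric sum); the other class gives `0`. If
`pb = s`: `∑_{p ≠ s} (z x' + y [N]) capw`, for `q = 1`: `z = 0`, `y = 1`: `2 N capw`. (5) `k = 0`, two maxima,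
two minima: `v = pU 0 :: v'` with (4): `2 [N] pol g` or, for `q = 1`, `(2N)²`. -/
def St_TwoB : Prop :=
  ∀ w : Word, Ok w 0 0 → maxima w ≤ 2 →
    w = [] ∨
    (∃ g : List Ltr, ∀ (K : Type) [Field K] (q : Kˣ) (N : ℕ), (N = 2 ∨ N = 3) →
      val (N := N) q w [] = 2 * qn q N * pol (q ^ (-(N : ℤ))) (zz q ^ 2) g) ∨
    ∀ (K : Type) [Field K] (N : ℕ), (N = 2 ∨ N = 3) →
      val (A := K) (N := N) 1 w [] = (2 * (N : K)) ^ 2

/-! ## 2. Divisibility by 16 -/

/-- power series in `u` and `Z` with integer coefficients: `v i k` is the coefficient of `u^i Z^k` -/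
abbrev Ser : Type := ℕ → ℕ → ℤ

/-- multiplication with `a = 1 + u` -/
def mu (v : Ser) : Ser := fun i k => v i k + if i = 0 then 0 else v (i - 1) k

/-- multiplication with `a⁻¹` -/
def di (v : Ser) : Ser := fun i k => ∑ m ∈ Finset.range (i + 1), (-1) ^ m * v (i - m) k

/-- multiplication with `Z` -/
def mZ (v : Ser) : Ser := fun i k => if k = 0 then 0 else v i (k - 1)

/-- the action of a letter, `a = 1 + u` -/
def stS (l : Ltr) (v : Ser × Ser) : Ser × Ser :=
  match l with
  | (false, true) => (v.1 + mu v.2, mu (mu v.2))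
  | (false, false) => (v.1 - di v.2, di (di v.2))
  | (true, true) => (mu (mu v.1), v.2 + mu (mZ v.1))
  | (true, false) => (di (di v.1), v.2 - di (mZ v.1))

/-- the series `1` -/
def oneS : Ser := fun i k => if i = 0 ∧ k = 0 then 1 else 0

/-- the product of the letters applied to `(0, 1)` -/
def staS (g : List Ltr) : Ser × Ser := g.foldr stS (0, oneS)

/-- the polynomial of a word in the letters, as a series in `u, Z` -/
def polS (g : List Ltr) : Ser := (staS g).2 + di (staS g).1 - mu (staS g).1

/-- the integer which is divisible by 16 -/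
def E16 (p : Ser) : ℤ :=
  4 * p 0 1 + 3 * p 1 1 - 2 * p 2 1 + 4 * p 0 2 + 4 * p 1 2 + 2 * (p 0 1 ^ 2 - p 0 1) +
    4 * p 0 1 * p 1 1

/-- alternating sum over the deletions of the marked letters of the template -/
def alt {R : Type} [CommRing R] : (List Ltr → R) → List (Ltr × Bool) → R
  | f, [] => f []
  | f, (l, false) :: T => alt (fun w => f (l :: w)) T
  | f, (l, true) :: T => alt (fun w => f (l :: w) - f w) T

/-- the alternating sums with at least `d` marked letters vanish (`f` is a polynomial of degree
`< d` in the letters) -/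
def Dg {R : Type} [CommRing R] (f : List Ltr → R) (d : ℕ) : Prop :=
  ∀ T : List (Ltr × Bool), d ≤ T.countP (fun x => x.2) → alt f T = 0

/-- **EMp** (0.7 h). `theorem thm_EMp : St_EMp`. Sums and products. Proof of the product: induction on `T` for all
`f, g, d, e` (also with the convention: `Dg f 0` implies `f [] = 0` and all alternating sums are `0`). For a marked
letter: `f(lw) g(lw) - f(w) g(w) = (Δf)(w) g(w) + f(lw) (Δg)(w)`, `Δf` has degree `d - 1`, `f(l·)` has
degree `d`. `alt` is additive in `f`. Prove the version: `d + e ≤ marks + 1` implies `alt (f g) T = 0`. -/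
def St_EMp : Prop :=
  ∀ (R : Type) [CommRing R] (f g : List Ltr → R) (d e : ℕ), Dg f d → Dg g e →
    (1 ≤ d → 1 ≤ e → Dg (fun w => f w * g w) (d + e - 1)) ∧ Dg (fun w => f w + g w) (max d e) ∧
    (∀ c : R, Dg (fun w => c * f w) d) ∧ ∀ d', d ≤ d' → Dg f d'

/-- **EMv** (1 h). `theorem thm_EMv : St_EMv`. A function of degree `≤ 5` which is divisible by `16` on all words
of length `≤ 5` in `A`, `B`, is divisible by `16` on all words.
Proof. (1) words in `A, B`: strong induction on the length `n`; for `n ≥ 6` mark the first six letters: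
`alt f T = 0` and `alt f T` is `f(w)` plus an integer combination of values of `f` at proper sublists of `w`
(induction on the template). (2) all words: induction on the number of inverse letters. Let
`w = g₀ ++ l⁻¹ :: g₁`. Template: `g₀` unmarked, six times the marked letter `l`, then `l⁻¹ :: g₁` unmarked. The
alternating sum is `∑_{k ≤ 6} (-1)^(6-k) C(6,k) f(g₀ ++ l^k ++ l⁻¹ :: g₁) = 0`; for `k ≥ 1` the word can be
replaced by `g₀ ++ l^(k-1) ++ g₁` (hypothesis), which has fewer inverse letters; the term `k = 0` is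
`f(w)`. -/
def St_EMv : Prop :=
  ∀ f : List Ltr → ℤ, Dg f 6 →
    (∀ (g₀ g₁ : List Ltr) (b : Bool), f (g₀ ++ (b, true) :: (b, false) :: g₁) = f (g₀ ++ g₁)) →
    (∀ w : List Bool, w.length ≤ 5 → (16 : ℤ) ∣ f (w.map fun b => (b, true))) →
    ∀ w, (16 : ℤ) ∣ f w

/-- **EMf** (1.2 h). `theorem thm_EMf : St_EMf`. The coefficients are polynomials in the letters.
Proof. (1) `mu (di v) = v`, `di (mu v) = v`, `mZ` commutes with both; all additive. (2) Let
`W d = {v | v i k = 0 for i + 2k < d}`; `mu`, `di` preserve `W d`, `mZ` maps `W d` in `W (d+2)`, and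
`mu (mu v) - v`, `di (di v) - v`, `di v - mu v` map `W d` in `W (d+1)`. Level `k`: pairs `(x, y)` with
`x ∈ W (k-1)`, `y ∈ W k`. A letter preserves the level, (letter - 1) raises it by one. (3) For the
function `w ↦ staS w` (values in an additive group; define `alt` for pairs or use linear functionals): the
alternating sum over a template with `k` marks has level `k`, by induction on the template: `stS l` is
additive, so the alternating sum of `w ↦ staS (l :: w)` is `stS l` of the alternating sum of `staS`. (4) `polS` of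
an element of level `k` is in `W k` (`y + di x - mu x`). (5) the second claim is (1). -/
def St_EMf : Prop :=
  (∀ i k : ℕ, Dg (fun w => polS w i k) (i + 2 * k + 1)) ∧
  ∀ (g₀ g₁ : List Ltr) (b : Bool), polS (g₀ ++ (b, true) :: (b, false) :: g₁) = polS (g₀ ++ g₁)

/-- **EMw** (0.7 h). `theorem thm_EMw : St_EMw`. The 63 words. Proof: `decide` after replacing the functions by tables
(only the coefficients with `i + 2k ≤ 5` are needed; e.g. define the truncated state as two lists of
integers, prove that it agrees with `staS` for `i + 2k ≤ 5`, and evaluate), or `simp` /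
`norm_num` with the definitions; only `mu`, `mZ` and, once, `di` occur (`List.ofFn`-like enumeration of the
words: `interval_cases` on the length or a recursive function listing the words). -/
def St_EMw : Prop :=
  ∀ w : List Bool, w.length ≤ 5 → (16 : ℤ) ∣ E16 (polS (w.map fun b => (b, true)))

/-- **EM** (0.4 h). `theorem thm_EM : St_EMp → St_EMv → St_EMf → St_EMw → St_EM`. Proof: `E16 ∘ polS` has degree
`< 6`: the coefficients `p i k` have degree `< i + 2k + 1`; `p 0 1 ^ 2`: `3 + 3 - 1`,
`p 0 1 * p 1 1`: `3 + 4 - 1`. -/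
def St_EM : Prop := ∀ g : List Ltr, (16 : ℤ) ∣ E16 (polS g)

/-! ## 3. The number `EE` -/

/-- `E16` in terms of the coefficients `c₂ k`, `c₃ k` of `h^k` of the values at `N = 2` and
`N = 3`, `q = 1 + h` -/
def EE (c₂ c₃ : ℕ → ℚ) : ℚ :=
  4 * (-c₂ 2 / 12) + 3 * (c₂ 2 / 24 + c₂ 3 / 24) -
    2 * (-5 / 144 * c₂ 2 + c₂ 3 / 24 + c₂ 4 / 6 - c₃ 4 / 32) +
    4 * (7 / 960 * c₂ 2 - 3 / 160 * c₂ 3 - 3 / 80 * c₂ 4 + 1 / 160 * c₃ 4) +
    4 * (-7 / 1920 * c₂ 2 + 11 / 1152 * c₂ 3 + 3 / 80 * c₂ 4 + 3 / 160 * c₂ 5 -
      1 / 240 * c₃ 4 - 1 / 480 * c₃ 5) +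
    2 * ((c₂ 2 / 12) ^ 2 + c₂ 2 / 12) + 4 * (-c₂ 2 / 12) * (c₂ 2 / 24 + c₂ 3 / 24)

/-- the unit `1 + X` of `ℚ⟦X⟧` -/
noncomputable def uX : (PowerSeries ℚ)ˣ :=
  Units.mkOfMulEqOne (1 + PowerSeries.X) (PowerSeries.mk fun n => (-1) ^ n) (by
    ext n
    rw [add_mul, one_mul, map_add, PowerSeries.coeff_mk]
    cases n with
    | zero => simp
    | succ n =>
      rw [PowerSeries.coeff_succ_X_mul, PowerSeries.coeff_mk, PowerSeries.coeff_one]
      simp [pow_succ])

/-- **EN** (1.5 h). `theorem thm_EN : St_EM → St_EN`. `EE` of the coefficients of `pol` at `N = 2, 3` is divisible by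
`16`.
Proof. For `N = 1, 2, 3` let `a = uX^(-N)`, `u = a - 1 ∈ (X)`, `Z = (zz uX)² ∈ (X²)`,
`Θ(v) = ∑_{i + 2k ≤ 5} v i k u^i Z^k ∈ ℚ⟦X⟧` for `v : Ser`. Modulo `X^6`: `Θ(mu v) ≡ a Θ(v)`,
`Θ(mZ v) ≡ Z Θ(v)`, and (as `mu (di v) = v`) `Θ(di v) ≡ a⁻¹ Θ(v)`. Induction on `g`:
`sta a Z g ≡ (Θ (staS g).1, Θ (staS g).2)`, so `pol a Z g ≡ Θ(polS g)` modulo `X^6`. For `N = 1`:
`a⁻¹ - a = zz uX = z`, and `y + z x` is invariant under all letters, so `pol = 1`. Write
`p_{ik} = polS g i k` (`i + 2k ≤ 5`). The coefficients of `X^0, …, X^5` in `u^i Z^k` are, for `N = 1`: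
`Z: 0 0 4 -4 5 -6; Z²: 0 0 0 0 16 -32; u: 0 -1 1 -1 1 -1; uZ: 0 0 0 -4 8 -13; uZ²: 0 0 0 0 0 -16;
u²: 0 0 1 -2 3 -4; u²Z: 0 0 0 0 4 -12; u³: 0 0 0 -1 3 -6; u³Z: 0 0 0 0 0 -4; u⁴: 0 0 0 0 1 -4; u⁵: -1`;
for `N = 2`: `u: 0 -2 3 -4 5 -6; uZ: 0 0 0 -8 20 -38; uZ²: -32; u²: 0 0 4 -12 25 -44; u²Z: 16 -64;
u³: 0 0 0 -8 36 -102; u³Z: -32; u⁴: 16 -96; u⁵: -32`; for `N = 3`: `u: 0 -3 6 -10 15 -21;
uZ: 0 0 0 -12 36 -79; uZ²: -48; u²: 0 0 9 -36 96 -210; u²Z: 36 -180; u³: 0 0 0 -27 162 -594;
u³Z: -108; u⁴: 81 -648; u⁵: -243` (the last entries are the coefficients of `X^4`, `X^5`). So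
`c₂ k`, `c₃ k` are linear in the `p_{ik}`, and `N = 1` gives six linear relations. Then
`EE c₂ c₃ = E16 (polS g)` (`linear_combination`/`linarith`; first `c₂ 2 = -12 p_{01}` etc.). It is enough to
know the coefficients modulo `X^6` (truncated computation). Verified numerically. -/
def St_EN : Prop :=
  ∀ g : List Ltr, ∃ n : ℤ,
    EE (fun k => PowerSeries.coeff k (pol (uX ^ (-(2 : ℤ))) (zz uX ^ 2) g))
      (fun k => PowerSeries.coeff k (pol (uX ^ (-(3 : ℤ))) (zz uX ^ 2) g)) = 16 * (n : ℚ)

end IBN
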