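import Pool.Agent.IBN.StB

/-!
# IBN: statements of the modules, part C (expansion of the value of the diagram of a cycle)

Every module `IBN/<Name>.lean` proves `theorem IBN.thm_<Name>` with the type given in its docstring
(other modules are hypotheses; keep exactly this type). Import only the `St*.lean` file which
contains the statement; standard axioms. GOAL (MP_c07f6b_gt): for some `n` every spatial embedding of
the complete graph `K_n` contains a knot of bridge number at least `3`.

The value of the diagram of a cycle is written as a sum over the subsets `T` of the set of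
crossings (`Bead`): every crossing operator is `1 + (kernel kap)`, and for `q = 1 + X` the kernel is
divisible by `X`. The alternating sum over `2^|A|` cycles of the coefficient of `X^k`, `|A| = 2k`, is
a sum over the perfect matchings of `A` (`Lead`).
-/

set_option autoImplicit false

namespace IBN

/-! ## 1. Crossings and strands -/

/-- a crossing of a diagram: the strands which come from the lower left and the lower right -/
structure Cro where
  a : Strand
  b : Strand
  p : Bool

/-- the crossings, with the names of the strands; the list contains all strands in their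
order below the crossings -/
def cros : List (ℕ × Bool) → List Strand → List Cro
  | [], _ => []
  | c :: b, l =>
    match l.drop c.1 with
    | s :: s' :: _ => ⟨s, s', c.2⟩ :: cros b (swp c.1 l)
    | _ => cros b (swp c.1 l)

/-- the crossings of the diagram, from bottom to top -/
def Diagram.X {n : ℕ} (G : Diagram n) : List Cro := cros G.braid G.bottom

/-- pairs of neighbours -/
def prs {α : Type} : List α → List (α × α)
  | a :: b :: l => (a, b) :: prs l
  | _ => []

/-- extension of a function of the positions of the list `B` to all strands -/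
noncomputable def extL {N : ℕ} [NeZero N] (B : List Strand) (x : Fin B.length → Lab N)
    (s : Strand) : Lab N :=
  if h : B.idxOf s < B.length then x ⟨B.idxOf s, h⟩ else (true, 0)

section ring

variable {A : Type} [CommRing A] (q : Aˣ) {N : ℕ}

/-- the crossing operator for functions of the labels of the strands -/
def cro (a b : Strand) (p : Bool) (Φ : (Strand → Lab N) → A) (f : Strand → Lab N) : A :=
  opX q p (fun x y => Φ (Function.update (Function.update f b x) a y)) (f a) (f b)

/-- the crossing operators of the crossings between the strands selected by `K` -/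
def crosOp (K : Strand → Bool) (X : List Cro) (Φ : (Strand → Lab N) → A) :
    (Strand → Lab N) → A :=
  X.foldr (fun c Φ => if K c.a && K c.b then cro q c.a c.b c.p Φ else Φ) Φ

/-- product of the weights of maxima which join the neighbours of the list -/
def capP (l : List Strand) (f : Strand → Lab N) : A := ((prs l).map fun e => capw q (f e.1) (f e.2)).prod

/-- product of the weights of minima which join the neighbours of the list -/
def cupP (l : List Strand) (f : Strand → Lab N) : A := ((prs l).map fun e => cupw q (f e.1) (f e.2)).prod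

/-- The kernel of (crossing operator - 1): the left strand has the labels `u` below, `u'` above,
the right strand `w`, `w'`. -/
def kap (p : Bool) (u u' w w' : Lab N) : A :=
  opX q p (fun x y => if x = w' ∧ y = u' then 1 else 0) u w - if u = u' ∧ w = w' then 1 else 0

/-- choice of a term at a crossing: `none` is the identity, `(u, u', w, w')` is an entry of the
kernel -/
abbrev Ter (N : ℕ) : Type := Option (Lab N × Lab N × Lab N × Lab N)

/-- the coefficient of a term -/
def cfT (c : Cro) (o : Ter N) : A :=
  match o with
  | none => 1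
  | some (u, u', w, w') => kap q c.p u u' w w'

/-- the matrix of a term on the strand `s` -/
def fac (c : Cro) (o : Ter N) (s : Strand) : Matrix (Lab N) (Lab N) A :=
  match o with
  | none => 1
  | some (u, u', w, w') =>
    if s = c.a then Matrix.single u u' 1 else if s = c.b then Matrix.single w w' 1 else 1

/-- the matrix of the strand `s` (from the labels below to the labels above) -/
def mt (X : List Cro) (r : Fin X.length → Ter N) (s : Strand) : Matrix (Lab N) (Lab N) A :=
  ((List.finRange X.length).map fun x => fac (X.get x) (r x) s).prod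

/-- the matrix of a maximum -/
def cM : Matrix (Lab N) (Lab N) A := Matrix.of (capw q)

/-- the matrix of a minimum -/
def uM : Matrix (Lab N) (Lab N) A := Matrix.of (cupw q)

/-- the matrix of the edge from `i` to `j`, `i < j`; `F` are the matrices of the strands, `rr` the
numbers of minima -/
def fwd (F : Strand → Matrix (Lab N) (Lab N) A) (rr : ℕ → ℕ → ℕ) (i j : ℕ) :
    Matrix (Lab N) (Lab N) A :=
  ((List.range (rr i j)).map fun t =>
    F (i, j, 2 * t) * cM q * (F (i, j, 2 * t + 1)).transpose * uM q).prod *
    (F (i, j, 2 * rr i j) * cM q * (F (i, j, 2 * rr i j + 1)).transpose)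

/-- the matrix of the edge from `v` to `w` -/
def edgM (F : Strand → Matrix (Lab N) (Lab N) A) (rr : ℕ → ℕ → ℕ) (v w : ℕ) :
    Matrix (Lab N) (Lab N) A :=
  if v < w then fwd q F rr v w else (fwd q F rr w v).transpose

/-- the matrix of a vertex, for a path which comes from `u` and goes to `w` -/
def vrt (u w : ℕ) : Matrix (Lab N) (Lab N) A := if u < w then uM q else (uM q).transpose

/-- the matrix of a cycle -/
def loopM (F : Strand → Matrix (Lab N) (Lab N) A) (rr : ℕ → ℕ → ℕ) (c : List ℕ) :
    Matrix (Lab N) (Lab N) A :=
  ((List.range c.length).map fun k =>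
    edgM q F rr (c.getD k 0) (c.getD ((k + 1) % c.length) 0) *
      vrt q (c.getD k 0) (c.getD ((k + 2) % c.length) 0)).prod

end ring

/-- **B1** (2 h). `theorem thm_B1 : St_B1`. The value of the diagram of a cycle (or a union of cycles) in
terms of the labels of the strands.
Proof. Let `k s = K s.1 s.2.1`, `B = G.bottom.filter k`, `T = (maxrow G.maxs).filter k`; `G.bottom` has no
duplicates (`mins_nodup`, `mins_mem`: the strands of the vertices and of the minima are different).
(1) For every braid word `b` on a list `l` without duplicates, with the positions possible, `l'` the list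
after the braid word, and every `F : List (Lab N) → A`:
`opW (sub k b l) F ((l.filter k).map f) = crosOp k (cros b l) (fun f' => F ((l'.filter k).map f')) f`
for all `f : Strand → Lab N`. Induction on `b`: `l = l₁ ++ s :: s' :: l₂`, `l₁` of length `c.1`; if both
`s, s'` are selected the crossing is at the position `(l₁.filter k).length = l₁.countP k`, and
`opX` is applied to `(x', y') ↦ F(… x', y' …)` where `x'` is the label of `s'` (now on the left) and `y'` the
label of `s`; this is the definition of `cro`. If not both are selected `(swp c.1 l).filter k = l.filter k`.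
(2) The maxima: `opW (replicate m (pN 0)) (· = []) l = ∏ capw` over the pairs of neighbours of `l`, `l` of
length `2m`. `T` has the length of `B` (a permutation). (3) The minima: by induction,
`opW [pU 0, pU 2, …] F [] = ∑_{x_1…x_m} ∏ cupw (x_t) (bar x_t) F [x_1, bar x_1, x_2, …]`, and
`cupw x y = 0` unless `y = bar x`, so it is the sum over all labels of the `2m` strands. The list
`B.map (extL B x)` is `List.ofFn x` (`B` has no duplicates). -/
def St_B1 : Prop :=
  ∀ (A : Type) [CommRing A] (q : Aˣ) (N n : ℕ) [NeZero N] (G : Diagram n) (K : ℕ → ℕ → Bool),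
    Even (G.bottom.filter fun s => K s.1 s.2.1).length →
    val (N := N) q (G.link K) [] =
      ∑ x : Fin (G.bottom.filter fun s => K s.1 s.2.1).length → Lab N,
        cupP q (G.bottom.filter fun s => K s.1 s.2.1)
            (extL (G.bottom.filter fun s => K s.1 s.2.1) x) *
          crosOp q (fun s => K s.1 s.2.1) G.X
            (capP q ((maxrow G.maxs).filter fun s => K s.1 s.2.1))
            (extL (G.bottom.filter fun s => K s.1 s.2.1) x)

/-- **B2** (1.5 h). `theorem thm_B2 : St_B2`. Expansion of the product of the crossing operators.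
Proof. `cro q a b p Φ f = Φ f + ∑_{u', w'} kap p (f a) u' (f b) w' Φ(f[a ↦ u', b ↦ w'])`
(`opX` is linear in `F`: expand `F` in the functions `if x = w' ∧ y = u'`). For matrices
`F : Strand → Matrix` let `Φ_F(f) = ∑_y (∏_i F (B_i) (f B_i) (y i)) Φ(extL B y)`. Then
`cro Φ_F = Φ_F + ∑_{u,u',w,w'} kap p u u' w w' Φ_{F'}`, `F' a = E_{uu'} * F a`, `F' b = E_{ww'} * F b`,
`F' s = F s` otherwise. Induction on `X` (the head is the lowest crossing, so its matrix is the first
factor of the product `mt`); `Fin (X.length + 1) → Ter N` is `Ter N × (Fin X.length → Ter N)`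
(`Fin.consEquiv`, `List.finRange_succ`). For `X = []`: `mt = 1`, `Φ_1(f) = Φ(f)` on `f = extL B x`
(`Φ` evaluated at `extL B y`, `y = x`). Functions `f` of the form `extL B x` are stable under the
updates at `a, b ∈ B`. Crossings which are not selected contribute only `none`. -/
def St_B2 : Prop :=
  ∀ (A : Type) [CommRing A] (q : Aˣ) (N : ℕ) [NeZero N] (K : Strand → Bool) (B : List Strand)
    (X : List Cro), B.Nodup → (∀ c ∈ X, K c.a → K c.b → c.a ∈ B ∧ c.b ∈ B ∧ c.a ≠ c.b) →
    ∀ (Φ : (Strand → Lab N) → A) (x : Fin B.length → Lab N),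
      crosOp q K X Φ (extL B x) =
        ∑ r : Fin X.length → Ter N,
          if ∀ i, r i ≠ none → K (X.get i).a ∧ K (X.get i).b then
            (∏ i, cfT q (X.get i) (r i)) *
              ∑ y : Fin B.length → Lab N, (∏ i, mt X r (B.get i) (x i) (y i)) * Φ (extL B y)
          else 0

/-- **B3** (2.5 h). `theorem thm_B3 : St_B3`. Closing up: the sum over all labels is a trace.
Proof. `k s = edge c s.1 s.2.1`, `B = G.bottom.filter k`, `T = (maxrow G.maxs).filter k`. The strands in
`B` are those of the edges of the cycle; every strand `s` has two ends: the lower one with the label `x s`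
and the upper one with the label `y s`. The strand contributes `F s (x s) (y s)`. The pairs of
neighbours in `T` are `((i,j,2t), (i,j,2t+1))`, `t ≤ r i j` (`maxs_mem`; `maxrow` and `filter`); the pairs of
neighbours in `B` are, for the minima, `((i,j,2t+1), (i,j,2t+2))`, `t < r i j`, and for every vertex
`v` of the cycle with neighbours `u < w` in the cycle (its row contains exactly the strands of the edges
`vu` and `vw`, in the order of `u, w`): (strand of `vu` at `v`, strand of `vw` at `v`); the strand of
`ij` (`i < j`) at `i` is `(i,j,0)`, at `j` it is `(i,j,2 r i j + 1)`. So all the ends are arranged in one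
cyclic sequence along the cycle, and the product of all factors is the product of the matrix entries
`F s`, `cM`, `(F s)ᵀ`, `uM`, … (transposed if they are passed in the other direction) along this cyclic
sequence, which is exactly the product in `loopM`. The sum over all labels of the ends is the trace of the
product of the matrices: general lemma `∑_{z : Fin m → ι} ∏_i M_i (z i) (z (i+1)) = trace (M_0 ⋯ M_{m-1})`
(`z` cyclic), and reindexing of the labels `(x, y)` by the positions in the cyclic sequence (a
permutation of the pairs (strand, end); products over a list may be permuted). -/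
def St_B3 : Prop :=
  ∀ (A : Type) [CommRing A] (q : Aˣ) (N n : ℕ) [NeZero N] (G : Diagram n) (c : List ℕ),
    IsCycle n c → ∀ F : Strand → Matrix (Lab N) (Lab N) A,
    Even (G.bottom.filter fun s => edge c s.1 s.2.1).length ∧
    (∑ x : Fin (G.bottom.filter fun s => edge c s.1 s.2.1).length → Lab N,
      ∑ y : Fin (G.bottom.filter fun s => edge c s.1 s.2.1).length → Lab N,
        cupP q (G.bottom.filter fun s => edge c s.1 s.2.1)
            (extL (G.bottom.filter fun s => edge c s.1 s.2.1) x) *
          (∏ i, F ((G.bottom.filter fun s => edge c s.1 s.2.1).get i) (x i) (y i)) *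
          capP q ((maxrow G.maxs).filter fun s => edge c s.1 s.2.1)
            (extL (G.bottom.filter fun s => edge c s.1 s.2.1) y)) =
      Matrix.trace (loopM q F G.r c)

/-- **Bead** (0.7 h). `theorem thm_Bead : St_B1 → St_B2 → St_B3 → St_Bead`. The value of the diagram of a
cycle as a sum over the choices of terms. Proof: insert `B2` in `B1`, interchange the sums, `B3`. The
crossings selected by `K` are between strands of `B`, and `c.a ≠ c.b` (`G.bottom` has no duplicates and the
lists in `cros` are permutations of it). -/
def St_Bead : Prop :=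
  ∀ (A : Type) [CommRing A] (q : Aˣ) (N n : ℕ) [NeZero N] (G : Diagram n) (c : List ℕ),
    IsCycle n c →
    val (N := N) q (G.knot c) [] =
      ∑ r : Fin G.X.length → Ter N,
        if ∀ i, r i ≠ none → edge c (G.X.get i).a.1 (G.X.get i).a.2.1 ∧
            edge c (G.X.get i).b.1 (G.X.get i).b.2.1 then
          (∏ i, cfT q (G.X.get i) (r i)) * Matrix.trace (loopM q (mt G.X r) G.r c)
        else 0

/-! ## 2. The family of cycles -/

/-- the block of the slot `s`; the blocks are paired by the matching
`{(0,3),(1,8),(2,5),(4,7),(6,9)}` -/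
def blk : Fin 10 → ℕ := ![0, 1, 2, 0, 3, 2, 4, 3, 1, 4]

/-- type of the slot: first or second loop of the block -/
def dty : Fin 10 → Bool := ![false, false, false, true, false, true, false, true, true, true]

/-- first vertex of the slot -/
def sS (s : Fin 10) : ℕ := 8 * blk s + if dty s then 2 else 0

/-- middle vertex of the slot, for the two alternatives -/
def mS (s : Fin 10) (b : Bool) : ℕ :=
  8 * blk s + if dty s then (if b then 6 else 4) else (if b then 3 else 1)

/-- last vertex of the slot -/
def eS (s : Fin 10) : ℕ := 8 * blk s + if dty s then 7 else 5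

/-- the cycle with the alternatives `ε` -/
def cyc (v : ℕ → ℕ) (ε : Finset (Fin 10)) : List ℕ :=
  (List.finRange 10).flatMap fun s => [v (sS s), v (mS s (decide (s ∈ ε))), v (eS s)]

/-- `v` is a choice of 40 vertices, in increasing order -/
def Inc (n : ℕ) (v : ℕ → ℕ) : Prop := (∀ i j, i < j → j < 40 → v i < v j) ∧ ∀ i, i < 40 → v i < n

/-- the value of the knot of the cycle `cyc v ε` for `q = 1 + X` -/
noncomputable def VN {n : ℕ} (G : Diagram n) (N : ℕ) (v : ℕ → ℕ) (ε : Finset (Fin 10)) :
    PowerSeries ℚ := val (N := N) uX (G.knot (cyc v ε)) []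

/-- alternating sum (Moebius transform) -/
def mob {R : Type} [CommRing R] (f : Finset (Fin 10) → R) (A : Finset (Fin 10)) : R :=
  ∑ ε ∈ A.powerset, (-1) ^ (A \ ε).card * f ε

/-- the strand `s` belongs to the alternative `b` of the slot `i` -/
def inSl (v : ℕ → ℕ) (s : Strand) (i : Fin 10) (b : Bool) : Prop :=
  (s.1 = v (sS i) ∧ s.2.1 = v (mS i b)) ∨ (s.1 = v (mS i b) ∧ s.2.1 = v (eS i))

/-- the crossing `c` touches the slot `i` -/
def tch (v : ℕ → ℕ) (c : Cro) (i : Fin 10) : Prop := ∃ b, inSl v c.a i b ∨ inSl v c.b i b

/-- both strands of the crossing belong to the cycle `cyc v ε` -/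
def alw (v : ℕ → ℕ) (ε : Finset (Fin 10)) (c : Cro) : Prop :=
  edge (cyc v ε) c.a.1 c.a.2.1 ∧ edge (cyc v ε) c.b.1 c.b.2.1

open Classical in
/-- the sum of the terms of `Bead` with the crossings `T` -/
noncomputable def vT {n : ℕ} (G : Diagram n) (N : ℕ) (v : ℕ → ℕ) (T : Finset (Fin G.X.length))
    (ε : Finset (Fin 10)) : PowerSeries ℚ :=
  ∑ r : Fin G.X.length → Ter N,
    if (∀ i, r i ≠ none ↔ i ∈ T) ∧ ∀ i ∈ T, alw v ε (G.X.get i) then
      (∏ i, cfT uX (G.X.get i) (r i)) * Matrix.trace (loopM uX (mt G.X r) G.r (cyc v ε))
    else 0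

/-- the labels below and above of a strand with direction `d` (`true` = up) whose labels in the
direction of the cycle are `α`, `α'` -/
def raw {N : ℕ} (d : Bool) (α α' : Lab N) : Lab N × Lab N := if d then (α, α') else (bar α', bar α)

/-- direction of a strand along its edge `i → j`, `i < j` (`true` = up) -/
def up (s : Strand) : Bool := s.2.2 % 2 = 0

/-- coefficient of `X` in the kernel of the crossing `c`; the labels before and after the crossing in
the direction of the cycle are `α, α'` for the strand `c.a` and `β, β'` for `c.b` -/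
noncomputable def k1 {N : ℕ} (c : Cro) (α α' β β' : Lab N) : ℚ :=
  PowerSeries.coeff 1 (kap uX c.p (raw (up c.a) α α').1 (raw (up c.a) α α').2
    (raw (up c.b) β β').1 (raw (up c.b) β β').2)

/-- **Kap** (1 h). `theorem thm_Kap : St_Kap`. The kernel for `q = 1 + X`. Verified numerically for
`N ≤ 3`. Proof: directly from the definition of `opX` modulo `X²`: `q^m = 1 + mX + …`,
`zz q = 2X + …`. With `s = (p = (u.1 == w.1))` (positive crossing), the coefficient of `X` is
`±(-N [u=u', w=w'] + [u=u', w=w', u.2=w.2] + 2 smo⁰)` where `smo⁰` is the smoothed part at `q = 1`: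
for parallel labels `[u' = w, w' = u]` and `lo …`, for antiparallel labels `u.2 = w.2`,
`u' = (u.1, k)`, `w' = (w.1, k)` and `lo …`. Translate with `raw` (cases of `d, e, θ, p`). Note that
`raw` of the labels `α α' β β'` with orientation `θ` has the orientation `θ` for an upward strand and
`!θ` for a downward strand. -/
def St_Kap : Prop :=
  ∀ (N : ℕ) [NeZero N],
    (∀ (p : Bool) (u u' w w' : Lab N),
      PowerSeries.coeff 0 (kap uX p u u' w w' : PowerSeries ℚ) = 0 ∧
      ((u.1 ≠ u'.1 ∨ w.1 ≠ w'.1) → (kap uX p u u' w w' : PowerSeries ℚ) = 0)) ∧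
    ∀ (p d e θ : Bool) (i i' j j' : Fin N),
      PowerSeries.coeff 1 (kap uX p (raw d (θ, i) (θ, i')).1 (raw d (θ, i) (θ, i')).2
        (raw e (θ, j) (θ, j')).1 (raw e (θ, j) (θ, j')).2 : PowerSeries ℚ) =
      (if p = (d == e) then 1 else -1) * (-(N : ℚ) * (if i = i' ∧ j = j' then 1 else 0) +
        (if i = i' ∧ j = j' ∧ i = j then 1 else 0) +
        2 * (if i' = j ∧ j' = i ∧ (if p = θ then i < i' else i' < i) then 1 else 0))

/-- **Slo** (1.2 h). `theorem thm_Slo : St_Slo`. The cycle in terms of the slots.
Proof. (1) `cyc v ε` has length `30`, no duplicates (`v` is injective on `0..39`; the 30 numbers are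
different: `decide` over the slots and alternatives, e.g. the vertices of a slot are in the block `blk s`, and
two slots in the same block have different types). (2) the edges of the cycle. (3) In `loopM` collect
the three consecutive factors of a slot; `sS s < mS s b < eS s`; the comparison of `v (mS s b)` with
`v (sS (s+1))` is the comparison of the blocks, as `blk s ≠ blk (s+1)`, so it equals the
comparison of `v (sS s)` with `v (sS (s+1))`; similarly for `v (eS s)` and `v (mS (s+1) b)`. -/
def St_Slo : Prop :=
  ∀ (n : ℕ) (v : ℕ → ℕ), Inc n v → ∀ ε : Finset (Fin 10),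
    IsCycle n (cyc v ε) ∧
    (∀ i j : ℕ, i < j → (edge (cyc v ε) i j = true ↔
      (∃ s : Fin 10, (i = v (sS s) ∧ j = v (mS s (decide (s ∈ ε)))) ∨
        (i = v (mS s (decide (s ∈ ε))) ∧ j = v (eS s))) ∨
      ∃ s : Fin 10, (i = v (eS s) ∧ j = v (sS (s + 1))) ∨ (j = v (eS s) ∧ i = v (sS (s + 1))))) ∧
    ∀ (A : Type) [CommRing A] (q : Aˣ) (N : ℕ) (F : Strand → Matrix (Lab N) (Lab N) A)
      (rr : ℕ → ℕ → ℕ),
      loopM q F rr (cyc v ε) = ((List.finRange 10).map fun s =>
        (fwd q F rr (v (sS s)) (v (mS s (decide (s ∈ ε)))) * uM q *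
          fwd q F rr (v (mS s (decide (s ∈ ε)))) (v (eS s))) *
        (vrt q (v (sS s)) (v (sS (s + 1))) * edgM q F rr (v (eS s)) (v (sS (s + 1))) *
          vrt q (v (eS s)) (v (eS (s + 1))))).prod

/-- **VT** (1.5 h). `theorem thm_VT : St_Bead → St_Kap → St_Slo → St_VT`. The parts `vT`.
Proof. (0) group the terms of `Bead` by `T = {i | r i ≠ none}`. (1) each `cfT` with `r i ≠ none` is
divisible by `X` (`Kap`). (2) If no crossing in `T` touches the slot `s`: the condition `alw` for the
crossings in `T` is the same for `ε` and `insert s ε` (`Slo` (2): a strand which is on one of the two cycles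
and not on the other belongs to the slot `s`; the edges of different slots and alternatives and the
connecting edges are different); and the traces are equal: in the slot `s` all matrices `mt` of the
strands are `1`, `cM * uM = 1 = uM * cM` (zigzag), so `fwd = cM` for the four edges and the factor
`fwd * uM * fwd` is `cM` for both alternatives; all other factors in `Slo` (3) are equal. -/
def St_VT : Prop :=
  ∀ (N n : ℕ) [NeZero N] (G : Diagram n) (v : ℕ → ℕ), Inc n v →
    (∀ ε, VN G N v ε = ∑ T : Finset (Fin G.X.length), vT G N v T ε) ∧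
    (∀ (T : Finset (Fin G.X.length)) (ε : Finset (Fin 10)) (j : ℕ), j < T.card →
      PowerSeries.coeff j (vT G N v T ε) = 0) ∧
    ∀ (T : Finset (Fin G.X.length)) (ε : Finset (Fin 10)) (s : Fin 10),
      (∀ i ∈ T, ¬ tch v (G.X.get i) s) → s ∉ ε → vT G N v T (insert s ε) = vT G N v T ε

open Classical in
/-- the first order term of the crossing `c` for the labels `D` of the cycle (`D i` before the slot
`i`, `D (i+1)` after it) -/
noncomputable def kD {N : ℕ} (v : ℕ → ℕ) (c : Cro) (D : Fin 10 → Lab N) : ℚ :=
  ∑ i : Fin 10, ∑ j : Fin 10,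
    if (∃ b, inSl v c.a i b) ∧ ∃ b, inSl v c.b j b then
      k1 c (D i) (D (i + 1)) (D j) (D (j + 1)) else 0

open Classical in
/-- **VD** (2.5 h). `theorem thm_VD : St_Kap → St_Slo → St_VD`. The leading coefficient of `vT`, if the
crossings in `T` touch `2|T|` slots.
Proof. `T` has `k` crossings and touches `2k` slots, each crossing touches at most two slots; so each
crossing touches exactly two slots, the strands `a` and `b` belong to different slots, and every slot
`i ∈ A` contains exactly one strand `s_i` of the crossings in `T` (one crossing); the other slots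
contain none (as `T` touches exactly the `2k` slots), and no strand of `T` is on a connecting
edge. If `alw` fails the sum is `0`. Otherwise the coefficient of `X^k` is
`∑_r ∏_{x ∈ T} (coeff 1 of the kernel) * (constant coefficient of the trace)` (the product of `k` multiples
of `X`). Constant coefficients: `cM` and `uM` become `J`, `J_{xy} = [y = bar x]`, `J² = 1`, `Jᵀ = J`
(`PowerSeries.constantCoeff` mapped over the matrices). Untouched edges: `fwd = J`, `edgM = J`,
`vrt = J`. So in `Slo` (3) the factor of an untouched slot is `J J J · J J J = 1`; for a slot `i ∈ A` with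
the strand `s_i = (·, ·, t)` and the matrix `E_{uu'}` (`mt` is a product with one factor `≠ 1`): if `t` is even the
factor is `E_{uu'}`; if `t` is odd it is `J E_{uu'}ᵀ J = E_{bar u', bar u}`. In both cases it is
`E_{αα'}` with `(u, u') = raw (up s_i) α α'`. The trace of the product of these matrices (in the order of the
slots) is `∑_D ∏_{i ∈ A} [D i = α_i, D (i+1) = α'_i] ∏_{i ∉ A} [D (i+1) = D i]`. Summation over `r` (for
given `D` exactly one `r` contributes) gives the claim. -/
def St_VD : Prop :=
  ∀ (N n : ℕ) [NeZero N] (G : Diagram n) (v : ℕ → ℕ), Inc n v →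
    ∀ (A ε : Finset (Fin 10)) (T : Finset (Fin G.X.length)), A.card = 2 * T.card →
      (∀ s ∈ A, ∃ i ∈ T, tch v (G.X.get i) s) →
      PowerSeries.coeff T.card (vT G N v T ε) =
        if ∀ i ∈ T, alw v ε (G.X.get i) then
          ∑ D : Fin 10 → Lab N,
            if ∀ i, i ∉ A → D (i + 1) = D i then ∏ i ∈ T, kD v (G.X.get i) D else 0
        else 0

/-- perfect matchings of `A` -/
def PM (A : Finset (Fin 10)) : Finset (Finset (Fin 10 × Fin 10)) :=
  ((A ×ˢ A).filter fun e => e.1 < e.2).powerset.filter fun M =>
    ∀ a ∈ A, (M.filter fun e => e.1 = a ∨ e.2 = a).card = 1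

open Classical in
/-- the first order terms of the crossing `c` if `c.a` is in the slot `i` and `c.b` in the slot `j`,
with the sign of the alternatives -/
noncomputable def hx {N : ℕ} (v : ℕ → ℕ) (c : Cro) (i j : Fin 10) (D : Fin 10 → Lab N) : ℚ :=
  ∑ b : Bool, ∑ b' : Bool, if inSl v c.a i b ∧ inSl v c.b j b' then
    (if b = b' then 1 else -1) * k1 c (D i) (D (i + 1)) (D j) (D (j + 1)) else 0

/-- the sum of the first order terms of the crossings between the slots `e.1` and `e.2` -/
noncomputable def GG {n : ℕ} (G : Diagram n) {N : ℕ} (v : ℕ → ℕ) (e : Fin 10 × Fin 10)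
    (D : Fin 10 → Lab N) : ℚ :=
  (G.X.map fun c => hx v c e.1 e.2 D + hx v c e.2 e.1 D).sum

/-- **Red** (2.5 h). `theorem thm_Red : St_Slo → St_VT → St_VD → St_Red`. The alternating sum is a sum over
perfect matchings.
Proof. `mob V A = ∑_T ∑_{ε ⊆ A} (-1)^|A \ ε| vT T ε`. (a) If `T` does not touch the slot `s ∈ A` the terms of
`ε` and `insert s ε` cancel (`VT` (2)). (b) If `T` touches all slots of `A` then `|A| ≤ 2|T|`, and the
coefficients of `X^j`, `j < |T|`, vanish (`VT` (1)). This gives (1), and for `|A| = 2k` in the coefficient
of `X^k` only the `T` with `|T| = k` which touch all slots of `A` remain. For these use `VD`. Such a `T` has in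
every slot `i ∈ A` exactly one strand, in the alternative `b_i` (an edge belongs to only one slot and
alternative; `v` is injective); by `Slo` (2) the condition `alw` holds for all crossings of `T` iff
`b_i = decide (i ∈ ε)` for all `i ∈ A`: exactly one `ε ⊆ A`. The sign `(-1)^|A \ ε|` is the product
over the crossings of `T` of `(-1)^([b_i = false] + [b_j = false])`, `= 1` if `b_i = b_j`, else `-1`. So the
sum is `∑_D ∑_T ∏_{x ∈ T} g_x(D)`, `g_x = hx v x i j D` for the slots `i ∋ a`, `j ∋ b` of `x`. (c) The `T`
correspond to the pairs (perfect matching `M` of `A`, choice of a crossing between the two slots for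
every `e ∈ M`): `∑_T ∏_{x ∈ T} g_x = ∑_{M ∈ PM A} ∏_{e ∈ M} ∑_{x between e.1 and e.2} g_x`
(`Finset.prod_sum` / `Finset.prod_univ_sum`), and the inner sum is `GG e D` (`hx = 0` if the crossing is
not of this kind; a crossing can not have `a` in the slot `e.1`, `b` in `e.2` and the other way
around). -/
def St_Red : Prop :=
  ∀ (N n : ℕ) [NeZero N] (G : Diagram n) (v : ℕ → ℕ), Inc n v →
    (∀ (A : Finset (Fin 10)) (j : ℕ), 2 * j < A.card →
      PowerSeries.coeff j (mob (VN G N v) A) = 0) ∧
    ∀ (A : Finset (Fin 10)) (k : ℕ), A.card = 2 * k →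
      PowerSeries.coeff k (mob (VN G N v) A) =
        ∑ D : Fin 10 → Lab N, if ∀ i, i ∉ A → D (i + 1) = D i then
          ∑ M ∈ PM A, ∏ e ∈ M, GG G v e D else 0

/-! ## 3. Crossing numbers and linking numbers -/

/-- sign of a crossing, if the strands are directed along their edges `i → j`, `i < j` -/
def sgn (c : Cro) : ℤ := if c.p = (up c.a == up c.b) then 1 else -1

/-- the number, with signs, of the crossings of the edge `e` over the edge `f` -/
def ov {n : ℕ} (G : Diagram n) (e f : ℕ × ℕ) : ℤ :=
  (G.X.map fun c =>
    if ((if c.p then c.a else c.b).1, (if c.p then c.a else c.b).2.1) = e ∧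
        ((if c.p then c.b else c.a).1, (if c.p then c.b else c.a).2.1) = f then sgn c else 0).sum

/-- the edges of the alternative `b` of the slot `i` -/
def pE (v : ℕ → ℕ) (i : Fin 10) (b : Bool) : List (ℕ × ℕ) :=
  [(v (sS i), v (mS i b)), (v (mS i b), v (eS i))]

/-- the linking number of the loops of the slots `i` and `j` -/
def LL {n : ℕ} (G : Diagram n) (v : ℕ → ℕ) (i j : Fin 10) : ℤ :=
  ∑ b : Bool, ∑ b' : Bool, (if b = b' then 1 else -1) *
    ((pE v i b).map fun e => ((pE v j b').map fun f => ov G e f).sum).sum

/-- the chord -/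
def tt (N : ℕ) (α α' β β' : Fin N) : ℤ :=
  2 * ((if α' = β ∧ β' = α then 1 else 0) - (N : ℤ) * (if α = α' ∧ β = β' then 1 else 0))

/-- the weight of the matching `M` of `A` -/
def WW (N : ℕ) (A : Finset (Fin 10)) (M : Finset (Fin 10 × Fin 10)) : ℤ :=
  ∑ D : Fin 10 → Fin N, if ∀ i, i ∉ A → D (i + 1) = D i then
    ∏ e ∈ M, tt N (D e.1) (D (e.1 + 1)) (D e.2) (D (e.2 + 1)) else 0

/-- the linking numbers are symmetric -/
def St_LSy : Prop :=
  ∀ (n : ℕ) (G : Diagram n) (v : ℕ → ℕ), Inc n v → ∀ i j : Fin 10, i ≠ j → LL G v i j = LL G v j i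

/-- **GGe** (1.2 h). `theorem thm_GGe : St_Kap → St_LSy → St_GGe`. The sum over the crossings between two slots.
Proof. (1) `Kap`: the kernel preserves the orientations (`raw` of labels with different orientations has
different orientations), so `k1 = 0`. (2) For a crossing `c` with `c.a` in the slot `i` (alternative `b`),
`c.b` in the slot `j` (alternative `b'`): by `Kap` with `d = up c.a`, `e = up c.b`:
`k1 = sgn c * ρ` where `ρ = -N [id] + [id, α = β] + 2 [α' = β, β' = α, (c.p = θ ? α < α' : α' < α)]`. If
`c.p = true` (`c.a` over, so slot `i` over) the last condition is `α < α'` for `θ = true`; if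
`c.p = false` (slot `j` over) it is `α' < α`, i.e. `β < β'`. The same for crossings with `c.a` in the slot `j`:
so `ρ = ρ_i` if slot `i` is over and `ρ_j` if slot `j` is over, with
`ρ_i = -N [id] + [id, α = β] + 2 [exchange, (θ ? α < α' : α' < α)]`,
`ρ_j = … 2 [exchange, (θ ? β < β' : β' < β)]`. The sum over all crossings with the signs of the
alternatives is `LL i j ρ_i + LL j i ρ_j` (`inSl` means that the edge of the strand is in `pE`; the two
edges in `pE v i b` are different), and `ρ_i + ρ_j = 2 ([exchange] - N [id])` (exchange with `α = α'` is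
`α = α' = β = β'`). -/
def St_GGe : Prop :=
  ∀ (N n : ℕ) [NeZero N] (G : Diagram n) (v : ℕ → ℕ), Inc n v → ∀ (i j : Fin 10), i ≠ j →
    ∀ D : Fin 10 → Lab N,
      (((D i).1 ≠ (D (i + 1)).1 ∨ (D j).1 ≠ (D (j + 1)).1) → GG G v (i, j) D = 0) ∧
      ∀ θ : Bool, (D i).1 = θ → (D (i + 1)).1 = θ → (D j).1 = θ → (D (j + 1)).1 = θ →
        GG G v (i, j) D =
          (LL G v i j : ℚ) * tt N (D i).2 (D (i + 1)).2 (D j).2 (D (j + 1)).2

/-- **Lead** (1 h). `theorem thm_Lead : St_Red → St_GGe → St_Lead`. Proof: in `Red` a non-zero term has
`D (i+1)` and `D i` of the same orientation for all `i` (for `i ∈ A` by `GGe`, as `i` belongs to an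
`e ∈ M`; otherwise `D (i+1) = D i`), so all orientations are equal to some `θ`; sum over `θ` (factor 2)
and over the colours. -/
def St_Lead : Prop :=
  ∀ (N n : ℕ) [NeZero N] (G : Diagram n) (v : ℕ → ℕ), Inc n v →
    (∀ (A : Finset (Fin 10)) (j : ℕ), 2 * j < A.card →
      PowerSeries.coeff j (mob (VN G N v) A) = 0) ∧
    ∀ (A : Finset (Fin 10)) (k : ℕ), A.card = 2 * k →
      PowerSeries.coeff k (mob (VN G N v) A) =
        2 * ∑ M ∈ PM A, (∏ e ∈ M, (LL G v e.1 e.2 : ℚ)) * WW N A M

/-- **One** (0.6 h). `theorem thm_One : St_VT → St_VD → St_One`. The constant coefficient is `2N`. Proof: only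
`T = ∅` contributes (`VT` (1)); `VD` with `A = ∅`, `T = ∅`: the number of constant functions
`D : Fin 10 → Lab N`. -/
def St_One : Prop :=
  ∀ (N n : ℕ) [NeZero N] (G : Diagram n) (v : ℕ → ℕ), Inc n v → ∀ ε : Finset (Fin 10),
    PowerSeries.coeff 0 (VN G N v ε) = 2 * (N : ℚ)

end IBN
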