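import Pool.Agent.IBN.StC

/-!
# IBN: statements of the modules, part D (Ramsey, arithmetic, main theorem)

Every module `IBN/<Name>.lean` proves `theorem IBN.thm_<Name>` with the type given in its docstring
(other modules are hypotheses; keep exactly this type). Import only the `St*.lean` file which
contains the statement; standard axioms. GOAL (MP_c07f6b_gt): for some `n` every spatial embedding of
the complete graph `K_n` contains a knot of bridge number at least `3`.
-/

set_option autoImplicit false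

namespace IBN

/-- the matching used in the definition of the slots -/
def PP : Finset (Fin 10 × Fin 10) := {(0, 3), (1, 8), (2, 5), (4, 7), (6, 9)}

/-- **Ant** (2 h). `theorem thm_Ant : St_Ant`. Crossings of `e` over `f` and of `f` over `e`.
Proof. Let `g s = 1` if `up s`, else `-1`. For a crossing `c` with `c.a` in `e`, `c.b` in `f` (strands of the
edges): if `c.p` it counts `sgn c = g(c.a) g(c.b)` in `ov e f`; if not it counts
`sgn c = - g(c.a) g(c.b)` in `ov f e`. So in both cases its contribution to `ov e f - ov f e` is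
`g(c.a) g(c.b)`; for `c.a` in `f`, `c.b` in `e` it is `- g(c.a) g(c.b)`. For a list `l` of strands without
duplicates let `Σ(l) = ∑ g s g s'` over the strands `s` of `e`, `s'` of `f` in `l` with `s` to the left of
`s'`. A crossing between neighbours `s, s'` changes `Σ(l)` exactly by minus its contribution. So
`ov e f - ov f e = Σ(G.bottom) - Σ(maxrow G.maxs)` (induction on the braid word). In
`maxrow` the strands come in pairs of neighbours of the same edge with opposite `g`, so
`Σ(maxrow) = 0`; in `G.bottom` the pairs of the minima cancel too (the strands at the minima have numbers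
`2t+1`, `2t+2`; they are all to the right of the strands of the vertices, so their contributions with the
strands of the vertices cancel as well), and the strands at the vertices are `(i,j,0)` at `i` (`g = 1`),
`(i,j,2r+1)` at `j` (`g = -1`), and the same for `k, l`; the four vertices are different, ordered by
their numbers: `Σ = [i<k] - [i<l] - [j<k] + [j<l] = [k<j<l] - [k<i<l]`. -/
def St_Ant : Prop :=
  ∀ (n : ℕ) (G : Diagram n) (i j k l : ℕ), i < j → j < n → k < l → l < n → i ≠ k → i ≠ l →
    j ≠ k → j ≠ l → ov G (i, j) (k, l) - ov G (k, l) (i, j) =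
      (if k < j ∧ j < l then 1 else 0) - (if k < i ∧ i < l then 1 else 0)

/-- **LSy** (0.8 h). `theorem thm_LSy : St_Ant → St_LSy`. Linking numbers of disjoint loops are symmetric.
Proof: sum `Ant` over the `16` pairs of edges of the two slots (they have no common vertices: different
blocks, or the same block and then the loops are `{0,1,3,5}`, `{2,4,6,7}`) with the signs; for a fixed edge
`(k,l)` of the second slot, `χ(x) = [k < x < l]`: the sum over the edges `(i,j)` of
`± (χ(j) - χ(i))` is `(χ(end) - χ(start)) - (χ(end) - χ(start)) = 0`. -/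
abbrev St_LSy' : Prop := St_LSy

/-- **Ram** (1 h). `theorem thm_Ram : St_Ram`. Finite Ramsey theorem for `4`-subsets, `40` points. Proof: the
infinite Ramsey theorem is in `Pool/Agent/Helper18/EH/Ramsey.lean` (`Pool.Agent.Helper18.EH.ramsey`, you may
import it; see also `ecr_ramsey` in `Pool/Agent/TPY/ECR.lean`); compactness: if there is a bad `c_n`
for every `n`, take the limit `c` along an ultrafilter (`Filter.hyperfilter ℕ`; finitely many
colours), an infinite homogeneous set for `c`, its first 40 elements: for almost all `n` the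
colouring `c_n` agrees with `c` on their `4`-subsets. -/
def St_Ram : Prop :=
  ∀ (C : Type) [Finite C], ∃ n : ℕ, ∀ c : ℕ → ℕ → ℕ → ℕ → C, ∃ v : ℕ → ℕ, Inc n v ∧ ∃ κ : C,
    ∀ i j k l : ℕ, i < j → j < k → k < l → l < 40 → c (v i) (v j) (v k) (v l) = κ

/-- **Lk** (1.2 h). `theorem thm_Lk : St_Ant → St_Ram → St_Lk`. Proof. `Ram` for the colouring
`(i,j,k,l) ↦ (ov (i,j) (k,l), ov (i,l) (j,k), ov (i,k) (j,l))` modulo `16`: constants
`o₁, o₂, o₃ ∈ ZMod 16`. By `Ant`, modulo `16`: for disjoint edges `e, f`: separated: `ov e f = o₁` (both orders);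
nested: `o₂` (both orders); interleaved: `o₃` if `e` has the first vertex, `o₃ - 1` if `f` has it.
Slots in different blocks: all `16` pairs of edges are separated, the signs cancel: `LL = 0` modulo
`16`. Slots of the same block, `i` with the loop `0,1,5,3` and `j` with the loop `2,4,7,6` (these are
the pairs in `PP`, `i < j`): `b = b' = false`: edges `01, 15` with `24, 47`: `2 o₁ + o₂ + o₃`;
`b = false, b' = true`: `01, 15` with `26, 67`: `3 o₁ + o₃`; `b = true, b' = false`: `03, 35` with `24, 47`: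
`o₁ + 3 o₃ - 1`; `b = b' = true`: `03, 35` with `26, 67`: `2 o₁ + o₂ + o₃`. So
`LL = 2 o₂ - 2 o₃ + 1` modulo `16`: odd. -/
def St_Lk : Prop :=
  ∃ n : ℕ, ∀ G : Diagram n, ∃ v : ℕ → ℕ, Inc n v ∧ ∀ i j : Fin 10, i < j →
    if (i, j) ∈ PP then Odd (LL G v i j) else (16 : ℤ) ∣ LL G v i j

/-- the end points of the pairs in `M` -/
def vs (M : Finset (Fin 10 × Fin 10)) : Finset (Fin 10) := M.biUnion fun e => {e.1, e.2}

/-- **Wev** (1.5 h). `theorem thm_Wev : St_Wev`. Values of the weights. Proof: (4) `tt` is even. (1)-(3) finite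
computations: e.g. `tt = 2 ([exchange] - N [identity])`; expand the product over `M`:
`WW N A M = 2^k ∑_{S ⊆ M} (-N)^(k - |S|) #{D | …}`, the number of `D : Fin 10 → Fin N` satisfying the
equations `D (i+1) = D i` (`i ∉ A` or `i` in a pair not in `S`) and `D (i+1) = D j`,
`D (j+1) = D i` (`(i,j) ∈ S`) is `N` to the number of classes. Or sum over the `D i` one after
the other (transfer matrices), or `decide +kernel` after rewriting the sum as a recursive
function. The values have been computed: for (3) the pairs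
`{(0,3),(1,8)}`, `{(0,3),(2,5)}`, `{(1,8),(6,9)}`, `{(2,5),(4,7)}`, `{(4,7),(6,9)}` give `-24 * 96` each, the
others `0`. -/
def St_Wev : Prop :=
  WW 2 Finset.univ PP = 0 ∧ WW 3 Finset.univ PP = -11520 ∧
  (∑ M ∈ PP.powersetCard 2, WW 2 (vs M) M * WW 2 (vs (PP \ M)) (PP \ M)) = -11520 ∧
  ∀ (N : ℕ) (A : Finset (Fin 10)) (M : Finset (Fin 10 × Fin 10)),
    (2 : ℤ) ^ M.card ∣ WW N A M

/-- **Ari** (2.5 h). `theorem thm_Ari : St_Wev → St_Ari`. The contradiction modulo `128`.
Proof. (1) `2 [N]` (`qn uX N`) has constant coefficient `2N` (a unit), so with its inverse `s`: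
`mob p A = s * mob f A`; the coefficient of `X^k` of `mob p A` is `0` for `2k < |A|` and
`(2N)⁻¹` times that of `mob f A` for `|A| = 2k`. (2) `mob (f g) univ = ∑_{A ∪ B = univ} mob f A mob g B`
(inversion: `f ε = ∑_{A ⊆ ε} mob f A`). Let `a_k(ε)`, `b_k(ε)` be the coefficients of `p₂ ε`, `p₃ ε`. In
`mob (EE …) univ` only the terms of total degree `5` remain (`|univ| = 10`; for products:
`mob a_2 A = 0` for `|A| > 4`, `mob a_3 B = 0` for `|B| > 6`):
`3/40 mob a_5 univ - 1/120 mob b_5 univ - 1/72 ∑_{|A| = 4} mob a_2 A * mob a_3 Aᶜ`. (3) With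
`S_N(A) = ∑_{M ∈ PM A} (∏ L) WW N A M`: `mob a_5 univ = S_2/2`, `mob b_5 univ = S_3/3`,
`mob a_2 A = S_2(A)/2`, `mob a_3 Aᶜ = S_2(Aᶜ)/2`. So
`1080 mob EE univ = 81/2 S_2(univ) - 3 S_3(univ) - 15/4 ∑_A S_2(A) S_2(Aᶜ)`. With
`WW N A M = 2^|M| w`: the coefficients are the integers `1296 w`, `-96 w`, `-120 w w'`, all divisible by
`8`. A perfect matching `≠ PP` (or a pair `M, M'` of perfect matchings of `A`, `Aᶜ` with
`M ∪ M' ≠ PP`) contains a pair not in `PP`, whose `L` is divisible by `16`: `0` modulo `128`. If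
`M ∪ M' = PP` then `M ⊆ PP`, `|M| = 2`, `A = vs M`. So modulo `128` the result is
`(0 + 3 * 11520 + 15/4 * 11520) ∏_{PP} L = 77760 * odd = 64 * odd`. But `EE = 16 n` gives
`1080 * 16 * n' = 128 * 135 * n'`. -/
def St_Ari : Prop :=
  ∀ (f₂ f₃ p₂ p₃ : Finset (Fin 10) → PowerSeries ℚ) (L : Fin 10 → Fin 10 → ℤ),
    (∀ ε, f₂ ε = 2 * qn uX 2 * p₂ ε) → (∀ ε, f₃ ε = 2 * qn uX 3 * p₃ ε) →
    (∀ ε, ∃ n : ℤ, EE (fun k => PowerSeries.coeff k (p₂ ε)) (fun k => PowerSeries.coeff k (p₃ ε)) =
      16 * (n : ℚ)) →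
    (∀ (A : Finset (Fin 10)) (j : ℕ), 2 * j < A.card → PowerSeries.coeff j (mob f₂ A) = 0) →
    (∀ (A : Finset (Fin 10)) (j : ℕ), 2 * j < A.card → PowerSeries.coeff j (mob f₃ A) = 0) →
    (∀ (A : Finset (Fin 10)) (k : ℕ), A.card = 2 * k → PowerSeries.coeff k (mob f₂ A) =
      2 * ∑ M ∈ PM A, (∏ e ∈ M, (L e.1 e.2 : ℚ)) * WW 2 A M) →
    (∀ (A : Finset (Fin 10)) (k : ℕ), A.card = 2 * k → PowerSeries.coeff k (mob f₃ A) =
      2 * ∑ M ∈ PM A, (∏ e ∈ M, (L e.1 e.2 : ℚ)) * WW 3 A M) →
    (∀ i j : Fin 10, i < j → if (i, j) ∈ PP then Odd (L i j) else (16 : ℤ) ∣ L i j) → False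

/-- **OkK** (1 h). `theorem thm_OkK : St_OkK`. The diagrams of cycles are closed words; isotopy preserves this.
Proof. (1) Minima: `Ok (pU 0 :: pU 2 :: …) 0 (2m)`. Crossings: `Ok (sub k b l) (l.countP k) (l.countP k)` if the
positions are possible (the position is `(l.take i).countP k`, and both strands are selected).
Maxima: `Ok (replicate m (pN 0)) (2m) 0`. The number of selected strands is even: every edge has `2 r + 2`
strands, all in `G.bottom` (for the cycle: two strands at every vertex of the cycle and two at every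
minimum). `Ok (u ++ v) n m ↔ ∃ k, Ok u n k ∧ Ok v k m`. (2) `Step`: replace `Ok a k l` by `Ok b k l`. -/
def St_OkK : Prop :=
  (∀ (n : ℕ) (G : Diagram n) (c : List ℕ), IsCycle n c → Ok (G.knot c) 0 0) ∧
  ∀ w w' : Word, Iso 0 w w' → Ok w 0 0 → Ok w' 0 0

/-- **TwoP** (0.8 h). `theorem thm_TwoP : St_TwoB → St_Nat' → St_TwoP` (`St_Nat'` below is `St_Nat` of
`StA.lean` written out). Proof: `TwoB` for the fraction field of `ℚ⟦X⟧` (`FractionRing`; injective) and
naturality of `val`, `qn`, `pol`, `zz`; the third case: apply the constant coefficient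
`ℚ⟦X⟧ → ℚ` (it maps `uX` to `1`). -/
def St_TwoP : Prop :=
  ∀ w : Word, Ok w 0 0 → maxima w ≤ 2 →
    w = [] ∨
    (∃ g : List Ltr, ∀ N : ℕ, (N = 2 ∨ N = 3) →
      val (N := N) uX w [] = 2 * qn uX N * pol (uX ^ (-(N : ℤ))) (zz uX ^ 2) g) ∨
    ∀ N : ℕ, (N = 2 ∨ N = 3) → PowerSeries.coeff 0 (val (N := N) uX w []) = (2 * (N : ℚ)) ^ 2

/-- `St_Nat` of `StA.lean` -/
def St_Nat' : Prop :=
  ∀ (A B : Type) [CommRing A] [CommRing B] (f : A →+* B) (q : Aˣ) (N : ℕ) (w : Word)
    (F : List (Lab N) → A) (l : List (Lab N)),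
    f (opW q w F l) = opW (Units.map (f : A →* B) q) w (fun l => f (F l)) l

/-- `St_InvP` of `StA.lean` -/
def St_InvP' : Prop :=
  ∀ (A : Type) [CommRing A] [IsDomain A] (q : Aˣ) (N : ℕ), (N = 2 ∨ N = 3) → ∀ (w w' : Word),
    Iso 0 w w' → val (A := A) (N := N) q w [] = val (N := N) q w' []

/-- **Main** (1 h). `theorem thm_Main : St_InvP' → St_TwoP → St_EN → St_OkK → St_Slo → St_Lead → St_One →
St_Lk → St_Ari → St_Main`. The main theorem.
Proof. `n` from `Lk`. Suppose every cycle `c` has a word `w` isotopic to `G.knot c` with at most two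
maxima. `v` from `Lk`. For every `ε` let `w_ε` be such a word for `cyc v ε` (`Slo` (1): it is a cycle);
`Ok w_ε 0 0` (`OkK`); `VN G N v ε = val uX w_ε []` (`InvP'`), with constant coefficient `2N` (`One`).
`TwoP`: `w_ε = []` would give `1 = 2N`, the third case `2N = (2N)²`; so there is `g_ε` with
`VN G N v ε = 2 [N] pol g_ε`, `N = 2, 3`. `p_N ε = pol …`; `EN`; `Lead` for `N = 2, 3`; `Ari` with
`L = LL G v`. -/
def St_Main : Prop :=
  ∃ n : ℕ, ∀ G : Diagram n, ∃ c : List ℕ, IsCycle n c ∧
    ∀ w : Word, Iso 0 (G.knot c) w → 3 ≤ maxima w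

end IBN
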