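import Pool.Agent.IBN.StD

/-!
# IBN, TwoP: closed words with at most two maxima, power series version
-/

set_option autoImplicit false

namespace IBN

section

variable {A B : Type} [CommRing A] [CommRing B] (f : A →+* B)

private theorem TwoP_val (hN : St_Nat') (q : Aˣ) (N : ℕ) (w : Word) :
    f (val (N := N) q w []) = val (N := N) (Units.map (f : A →* B) q) w [] := by
  unfold val
  rw [hN A B f q N w]
  have h : (fun l : List (Lab N) => f (if l = [] then (1 : A) else 0)) =
      fun l => if l = [] then (1 : B) else 0 := by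
    funext l
    by_cases hl : l = []
    · rw [if_pos hl, if_pos hl, map_one]
    · rw [if_neg hl, if_neg hl, map_zero]
  rw [h]

private theorem TwoP_zpow (q : Aˣ) (k : ℤ) :
    f ((q ^ k : Aˣ) : A) = (((Units.map (f : A →* B) q) ^ k : Bˣ) : B) := by
  rw [← map_zpow]
  rfl

private theorem TwoP_qn (q : Aˣ) (N : ℕ) :
    f (qn q N) = qn (Units.map (f : A →* B) q) N := by
  unfold qn
  rw [map_sum]
  exact Finset.sum_congr rfl fun i _ => TwoP_zpow f q _

private theorem TwoP_zz (q : Aˣ) : f (zz q) = zz (Units.map (f : A →* B) q) := by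
  unfold zz
  rw [map_sub]
  rfl

private theorem TwoP_co (a : Aˣ) : f ((a : Aˣ) : A) = ((Units.map (f : A →* B) a : Bˣ) : B) :=
  rfl

private theorem TwoP_sta (a : Aˣ) (Z : A) (g : List Ltr) :
    (f (sta a Z g).1, f (sta a Z g).2) = sta (Units.map (f : A →* B) a) (f Z) g := by
  induction g with
  | nil =>
    show (f 0, f 1) = ((0 : B), (1 : B))
    rw [map_zero, map_one]
  | cons l g ih =>
    have h1 : sta a Z (l :: g) = stp a Z l (sta a Z g) := rfl
    have h2 : sta (Units.map (f : A →* B) a) (f Z) (l :: g) =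
      stp (Units.map (f : A →* B) a) (f Z) l (sta (Units.map (f : A →* B) a) (f Z) g) := rfl
    rw [h1, h2, ← ih]
    obtain ⟨b, c⟩ := l
    cases b <;> cases c <;>
      simp only [stp, map_add, map_sub, map_mul, map_pow, map_inv, TwoP_co]

private theorem TwoP_pol (a : Aˣ) (Z : A) (g : List Ltr) :
    f (pol a Z g) = pol (Units.map (f : A →* B) a) (f Z) g := by
  have h := TwoP_sta f a Z g
  unfold pol
  rw [← h, map_add, map_mul, map_sub]
  rfl

end

theorem thm_TwoP : St_TwoB → St_Nat' → St_TwoP := by
  intro hB hN w hw hm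
  rcases hB w hw hm with h | ⟨g, hg⟩ | h
  · exact Or.inl h
  · refine Or.inr (Or.inl ⟨g, fun N hNN => ?_⟩)
    have hinj : Function.Injective
        (algebraMap (PowerSeries ℚ) (FractionRing (PowerSeries ℚ))) :=
      IsFractionRing.injective (PowerSeries ℚ) (FractionRing (PowerSeries ℚ))
    apply hinj
    rw [TwoP_val (algebraMap (PowerSeries ℚ) (FractionRing (PowerSeries ℚ))) hN,
      hg (FractionRing (PowerSeries ℚ)) _ N hNN, map_mul, map_mul, TwoP_qn, TwoP_pol, map_pow,
      TwoP_zz, map_zpow]
    congr 2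
    exact (map_ofNat _ 2).symm
  · refine Or.inr (Or.inr fun N hNN => ?_)
    have h1 : Units.map ((PowerSeries.constantCoeff (R := ℚ)) : PowerSeries ℚ →* ℚ) uX = 1 := by
      apply Units.ext
      show PowerSeries.constantCoeff (R := ℚ) (1 + PowerSeries.X) = 1
      rw [map_add, map_one, PowerSeries.constantCoeff_X, add_zero]
    rw [PowerSeries.coeff_zero_eq_constantCoeff_apply,
      TwoP_val (PowerSeries.constantCoeff (R := ℚ)) hN, h1]
    exact h ℚ N hNN

end IBN
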